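import Pool.Agent.Lib.MP_e63071_gt.Proper

/-!
# The twisted surface group acting on `G/H`
-/

set_option autoImplicit false

namespace Pool.Agent.Lib.MP_e63071_gt

open Matrix

lemma sum_chi (g : Gam) : ∑ i, chi g i = 0 := by
  rw [Fin.sum_univ_three]; exact chi_sum g

/-- the twisted embedding -/
noncomputable def iota : Gam →* GG where
  toFun g := mkG (emb g) (chi g) (sum_chi g) 0
  map_one' := by
    rw [← mkG_one]
    exact mkG_congr (map_one _) (funext fun j => chi_one j) rfl
  map_mul' g h := by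
    rw [mkG_mul]
    refine mkG_congr (map_mul _ _ _) (funext fun j => ?_) (by simp)
    rw [chi_mul, sub_zero]

lemma iota_apply (g : Gam) : iota g = mkG (emb g) (chi g) (sum_chi g) 0 := rfl

lemma iota_injective : Function.Injective iota := by
  intro g h hgh
  apply emb_injective
  have := congrArg pA hgh
  rwa [iota_apply, iota_apply, pA_mkG, pA_mkG] at this

/-- the group `Γ` -/
noncomputable def Gm : Subgroup GG := iota.range

lemma Gm_torsionfree (g : GG) (hg : g ∈ Gm) (n : ℕ) (hn : 0 < n) (h : g ^ n = 1) : g = 1 := by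
  obtain ⟨γ, rfl⟩ := hg
  rw [← map_pow] at h
  have h2 : γ ^ n = 1 := iota_injective (by rw [h, map_one])
  rw [Gam_torsionfree γ hn h2, map_one]

lemma Phi_iota (g : Gam) (x : GH) :
    Phi (iota g • x) = ((Phi x).1, emb g * (Phi x).2 * boost (- chi g (Phi x).1)) := by
  rw [iota_apply, Phi_smul, zero_add]

/-- the second coordinate is bounded on compact sets -/
lemma exists_bound {K : Set GH} (hK : IsCompact K) :
    ∃ M, 1 ≤ M ∧ ∀ x ∈ K, mt (Phi x).2 2 2 ≤ M := by
  have h1 : IsCompact ((fun x : GH => mt (Phi x).2 2 2) '' K) :=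
    hK.image (continuous_22.comp (continuous_snd.comp continuous_Phi))
  obtain ⟨M, hM⟩ := h1.bddAbove
  exact ⟨max 1 M, le_max_left _ _, fun x hx => (hM ⟨x, hx, rfl⟩).trans (le_max_right _ _)⟩

instance Gm_pd : ProperlyDiscontinuousSMul Gm GH where
  finite_disjoint_inter_image := by
    intro K L hK hL
    obtain ⟨M1, h1, hM1⟩ := exists_bound hK
    obtain ⟨M2, h2, hM2⟩ := exists_bound hL
    obtain ⟨C, hC⟩ := bound_of_rel (max M1 M2) (h1.trans (le_max_left _ _))
    have hfin := (finite_le C).image iota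
    refine Set.Finite.subset (hfin.preimage (f := fun γ : Gm => (γ : GG))
      Subtype.val_injective.injOn) ?_
    rintro γ hγ
    obtain ⟨y, ⟨x, hx, hxy⟩, hy⟩ := hγ
    obtain ⟨g, hg⟩ := γ.2
    have e0 : (γ • x : GH) = iota g • x := by
      rw [hg]; rfl
    refine ⟨g, ?_, hg⟩
    have e1 : Phi y = ((Phi x).1, emb g * (Phi x).2 * boost (- chi g (Phi x).1)) := by
      rw [← hxy]
      show Phi (γ • x) = _
      rw [e0, Phi_iota]
    have e2 : emb g * (Phi x).2 * boost (- chi g (Phi x).1) = (Phi y).2 := by rw [e1]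
    exact hC g _ _ _ ((hM1 x hx).trans (le_max_left _ _)) ((hM2 y hy).trans (le_max_right _ _)) e2

/-- a compact set meeting every orbit -/
lemma exists_compact_cover : ∃ K : Set GH, IsCompact K ∧ ∀ x : GH, ∃ γ : Gm, γ • x ∈ K := by
  obtain ⟨C, hC⟩ := cocompact_coord
  refine ⟨Psi '' (Set.univ ×ˢ {g : G1 | mt g 2 2 ≤ C}),
    ((isCompact_univ.prod (isCompact_le C)).image continuous_Psi), ?_⟩
  intro x
  obtain ⟨g, hg⟩ := hC (Phi x).1 (Phi x).2
  refine ⟨⟨iota g, ⟨g, rfl⟩⟩, Phi (iota g • x), ⟨Set.mem_univ _, ?_⟩, Psi_Phi _⟩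
  rw [Phi_iota]
  exact hg

lemma Gm_compact : CompactSpace (MulAction.orbitRel.Quotient Gm GH) := by
  obtain ⟨K, hK, hcov⟩ := exists_compact_cover
  have h1 : IsCompact ((Quotient.mk (MulAction.orbitRel Gm GH)) '' K) :=
    hK.image continuous_quotient_mk'
  have h2 : (Quotient.mk (MulAction.orbitRel Gm GH)) '' K = Set.univ := by
    rw [Set.eq_univ_iff_forall]
    intro q
    induction q using Quotient.inductionOn with
    | h x =>
      obtain ⟨γ, hγ⟩ := hcov x
      refine ⟨γ • x, hγ, ?_⟩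
      apply Quotient.sound
      exact ⟨γ, rfl⟩
  rw [h2] at h1
  exact ⟨h1⟩

end Pool.Agent.Lib.MP_e63071_gt
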