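import Mathlib

/-!
# The lattice `ℤ³` with the form `4 |v|² - 3 (v₀ + v₁ + v₂)²`

Integer part of the counterexample: walls, the crossing cocycle, torsion.
-/

set_option autoImplicit false

namespace Pool.Agent.Lib.MP_e63071_gt

open Matrix

/-- integer vectors -/
abbrev Z3 : Type := Fin 3 → ℤ

def S (v : Z3) : ℤ := v 0 + v 1 + v 2

def B (v w : Z3) : ℤ := 4 * (v 0 * w 0 + v 1 * w 1 + v 2 * w 2) - 3 * (S v * S w)

def rho : Z3 := ![1, 1, 1]

def act (g : GL (Fin 3) ℤ) (v : Z3) : Z3 := (g : Matrix (Fin 3) (Fin 3) ℤ) *ᵥ v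

lemma act_mul (g h : GL (Fin 3) ℤ) (v : Z3) : act (g * h) v = act g (act h v) := by
  simp [act, Matrix.mulVec_mulVec]

lemma act_one (v : Z3) : act 1 v = v := by simp [act]

lemma act_inv_act (g : GL (Fin 3) ℤ) (v : Z3) : act g⁻¹ (act g v) = v := by
  rw [← act_mul]; simp [act_one]

lemma act_act_inv (g : GL (Fin 3) ℤ) (v : Z3) : act g (act g⁻¹ v) = v := by
  rw [← act_mul]; simp [act_one]

lemma act_add (g : GL (Fin 3) ℤ) (v w : Z3) : act g (v + w) = act g v + act g w := by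
  simp [act, Matrix.mulVec_add]

lemma act_neg (g : GL (Fin 3) ℤ) (v : Z3) : act g (-v) = - act g v := by
  simp [act, Matrix.mulVec_neg]

lemma act_smul (g : GL (Fin 3) ℤ) (c : ℤ) (v : Z3) : act g (c • v) = c • act g v :=
  Matrix.mulVec_smul _ _ _

lemma S_neg (v : Z3) : S (-v) = - S v := by simp [S]; ring
lemma S_add (v w : Z3) : S (v + w) = S v + S w := by simp [S]; ring
lemma S_smul (c : ℤ) (v : Z3) : S (c • v) = c * S v := by simp [S]; ring

lemma B_comm (v w : Z3) : B v w = B w v := by unfold B; ring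
lemma B_neg_right (v w : Z3) : B v (-w) = - B v w := by simp [B, S]; ring
lemma B_neg_left (v w : Z3) : B (-v) w = - B v w := by simp [B, S]; ring

lemma B_rho (v : Z3) : B rho v = - 5 * S v := by
  simp [B, S, rho]; ring

/-- Lorentzian Cauchy-Schwarz: time-like vectors on the same sheet. -/
lemma B_neg_of_timelike {x y : Z3} (hx : B x x < 0) (hy : B y y < 0) (sx : 0 < S x)
    (sy : 0 < S y) : B x y < 0 := by
  have hx' : 4 * (x 0 ^ 2 + x 1 ^ 2 + x 2 ^ 2) < 3 * S x ^ 2 := by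
    unfold B at hx; nlinarith
  have hy' : 4 * (y 0 ^ 2 + y 1 ^ 2 + y 2 ^ 2) < 3 * S y ^ 2 := by
    unfold B at hy; nlinarith
  set p := x 0 * y 0 + x 1 * y 1 + x 2 * y 2 with hp
  have cs : p ^ 2 ≤ (x 0 ^ 2 + x 1 ^ 2 + x 2 ^ 2) * (y 0 ^ 2 + y 1 ^ 2 + y 2 ^ 2) := by
    nlinarith [sq_nonneg (x 0 * y 1 - x 1 * y 0), sq_nonneg (x 0 * y 2 - x 2 * y 0),
      sq_nonneg (x 1 * y 2 - x 2 * y 1)]
  have h1 : (4 * p) ^ 2 < (3 * (S x * S y)) ^ 2 := by
    have hX : 0 ≤ x 0 ^ 2 + x 1 ^ 2 + x 2 ^ 2 := by positivity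
    have hY : 0 ≤ y 0 ^ 2 + y 1 ^ 2 + y 2 ^ 2 := by positivity
    have : (4 * (x 0 ^ 2 + x 1 ^ 2 + x 2 ^ 2)) * (4 * (y 0 ^ 2 + y 1 ^ 2 + y 2 ^ 2))
        < (3 * S x ^ 2) * (3 * S y ^ 2) := by
      apply mul_lt_mul'' hx' hy' <;> positivity
    nlinarith
  have h2 : 0 ≤ 3 * (S x * S y) := by positivity
  have h3 := abs_lt_of_sq_lt_sq h1 h2
  have h4 := (abs_lt.1 h3).2
  show 4 * p - 3 * (S x * S y) < 0
  linarith

/-- The group of automorphisms of the lattice preserving the sheet, the residues of the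
coordinates mod 3 being zero, and (up to a global sign) the sum of coordinates mod 4. -/
structure Good (g : GL (Fin 3) ℤ) : Prop where
  form : ∀ v w, B (act g v) (act g w) = B v w
  sheet : 0 < S (act g rho)
  typ : ∀ v i, (3 : ℤ) ∣ act g v i ↔ (3 : ℤ) ∣ v i
  sgn : (∀ v, (4 : ℤ) ∣ S (act g v) - S v) ∨ (∀ v, (4 : ℤ) ∣ S (act g v) + S v)

lemma Good.form_inv {g : GL (Fin 3) ℤ} (hg : Good g) (v w : Z3) :
    B (act g⁻¹ v) (act g⁻¹ w) = B v w := by
  rw [← hg.form, act_act_inv, act_act_inv]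

lemma Good.B_inv {g : GL (Fin 3) ℤ} (hg : Good g) (v w : Z3) :
    B (act g⁻¹ v) w = B v (act g w) := by
  rw [← hg.form, act_act_inv]

lemma B_rho_rho : B rho rho = -15 := by simp [B, S, rho]

/-- The congruence group `W` (with determinant `±1` and both signs). -/
def W : Subgroup (GL (Fin 3) ℤ) where
  carrier := {g | Good g}
  one_mem' := ⟨by simp [act_one], by simp [act_one, S, rho], by simp [act_one],
    Or.inl (by simp [act_one])⟩
  inv_mem' := by
    intro g hg
    refine ⟨hg.form_inv, ?_, ?_, ?_⟩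
    · have h1 : B (act g⁻¹ rho) rho = B rho (act g rho) := hg.B_inv _ _
      rw [B_comm, B_rho, B_rho] at h1
      have := hg.sheet
      linarith
    · intro v i
      rw [← hg.typ, act_act_inv]
    · rcases hg.sgn with h | h
      · left
        intro v
        obtain ⟨a, ha⟩ := h (act g⁻¹ v)
        rw [act_act_inv] at ha
        exact ⟨-a, by linarith⟩
      · right
        intro v
        obtain ⟨a, ha⟩ := h (act g⁻¹ v)
        rw [act_act_inv] at ha
        exact ⟨a, by linarith⟩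
  mul_mem' := by
    intro g h hg hh
    refine ⟨?_, ?_, ?_, ?_⟩
    · intro v w; rw [act_mul, act_mul, hg.form, hh.form]
    · have h1 : B rho (act (g * h) rho) = B (act g⁻¹ rho) (act h rho) := by
        rw [act_mul, hg.B_inv]
      have h2 : B (act g⁻¹ rho) (act h rho) < 0 := by
        apply B_neg_of_timelike
        · rw [hg.form_inv, B_rho_rho]; norm_num
        · rw [hh.form, B_rho_rho]; norm_num
        · have h1 : B (act g⁻¹ rho) rho = B rho (act g rho) := hg.B_inv _ _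
          rw [B_comm, B_rho, B_rho] at h1
          have := hg.sheet
          linarith
        · exact hh.sheet
      rw [← h1, B_rho] at h2
      linarith
    · intro v i; rw [act_mul, hg.typ, hh.typ]
    · rcases hg.sgn with h1 | h1 <;> rcases hh.sgn with h2 | h2
      · left; intro v; rw [act_mul]
        obtain ⟨a, ha⟩ := h1 (act h v)
        obtain ⟨b, hb⟩ := h2 v
        exact ⟨a + b, by linarith⟩
      · right; intro v; rw [act_mul]
        obtain ⟨a, ha⟩ := h1 (act h v)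
        obtain ⟨b, hb⟩ := h2 v
        exact ⟨a + b, by linarith⟩
      · right; intro v; rw [act_mul]
        obtain ⟨a, ha⟩ := h1 (act h v)
        obtain ⟨b, hb⟩ := h2 v
        exact ⟨a - b, by linarith⟩
      · left; intro v; rw [act_mul]
        obtain ⟨a, ha⟩ := h1 (act h v)
        obtain ⟨b, hb⟩ := h2 v
        exact ⟨a - b, by linarith⟩

lemma mem_W {g : GL (Fin 3) ℤ} : g ∈ W ↔ Good g := Iff.rfl

/-! ### walls -/

/-- walls: integer vectors of norm one -/
def V : Set Z3 := {u | B u u = 1}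

lemma V_sq {u : Z3} (hu : u ∈ V) : 4 * (u 0 ^ 2 + u 1 ^ 2 + u 2 ^ 2) = 1 + 3 * S u ^ 2 := by
  have : B u u = 1 := hu
  unfold B at this; linarith

lemma neg_mem_V {u : Z3} (hu : u ∈ V) : -u ∈ V := by
  have : B u u = 1 := hu
  show B (-u) (-u) = 1
  rw [B_neg_left, B_neg_right, this]; norm_num

lemma V_odd {u : Z3} (hu : u ∈ V) : S u % 2 = 1 := by
  have h := V_sq hu
  rcases Int.even_or_odd (S u) with ⟨k, hk⟩ | ⟨k, hk⟩
  · exfalso
    rw [hk] at h
    have : 4 * (u 0 ^ 2 + u 1 ^ 2 + u 2 ^ 2) = 1 + 12 * k ^ 2 := by rw [h]; ring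
    omega
  · rw [hk]; omega

lemma V_S_ne {u : Z3} (hu : u ∈ V) : S u ≠ 0 := by
  have := V_odd hu
  omega

lemma act_mem_V {g : GL (Fin 3) ℤ} (hg : Good g) {u : Z3} : act g u ∈ V ↔ u ∈ V := by
  show B _ _ = 1 ↔ B _ _ = 1
  rw [hg.form]

/-- anisotropy of the form -/
lemma aniso_aux (n : ℕ) : ∀ v : Z3, B v v = 0 → (v 0).natAbs + (v 1).natAbs + (v 2).natAbs ≤ n →
    v = 0 := by
  induction n using Nat.strong_induction_on with
  | _ n ih =>
    intro v hv hn
    have hv' : 4 * (v 0 ^ 2 + v 1 ^ 2 + v 2 ^ 2) = 3 * S v ^ 2 := by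
      unfold B at hv; linarith
    have hS : S v % 2 = 0 := by
      rcases Int.even_or_odd (S v) with ⟨k, hk⟩ | ⟨k, hk⟩
      · omega
      · exfalso
        rw [hk] at hv'
        have : 4 * (v 0 ^ 2 + v 1 ^ 2 + v 2 ^ 2) = 12 * (k ^ 2 + k) + 3 := by rw [hv']; ring
        omega
    obtain ⟨T, hT⟩ : ∃ T, S v = 2 * T := ⟨S v / 2, by omega⟩
    have h3 : v 0 ^ 2 + v 1 ^ 2 + v 2 ^ 2 = 3 * T ^ 2 := by
      rw [hT] at hv'; nlinarith
    have hsum : v 0 + v 1 + v 2 = 2 * T := hT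
    -- parities
    have sq4 : ∀ a : ℤ, (a % 2 = 0 ∧ a ^ 2 % 4 = 0) ∨ (a % 2 = 1 ∧ a ^ 2 % 8 = 1) := by
      intro a
      rcases Int.even_or_odd a with ⟨k, hk⟩ | ⟨k, hk⟩
      · left
        refine ⟨by omega, ?_⟩
        have : a ^ 2 = 4 * k ^ 2 := by rw [hk]; ring
        omega
      · right
        refine ⟨by omega, ?_⟩
        have h1 : a ^ 2 = 4 * (k * (k + 1)) + 1 := by rw [hk]; ring
        have h2 : (k * (k + 1)) % 2 = 0 := Int.even_iff.1 (Int.even_mul_succ_self k)
        omega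
    have a0 := sq4 (v 0)
    have a1 := sq4 (v 1)
    have a2 := sq4 (v 2)
    have aT := sq4 T
    have key : v 0 % 2 = 0 ∧ v 1 % 2 = 0 ∧ v 2 % 2 = 0 := by
      omega
    obtain ⟨k0, k1, k2⟩ := key
    by_cases hz : v = 0
    · exact hz
    let w : Z3 := ![v 0 / 2, v 1 / 2, v 2 / 2]
    have hw0 : v 0 = 2 * w 0 := by simp [w]; omega
    have hw1 : v 1 = 2 * w 1 := by simp [w]; omega
    have hw2 : v 2 = 2 * w 2 := by simp [w]; omega
    have hBw : B w w = 0 := by
      unfold B S at hv ⊢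
      rw [hw0, hw1, hw2] at hv
      linarith
    have hne : (v 0).natAbs + (v 1).natAbs + (v 2).natAbs ≠ 0 := by
      intro h0
      apply hz
      ext i
      fin_cases i
      · show v 0 = 0
        omega
      · show v 1 = 0
        omega
      · show v 2 = 0
        omega
    have hlt : (w 0).natAbs + (w 1).natAbs + (w 2).natAbs < n := by
      omega
    have hw := ih _ hlt w hBw le_rfl
    exfalso
    apply hz
    ext i
    fin_cases i
    · show v 0 = 0
      rw [hw0, hw]; simp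
    · show v 1 = 0
      rw [hw1, hw]; simp
    · show v 2 = 0
      rw [hw2, hw]; simp

lemma aniso {v : Z3} (hv : B v v = 0) : v = 0 := aniso_aux _ v hv le_rfl

lemma V_B_odd {u w : Z3} (hu : u ∈ V) (hw : w ∈ V) : B u w % 2 = 1 := by
  obtain ⟨a, ha⟩ : ∃ a, S u = 2 * a + 1 := ⟨S u / 2, by have := V_odd hu; omega⟩
  obtain ⟨b, hb⟩ : ∃ b, S w = 2 * b + 1 := ⟨S w / 2, by have := V_odd hw; omega⟩
  have : B u w = 2 * (2 * (u 0 * w 0 + u 1 * w 1 + u 2 * w 2) - 3 * (2 * a * b + a + b) - 2) + 1 := by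
    unfold B; rw [ha, hb]; ring
  omega

/-- two different walls are at hyperbolic distance at least `arcosh 3` -/
lemma V_sep {u w : Z3} (hu : u ∈ V) (hw : w ∈ V) (h : |B u w| < 3) : u = w ∨ u = -w := by
  have h1 := V_B_odd hu hw
  have h2 := abs_lt.1 h
  have hu1 : B u u = 1 := hu
  have hw1 : B w w = 1 := hw
  have h3 : B u w = 1 ∨ B u w = -1 := by omega
  rcases h3 with h3 | h3
  · left
    have : B (u - w) (u - w) = 0 := by
      have : B (u - w) (u - w) = B u u + B w w - 2 * B u w := by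
        simp [B, S]; ring
      rw [this, hu1, hw1, h3]; norm_num
    exact sub_eq_zero.1 (aniso this)
  · right
    have : B (u + w) (u + w) = 0 := by
      have : B (u + w) (u + w) = B u u + B w w + 2 * B u w := by
        simp [B, S]; ring
      rw [this, hu1, hw1, h3]; norm_num
    exact eq_neg_of_add_eq_zero_left (aniso this)

end Pool.Agent.Lib.MP_e63071_gt
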