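import Pool.Agent.Lib.MP_e63071_gt.Refl

/-!
# The arithmetic surface group and exclusion of half-turns
-/

set_option autoImplicit false

namespace Pool.Agent.Lib.MP_e63071_gt

open Matrix

/-- The arithmetic surface group. -/
def Gam : Subgroup (GL (Fin 3) ℤ) where
  carrier := {g | Good g ∧ HasSgn g 1 ∧ (g : Matrix (Fin 3) (Fin 3) ℤ).det = 1 ∧
    ∀ v i, (2 : ℤ) ∣ act g v i - v i}
  one_mem' := ⟨W.one_mem, by intro v; simp [act_one], by simp, by intro v i; simp [act_one]⟩
  inv_mem' := by
    rintro g ⟨h1, h2, h3, h4⟩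
    refine ⟨W.inv_mem h1, h2.inv (Or.inl rfl), ?_, ?_⟩
    · have : (g : Matrix (Fin 3) (Fin 3) ℤ) * ((g⁻¹ : GL (Fin 3) ℤ) : Matrix (Fin 3) (Fin 3) ℤ)
          = 1 := by
        rw [← Units.val_mul, mul_inv_cancel, Units.val_one]
      have h5 := congrArg Matrix.det this
      rw [Matrix.det_mul, h3, one_mul, Matrix.det_one] at h5
      exact h5
    · intro v i
      have := h4 (act g⁻¹ v) i
      rw [act_act_inv] at this
      omega
  mul_mem' := by
    rintro g h ⟨g1, g2, g3, g4⟩ ⟨h1, h2, h3, h4⟩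
    refine ⟨W.mul_mem g1 h1, ?_, ?_, ?_⟩
    · intro v
      rw [act_mul]
      have := g2 (act h v)
      have := h2 v
      omega
    · rw [Units.val_mul, Matrix.det_mul, g3, h3, one_mul]
    · intro v i
      rw [act_mul]
      have := g4 (act h v) i
      have := h4 v i
      omega

lemma mem_Gam {g : GL (Fin 3) ℤ} : g ∈ Gam ↔ Good g ∧ HasSgn g 1 ∧
    (g : Matrix (Fin 3) (Fin 3) ℤ).det = 1 ∧ ∀ v i, (2 : ℤ) ∣ act g v i - v i := Iff.rfl

lemma act_sub (g : GL (Fin 3) ℤ) (v w : Z3) : act g (v - w) = act g v - act g w := by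
  simp [act, Matrix.mulVec_sub]

lemma decomp (v : Z3) : v = v 0 • e 0 + v 1 • e 1 + v 2 • e 2 := by
  funext i; fin_cases i <;> simp [e]

lemma eq_one_of_act {g : GL (Fin 3) ℤ} (h : ∀ v, act g v = v) : g = 1 := by
  apply Units.ext
  apply Matrix.ext_of_mulVec_single
  intro i
  have := h (Pi.single i 1)
  unfold act at this
  rw [this, Units.val_one, Matrix.one_mulVec]

/-- final arithmetic contradiction -/
lemma halfturn_arith (w0 w1 w2 f0 f1 f2 q : ℤ) (hq : q = 4 * (w0 ^ 2 + w1 ^ 2 + w2 ^ 2) -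
      3 * (w0 + w1 + w2) ^ 2) (hneg : q < 0)
    (e0 : 4 * w0 - 3 * (w0 + w1 + w2) = f0 * q) (e1 : 4 * w1 - 3 * (w0 + w1 + w2) = f1 * q)
    (e2 : 4 * w2 - 3 * (w0 + w1 + w2) = f2 * q)
    (o0 : (f0 * (w0 + w1 + w2)) % 2 = 1) (o1 : (f1 * (w0 + w1 + w2)) % 2 = 1)
    (o2 : (f2 * (w0 + w1 + w2)) % 2 = 1)
    (h1 : w0 * f0 + w1 * f1 + w2 * f2 = 1) : False := by
  set t := w0 + w1 + w2 with ht
  have ot : t % 2 = 1 := by
    rcases Int.emod_two_eq_zero_or_one t with h | h
    · exfalso; have := Int.mul_emod f0 t 2; rw [h] at this; simp at this; omega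
    · exact h
  have odd_of : ∀ f : ℤ, (f * t) % 2 = 1 → f % 2 = 1 := by
    intro f hf
    rcases Int.emod_two_eq_zero_or_one f with h | h
    · exfalso; have := Int.mul_emod f t 2; rw [h] at this; simp at this; omega
    · exact h
  obtain ⟨k0, hk0⟩ : ∃ k, f0 = 2 * k + 1 := ⟨f0 / 2, by have := odd_of f0 o0; omega⟩
  obtain ⟨k1, hk1⟩ : ∃ k, f1 = 2 * k + 1 := ⟨f1 / 2, by have := odd_of f1 o1; omega⟩
  obtain ⟨k2, hk2⟩ : ∃ k, f2 = 2 * k + 1 := ⟨f2 / 2, by have := odd_of f2 o2; omega⟩
  obtain ⟨kt, hkt⟩ : ∃ k, t = 2 * k + 1 := ⟨t / 2, by omega⟩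
  -- q ≡ 1 mod 4
  have q4 : q % 4 = 1 := by
    have : q = 4 * (w0 ^ 2 + w1 ^ 2 + w2 ^ 2 - 3 * (kt ^ 2 + kt) - 1) + 1 := by
      rw [hq, hkt]; ring
    omega
  -- q * (5 |f|² - 3 φ²) = 20
  have key : q * (5 * (f0 ^ 2 + f1 ^ 2 + f2 ^ 2) - 3 * (f0 + f1 + f2) ^ 2) = 20 := by
    have s1 : - 5 * t = (f0 + f1 + f2) * q := by
      rw [add_mul, add_mul, ← e0, ← e1, ← e2]; ring
    have s2 : 4 = q * (f0 ^ 2 + f1 ^ 2 + f2 ^ 2) + 3 * t * (f0 + f1 + f2) := by
      have : 4 * (w0 * f0 + w1 * f1 + w2 * f2) = 4 := by rw [h1]; norm_num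
      linear_combination (-1 : ℤ) * this + f0 * e0 + f1 * e1 + f2 * e2
    linear_combination (-5 : ℤ) * s2 + 3 * (f0 + f1 + f2) * s1
  have h5 : ∃ m, 5 * (f0 ^ 2 + f1 ^ 2 + f2 ^ 2) - 3 * (f0 + f1 + f2) ^ 2 = 4 * m := by
    refine ⟨5 * (k0 ^ 2 + k0 + k1 ^ 2 + k1 + k2 ^ 2 + k2) - 3 * (k0 + k1 + k2 + 1) * (k0 + k1 + k2 + 2)
      + 3, ?_⟩
    rw [hk0, hk1, hk2]; ring
  obtain ⟨m, hm⟩ := h5
  rw [hm] at key
  have key2 : q * m = 5 := by linarith
  have hqd : q ∣ 5 := ⟨m, key2.symm⟩
  have hq5 : q.natAbs ∣ 5 := by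
    have := Int.natAbs_dvd_natAbs.2 hqd
    simpa using this
  have : q.natAbs = 1 ∨ q.natAbs = 5 := (Nat.dvd_prime (by norm_num)).1 hq5
  omega

/-- No element of `Gam` is a half-turn. -/
lemma no_halfturn {g : GL (Fin 3) ℤ} (hg : g ∈ Gam) (h2 : g * g = 1) : g = 1 := by
  by_contra hne
  obtain ⟨hG, hs, hdet, hpar⟩ := hg
  have hgg : ∀ v, act g (act g v) = v := by
    intro v; rw [← act_mul, h2, act_one]
  -- a vector which is moved
  obtain ⟨v, hv⟩ : ∃ v, act g v ≠ v := by
    by_contra h
    push Not at h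
    exact hne (eq_one_of_act h)
  set m : Z3 := v - act g v with hm
  have hm0 : m ≠ 0 := by
    intro h; apply hv; rw [hm] at h; exact (sub_eq_zero.1 h).symm
  have hgm : act g m = - m := by
    rw [hm, act_sub, hgg]; abel
  set x0 : Z3 := rho + act g rho with hx0
  have hgx0 : act g x0 = x0 := by
    rw [hx0, act_add, hgg]; abel
  have hSx0 : 0 < S x0 := by
    rw [hx0, S_add]
    have := hG.sheet
    have : S rho = 3 := by simp [S, rho]
    linarith
  -- Claim A
  have claimA : ∀ u, act g u = u → S u = 0 → u = 0 := by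
    intro u hu hSu
    let M : Matrix (Fin 3) (Fin 3) ℤ := fun i k => ![x0, u, m] k i
    have hM : (g : Matrix (Fin 3) (Fin 3) ℤ) * M = M * Matrix.diagonal ![1, 1, -1] := by
      ext i k
      rw [Matrix.mul_diagonal]
      have e1 : ((g : Matrix (Fin 3) (Fin 3) ℤ) * M) i k = act g (![x0, u, m] k) i := by
        rw [Matrix.mul_apply]; rfl
      rw [e1]
      fin_cases k
      · show act g x0 i = x0 i * 1
        rw [hgx0, mul_one]
      · show act g u i = u i * 1
        rw [hu, mul_one]
      · show act g m i = m i * (-1)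
        rw [hgm]; simp
    have hdM : M.det = 0 := by
      have := congrArg Matrix.det hM
      rw [Matrix.det_mul, Matrix.det_mul, hdet, Matrix.det_diagonal] at this
      simp [Fin.prod_univ_three] at this
      linarith
    obtain ⟨c, hc0, hc⟩ := Matrix.exists_mulVec_eq_zero_iff.2 hdM
    have hrel : c 0 • x0 + c 1 • u + c 2 • m = 0 := by
      funext i
      have := congrFun hc i
      simp only [Matrix.mulVec, dotProduct, Fin.sum_univ_three, M] at this
      simp at this ⊢
      linarith
    have hrel2 : c 0 • x0 + c 1 • u - c 2 • m = 0 := by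
      have := congrArg (act g) hrel
      rw [act_add, act_add, act_smul, act_smul, act_smul, hgx0, hu, hgm] at this
      have h0 : act g 0 = 0 := by simp [act]
      rw [h0, smul_neg] at this
      rw [sub_eq_add_neg]; exact this
    have hc2 : c 2 = 0 := by
      have h3 : (2 * c 2) • m = 0 := by
        have := sub_eq_zero.2 (hrel.trans hrel2.symm)
        have e1 : c 0 • x0 + c 1 • u + c 2 • m - (c 0 • x0 + c 1 • u - c 2 • m) = (2 * c 2) • m := by
          module
        rw [e1] at this
        exact this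
      rcases smul_eq_zero.1 h3 with h | h
      · linarith
      · exact absurd h hm0
    rw [hc2, zero_smul, add_zero] at hrel
    have hc00 : c 0 = 0 := by
      have := congrArg S hrel
      rw [S_add, S_smul, S_smul, hSu] at this
      have h0 : S 0 = 0 := by simp [S]
      rw [h0] at this
      have : c 0 * S x0 = 0 := by linarith
      rcases mul_eq_zero.1 this with h | h
      · exact h
      · exact absurd h hSx0.ne'
    rw [hc00, zero_smul, zero_add] at hrel
    rcases smul_eq_zero.1 hrel with h | h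
    · exfalso; apply hc0
      funext i
      fin_cases i
      · exact hc00
      · exact h
      · exact hc2
    · exact h
  -- minimal fixed vector
  have hex : ∃ n : ℕ, 0 < n ∧ ∃ u, act g u = u ∧ S u = n :=
    ⟨(S x0).toNat, by omega, x0, hgx0, by rw [Int.toNat_of_nonneg hSx0.le]⟩
  classical
  obtain ⟨hn0, w, hgw, hSw⟩ := Nat.find_spec hex
  set n := Nat.find hex with hn
  have hmin : ∀ u, act g u = u → 0 < S u → (n : ℤ) ≤ S u := by
    intro u hu hSu
    have := Nat.find_min' hex (m := (S u).toNat) ⟨by omega, u, hu, by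
      rw [Int.toNat_of_nonneg hSu.le]⟩
    omega
  have hSw0 : 0 < S w := by rw [hSw]; exact_mod_cast hn0
  have mult : ∀ u, act g u = u → ∃ k : ℤ, u = k • w := by
    intro u hu
    refine ⟨S u / S w, ?_⟩
    have h3 : act g (u - (S u / S w) • w) = u - (S u / S w) • w := by
      rw [act_sub, act_smul, hu, hgw]
    have h4 : S (u - (S u / S w) • w) = S u % S w := by
      rw [sub_eq_add_neg, S_add, S_neg, S_smul]
      have := Int.emod_add_mul_ediv (S u) (S w)
      linarith
    have h5 : S (u - (S u / S w) • w) = 0 := by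
      by_contra h
      have h6 : 0 ≤ S u % S w := Int.emod_nonneg _ hSw0.ne'
      have h7 : S u % S w < S w := Int.emod_lt_of_pos _ hSw0
      have := hmin _ h3 (by omega)
      omega
    exact sub_eq_zero.1 (claimA _ h3 h5)
  have hodd : ∃ j, w j % 2 = 1 := by
    by_contra h
    push Not at h
    have hev : ∀ j, w j = 2 * (w j / 2) := by
      intro j; have := h j; omega
    let w' : Z3 := fun j => w j / 2
    have hw' : w = (2 : ℤ) • w' := by
      funext j; simp [w']; exact hev j
    have h3 : act g w' = w' := by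
      have := hgw
      rw [hw', act_smul] at this
      funext j
      have := congrFun this j
      simp at this
      exact this
    have h4 : S w = 2 * S w' := by rw [hw', S_smul]
    have := hmin w' h3 (by omega)
    omega
  have hfi : ∀ u : Z3, ∃ f : ℤ, u + act g u = (2 * f) • w := by
    intro u
    obtain ⟨k, hk⟩ := mult (u + act g u) (by rw [act_add, hgg]; abel)
    obtain ⟨j, hj⟩ := hodd
    have h3 := congrFun hk j
    simp only [Pi.add_apply, Pi.smul_apply, smul_eq_mul] at h3
    have h4 := hpar u j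
    have h5 : (k * w j) % 2 = 0 := by omega
    have h6 : k % 2 = 0 := by
      rcases Int.emod_two_eq_zero_or_one k with h | h
      · exact h
      · exfalso; have := Int.mul_emod k (w j) 2; rw [h, hj] at this; omega
    exact ⟨k / 2, by rw [hk]; congr 1; omega⟩
  choose f hf using hfi
  have hBf : ∀ u, B u w = f u * B w w := by
    intro u
    have h3 : B (u + act g u) w = 2 * B u w := by
      have : B (act g u) w = B u w := by
        have := hG.form u w
        rw [hgw] at this; exact this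
      have e1 : B (u + act g u) w = B u w + B (act g u) w := by
        simp [B, S]; ring
      rw [e1, this]; ring
    have h4 : B ((2 * f u) • w) w = 2 * f u * B w w := by
      simp [B, S]; ring
    rw [hf u, h4] at h3
    linarith
  have hSf : ∀ u, S u % 2 = 1 → (f u * S w) % 2 = 1 := by
    intro u hu
    have h3 := congrArg S (hf u)
    rw [S_add, S_smul] at h3
    have h4 := hs u
    have : 2 * (f u * S w) = S u + S (act g u) := by rw [h3]; ring
    omega
  have hq : B w w < 0 := by
    -- x0 = k w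
    obtain ⟨k, hk⟩ := mult x0 hgx0
    have hx0q : B x0 x0 < 0 := by
      have e1 : B x0 x0 = B rho rho + B (act g rho) (act g rho) + 2 * B rho (act g rho) := by
        rw [hx0]; simp [B, S]; ring
      rw [e1, hG.form, B_rho_rho, B_rho]
      have := hG.sheet
      linarith
    have e2 : B x0 x0 = k ^ 2 * B w w := by
      rw [hk]; simp [B, S]; ring
    rw [e2] at hx0q
    by_contra h
    push Not at h
    have : 0 ≤ k ^ 2 * B w w := mul_nonneg (sq_nonneg k) h
    linarith
  have hsum : w 0 * f (e 0) + w 1 * f (e 1) + w 2 * f (e 2) = 1 := by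
    have h3 : w + act g w = (2 * (w 0 * f (e 0) + w 1 * f (e 1) + w 2 * f (e 2))) • w := by
      have e1 : w + act g w = w 0 • (e 0 + act g (e 0)) + w 1 • (e 1 + act g (e 1))
          + w 2 • (e 2 + act g (e 2)) := by
        conv_lhs => rw [decomp w, act_add, act_add, act_smul, act_smul, act_smul]
        module
      rw [e1, hf, hf, hf]
      module
    have h4 := congrArg S h3
    rw [hgw, S_add, S_smul] at h4
    have h5 : (2 * (w 0 * f (e 0) + w 1 * f (e 1) + w 2 * f (e 2)) - 2) * S w = 0 := by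
      linarith
    rcases mul_eq_zero.1 h5 with h | h
    · linarith
    · exact absurd h hSw0.ne'
  have hBe : ∀ j, B (e j) w = 4 * w j - 3 * S w := by
    intro j
    unfold B; rw [S_e]
    fin_cases j <;> simp [e]
  have q0 := hBf (e 0); have q1 := hBf (e 1); have q2 := hBf (e 2)
  rw [hBe] at q0 q1 q2
  exact halfturn_arith (w 0) (w 1) (w 2) (f (e 0)) (f (e 1)) (f (e 2)) (B w w)
    (by unfold B S; ring) hq q0 q1 q2 (hSf _ (by rw [S_e]; rfl)) (hSf _ (by rw [S_e]; rfl))
    (hSf _ (by rw [S_e]; rfl)) hsum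

end Pool.Agent.Lib.MP_e63071_gt
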