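import Pool.Agent.Lib.MP_e63071_gt.Cartan
import Pool.Agent.Lib.MP_e63071_gt.Gamma

/-!
# Embedding of the arithmetic group in `SO₀(2,1)`
-/

set_option autoImplicit false

namespace Pool.Agent.Lib.MP_e63071_gt

open Matrix

noncomputable def T : Matrix (Fin 3) (Fin 3) ℝ :=
  !![2 * Real.sqrt 6 / 3, - Real.sqrt 6 / 3, - Real.sqrt 6 / 3;
     0, Real.sqrt 2, - Real.sqrt 2;
     Real.sqrt 15 / 3, Real.sqrt 15 / 3, Real.sqrt 15 / 3]

noncomputable def Ti : Matrix (Fin 3) (Fin 3) ℝ :=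
  !![Real.sqrt 6 / 6, 0, Real.sqrt 15 / 15;
     - Real.sqrt 6 / 12, Real.sqrt 2 / 4, Real.sqrt 15 / 15;
     - Real.sqrt 6 / 12, - Real.sqrt 2 / 4, Real.sqrt 15 / 15]

lemma sq6 : Real.sqrt 6 * Real.sqrt 6 = 6 := Real.mul_self_sqrt (by norm_num)
lemma sq2 : Real.sqrt 2 * Real.sqrt 2 = 2 := Real.mul_self_sqrt (by norm_num)
lemma sq15 : Real.sqrt 15 * Real.sqrt 15 = 15 := Real.mul_self_sqrt (by norm_num)

lemma T_mul_Ti : T * Ti = 1 := by
  have h6 := sq6; have h2 := sq2; have h15 := sq15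
  ext i j
  fin_cases i <;> fin_cases j <;>
    simp [T, Ti, Matrix.mul_apply, Fin.sum_univ_three] <;> nlinarith

lemma Ti_mul_T : Ti * T = 1 := mul_eq_one_comm.1 T_mul_Ti

/-- cast of integer vectors -/
def cv (v : Z3) : R3 := fun i => (v i : ℝ)

noncomputable def tv (v : Z3) : R3 := T *ᵥ cv v

lemma tv_two (v : Z3) : tv v 2 = Real.sqrt 15 / 3 * (S v : ℝ) := by
  simp [tv, T, Matrix.mulVec, dotProduct, Fin.sum_univ_three, cv, S]
  ring

lemma L_tv (v w : Z3) : L (tv v) (tv w) = (B v w : ℝ) := by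
  have h6 := sq6; have h2 := sq2; have h15 := sq15
  unfold L tv B S
  simp only [T, Matrix.mulVec, dotProduct, Fin.sum_univ_three, cv]
  simp
  linear_combination (1 / 9 : ℝ) * (2 * (v 0 : ℝ) - v 1 - v 2) * (2 * (w 0 : ℝ) - w 1 - w 2) * h6
    + ((v 1 : ℝ) - v 2) * ((w 1 : ℝ) - w 2) * h2
    - (1 / 9 : ℝ) * ((v 0 : ℝ) + v 1 + v 2) * ((w 0 : ℝ) + w 1 + w 2) * h15

lemma L_o_tv (v : Z3) : L o (tv v) = - (Real.sqrt 15 / 3 * (S v : ℝ)) := by
  rw [← tv_two]; simp [L, o]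

/-- real matrix of an integer one -/
def rm (g : GL (Fin 3) ℤ) : Matrix (Fin 3) (Fin 3) ℝ :=
  (g : Matrix (Fin 3) (Fin 3) ℤ).map (Int.castRingHom ℝ)

lemma rm_mul (g h : GL (Fin 3) ℤ) : rm (g * h) = rm g * rm h := by
  unfold rm; rw [Units.val_mul, Matrix.map_mul]

lemma rm_mulVec (g : GL (Fin 3) ℤ) (v : Z3) : rm g *ᵥ cv v = cv (act g v) := by
  funext i
  simp [rm, cv, act, Matrix.mulVec, dotProduct, Fin.sum_univ_three]

noncomputable def am (g : GL (Fin 3) ℤ) : Matrix (Fin 3) (Fin 3) ℝ := T * rm g * Ti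

lemma am_mul (g h : GL (Fin 3) ℤ) : am (g * h) = am g * am h := by
  unfold am
  rw [rm_mul]
  calc T * (rm g * rm h) * Ti = T * rm g * 1 * rm h * Ti := by
        simp only [Matrix.mul_assoc, Matrix.one_mul]
    _ = T * rm g * Ti * (T * rm h * Ti) := by
        rw [← Ti_mul_T]; simp only [Matrix.mul_assoc]

lemma am_tv (g : GL (Fin 3) ℤ) (v : Z3) : am g *ᵥ tv v = tv (act g v) := by
  unfold am tv
  rw [Matrix.mulVec_mulVec, Matrix.mul_assoc, Ti_mul_T, Matrix.mul_one, ← Matrix.mulVec_mulVec,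
    rm_mulVec]

/-- vectors `tv (e i)` span -/
lemma exists_coord (x : R3) : ∃ y : R3, x = y 0 • tv (e 0) + y 1 • tv (e 1) + y 2 • tv (e 2) := by
  refine ⟨Ti *ᵥ x, ?_⟩
  have h : x = T *ᵥ (Ti *ᵥ x) := by rw [Matrix.mulVec_mulVec, T_mul_Ti, Matrix.one_mulVec]
  conv_lhs => rw [h]
  set y := Ti *ᵥ x
  funext i
  simp only [tv, Matrix.mulVec, dotProduct, Fin.sum_univ_three, cv, e, Pi.add_apply,
    Pi.smul_apply, smul_eq_mul]
  simp
  ring

lemma L_add_left (x y z : R3) : L (x + y) z = L x z + L y z := by simp [L]; ring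
lemma L_add_right (x y z : R3) : L z (x + y) = L z x + L z y := by simp [L]; ring
lemma L_smul_left (c : ℝ) (x z : R3) : L (c • x) z = c * L x z := by simp [L]; ring
lemma L_smul_right (c : ℝ) (x z : R3) : L z (c • x) = c * L z x := by simp [L]; ring

lemma form_of_L {A : Matrix (Fin 3) (Fin 3) ℝ} (h : ∀ x y, L (A *ᵥ x) (A *ᵥ y) = L x y) :
    Aᵀ * Sig * A = Sig := by
  ext i j
  have h1 := h (Pi.single i 1) (Pi.single j 1)
  rw [L_eq, L_eq] at h1
  rw [← Matrix.vecMul_transpose, ← Matrix.dotProduct_mulVec, Matrix.mulVec_mulVec,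
    Matrix.mulVec_mulVec] at h1
  simpa using h1

lemma am_form {g : GL (Fin 3) ℤ} (hg : Good g) (x y : R3) :
    L (am g *ᵥ x) (am g *ᵥ y) = L x y := by
  obtain ⟨a, ha⟩ := exists_coord x
  obtain ⟨b, hb⟩ := exists_coord y
  have key : ∀ i j, L (am g *ᵥ tv (e i)) (am g *ᵥ tv (e j)) = L (tv (e i)) (tv (e j)) := by
    intro i j
    rw [am_tv, am_tv, L_tv, L_tv, hg.form]
  rw [ha, hb]
  simp only [Matrix.mulVec_add, Matrix.mulVec_smul, L_add_left, L_add_right, L_smul_left,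
    L_smul_right, key]

lemma tv_rho : tv rho = Real.sqrt 15 • o := by
  funext i
  simp only [tv, T, Matrix.mulVec, dotProduct, Fin.sum_univ_three, cv, rho, o]
  fin_cases i <;> simp <;> ring

lemma am_22 (g : GL (Fin 3) ℤ) : am g 2 2 = (S (act g rho) : ℝ) / 3 := by
  have h1 := am_tv g rho
  rw [tv_rho, Matrix.mulVec_smul] at h1
  have h2 := congrFun h1 2
  rw [tv_two, Pi.smul_apply, mulVec_o, smul_eq_mul] at h2
  have h15 : Real.sqrt 15 ≠ 0 := by positivity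
  field_simp at h2 ⊢
  linarith

lemma rm_det (g : GL (Fin 3) ℤ) : (rm g).det = ((g : Matrix (Fin 3) (Fin 3) ℤ).det : ℝ) := by
  unfold rm
  have := (RingHom.map_det (Int.castRingHom ℝ) (g : Matrix (Fin 3) (Fin 3) ℤ))
  simp at this
  exact this.symm

lemma am_det (g : GL (Fin 3) ℤ) : (am g).det = ((g : Matrix (Fin 3) (Fin 3) ℤ).det : ℝ) := by
  unfold am
  rw [Matrix.det_mul, Matrix.det_mul, rm_det]
  have := congrArg Matrix.det T_mul_Ti
  rw [Matrix.det_mul, Matrix.det_one] at this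
  linear_combination ((g : Matrix (Fin 3) (Fin 3) ℤ).det : ℝ) * this

lemma am_isLor {g : GL (Fin 3) ℤ} (hg : g ∈ Gam) : IsLor (am g) := by
  obtain ⟨h1, -, h3, -⟩ := hg
  refine ⟨form_of_L (am_form h1), ?_, ?_⟩
  · rw [am_det, h3]; simp
  · rw [am_22]
    have : (0 : ℝ) < (S (act g rho) : ℝ) := by exact_mod_cast h1.sheet
    positivity

lemma am_one : am 1 = 1 := by
  have : rm 1 = 1 := by unfold rm; simp
  unfold am; rw [this, Matrix.mul_one, T_mul_Ti]

/-- the embedding `Gam → SO₀(2,1)` -/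
noncomputable def emb : Gam →* G1 where
  toFun g := mkG1 (am g) (am_isLor g.2)
  map_one' := by
    apply mt_injective
    rw [mt_mkG1, mt_one]
    exact am_one
  map_mul' := by
    intro g h
    apply mt_injective
    rw [mt_mul, mt_mkG1, mt_mkG1, mt_mkG1]
    exact am_mul g h

lemma mt_emb (g : Gam) : mt (emb g) = am g := rfl

lemma rm_injective : Function.Injective rm := by
  intro g h hgh
  apply Units.ext
  ext i j
  have := congrFun (congrFun hgh i) j
  simpa [rm] using this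

lemma rm_eq (g : GL (Fin 3) ℤ) : rm g = Ti * am g * T := by
  unfold am
  calc rm g = 1 * rm g * 1 := by simp
    _ = Ti * (T * rm g * Ti) * T := by
        rw [← Ti_mul_T]; simp only [Matrix.mul_assoc]

lemma emb_injective : Function.Injective emb := by
  intro g h hgh
  have h1 : am g = am h := by rw [← mt_emb, ← mt_emb, hgh]
  apply Subtype.ext
  apply rm_injective
  rw [rm_eq, rm_eq, h1]

/-! ### finiteness -/

lemma finite_le (C : ℝ) : {g : Gam | mt (emb g) 2 2 ≤ C}.Finite := by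
  -- entries of `rm g` are bounded
  obtain ⟨M, hM⟩ : ∃ M : ℤ, ∀ g : Gam, mt (emb g) 2 2 ≤ C →
      ∀ i j, |((g : GL (Fin 3) ℤ) : Matrix (Fin 3) (Fin 3) ℤ) i j| ≤ M := by
    let M0 : ℝ := ∑ i, ∑ j, ∑ k, ∑ l, |Ti i k| * C * |T l j|
    refine ⟨⌈M0⌉, ?_⟩
    intro g hg i j
    have hC : 0 ≤ C := le_trans (mt_isLor (emb g)).pos.le hg
    have h1 : (((g : GL (Fin 3) ℤ) : Matrix (Fin 3) (Fin 3) ℤ) i j : ℝ) = rm g i j := by
      simp [rm]
    have h2 : |rm g i j| ≤ ∑ k, ∑ l, |Ti i k| * C * |T l j| := by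
      rw [rm_eq, Matrix.mul_apply]
      have : ∑ l, (Ti * am g) i l * T l j = ∑ l, ∑ k, Ti i k * am g k l * T l j := by
        refine Finset.sum_congr rfl fun l _ => ?_
        rw [Matrix.mul_apply, Finset.sum_mul]
      rw [this, Finset.sum_comm]
      refine (Finset.abs_sum_le_sum_abs _ _).trans (Finset.sum_le_sum fun k _ => ?_)
      refine (Finset.abs_sum_le_sum_abs _ _).trans (Finset.sum_le_sum fun l _ => ?_)
      rw [abs_mul, abs_mul]
      have := (entry_le (am_isLor g.2) k l).trans hg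
      gcongr
    have h3 : ∑ k, ∑ l, |Ti i k| * C * |T l j| ≤ M0 := by
      have hnn : ∀ i' j', 0 ≤ ∑ k, ∑ l, |Ti i' k| * C * |T l j'| := fun i' j' =>
        Finset.sum_nonneg fun k _ => Finset.sum_nonneg fun l _ => by positivity
      calc ∑ k, ∑ l, |Ti i k| * C * |T l j|
          ≤ ∑ j', ∑ k, ∑ l, |Ti i k| * C * |T l j'| :=
            Finset.single_le_sum (f := fun j' => ∑ k, ∑ l, |Ti i k| * C * |T l j'|)
              (fun j' _ => hnn i j') (Finset.mem_univ j)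
        _ ≤ M0 := Finset.single_le_sum (f := fun i' => ∑ j', ∑ k, ∑ l, |Ti i' k| * C * |T l j'|)
              (fun i' _ => Finset.sum_nonneg fun j' _ => hnn i' j') (Finset.mem_univ i)
    have h4 : |(((g : GL (Fin 3) ℤ) : Matrix (Fin 3) (Fin 3) ℤ) i j : ℝ)| ≤ (⌈M0⌉ : ℝ) := by
      rw [h1]
      exact (h2.trans h3).trans (Int.le_ceil M0)
    exact_mod_cast h4
  have hfin : {A : Matrix (Fin 3) (Fin 3) ℤ | ∀ i j, |A i j| ≤ M}.Finite := by
    apply (Set.finite_Icc (α := Fin 3 → Fin 3 → ℤ) (fun _ _ => -M) (fun _ _ => M)).subset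
    intro A hA
    exact ⟨fun i j => (abs_le.1 (hA i j)).1, fun i j => (abs_le.1 (hA i j)).2⟩
  refine Set.Finite.of_injOn (f := fun g : Gam => ((g : GL (Fin 3) ℤ) : Matrix (Fin 3) (Fin 3) ℤ))
    (t := {A : Matrix (Fin 3) (Fin 3) ℤ | ∀ i j, |A i j| ≤ M})
    (fun g hg => hM g hg) ?_ hfin
  intro g _ h _ hgh
  exact Subtype.ext (Units.ext hgh)

end Pool.Agent.Lib.MP_e63071_gt
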