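import Pool.Agent.Lib.MP_e63071_gt.CProper

/-!
# The connected example: the discrete group
-/

set_option autoImplicit false

namespace Pool.Agent.Lib.MP_e63071_gt

open Matrix

/-- the untwisted embedding -/
noncomputable def emb3 (g : Fin 3 → Gam) : G3 := fun i => emb (g i)

lemma emb3_mul (g h : Fin 3 → Gam) : emb3 (g * h) = emb3 g * emb3 h := by
  funext i; exact map_mul emb _ _

lemma emb3_one : emb3 1 = 1 := by
  funext i; exact map_one emb

lemma emb3_inv (g : Fin 3 → Gam) : emb3 g⁻¹ = (emb3 g)⁻¹ := by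
  funext i; exact map_inv emb _

/-- the twisted embedding -/
noncomputable def iotaC : (Fin 3 → Gam) →* GC where
  toFun g := mkC (emb3 g) (chi3 g)
  map_one' := by rw [emb3_one, chi3_one, mkC_one]
  map_mul' g h := by rw [mkC_mul, emb3_mul, chi3_mul]

lemma iotaC_apply (g : Fin 3 → Gam) : iotaC g = mkC (emb3 g) (chi3 g) := rfl

lemma iotaC_injective : Function.Injective iotaC := by
  intro g h hgh
  have := congrArg cA hgh
  rw [iotaC_apply, iotaC_apply, cA_mkC, cA_mkC] at this
  funext i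
  exact emb_injective (congrFun this i)

/-- the group `Γ` -/
noncomputable def GmC : Subgroup GC := iotaC.range

lemma GmC_torsionfree (g : GC) (hg : g ∈ GmC) (n : ℕ) (hn : 0 < n) (h : g ^ n = 1) : g = 1 := by
  obtain ⟨γ, rfl⟩ := hg
  rw [← map_pow] at h
  have h2 : γ ^ n = 1 := iotaC_injective (by rw [h, map_one])
  have h3 : γ = 1 := by
    funext i
    exact Gam_torsionfree (γ i) hn (congrFun h2 i)
  rw [h3, map_one]

lemma PhiC_iota (g : Fin 3 → Gam) (x : GHC) :
    PhiC (iotaC g • x) = emb3 g * PhiC x * bst (- ext3 (chi3 g)) := by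
  rw [iotaC_apply, PhiC_smul]

lemma PhiC_iota_apply (g : Fin 3 → Gam) (x : GHC) (i : Fin 3) :
    PhiC (iotaC g • x) i = emb (g i) * PhiC x i * boost (- ext3 (chi3 g) i) := by
  rw [PhiC_iota]; rfl

/-- the coordinates are bounded on compact sets -/
lemma exists_boundC {K : Set GHC} (hK : IsCompact K) :
    ∃ M, 1 ≤ M ∧ ∀ x ∈ K, ∀ i, mt (PhiC x i) 2 2 ≤ M := by
  have h1 : ∀ i, ∃ M, ∀ x ∈ K, mt (PhiC x i) 2 2 ≤ M := by
    intro i
    have h2 : IsCompact ((fun x : GHC => mt (PhiC x i) 2 2) '' K) :=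
      hK.image (continuous_22.comp ((continuous_apply i).comp continuous_PhiC))
    obtain ⟨M, hM⟩ := h2.bddAbove
    exact ⟨M, fun x hx => hM ⟨x, hx, rfl⟩⟩
  choose M hM using h1
  refine ⟨max 1 (max (M 0) (max (M 1) (M 2))), le_max_left _ _, ?_⟩
  intro x hx i
  refine (hM i x hx).trans ?_
  fin_cases i
  · exact (le_max_left _ _).trans (le_max_right _ _)
  · exact ((le_max_left _ _).trans (le_max_right _ _)).trans (le_max_right _ _)
  · exact ((le_max_right _ _).trans (le_max_right _ _)).trans (le_max_right _ _)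

instance GmC_pd : ProperlyDiscontinuousSMul GmC GHC where
  finite_disjoint_inter_image := by
    intro K L hK hL
    obtain ⟨M1, h1, hM1⟩ := exists_boundC hK
    obtain ⟨M2, h2, hM2⟩ := exists_boundC hL
    obtain ⟨C, hC⟩ := bound_of_relC (max M1 M2) (h1.trans (le_max_left _ _))
    have hfin0 : (Set.pi Set.univ (fun _ : Fin 3 => {g : Gam | mt (emb g) 2 2 ≤ C})).Finite :=
      Set.Finite.pi fun _ => finite_le C
    have hfin := hfin0.image iotaC
    refine Set.Finite.subset (hfin.preimage (f := fun γ : GmC => (γ : GC))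
      Subtype.val_injective.injOn) ?_
    rintro γ hγ
    obtain ⟨y, ⟨x, hx, hxy⟩, hy⟩ := hγ
    obtain ⟨g, hg⟩ := γ.2
    have e0 : (γ • x : GHC) = iotaC g • x := by
      rw [hg]; rfl
    refine ⟨g, ?_, hg⟩
    intro i _
    refine hC g (PhiC x) (PhiC y) (fun i => (hM1 x hx i).trans (le_max_left _ _))
      (fun i => (hM2 y hy i).trans (le_max_right _ _)) ?_ i
    intro i
    rw [← PhiC_iota_apply, ← e0]
    exact congrArg (fun z => PhiC z i) hxy

/-- a compact set meeting every orbit -/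
lemma exists_compact_coverC : ∃ K : Set GHC, IsCompact K ∧ ∀ x : GHC, ∃ γ : GmC, γ • x ∈ K := by
  obtain ⟨C, hC⟩ := cocompact_coordC
  have h1 : IsCompact (Set.pi Set.univ (fun _ : Fin 3 => {g : G1 | mt g 2 2 ≤ C})) :=
    isCompact_univ_pi fun _ => isCompact_le C
  refine ⟨PsiC '' (Set.pi Set.univ (fun _ : Fin 3 => {g : G1 | mt g 2 2 ≤ C})),
    h1.image continuous_PsiC, ?_⟩
  intro x
  obtain ⟨g, hg⟩ := hC (PhiC x)
  refine ⟨⟨iotaC g, ⟨g, rfl⟩⟩, PhiC (iotaC g • x), ?_, PsiC_PhiC _⟩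
  intro i _
  show mt (PhiC (iotaC g • x) i) 2 2 ≤ C
  rw [PhiC_iota_apply]
  exact hg i

lemma GmC_compact : CompactSpace (MulAction.orbitRel.Quotient GmC GHC) := by
  obtain ⟨K, hK, hcov⟩ := exists_compact_coverC
  have h1 : IsCompact ((Quotient.mk (MulAction.orbitRel GmC GHC)) '' K) :=
    hK.image continuous_quotient_mk'
  have h2 : (Quotient.mk (MulAction.orbitRel GmC GHC)) '' K = Set.univ := by
    rw [Set.eq_univ_iff_forall]
    intro q
    induction q using Quotient.inductionOn with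
    | h x =>
      obtain ⟨γ, hγ⟩ := hcov x
      refine ⟨γ • x, hγ, ?_⟩
      apply Quotient.sound
      exact ⟨γ, rfl⟩
  rw [h2] at h1
  exact ⟨h1⟩

end Pool.Agent.Lib.MP_e63071_gt
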