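import Pool.Agent.Lib.MP_e63071_gt.CTwist

/-!
# The connected example: the axis of a hyperbolic element
-/

set_option autoImplicit false

namespace Pool.Agent.Lib.MP_e63071_gt

open Matrix

noncomputable def Cint : Matrix (Fin 3) (Fin 3) ℝ :=
  !![-(Real.sqrt 2 / 4), -(3 * Real.sqrt 10 / 20), 1 / 2;
     Real.sqrt 2 / 4, -(3 * Real.sqrt 10 / 20), 1 / 2;
     0, Real.sqrt 10 / 10, 0]

def Gram : Matrix (Fin 3) (Fin 3) ℝ := !![1, -3, -3; -3, 1, -3; -3, -3, 1]

lemma T_gram : Tᵀ * Sig * T = Gram := by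
  have h6 := sq6; have h2 := sq2; have h15 := sq15
  ext i j
  fin_cases i <;> fin_cases j <;>
    simp [T, Sig, Gram, Matrix.mul_apply, Fin.sum_univ_three, Matrix.diagonal] <;> nlinarith

lemma Cint_gram : Cintᵀ * Gram * Cint = Sig := by
  have h2 := sq2; have h10 := sq10
  ext i j
  fin_cases i <;> fin_cases j <;>
    simp [Cint, Sig, Gram, Matrix.mul_apply, Fin.sum_univ_three, Matrix.diagonal] <;> nlinarith

noncomputable def CM : Matrix (Fin 3) (Fin 3) ℝ := T * Cint

lemma s615 : Real.sqrt 6 * Real.sqrt 15 = 3 * Real.sqrt 10 := by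
  rw [← Real.sqrt_mul (by norm_num), show (6:ℝ) * 15 = 3 ^ 2 * 10 by norm_num,
    Real.sqrt_mul (by norm_num), Real.sqrt_sq (by norm_num)]

lemma CM_isLor : IsLor CM := by
  refine ⟨?_, ?_, ?_⟩
  · unfold CM
    rw [Matrix.transpose_mul]
    calc Cintᵀ * Tᵀ * Sig * (T * Cint) = Cintᵀ * (Tᵀ * Sig * T) * Cint := by
          simp only [Matrix.mul_assoc]
      _ = Sig := by rw [T_gram, Cint_gram]
  · unfold CM
    have h2 := sq2; have h10 := sq10; have h3 := s615
    rw [Matrix.det_mul, Matrix.det_fin_three, Matrix.det_fin_three]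
    simp [T, Cint]
    linear_combination (Real.sqrt 6 * Real.sqrt 15 * Real.sqrt 10 / 60) * h2
      + (Real.sqrt 10 / 30) * h3 + 1 / 10 * h10
  · unfold CM
    simp [T, Cint, Matrix.mul_apply, Fin.sum_univ_three]

/-- frame along the axis -/
noncomputable def Cax : G1 := mkG1 CM CM_isLor

lemma cosh_2d0 : Real.cosh (2 * d0) = 17 := by
  rw [Real.cosh_two_mul, Real.sinh_sq, cosh_d0]; norm_num

lemma sinh_d0 : Real.sinh d0 = 2 * Real.sqrt 2 := by
  unfold d0
  rw [Real.sinh_arsinh, show (8:ℝ) = 2 ^ 2 * 2 by norm_num, Real.sqrt_mul (by norm_num),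
    Real.sqrt_sq (by norm_num)]

lemma sinh_2d0 : Real.sinh (2 * d0) = 12 * Real.sqrt 2 := by
  rw [Real.sinh_two_mul, cosh_d0, sinh_d0]; ring

lemma rm_gamA1 : rm (a 1 * a 0) * Cint = Cint * boostM (2 * d0) := by
  have h2 := sq2
  have hm : rm (a 1 * a 0) = !![-1, 6, 6; -6, 35, 42; 0, 0, 1] := by
    rw [rm_mul]
    ext i j
    fin_cases i <;> fin_cases j <;>
      simp [rm, a, aMat, Matrix.mul_apply, Fin.sum_univ_three] <;> norm_num
  rw [hm]
  ext i j
  fin_cases i <;> fin_cases j <;>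
    simp [Cint, boostM, Matrix.mul_apply, Fin.sum_univ_three, sinh_2d0, cosh_2d0] <;> nlinarith

lemma gamA1_Cax : emb (gamA 1) * Cax = Cax * boost (2 * d0) := by
  apply mt_injective
  rw [mt_mul, mt_mul, mt_emb, mt_boost]
  show am (a 1 * a 0) * CM = CM * boostM (2 * d0)
  unfold am CM
  calc T * rm (a 1 * a 0) * Ti * (T * Cint) = T * rm (a 1 * a 0) * (Ti * T) * Cint := by
        simp only [Matrix.mul_assoc]
    _ = T * (rm (a 1 * a 0) * Cint) := by
        rw [Ti_mul_T, Matrix.mul_one, Matrix.mul_assoc]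
    _ = T * Cint * boostM (2 * d0) := by rw [rm_gamA1, Matrix.mul_assoc]

end Pool.Agent.Lib.MP_e63071_gt
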