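import Pool.Agent.Lib.MP_e63071_gt.CReductive

/-!
# The connected example: positivity of determinants
-/

set_option autoImplicit false

namespace Pool.Agent.Lib.MP_e63071_gt

open Matrix
open scoped ContDiff

/-- product of rotations -/
noncomputable def rt (θ : Fin 3 → ℝ) : G3 := fun i => rot (θ i)

/-- the data extracted from a smooth geometric fibration -/
structure FamC (V : G3 → Fin 3 → ℝ) : Prop where
  hS : ∀ h, V h 0 = V h 1 + V h 2
  hconst : ∀ h θ, V (h * bst (V h) * rt θ * bst (- V h)) = V h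
  hequi : ∀ γ h, V (emb3 γ * h * bst (- ext3 (chi3 γ))) = V h + ext3 (chi3 γ)
  hsmooth : ContDiff ℝ ∞ (fun p : ((Fin 3 → ℝ) × (Fin 3 → ℝ) × (Fin 3 → ℝ)) × (Fin 3 → ℝ) =>
    V (cart p.1.1 p.1.2.1 p.1.2.2 * bst p.2))

/-- the derivative along the flat -/
noncomputable def LV (V : G3 → Fin 3 → ℝ) (h : G3) : (Fin 3 → ℝ) →L[ℝ] (Fin 3 → ℝ) :=
  fderiv ℝ (fun t => V (h * bst t)) 0

/-- its matrix -/
noncomputable def Lm (V : G3 → Fin 3 → ℝ) (h : G3) : Matrix (Fin 3) (Fin 3) ℝ :=
  LinearMap.toMatrix' (LV V h : (Fin 3 → ℝ) →ₗ[ℝ] (Fin 3 → ℝ))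

lemma Lm_mulVec (V : G3 → Fin 3 → ℝ) (h : G3) (ξ : Fin 3 → ℝ) : Lm V h *ᵥ ξ = LV V h ξ := by
  unfold Lm
  rw [LinearMap.toMatrix'_mulVec]; rfl

variable {V : G3 → Fin 3 → ℝ}

lemma FamC.contDiff (F : FamC V) (h : G3) : ContDiff ℝ ∞ (fun t => V (h * bst t)) := by
  obtain ⟨α, β, γ, hh⟩ := exists_cart h
  have h1 : ContDiff ℝ ∞ (fun t : Fin 3 → ℝ => (((α, β, γ), t) :
      ((Fin 3 → ℝ) × (Fin 3 → ℝ) × (Fin 3 → ℝ)) × (Fin 3 → ℝ))) :=
    contDiff_const.prodMk contDiff_id
  have h2 := F.hsmooth.comp h1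
  have h3 : (fun t => V (h * bst t)) = ((fun p : ((Fin 3 → ℝ) × (Fin 3 → ℝ) × (Fin 3 → ℝ)) ×
      (Fin 3 → ℝ) => V (cart p.1.1 p.1.2.1 p.1.2.2 * bst p.2)) ∘ fun t => ((α, β, γ), t)) := by
    funext t
    rw [hh]
    rfl
  rw [h3]
  exact h2

lemma FamC.differentiable (F : FamC V) (h : G3) : Differentiable ℝ (fun t => V (h * bst t)) :=
  (F.contDiff h).differentiable (by simp)

lemma FamC.hasFDerivAt (F : FamC V) (h : G3) (t : Fin 3 → ℝ) :
    HasFDerivAt (fun t => V (h * bst t)) (LV V (h * bst t)) t := by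
  have h1 := (F.differentiable h t).hasFDerivAt
  have h2 : fderiv ℝ (fun t => V (h * bst t)) t = LV V (h * bst t) := by
    have h3 : HasFDerivAt (fun s => V (h * bst (t + s)))
        (fderiv ℝ (fun t => V (h * bst t)) t) 0 := by
      have h4 : HasFDerivAt (fun s : Fin 3 → ℝ => t + s) (ContinuousLinearMap.id ℝ (Fin 3 → ℝ)) 0 :=
        (hasFDerivAt_id (0 : Fin 3 → ℝ)).const_add t
      have h5 : HasFDerivAt (fun t => V (h * bst t)) (fderiv ℝ (fun t => V (h * bst t)) t)
          (t + 0) := by rw [add_zero]; exact h1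
      exact h5.comp (0 : Fin 3 → ℝ) h4
    have h6 : (fun s => V (h * bst (t + s))) = fun s => V (h * bst t * bst s) := by
      funext s
      rw [bst_add, mul_assoc]
    rw [h6] at h3
    exact h3.fderiv.symm
  rw [h2] at h1
  exact h1

/-- signs -/
def sg (b : Fin 3 → Bool) (i : Fin 3) : ℝ := if b i then -1 else 1

lemma sg_mul_self (b : Fin 3 → Bool) (i : Fin 3) : sg b i * sg b i = 1 := by
  unfold sg; split_ifs <;> norm_num

/-- half turns -/
noncomputable def kp (b : Fin 3 → Bool) : G3 := rt (fun i => if b i then Real.pi else 0)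

lemma bst_kp (b : Fin 3 → Bool) (s : Fin 3 → ℝ) :
    bst s * kp b = kp b * bst (fun i => sg b i * s i) := by
  funext i
  show boost (s i) * rot (if b i then Real.pi else 0) =
    rot (if b i then Real.pi else 0) * boost (sg b i * s i)
  unfold sg
  split_ifs with h
  · have := kap_boost (- s i)
    rw [neg_neg] at this
    rw [neg_one_mul]
    exact this.symm
  · rw [rot_zero, mul_one, one_mul, one_mul]

lemma FamC.flip (F : FamC V) (h : G3) (b : Fin 3 → Bool) (t : Fin 3 → ℝ) :
    V (h * kp b * bst (fun i => sg b i * (t i + V (h * bst t) i) - V (h * bst t) i)) =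
      V (h * bst t) := by
  have h1 := F.hconst (h * bst t) (fun i => if b i then Real.pi else 0)
  set v := V (h * bst t) with hv
  have e1 : h * bst t * bst v * rt (fun i => if b i then Real.pi else 0) * bst (-v) =
      h * kp b * bst (fun i => sg b i * (t i + v i) - v i) := by
    have e2 : h * bst t * bst v * kp b * bst (-v) = h * (bst (t + v) * kp b) * bst (-v) := by
      rw [bst_add]; group
    have e3 : (fun i => sg b i * (t i + v i) - v i) = (fun i => sg b i * ((t + v) i)) + (-v) := by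
      funext i
      simp only [Pi.add_apply, Pi.neg_apply]
      ring
    show h * bst t * bst v * kp b * bst (-v) = _
    rw [e2, bst_kp, e3, bst_add]
    group
  rw [e1] at h1
  exact h1

lemma FamC.inj (F : FamC V) (h : G3) (b : Fin 3 → Bool) (ξ : Fin 3 → ℝ)
    (hξ : ∀ i, sg b i * (ξ i + LV V h ξ i) - LV V h ξ i = 0) : ξ = 0 := by
  set u : ℝ → Fin 3 → ℝ := fun τ => V (h * bst (τ • ξ)) with hu
  have hu' : HasDerivAt u (LV V h ξ) 0 := by
    have h1 := F.hasFDerivAt h ((0 : ℝ) • ξ)
    have h2 : HasDerivAt (fun τ : ℝ => τ • ξ) ((1 : ℝ) • ξ) 0 := (hasDerivAt_id (0:ℝ)).smul_const ξ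
    have h3 := h1.comp_hasDerivAt (0 : ℝ) h2
    rw [zero_smul, bst_zero, mul_one, one_smul] at h3
    exact h3
  set z : ℝ → Fin 3 → ℝ := fun τ i => sg b i * ((τ • ξ) i + u τ i) - u τ i with hz
  have hz' : HasDerivAt z (fun i => sg b i * (ξ i + LV V h ξ i) - LV V h ξ i) 0 := by
    rw [hasDerivAt_pi]
    intro i
    have h1 : HasDerivAt (fun τ => u τ i) (LV V h ξ i) 0 := (hasDerivAt_pi.1 hu') i
    have h2 : HasDerivAt (fun τ : ℝ => (τ • ξ) i) (ξ i) 0 := by
      have := (hasDerivAt_id (0:ℝ)).mul_const (ξ i)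
      rw [one_mul] at this
      exact this
    exact ((h2.add h1).const_mul (sg b i)).sub h1
  have hz0 : (fun i => sg b i * (ξ i + LV V h ξ i) - LV V h ξ i) = 0 := funext hξ
  rw [hz0] at hz'
  have hcomp : HasDerivAt (fun τ => V (h * kp b * bst (z τ))) 0 0 := by
    have h1 := (F.hasFDerivAt (h * kp b) (z 0)).comp_hasDerivAt (0 : ℝ) hz'
    rw [map_zero] at h1
    exact h1
  have heq : (fun τ => V (h * kp b * bst (z τ))) = u := by
    funext τ
    exact F.flip h b (τ • ξ)
  rw [heq] at hcomp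
  have hL : LV V h ξ = 0 := hu'.unique hcomp
  funext i
  have := hξ i
  rw [hL] at this
  simp only [Pi.zero_apply, add_zero, sub_zero] at this
  rcases mul_eq_zero.1 this with h0 | h0
  · have := sg_mul_self b i
    rw [h0] at this
    norm_num at this
  · exact h0

/-- the determinants -/
noncomputable def DD (V : G3 → Fin 3 → ℝ) (c : Fin 3 → ℝ) (h : G3) : ℝ :=
  (1 + Matrix.diagonal c * Lm V h).det

/-- the coefficients in `{0, 2}` -/
def cc (b : Fin 3 → Bool) (i : Fin 3) : ℝ := if b i then 2 else 0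

lemma cc_eq (b : Fin 3 → Bool) (i : Fin 3) : cc b i = 1 - sg b i := by
  unfold cc sg; split_ifs <;> norm_num

lemma FamC.DD_ne (F : FamC V) (b : Fin 3 → Bool) (h : G3) : DD V (cc b) h ≠ 0 := by
  intro h0
  obtain ⟨ξ, hξ, h1⟩ := Matrix.exists_mulVec_eq_zero_iff.2 h0
  apply hξ
  apply F.inj h b ξ
  intro i
  have h2 := congrFun h1 i
  rw [Matrix.add_mulVec, Matrix.one_mulVec, ← Matrix.mulVec_mulVec, Lm_mulVec, Pi.add_apply,
    Matrix.mulVec_diagonal, cc_eq, Pi.zero_apply] at h2
  have h3 := sg_mul_self b i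
  linear_combination (sg b i) * h2 + LV V h ξ i * h3

lemma continuous_fderiv_snd {P E G : Type*} [NormedAddCommGroup P] [NormedSpace ℝ P]
    [NormedAddCommGroup E] [NormedSpace ℝ E] [NormedAddCommGroup G] [NormedSpace ℝ G]
    {f : P × E → G} (hf : ContDiff ℝ ∞ f) (x : E) :
    Continuous (fun p => fderiv ℝ (fun t => f (p, t)) x) := by
  have h1 : ∀ p, fderiv ℝ (fun t => f (p, t)) x =
      (fderiv ℝ f (p, x)).comp (ContinuousLinearMap.inr ℝ P E) := by
    intro p
    have h2 : HasFDerivAt (fun t : E => (p, t)) (ContinuousLinearMap.inr ℝ P E) x :=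
      hasFDerivAt_prodMk_right p x
    have h3 : HasFDerivAt f (fderiv ℝ f (p, x)) (p, x) :=
      ((hf.differentiable (by simp)) (p, x)).hasFDerivAt
    exact (h3.comp x h2).fderiv
  simp only [h1]
  have h4 : Continuous (fun p : P => fderiv ℝ f (p, x)) :=
    (hf.continuous_fderiv (by simp)).comp (continuous_id.prodMk continuous_const)
  exact h4.clm_comp continuous_const

lemma FamC.continuous_DD (F : FamC V) (c : Fin 3 → ℝ) :
    Continuous (fun p : (Fin 3 → ℝ) × (Fin 3 → ℝ) × (Fin 3 → ℝ) =>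
      DD V c (cart p.1 p.2.1 p.2.2)) := by
  have h1 := continuous_fderiv_snd F.hsmooth (0 : Fin 3 → ℝ)
  unfold DD
  refine Continuous.matrix_det ?_
  refine continuous_const.add (continuous_const.matrix_mul ?_)
  refine continuous_matrix fun i j => ?_
  have h2 : ∀ p : (Fin 3 → ℝ) × (Fin 3 → ℝ) × (Fin 3 → ℝ),
      Lm V (cart p.1 p.2.1 p.2.2) i j =
      (fderiv ℝ (fun t => V (cart p.1 p.2.1 p.2.2 * bst t)) 0) (Pi.single j 1) i := by
    intro p
    unfold Lm
    rw [LinearMap.toMatrix'_apply]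
    rfl
  simp only [h2]
  exact (continuous_apply i).comp (h1.clm_apply continuous_const)

lemma FamC.DD_pos_of (F : FamC V) (b : Fin 3 → Bool) (h0 : G3) (hpos : 0 < DD V (cc b) h0)
    (h : G3) : 0 < DD V (cc b) h := by
  by_contra hcon
  push Not at hcon
  obtain ⟨α, β, γ, rfl⟩ := exists_cart h0
  obtain ⟨α', β', γ', rfl⟩ := exists_cart h
  obtain ⟨p, hp⟩ := mem_range_of_exists_le_of_exists_ge (F.continuous_DD (cc b))
    ⟨(α', β', γ'), hcon⟩ ⟨(α, β, γ), hpos.le⟩
  exact F.DD_ne b _ hp

/-! ### critical points on a periodic flat -/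

lemma emb_gamB0 : emb (gamB 0) = boost (2 * L1) := by
  have := gamB_Bj 0
  have h1 : Bj 0 = 1 := by unfold Bj; simp
  rwa [h1, mul_one, one_mul] at this

lemma FamC.periodic (F : FamC V) (t : Fin 3 → ℝ) (i : Fin 3) :
    V (bst (t + Pi.single i (2 * L1))) = V (bst t) := by
  have h1 := F.hequi (Pi.mulSingle i (gamB 0)) (bst t)
  have h2 : chi3 (Pi.mulSingle i (gamB 0)) = 0 := by
    have h3 : ∀ k j, cr ((Pi.mulSingle i (gamB 0) : Fin 3 → Gam) k) j = 0 := by
      intro k j
      by_cases hk : k = i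
      · subst hk
        rw [Pi.mulSingle_eq_same]
        exact cr_gamB j 0
      · rw [Pi.mulSingle_eq_of_ne hk]
        exact cr_one j
    funext l
    fin_cases l
    · show chi3 _ 0 = 0
      rw [chi3_zero]
      unfold chia phir
      simp only [h3]
      ring
    · show chi3 _ 1 = 0
      rw [chi3_one']
      unfold chib phir
      simp only [h3]
      ring
  rw [h2, ext3_zero', neg_zero, bst_zero, mul_one, add_zero] at h1
  rw [← h1]
  congr 1
  rw [add_comm, bst_add]
  congr 1
  funext k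
  show boost ((Pi.single i (2 * L1) : Fin 3 → ℝ) k) = emb ((Pi.mulSingle i (gamB 0) : Fin 3 → Gam) k)
  by_cases hk : k = i
  · subst hk
    rw [Pi.mulSingle_eq_same, Pi.single_eq_same, emb_gamB0]
  · rw [Pi.mulSingle_eq_of_ne hk, Pi.single_eq_of_ne hk, boost_zero, map_one]

lemma FamC.reduce_one (F : FamC V) (t : Fin 3 → ℝ) (i : Fin 3) :
    ∃ y ∈ Set.Ico 0 (2 * L1), V (bst (Function.update t i y)) = V (bst t) := by
  have hper : Function.Periodic (fun x => V (bst (Function.update t i x))) (2 * L1) := by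
    intro x
    have : Function.update t i (x + 2 * L1) = Function.update t i x + Pi.single i (2 * L1) := by
      funext k
      by_cases hk : k = i
      · subst hk; simp
      · simp [hk]
    show V (bst (Function.update t i (x + 2 * L1))) = V (bst (Function.update t i x))
    rw [this, F.periodic]
  obtain ⟨y, hy, h⟩ := hper.exists_mem_Ico₀ (by have := L1_pos; linarith) (t i)
  refine ⟨y, hy, ?_⟩
  rw [← h]
  simp

lemma FamC.reduce (F : FamC V) (t : Fin 3 → ℝ) :
    ∃ t' ∈ Set.pi Set.univ (fun _ : Fin 3 => Set.Icc (0:ℝ) (2 * L1)), V (bst t') = V (bst t) := by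
  obtain ⟨x, hx, h0⟩ := F.reduce_one t 0
  obtain ⟨y, hy, h1⟩ := F.reduce_one (Function.update t 0 x) 1
  obtain ⟨z, hz, h2⟩ := F.reduce_one (Function.update (Function.update t 0 x) 1 y) 2
  refine ⟨_, ?_, (h2.trans h1).trans h0⟩
  intro i _
  fin_cases i
  · simp [Function.update]; exact ⟨hx.1, hx.2.le⟩
  · simp [Function.update]; exact ⟨hy.1, hy.2.le⟩
  · simp [Function.update]; exact ⟨hz.1, hz.2.le⟩

lemma FamC.exists_crit (F : FamC V) (i : Fin 3) : ∃ h : G3, ∀ j, Lm V h i j = 0 := by
  have hcomp : IsCompact (Set.pi Set.univ (fun _ : Fin 3 => Set.Icc (0:ℝ) (2 * L1))) :=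
    isCompact_univ_pi fun _ => isCompact_Icc
  have hc : Continuous (fun t => V (bst t) i) := by
    have := (F.contDiff 1).continuous
    simp only [one_mul] at this
    exact (continuous_apply i).comp this
  obtain ⟨t, ht, hmax⟩ := hcomp.exists_isMaxOn
    ⟨fun _ => 0, fun j _ => ⟨le_rfl, by have := L1_pos; linarith⟩⟩ hc.continuousOn
  have hmax' : ∀ s, V (bst s) i ≤ V (bst t) i := by
    intro s
    obtain ⟨s', hs', h⟩ := F.reduce s
    rw [← h]
    exact hmax hs'
  refine ⟨1 * bst t, fun j => ?_⟩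
  have h1 := F.hasFDerivAt 1 t
  have h2 : HasFDerivAt (fun t => V (1 * bst t) i)
      ((ContinuousLinearMap.proj i).comp (LV V (1 * bst t))) t :=
    (ContinuousLinearMap.proj (R := ℝ) (φ := fun _ : Fin 3 => ℝ) i).hasFDerivAt.comp t h1
  have h3 : IsLocalMax (fun t => V (1 * bst t) i) t := by
    apply Filter.Eventually.of_forall
    intro s
    simp only [one_mul]
    exact hmax' s
  have h4 := h3.hasFDerivAt_eq_zero h2
  have h5 : Lm V (1 * bst t) i j = ((ContinuousLinearMap.proj i).comp (LV V (1 * bst t)) :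
      (Fin 3 → ℝ) →L[ℝ] ℝ) (Pi.single j 1) := by
    unfold Lm
    rw [LinearMap.toMatrix'_apply]
    rfl
  rw [h5, h4]
  rfl

lemma DD_update {h : G3} {i : Fin 3} (hi : ∀ j, Lm V h i j = 0) (b : Fin 3 → Bool) :
    DD V (cc b) h = DD V (cc (Function.update b i false)) h := by
  unfold DD
  congr 2
  ext k l
  rw [Matrix.diagonal_mul, Matrix.diagonal_mul]
  by_cases hk : k = i
  · subst hk
    rw [hi l, mul_zero, mul_zero]
  · have : cc (Function.update b i false) k = cc b k := by
      unfold cc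
      rw [Function.update_of_ne hk]
    rw [this]

lemma FamC.DD_step (F : FamC V) (i : Fin 3) (b : Fin 3 → Bool)
    (hpos : ∀ h, 0 < DD V (cc (Function.update b i false)) h) (h : G3) : 0 < DD V (cc b) h := by
  obtain ⟨h0, hi⟩ := F.exists_crit i
  refine F.DD_pos_of b h0 ?_ h
  rw [DD_update hi]
  exact hpos h0

theorem FamC.DD_pos (F : FamC V) (b : Fin 3 → Bool) (h : G3) : 0 < DD V (cc b) h := by
  refine F.DD_step 0 b ?_ h
  refine F.DD_step 1 _ ?_
  refine F.DD_step 2 _ ?_
  intro h
  have : cc (Function.update (Function.update (Function.update b 0 false) 1 false) 2 false) = 0 := by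
    funext i
    fin_cases i <;> simp [cc, Function.update]
  rw [this]
  unfold DD
  rw [show Matrix.diagonal (0 : Fin 3 → ℝ) = 0 by simp, zero_mul, add_zero, Matrix.det_one]
  exact one_pos

theorem FamC.det_pos (F : FamC V) (h : G3) : 0 < (1 + Lm V h).det := by
  have p1 := F.DD_pos ![false, false, false] h
  have p2 := F.DD_pos ![false, false, true] h
  have p3 := F.DD_pos ![false, true, false] h
  have p4 := F.DD_pos ![false, true, true] h
  have p5 := F.DD_pos ![true, false, false] h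
  have p6 := F.DD_pos ![true, false, true] h
  have p7 := F.DD_pos ![true, true, false] h
  have p8 := F.DD_pos ![true, true, true] h
  have key : 8 * (1 + Lm V h).det = DD V (cc ![false, false, false]) h +
      DD V (cc ![false, false, true]) h + DD V (cc ![false, true, false]) h +
      DD V (cc ![false, true, true]) h + DD V (cc ![true, false, false]) h +
      DD V (cc ![true, false, true]) h + DD V (cc ![true, true, false]) h +
      DD V (cc ![true, true, true]) h := by
    unfold DD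
    simp only [Matrix.det_fin_three, Matrix.add_apply, Matrix.diagonal_mul, Matrix.one_apply, cc]
    simp
    ring
  linarith

end Pool.Agent.Lib.MP_e63071_gt
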