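import Pool.Agent.Lib.MP_e63071_gt.NoSection

/-!
# The abstract obstruction
-/

set_option autoImplicit false

namespace Pool.Agent.Lib.MP_e63071_gt

open Matrix

/-- the data extracted from a geometric fibration -/
structure Fam (T : G1 → (Fin 3 → ℝ) → Prop) : Prop where
  hrot : ∀ A v θ, T A v → T (A * rot θ) v
  hex : ∀ (j : Fin 3) (B : G1), ∃ v, T (B * boost (v j)) v
  huniq : ∀ (j : Fin 3) (B : G1) (v v' : Fin 3 → ℝ), T (B * boost (v j)) v →
    T (B * boost (v' j)) v' → v = v'
  hcont : ∀ (j : Fin 3) (B : G1) (V : ℝ → Fin 3 → ℝ),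
    (∀ s, T (B * boost s * boost (V s j)) (V s)) → Continuous (fun s => V s j)
  hequi : ∀ (γ : Gam) A v, T A v → T (emb γ * A) (fun i => v i + chi γ i)
  hsum : ∀ A v, T A v → v 0 + v 1 + v 2 = 0

variable {T : G1 → (Fin 3 → ℝ) → Prop}

/-- a continuous injective function with a positive translation is strictly monotone -/
lemma strictMono_of_inj {h : ℝ → ℝ} (hc : Continuous h) (hi : Function.Injective h) {a b : ℝ}
    (hab : a < b) (hh : h a < h b) : StrictMono h := by
  rcases hc.strictMono_of_inj hi with h1 | h1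
  · exact h1
  · exact absurd (h1 hab) (not_lt.2 hh.le)

lemma Fam.geo (F : Fam T) (j : Fin 3) (B : G1) (γ : Gam) (Lc : ℝ) (hL : 0 < Lc)
    (hB : emb γ * B = B * boost Lc) (hχ : ∀ i, chi γ i = 0) :
    (∀ r, ∃ v, T (B * boost r) v) ∧
    (∀ r r' v v', r < r' → T (B * boost r) v → T (B * boost r') v' → v' j - v j < r' - r) := by
  choose V hV using fun s : ℝ => F.hex j (B * boost s)
  set u : ℝ → ℝ := fun s => s + V s j with hu
  have hVu : ∀ s, T (B * boost (u s)) (V s) := by
    intro s
    have := hV s
    rwa [mul_assoc, ← boost_add] at this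
  have hchar : ∀ r v, T (B * boost r) v → v = V (r - v j) := by
    intro r v h
    apply F.huniq j (B * boost (r - v j)) v _ _ (hV _)
    rw [mul_assoc, ← boost_add]
    convert h using 3
    ring
  have hcV : Continuous (fun s => V s j) := F.hcont j B V hV
  have hcu : Continuous u := continuous_id.add hcV
  set h : ℝ → ℝ := fun s => u s - s / 2 with hh
  have hch : Continuous h := hcu.sub (continuous_id.div_const 2)
  have hinj : Function.Injective h := by
    intro s s' hss
    have hc : 2 * u s - s = 2 * u s' - s' := by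
      simp only [hh] at hss; linarith
    have key : ∀ x, 2 * u x - x = 2 * u s - s →
        T (B * kap * boost (-(2 * u s - s)) * boost (V x j)) (V x) := by
      intro x hx
      have h1 : B * kap * boost (-(2 * u s - s)) * boost (V x j) = B * boost (u x) * kap := by
        rw [mul_assoc (B * kap), ← boost_add, mul_assoc B, kap_boost, ← mul_assoc]
        congr 3
        simp only [hu] at hx ⊢
        linarith
      rw [h1]
      exact F.hrot _ _ _ (hVu x)
    have h1 := F.huniq j _ _ _ (key s rfl) (key s' hc.symm)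
    have h2 : u s - s = u s' - s' := by
      simp only [hu]
      rw [h1]; ring
    linarith
  have htr : V (0 + Lc) = V 0 := by
    have h1 := F.hequi γ _ _ (hVu 0)
    have h2 : (fun i => V 0 i + chi γ i) = V 0 := by
      funext i; rw [hχ i, add_zero]
    rw [h2, ← mul_assoc, hB, mul_assoc, ← boost_add] at h1
    have h3 := hchar _ _ h1
    conv_rhs => rw [h3]
    congr 1
    simp only [hu]; ring
  have hmono : StrictMono h := by
    apply strictMono_of_inj hch hinj (a := 0) (b := 0 + Lc) (by linarith)
    simp only [hh, hu]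
    rw [htr]; linarith
  have hgrow : ∀ s s', s < s' → (s' - s) / 2 < u s' - u s := by
    intro s s' hs
    have := hmono hs
    simp only [hh] at this
    linarith
  have hsurj : Function.Surjective u := by
    intro r
    have h1 : ∃ a, u a ≤ r := by
      by_cases h0 : u 0 ≤ r
      · exact ⟨0, h0⟩
      · push Not at h0
        refine ⟨-(2 * (u 0 - r)), ?_⟩
        have := hgrow (-(2 * (u 0 - r))) 0 (by linarith)
        linarith
    have h2 : ∃ b, r ≤ u b := by
      by_cases h0 : r ≤ u 0
      · exact ⟨0, h0⟩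
      · push Not at h0
        refine ⟨2 * (r - u 0), ?_⟩
        have := hgrow 0 (2 * (r - u 0)) (by linarith)
        linarith
    obtain ⟨a, ha⟩ := h1
    obtain ⟨b, hb⟩ := h2
    exact mem_range_of_exists_le_of_exists_ge hcu ⟨a, ha⟩ ⟨b, hb⟩
  refine ⟨?_, ?_⟩
  · intro r
    obtain ⟨s, hs⟩ := hsurj r
    exact ⟨V s, hs ▸ hVu s⟩
  · intro r r' v v' hr hv hv'
    have e1 := hchar r v hv
    have e2 := hchar r' v' hv'
    set s := r - v j with hs
    set s' := r' - v' j with hs'
    have u1 : u s = r := by simp only [hu]; rw [← e1, hs]; ring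
    have u2 : u s' = r' := by simp only [hu]; rw [← e2, hs']; ring
    have : s < s' := by
      by_contra hcon
      push Not at hcon
      rcases hcon.eq_or_lt with h3 | h3
      · rw [h3] at u2; linarith
      · have := hgrow _ _ h3
        rw [u1, u2] at this
        linarith
    linarith

lemma Bj_zero : Bj 0 = 1 := by unfold Bj; simp

theorem Fam.false (F : Fam T) : False := by
  have hg : ∀ j : Fin 3, _ := fun j =>
    F.geo j (Bj j) (gamB j) (2 * L1) (by have := L1_pos; linarith) (gamB_Bj j)
      (fun i => chi_gamB i j)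
  obtain ⟨vp, hp⟩ := (hg 0).1 0
  obtain ⟨vq, hq⟩ := (hg 0).1 R0
  rw [boost_zero, mul_one, Bj_zero] at hp
  have key : ∀ j : Fin 3, (vq j + chi (gamA j) j) - vp j < R0 - 0 := by
    intro j
    refine (hg j).2 0 R0 vp (fun i => vq i + chi (gamA j) i) R0_pos ?_ ?_
    · obtain ⟨θ, hθ⟩ := Bj_rot j
      rw [boost_zero, mul_one, hθ, ← one_mul (rot θ)]
      exact F.hrot _ _ _ hp
    · obtain ⟨θ, hθ⟩ := gamA_rel j
      have h1 := F.hequi (gamA j) _ _ hq
      rw [hθ] at h1
      have h2 := F.hrot _ _ (-θ) h1
      rwa [mul_assoc (Bj j * boost R0), ← rot_add, add_neg_cancel, rot_zero, mul_one] at h2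
  have h0 := key 0
  have h1 := key 1
  have h2 := key 2
  have e1 := chi_gamA_sum
  have e2 := three_R0_le
  have e3 := F.hsum _ _ hp
  have e4 := F.hsum _ _ hq
  linarith

end Pool.Agent.Lib.MP_e63071_gt
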