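import Pool.Agent.Lib.MP_e63071_gt.Reductive
import Pool.Agent.Lib.MP_e63071_gt.Obstruct

/-!
# No geometric fibration
-/

set_option autoImplicit false

namespace Pool.Agent.Lib.MP_e63071_gt

open Matrix Topology Filter

/-- the orbit of the maximal compact subgroup -/
def XX : Set GH := {x | ∃ k : GG, (mat k)ᵀ * mat k = 1 ∧ x = QuotientGroup.mk k}

lemma rotM_orth (θ : ℝ) : (rotM θ)ᵀ * rotM θ = 1 := by
  have h := Real.cos_sq_add_sin_sq θ
  ext i j
  fin_cases i <;> fin_cases j <;>
    simp [rotM, Matrix.mul_apply, Fin.sum_univ_three] <;> nlinarith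

lemma blk_injective {A A' : Matrix (Fin 3) (Fin 3) ℝ} {v v' : Fin 3 → ℝ} {j j' : Fin 3}
    (h : blk A v j = blk A' v' j') : A = A' ∧ v = v' ∧ j = j' := by
  unfold blk at h
  obtain ⟨h1, -, -, h2⟩ := Matrix.fromBlocks_inj.1 h
  refine ⟨h1, ?_, ?_⟩
  · funext i
    have h3 := congrArg (fun M : Matrix (Fin 3) (Fin 3) ℝ => ∑ k, M i k) h2
    simp only [mono_rowsum] at h3
    exact Real.exp_injective h3
  · have h3 : mono v j j 0 ≠ 0 := (mono_ne_zero _ _ _ _).2 (by simp)
    rw [h2, mono_ne_zero, zero_add] at h3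
    exact h3

lemma mem_XX (x : GH) : x ∈ XX ↔ ∃ θ, (Phi x).2 = rot θ := by
  constructor
  · rintro ⟨k, hk, rfl⟩
    obtain ⟨A, v, hv, j, rfl⟩ := exists_mkG k
    rw [mat_mkG, blk_transpose, blk_mul, ← blk_one] at hk
    obtain ⟨h1, h2, -⟩ := blk_injective hk
    have hv0 : v = 0 := by
      funext i
      have := congrFun h2 (i - j)
      simp only [sub_add_cancel, sub_neg_eq_add, Pi.zero_apply] at this
      show v i = 0
      linarith
    have h22 : mt A 2 2 = 1 := by
      have e1 := congrFun (congrFun h1 2) 2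
      have e2 := col_rel (mt_isLor A).form 2 2
      rw [Sig_22] at e2
      rw [Matrix.mul_apply, Fin.sum_univ_three] at e1
      simp only [Matrix.transpose_apply, Matrix.one_apply_eq] at e1
      have e3 := one_le_22 A
      nlinarith
    obtain ⟨θ, hθ⟩ := exists_rot_of_22 (mt_isLor A) h22
    refine ⟨θ, ?_⟩
    rw [Phi_mk, phi_mkG, hv0]
    simp only [Pi.zero_apply, neg_zero, boost_zero, mul_one]
    exact mt_injective hθ
  · rintro ⟨θ, hθ⟩
    refine ⟨mkG (rot θ) 0 (by simp) (Phi x).1, ?_, ?_⟩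
    · rw [mat_mkG, blk_transpose, blk_mul, mt_rot, rotM_orth, ← blk_one]
      congr 1
      · funext i; simp
      · simp
    · rw [← Psi_Phi x]
      unfold Psi
      rw [hθ]
      simp only [Phi_mk, phi_mkG]

/-- coordinates of a translate -/
def Tr (A : G1) (v : Fin 3 → ℝ) : Set (Fin 3 × G1) :=
  {p | ∃ θ, p.2 = A * rot θ * boost (- v p.1)}

lemma Phi_injective : Function.Injective Phi := Hom.injective

lemma mem_translate (A : G1) (v : Fin 3 → ℝ) (hv : ∑ i, v i = 0) (l : Fin 3) (y : GH) :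
    y ∈ (fun x => mkG A v hv l • x) '' XX ↔ Phi y ∈ Tr A v := by
  constructor
  · rintro ⟨x, hx, rfl⟩
    obtain ⟨θ, hθ⟩ := (mem_XX x).1 hx
    refine ⟨θ, ?_⟩
    show (Phi (mkG A v hv l • x)).2 = _
    rw [Phi_smul, hθ]
  · rintro ⟨θ, hθ⟩
    refine ⟨Psi ((Phi y).1 - l, rot θ), ?_, ?_⟩
    · rw [mem_XX, Phi_Psi]; exact ⟨θ, rfl⟩
    · apply Phi_injective
      show Phi (mkG A v hv l • _) = _
      rw [Phi_smul, Phi_Psi]
      simp only [add_sub_cancel]
      rw [← hθ]

lemma Tr_rot (A : G1) (v : Fin 3 → ℝ) (θ : ℝ) : Tr (A * rot θ) v = Tr A v := by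
  ext p
  constructor
  · rintro ⟨φ, h⟩
    refine ⟨θ + φ, ?_⟩
    rw [h, rot_add, mul_assoc A]
  · rintro ⟨φ, h⟩
    refine ⟨-θ + φ, ?_⟩
    rw [h, mul_assoc A (rot θ), ← rot_add]
    congr 3
    ring

lemma mulVec_inj_boost {δ : ℝ} (h : mt (boost δ) *ᵥ o = mt (boost (-δ)) *ᵥ o) : δ = 0 := by
  have h1 := congrFun h 0
  rw [mulVec_o, mulVec_o, mt_boost, mt_boost] at h1
  simp only [boostM, Matrix.of_apply, Matrix.cons_val', Matrix.cons_val_zero] at h1
  simp [Real.sinh_neg] at h1
  have : Real.sinh δ = 0 := by linarith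
  exact Real.sinh_eq_zero.1 this

lemma mt_rot_o (θ : ℝ) : mt (rot θ) *ᵥ o = o := by
  funext i
  rw [mulVec_o, mt_rot]
  fin_cases i <;> simp [rotM, o]

lemma Tr_subset {A A' : G1} {v v' : Fin 3 → ℝ} (h : Tr A v ⊆ Tr A' v') : v = v' := by
  funext i
  have h1 : ((i, A * rot 0 * boost (- v i)) : Fin 3 × G1) ∈ Tr A' v' := h ⟨0, rfl⟩
  have h2 : ((i, A * rot Real.pi * boost (- v i)) : Fin 3 × G1) ∈ Tr A' v' := h ⟨_, rfl⟩
  obtain ⟨θ, h1⟩ := h1
  obtain ⟨φ, h2⟩ := h2
  dsimp only at h1 h2
  rw [rot_zero, mul_one] at h1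
  have e1 : A * boost (v' i - v i) = A' * rot θ := by
    have : A * boost (- v i) * boost (v' i) = A' * rot θ := by
      rw [h1, mul_assoc, ← boost_add, neg_add_cancel, boost_zero, mul_one]
    rw [← this, mul_assoc, ← boost_add]
    congr 2; ring
  have e2 : A * kap * boost (v' i - v i) = A' * rot φ := by
    have : A * kap * boost (- v i) * boost (v' i) = A' * rot φ := by
      show A * rot Real.pi * boost (- v i) * boost (v' i) = _
      rw [h2, mul_assoc, ← boost_add, neg_add_cancel, boost_zero, mul_one]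
    rw [← this, mul_assoc (A * kap), ← boost_add]
    congr 2; ring
  rw [mul_assoc, kap_boost, ← mul_assoc] at e2
  have f1 := congrArg (fun g => mt g *ᵥ o) e1
  have f2 := congrArg (fun g => mt g *ᵥ o) e2
  simp only [mt_mul, kap, ← Matrix.mulVec_mulVec, mt_rot_o] at f1 f2
  rw [← f1] at f2
  have f3 := congrArg (fun x => mt A⁻¹ *ᵥ x) f2
  simp only [Matrix.mulVec_mulVec, ← mt_mul, inv_mul_cancel_left] at f3
  have := mulVec_inj_boost f3.symm
  linarith

section

variable {N : Type*} [TopologicalSpace N] [T2Space N] [MulAction Gm N] (π : GH → N)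

/-- the fibres -/
def TT (A : G1) (v : Fin 3 → ℝ) : Prop :=
  ∑ i, v i = 0 ∧ ∃ n : N, ∀ y, π y = n ↔ Phi y ∈ Tr A v

lemma mem_Tr_self (j : Fin 3) (B : G1) (v : Fin 3 → ℝ) :
    ((j, B) : Fin 3 × G1) ∈ Tr (B * boost (v j)) v := by
  refine ⟨0, ?_⟩
  dsimp only
  rw [rot_zero, mul_one, mul_assoc, ← boost_add, add_neg_cancel, boost_zero, mul_one]

variable {π}

omit [TopologicalSpace N] [T2Space N] [MulAction Gm N] in
lemma TT_fibre {A : G1} {v : Fin 3 → ℝ} (h : TT π A v) (y y' : GH) (hy : Phi y ∈ Tr A v) :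
    π y' = π y ↔ Phi y' ∈ Tr A v := by
  obtain ⟨-, n, hn⟩ := h
  rw [(hn y).2 hy, hn y']

theorem fam_of_fibration (hcont : Continuous π)
    (hprop : ∀ (U : Ultrafilter GH) (n : N), Tendsto π U (𝓝 n) → ∃ x, (U : Filter GH) ≤ 𝓝 x)
    (hequi : ∀ (γ : Gm) (x : GH), π (γ • x) = γ • π x)
    (hfib : ∀ n : N, ∃ g : GG, π ⁻¹' {n} = (fun x => g • x) '' XX) :
    Fam (TT π) := by
  refine ⟨?_, ?_, ?_, ?_, ?_, ?_⟩
  · rintro A v θ ⟨h1, n, h2⟩
    exact ⟨h1, n, by rw [Tr_rot]; exact h2⟩
  · intro j B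
    obtain ⟨g, hg⟩ := hfib (π (Psi (j, B)))
    obtain ⟨A, v, hv, l, rfl⟩ := exists_mkG g
    have h1 : ∀ y, π y = π (Psi (j, B)) ↔ Phi y ∈ Tr A v := by
      intro y
      rw [← mem_translate A v hv l y, ← hg]
      rfl
    have h2 := (h1 (Psi (j, B))).1 rfl
    rw [Phi_Psi] at h2
    obtain ⟨θ, h3⟩ := h2
    dsimp only at h3
    refine ⟨v, hv, π (Psi (j, B)), fun y => ?_⟩
    rw [h1 y]
    have h4 : B * boost (v j) = A * rot θ := by
      rw [h3, mul_assoc, ← boost_add, neg_add_cancel, boost_zero, mul_one]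
    rw [h4, Tr_rot]
  · intro j B v v' h h'
    have e1 : Phi (Psi (j, B)) ∈ Tr (B * boost (v j)) v := by
      rw [Phi_Psi]; exact mem_Tr_self j B v
    have e2 : Phi (Psi (j, B)) ∈ Tr (B * boost (v' j)) v' := by
      rw [Phi_Psi]; exact mem_Tr_self j B v'
    apply Tr_subset (A := B * boost (v j)) (A' := B * boost (v' j))
    intro p hp
    have h3 := (TT_fibre h (Psi (j, B)) (Psi p) e1).2 (by rwa [Phi_Psi])
    have h4 := (TT_fibre h' (Psi (j, B)) (Psi p) e2).1 h3
    rwa [Phi_Psi] at h4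
  · -- continuity
    intro j B V hV
    rw [continuous_iff_continuousAt]
    intro s0
    rw [ContinuousAt, tendsto_iff_ultrafilter]
    intro U hU
    set A : ℝ → G1 := fun s => B * boost s * boost (V s j) with hA
    set n : ℝ → N := fun s => π (Psi (j, B * boost s)) with hn
    have hnc : Continuous n := by
      refine hcont.comp (continuous_Psi.comp (continuous_const.prodMk ?_))
      exact continuous_const.mul continuous_boost
    have hnU : Tendsto n U (𝓝 (n s0)) := (hnc.tendsto s0).mono_left hU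
    have hself : ∀ s, Phi (Psi (j, B * boost s)) ∈ Tr (A s) (V s) := by
      intro s; rw [Phi_Psi]; exact mem_Tr_self j _ _
    have hin : ∀ s y, π y = n s ↔ Phi y ∈ Tr (A s) (V s) := by
      intro s y
      exact TT_fibre (hV s) _ y (hself s)
    -- limits
    have hlim : ∀ (i : Fin 3) (θ : ℝ), ∃ P : G1,
        Tendsto (fun s => A s * rot θ * boost (- V s i)) U (𝓝 P) := by
      intro i θ
      set z : ℝ → GH := fun s => Psi (i, A s * rot θ * boost (- V s i)) with hz
      have hz1 : ∀ s, π (z s) = n s := by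
        intro s
        rw [hin s, hz, Phi_Psi]
        exact ⟨θ, rfl⟩
      have hz2 : Tendsto π (U.map z) (𝓝 (n s0)) := by
        rw [Ultrafilter.coe_map, tendsto_map'_iff]
        have : π ∘ z = n := funext hz1
        rw [this]; exact hnU
      obtain ⟨x, hx⟩ := hprop _ _ hz2
      refine ⟨(Phi x).2, ?_⟩
      have h1 : Tendsto z U (𝓝 x) := hx
      have h2 := ((continuous_snd.comp continuous_Phi).tendsto x).comp h1
      have h3 : (Prod.snd ∘ Phi) ∘ z = fun s => A s * rot θ * boost (- V s i) := by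
        funext s
        simp only [Function.comp, hz, Phi_Psi]
      rw [h3] at h2
      exact h2
    have hVlim : ∀ i, ∃ w : ℝ, Tendsto (fun s => V s i) U (𝓝 w) := by
      intro i
      obtain ⟨P, hP⟩ := hlim i 0
      obtain ⟨P', hP'⟩ := hlim i Real.pi
      have h1 := (hP.inv.mul hP').mul (tendsto_const_nhds (x := kap))
      have h2 : (fun s => (A s * rot 0 * boost (- V s i))⁻¹ *
          (A s * rot Real.pi * boost (- V s i)) * kap) = fun s => boost (2 * V s i) := by
        funext s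
        have : A s * rot Real.pi * boost (- V s i) = A s * boost (V s i) * kap := by
          show A s * kap * boost (- V s i) = _
          rw [mul_assoc, kap_boost, neg_neg, ← mul_assoc]
        rw [this, rot_zero, mul_one, mul_assoc _ (A s * boost (V s i) * kap),
          mul_assoc _ kap kap, kap_sq, mul_one, _root_.mul_inv_rev, mul_assoc, inv_mul_cancel_left,
          ← boost_neg, neg_neg, ← boost_add]
        congr 1; ring
      rw [h2] at h1
      have h3 : Continuous (fun g : G1 => Real.arsinh (mt g 0 2) / 2) :=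
        (Real.continuous_arsinh.comp
          ((continuous_apply 2).comp ((continuous_apply 0).comp continuous_mt))).div_const 2
      have h4 := (h3.tendsto _).comp h1
      have h5 : (fun g : G1 => Real.arsinh (mt g 0 2) / 2) ∘ (fun s => boost (2 * V s i)) =
          fun s => V s i := by
        funext s
        simp only [Function.comp]
        have : mt (boost (2 * V s i)) 0 2 = Real.sinh (2 * V s i) := by
          rw [mt_boost]; simp [boostM]
        rw [this, Real.arsinh_sinh]
        ring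
      rw [h5] at h4
      exact ⟨_, h4⟩
    choose w hw using hVlim
    obtain ⟨P0, hP0⟩ := hlim 0 0
    have hAlim : Tendsto A U (𝓝 (P0 * boost (w 0))) := by
      have h1 := hP0.mul ((continuous_boost.tendsto (w 0)).comp (hw 0))
      have h2 : (fun s => A s * rot 0 * boost (- V s 0) * (boost ∘ fun s => V s 0) s) = A := by
        funext s
        simp only [Function.comp]
        rw [rot_zero, mul_one, mul_assoc, ← boost_add, neg_add_cancel, boost_zero, mul_one]
      rw [h2] at h1
      exact h1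
    set A0 := P0 * boost (w 0) with hA0
    have hsub : Tr A0 w ⊆ Tr (A s0) (V s0) := by
      rintro ⟨i, B'⟩ ⟨θ, hθ⟩
      dsimp only at hθ
      subst hθ
      have h1 : Tendsto (fun s => A s * rot θ * boost (- V s i)) U
          (𝓝 (A0 * rot θ * boost (- w i))) :=
        (hAlim.mul tendsto_const_nhds).mul ((continuous_boost.tendsto _).comp (hw i).neg)
      have h2 : Continuous (fun C : G1 => π (Psi (i, C))) :=
        hcont.comp (continuous_Psi.comp (continuous_const.prodMk continuous_id))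
      have h3 := (h2.tendsto _).comp h1
      have h4 : (fun C : G1 => π (Psi (i, C))) ∘ (fun s => A s * rot θ * boost (- V s i)) = n := by
        funext s
        simp only [Function.comp]
        rw [hin s, Phi_Psi]
        exact ⟨θ, rfl⟩
      rw [h4] at h3
      have h5 := tendsto_nhds_unique h3 hnU
      have h6 := (hin s0 _).1 h5
      rwa [Phi_Psi] at h6
    have := Tr_subset hsub
    have h7 := hw j
    rw [this] at h7
    exact h7
  · rintro γ A v ⟨h1, n, h2⟩
    refine ⟨?_, (⟨iota γ, ⟨γ, rfl⟩⟩ : Gm) • n, ?_⟩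
    · rw [Finset.sum_add_distrib, h1, sum_chi, add_zero]
    · intro y
      set γ' : Gm := ⟨iota γ, ⟨γ, rfl⟩⟩ with hγ'
      have e1 : π y = γ' • n ↔ π (γ'⁻¹ • y) = n := by
        rw [hequi, inv_smul_eq_iff]
      rw [e1, h2]
      have e2 : (γ'⁻¹ • y : GH) = iota γ⁻¹ • y := by
        rw [map_inv]; rfl
      rw [e2]
      have e3 := Phi_iota γ⁻¹ y
      rw [e3]
      constructor
      · rintro ⟨θ, hθ⟩
        refine ⟨θ, ?_⟩
        dsimp only at hθ ⊢
        rw [chi_inv, neg_neg, map_inv] at hθ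
        have : (Phi y).2 = emb γ * ((emb γ)⁻¹ * (Phi y).2 * boost (chi γ (Phi y).1)) *
            boost (- chi γ (Phi y).1) := by
          rw [boost_neg]; group
        rw [this, hθ, mul_assoc (emb γ), mul_assoc (A * rot θ), ← boost_add, ← mul_assoc,
          ← mul_assoc]
        congr 2; ring
      · rintro ⟨θ, hθ⟩
        refine ⟨θ, ?_⟩
        dsimp only at hθ ⊢
        rw [chi_inv, neg_neg, map_inv, hθ, mul_assoc (emb γ) A, mul_assoc (emb γ),
          inv_mul_cancel_left, mul_assoc (A * rot θ), ← boost_add]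
        congr 2; ring
  · rintro A v ⟨h, -⟩
    rwa [Fin.sum_univ_three] at h

end

lemma isCompact_XX : IsCompact XX := by
  have h1 : XX = Psi '' (Set.univ ×ˢ {g : G1 | mt g 2 2 ≤ 1}) := by
    ext x
    rw [mem_XX]
    constructor
    · rintro ⟨θ, hθ⟩
      refine ⟨Phi x, ⟨Set.mem_univ _, ?_⟩, Psi_Phi x⟩
      show mt (Phi x).2 2 2 ≤ 1
      rw [hθ, mt_rot]; simp [rotM]
    · rintro ⟨p, ⟨-, hp⟩, rfl⟩
      rw [Phi_Psi]
      have hp' : mt p.2 2 2 ≤ 1 := hp
      obtain ⟨θ, hθ⟩ := exists_rot_of_22 (mt_isLor p.2) (le_antisymm hp' (one_le_22 _))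
      exact ⟨θ, mt_injective hθ⟩
  rw [h1]
  exact (isCompact_univ.prod (isCompact_le 1)).image continuous_Psi

theorem no_fibration {N : Type*} [TopologicalSpace N] [T2Space N] [MulAction Gm N] (π : GH → N)
    (hequi : ∀ (γ : Gm) (x : GH), π (γ • x) = γ • π x)
    (htriv : ∀ n : N, ∃ e : Bundle.Trivialization XX π, n ∈ e.baseSet)
    (hfib : ∀ n : N, ∃ g : GG, π ⁻¹' {n} = (fun x => g • x) '' XX) : False := by
  have hcont : Continuous π := by
    rw [continuous_iff_continuousAt]
    intro x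
    obtain ⟨e, he⟩ := htriv (π x)
    exact e.continuousAt_proj (e.mem_source.2 he)
  have : CompactSpace XX := isCompact_iff_compactSpace.1 isCompact_XX
  refine (fam_of_fibration hcont ?_ hequi hfib).false
  intro U n hU
  obtain ⟨e, he⟩ := htriv n
  -- the ultrafilter eventually lies in the source
  have hsrc : ∀ᶠ x in (U : Filter GH), x ∈ e.source := by
    have := hU.eventually (e.open_baseSet.mem_nhds he)
    filter_upwards [this] with x hx
    exact e.mem_source.2 hx
  obtain ⟨f0, hf0⟩ : ∃ f0 : XX, Tendsto (fun x => (e x).2) U (𝓝 f0) := by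
    obtain ⟨f0, -, h⟩ := isCompact_univ.ultrafilter_le_nhds (U.map (fun x => (e x).2))
      (by simp)
    exact ⟨f0, h⟩
  refine ⟨e.toOpenPartialHomeomorph.symm (n, f0), ?_⟩
  have h1 : Tendsto (fun x => (π x, (e x).2)) U (𝓝 (n, f0)) := hU.prodMk_nhds hf0
  have h2 : ContinuousAt e.toOpenPartialHomeomorph.symm (n, f0) := by
    apply e.toOpenPartialHomeomorph.continuousAt_symm
    rw [e.target_eq]
    exact ⟨he, Set.mem_univ _⟩
  have h3 := h2.tendsto.comp h1
  have h4 : (e.toOpenPartialHomeomorph.symm ∘ fun x => (π x, (e x).2)) =ᶠ[(U : Filter GH)] id := by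
    filter_upwards [hsrc] with x hx
    simp only [Function.comp, id]
    have : (π x, (e x).2) = e x := by
      ext1
      · exact (e.coe_fst hx).symm
      · rfl
    rw [this]
    exact e.toOpenPartialHomeomorph.left_inv hx
  have h5 := h3.congr' h4
  exact h5

end Pool.Agent.Lib.MP_e63071_gt
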