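import Pool.Agent.Lib.MP_e63071_gt.CKey
import Pool.Agent.Lib.MP_e63071_gt.Fibration

/-!
# The connected example: from a smooth fibration to the function `V`
-/

set_option autoImplicit false

namespace Pool.Agent.Lib.MP_e63071_gt

open Matrix Topology Filter
open scoped ContDiff Manifold

/-- the orbit of the maximal compact subgroup -/
def XXC : Set GHC := {x | ∃ k : GC, (matC k)ᵀ * matC k = 1 ∧ x = QuotientGroup.mk k}

lemma blk3_injective {A A' : Fin 3 → Matrix (Fin 3) (Fin 3) ℝ} {v v' : Fin 2 → ℝ}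
    (h : blk3 A v = blk3 A' v') : A = A' ∧ v = v' := by
  constructor
  · funext i
    ext a b
    have := congrFun (congrFun h (Sum.inl (a, i))) (Sum.inl (b, i))
    simpa [blk3, Matrix.blockDiagonal_apply] using this
  · funext i
    have := congrFun (congrFun h (Sum.inr i)) (Sum.inr i)
    simpa [blk3] using this

lemma mem_XXC (x : GHC) : x ∈ XXC ↔ ∃ θ, PhiC x = rt θ := by
  constructor
  · rintro ⟨k, hk, rfl⟩
    obtain ⟨A, v, rfl⟩ := exists_mkC k
    rw [matC_mkC, blk3_transpose, blk3_mul, ← blk3_one] at hk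
    obtain ⟨h1, h2⟩ := blk3_injective hk
    have hv0 : v = 0 := by
      funext i
      have := congrFun h2 i
      simp only [Pi.add_apply, Pi.zero_apply] at this
      show v i = 0
      linarith
    have h22 : ∀ i, ∃ θ, A i = rot θ := by
      intro i
      have e1 := congrFun (congrFun (congrFun h1 i) 2) 2
      have e2 := col_rel (mt_isLor (A i)).form 2 2
      rw [Sig_22] at e2
      rw [Matrix.mul_apply, Fin.sum_univ_three] at e1
      simp only [Matrix.transpose_apply, Matrix.one_apply_eq] at e1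
      have e3 := one_le_22 (A i)
      obtain ⟨θ, hθ⟩ := exists_rot_of_22 (mt_isLor (A i)) (by nlinarith)
      exact ⟨θ, mt_injective hθ⟩
    choose θ hθ using h22
    refine ⟨θ, ?_⟩
    rw [PhiC_mk, phiC_mkC, hv0, ext3_zero', neg_zero, bst_zero, mul_one]
    exact funext hθ
  · rintro ⟨θ, hθ⟩
    refine ⟨mkC (rt θ) 0, ?_, ?_⟩
    · rw [matC_mkC, blk3_transpose, blk3_mul, ← blk3_one, add_zero]
      congr 1
      funext i
      exact rotM_orth (θ i)
    · rw [← PsiC_PhiC x, hθ]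
      rfl

/-- coordinates of a translate -/
def TrC (A : G3) (v : Fin 3 → ℝ) : Set G3 := {p | ∃ θ, p = A * rt θ * bst (-v)}

lemma mem_translateC (A : G3) (v : Fin 2 → ℝ) (y : GHC) :
    y ∈ (fun x => mkC A v • x) '' XXC ↔ PhiC y ∈ TrC A (ext3 v) := by
  constructor
  · rintro ⟨x, hx, rfl⟩
    obtain ⟨θ, hθ⟩ := (mem_XXC x).1 hx
    refine ⟨θ, ?_⟩
    show PhiC (mkC A v • x) = _
    rw [PhiC_smul, hθ]
  · rintro ⟨θ, hθ⟩
    refine ⟨PsiC (rt θ), ?_, ?_⟩
    · rw [mem_XXC, PhiC_PsiC]; exact ⟨θ, rfl⟩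
    · apply PhiC_injective
      show PhiC (mkC A v • _) = _
      rw [PhiC_smul, PhiC_PsiC]
      exact hθ.symm

lemma rt_add (θ φ : Fin 3 → ℝ) : rt (θ + φ) = rt θ * rt φ := by
  funext i; exact rot_add _ _

lemma TrC_rt (A : G3) (v θ : Fin 3 → ℝ) : TrC (A * rt θ) v = TrC A v := by
  ext p
  constructor
  · rintro ⟨φ, h⟩
    refine ⟨θ + φ, ?_⟩
    rw [h, rt_add, mul_assoc A]
  · rintro ⟨φ, h⟩
    refine ⟨-θ + φ, ?_⟩
    rw [h, mul_assoc A (rt θ), ← rt_add]
    congr 3
    abel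

lemma eq_of_rots {A A' : G1} {s s' θ φ : ℝ} (h1 : A * boost (-s) = A' * rot θ * boost (-s'))
    (h2 : A * kap * boost (-s) = A' * rot φ * boost (-s')) : s = s' := by
  have e1 : A * boost (s' - s) = A' * rot θ := by
    have : A * boost (-s) * boost s' = A' * rot θ := by
      rw [h1, mul_assoc, ← boost_add, neg_add_cancel, boost_zero, mul_one]
    rw [← this, mul_assoc, ← boost_add]
    congr 2; ring
  have e2 : A * kap * boost (s' - s) = A' * rot φ := by
    have : A * kap * boost (-s) * boost s' = A' * rot φ := by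
      rw [h2, mul_assoc, ← boost_add, neg_add_cancel, boost_zero, mul_one]
    rw [← this, mul_assoc (A * kap), ← boost_add]
    congr 2; ring
  rw [mul_assoc, kap_boost, ← mul_assoc] at e2
  have f1 := congrArg (fun g => mt g *ᵥ o) e1
  have f2 := congrArg (fun g => mt g *ᵥ o) e2
  simp only [mt_mul, kap, ← Matrix.mulVec_mulVec, mt_rot_o] at f1 f2
  rw [← f1] at f2
  have f3 := congrArg (fun x => mt A⁻¹ *ᵥ x) f2
  simp only [Matrix.mulVec_mulVec, ← mt_mul, inv_mul_cancel_left] at f3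
  have := mulVec_inj_boost f3.symm
  linarith

lemma TrC_subset {A A' : G3} {v v' : Fin 3 → ℝ} (h : TrC A v ⊆ TrC A' v') : v = v' := by
  have h1 : A * rt 0 * bst (-v) ∈ TrC A' v' := h ⟨0, rfl⟩
  have h2 : A * rt (fun _ => Real.pi) * bst (-v) ∈ TrC A' v' := h ⟨_, rfl⟩
  obtain ⟨θ, h1⟩ := h1
  obtain ⟨φ, h2⟩ := h2
  funext i
  have e1 : A i * rot 0 * boost (- v i) = A' i * rot (θ i) * boost (- v' i) := congrFun h1 i
  have e2 : A i * kap * boost (- v i) = A' i * rot (φ i) * boost (- v' i) := congrFun h2 i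
  rw [rot_zero, mul_one] at e1
  exact eq_of_rots e1 e2

/-! ### smoothness of matrix entries -/

section

variable {E : Type*} [NormedAddCommGroup E] [NormedSpace ℝ E]

/-- all entries are smooth at a point -/
def SmAt {n : Type*} (f : E → Matrix n n ℝ) (x : E) : Prop :=
  ∀ i j, ContDiffAt ℝ ∞ (fun q => f q i j) x

lemma SmAt.mul {n : Type*} [Fintype n] {f g : E → Matrix n n ℝ} {x : E} (hf : SmAt f x)
    (hg : SmAt g x) : SmAt (fun q => f q * g q) x := by
  intro i j
  simp only [Matrix.mul_apply]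
  exact ContDiffAt.sum fun k _ => (hf i k).mul (hg k j)

lemma SmAt.transpose {n : Type*} {f : E → Matrix n n ℝ} {x : E} (hf : SmAt f x) :
    SmAt (fun q => (f q)ᵀ) x := fun i j => hf j i

lemma SmAt.const {n : Type*} (A : Matrix n n ℝ) (x : E) : SmAt (fun _ => A) x :=
  fun _ _ => contDiffAt_const

lemma smAt_boost {t : E → ℝ} {x : E} (ht : ContDiffAt ℝ ∞ t x) :
    SmAt (fun q => mt (boost (t q))) x := by
  intro i j
  simp only [mt_boost]
  fin_cases i <;> fin_cases j
  · exact Real.contDiff_cosh.contDiffAt.comp x ht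
  · exact contDiffAt_const
  · exact Real.contDiff_sinh.contDiffAt.comp x ht
  · exact contDiffAt_const
  · exact contDiffAt_const
  · exact contDiffAt_const
  · exact Real.contDiff_sinh.contDiffAt.comp x ht
  · exact contDiffAt_const
  · exact Real.contDiff_cosh.contDiffAt.comp x ht

lemma smAt_rot {t : E → ℝ} {x : E} (ht : ContDiffAt ℝ ∞ t x) :
    SmAt (fun q => mt (rot (t q))) x := by
  intro i j
  simp only [mt_rot]
  fin_cases i <;> fin_cases j
  · exact Real.contDiff_cos.contDiffAt.comp x ht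
  · exact (Real.contDiff_sin.contDiffAt.comp x ht).neg
  · exact contDiffAt_const
  · exact Real.contDiff_sin.contDiffAt.comp x ht
  · exact Real.contDiff_cos.contDiffAt.comp x ht
  · exact contDiffAt_const
  · exact contDiffAt_const
  · exact contDiffAt_const
  · exact contDiffAt_const

lemma smAt_inv {f : E → G1} {x : E} (hf : SmAt (fun q => mt (f q)) x) :
    SmAt (fun q => mt (f q)⁻¹) x := by
  simp only [mt_inv]
  exact ((SmAt.const Sig x).mul hf.transpose).mul (SmAt.const Sig x)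

lemma smAt_phiC {f : E → GC} {x : E} (hf : SmAt (fun q => matC (f q)) x) (i : Fin 3) :
    SmAt (fun q => mt (phiC (f q) i)) x := by
  have h1 : SmAt (fun q => mt (cA (f q) i)) x := by
    intro a b
    exact hf (Sum.inl (a, i)) (Sum.inl (b, i))
  have h2 : ∀ k, ContDiffAt ℝ ∞ (fun q => cv2 (f q) k) x := by
    intro k
    unfold cv2
    refine (hf (Sum.inr k) (Sum.inr k)).log ?_
    obtain ⟨A, v, h⟩ := exists_mkC (f x)
    show matC (f x) (Sum.inr k) (Sum.inr k) ≠ 0
    rw [h, matC_mkC]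
    simp [blk3]
  have h3 : ContDiffAt ℝ ∞ (fun q => (- ext3 (cv2 (f q))) i) x := by
    fin_cases i
    · exact ((h2 0).add (h2 1)).neg
    · exact (h2 0).neg
    · exact (h2 1).neg
  exact h1.mul (smAt_boost h3)

end

/-! ### the parameters -/

/-- parameter space -/
abbrev Par : Type := ((Fin 3 → ℝ) × (Fin 3 → ℝ) × (Fin 3 → ℝ)) × (Fin 3 → ℝ)

/-- the parametrisation -/
noncomputable def HH3 (q : Par) : G3 := cart q.1.1 q.1.2.1 q.1.2.2 * bst q.2

lemma smAt_HH3 (i : Fin 3) (x : Par) : SmAt (fun q => mt (HH3 q i)) x := by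
  have a1 : ContDiffAt ℝ ∞ (fun q : Par => q.1.1 i) x :=
    ((contDiff_apply ℝ ℝ i).comp (contDiff_fst.comp contDiff_fst)).contDiffAt
  have a2 : ContDiffAt ℝ ∞ (fun q : Par => q.1.2.1 i) x :=
    ((contDiff_apply ℝ ℝ i).comp (contDiff_fst.comp (contDiff_snd.comp contDiff_fst))).contDiffAt
  have a3 : ContDiffAt ℝ ∞ (fun q : Par => q.1.2.2 i) x :=
    ((contDiff_apply ℝ ℝ i).comp (contDiff_snd.comp (contDiff_snd.comp contDiff_fst))).contDiffAt
  have a4 : ContDiffAt ℝ ∞ (fun q : Par => q.2 i) x :=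
    ((contDiff_apply ℝ ℝ i).comp contDiff_snd).contDiffAt
  exact (((smAt_rot a1).mul (smAt_boost a2)).mul (smAt_rot a3)).mul (smAt_boost a4)

lemma smooth_mkC_HH3 (i j : J11) : ContDiff ℝ ∞ (fun q : Par => matC (mkC (HH3 q) 0) i j) := by
  rw [contDiff_iff_contDiffAt]
  intro x
  simp only [matC_mkC]
  rcases i with ⟨a, i⟩ | i <;> rcases j with ⟨b, j⟩ | j
  · by_cases hij : i = j
    · subst hij
      have : (fun q : Par => blk3 (fun i => mt (HH3 q i)) 0 (Sum.inl (a, i)) (Sum.inl (b, i))) =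
          fun q => mt (HH3 q i) a b := by
        funext q
        simp [blk3, Matrix.blockDiagonal_apply]
      rw [this]
      exact smAt_HH3 i x a b
    · have : (fun q : Par => blk3 (fun i => mt (HH3 q i)) 0 (Sum.inl (a, i)) (Sum.inl (b, j))) =
          fun q => 0 := by
        funext q
        simp [blk3, Matrix.blockDiagonal_apply, hij]
      rw [this]
      exact contDiffAt_const
  · exact contDiffAt_const
  · exact contDiffAt_const
  · exact contDiffAt_const

/-- the entries that determine `V` -/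
lemma conj_entries (v θ : ℝ) :
    mt (boost v * rot θ * boost (-v)) 0 1 + mt (boost v * rot θ * boost (-v)) 2 1 =
      - (Real.sin θ * Real.exp v) ∧
    mt (boost v * rot θ * boost (-v)) 0 1 - mt (boost v * rot θ * boost (-v)) 2 1 =
      - (Real.sin θ * Real.exp (-v)) := by
  have h0 : mt (boost v * rot θ * boost (-v)) 0 1 = - (Real.sin θ * Real.cosh v) := by
    rw [mt_mul, mt_mul, mt_boost, mt_boost, mt_rot]
    simp [boostM, rotM, Matrix.mul_apply, Fin.sum_univ_three]
    ring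
  have h2 : mt (boost v * rot θ * boost (-v)) 2 1 = - (Real.sin θ * Real.sinh v) := by
    rw [mt_mul, mt_mul, mt_boost, mt_boost, mt_rot]
    simp [boostM, rotM, Matrix.mul_apply, Fin.sum_univ_three]
    ring
  rw [h0, h2]
  constructor
  · rw [← Real.cosh_add_sinh]; ring
  · rw [← Real.cosh_sub_sinh]; ring

section

variable {E : Type*} [NormedAddCommGroup E] [NormedSpace ℝ E]
  {N : Type*} [TopologicalSpace N] [ChartedSpace E N] [MulAction GmC N] {π : GHC → N}

omit [TopologicalSpace N] [MulAction GmC N] in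
/-- the fibre through a point -/
lemma exists_V (hfib : ∀ n : N, ∃ g : GC, π ⁻¹' {n} = (fun x => g • x) '' XXC) (h : G3) :
    ∃ v : Fin 2 → ℝ, ∀ y, π y = π (PsiC h) ↔ PhiC y ∈ TrC (h * bst (ext3 v)) (ext3 v) := by
  obtain ⟨g, hg⟩ := hfib (π (PsiC h))
  obtain ⟨A, v, rfl⟩ := exists_mkC g
  have h1 : ∀ y, π y = π (PsiC h) ↔ PhiC y ∈ TrC A (ext3 v) := by
    intro y
    rw [← mem_translateC A v y, ← hg]
    rfl
  have h2 := (h1 (PsiC h)).1 rfl
  rw [PhiC_PsiC] at h2
  obtain ⟨θ, h3⟩ := h2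
  refine ⟨v, fun y => ?_⟩
  rw [h1 y]
  have h4 : h * bst (ext3 v) = A * rt θ := by
    rw [h3, mul_assoc, ← bst_add, neg_add_cancel, bst_zero, mul_one]
  rw [h4, TrC_rt]

theorem famC_of_fibration
    (hequi : ∀ (γ : GmC) (x : GHC), π (γ • x) = γ • π x)
    (hfib : ∀ n : N, ∃ g : GC, π ⁻¹' {n} = (fun x => g • x) '' XXC)
    (hplot : ContMDiff 𝓘(ℝ, Par) 𝓘(ℝ, E) ∞
      (fun q : Par => π (QuotientGroup.mk (mkC (HH3 q) 0))))
    (hsec : ∀ x : GHC, ∃ s : N → GC,
      (∀ i j, ContMDiffAt 𝓘(ℝ, E) 𝓘(ℝ, ℝ) ∞ (fun y => matC (s y) i j) (π x)) ∧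
      (∀ᶠ y in 𝓝 (π x), π (QuotientGroup.mk (s y)) = y) ∧
      (QuotientGroup.mk (s (π x)) : GHC) = x) :
    ∃ V : G3 → Fin 3 → ℝ, FamC V := by
  choose v hv using exists_V (π := π) hfib
  set V : G3 → Fin 3 → ℝ := fun h => ext3 (v h) with hV
  have hv' : ∀ h y, π y = π (PsiC h) ↔ PhiC y ∈ TrC (h * bst (V h)) (V h) := hv
  have huniq : ∀ (h : G3) (A : G3) (u : Fin 3 → ℝ),
      (∀ y, π y = π (PsiC h) ↔ PhiC y ∈ TrC A u) → V h = u := by
    intro h A u hu
    apply TrC_subset (A := h * bst (V h)) (A' := A)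
    intro p hp
    have h1 := (hv' h (PsiC p)).2 (by rwa [PhiC_PsiC])
    have h2 := (hu (PsiC p)).1 h1
    rwa [PhiC_PsiC] at h2
  have hfib' : ∀ h θ, π (PsiC (h * bst (V h) * rt θ * bst (- V h))) = π (PsiC h) := by
    intro h θ
    rw [hv' h, PhiC_PsiC]
    exact ⟨θ, rfl⟩
  refine ⟨V, ⟨fun h => rfl, ?_, ?_, ?_⟩⟩
  · intro h θ
    apply huniq _ (h * bst (V h)) (V h)
    intro y
    rw [hfib' h θ]
    exact hv' h y
  · intro γ h
    set γ' : GmC := ⟨iotaC γ, ⟨γ, rfl⟩⟩ with hγ'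
    apply huniq _ (emb3 γ * h * bst (V h)) (V h + ext3 (chi3 γ))
    intro y
    have e0 : (PsiC (emb3 γ * h * bst (- ext3 (chi3 γ))) : GHC) = γ' • PsiC h := by
      apply PhiC_injective
      rw [PhiC_PsiC]
      have : PhiC (γ' • PsiC h) = PhiC (iotaC γ • PsiC h) := rfl
      rw [this, PhiC_iota, PhiC_PsiC]
    rw [e0, hequi]
    have e1 : π y = γ' • π (PsiC h) ↔ π (γ'⁻¹ • y) = π (PsiC h) := by
      rw [hequi, inv_smul_eq_iff]
    rw [e1, hv' h]
    have e2 : (γ'⁻¹ • y : GHC) = iotaC γ⁻¹ • y := by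
      rw [map_inv]; rfl
    rw [e2, PhiC_iota, chi3_inv, ext3_neg', neg_neg, emb3_inv]
    constructor
    · rintro ⟨θ, hθ⟩
      refine ⟨θ, ?_⟩
      have : PhiC y = emb3 γ * ((emb3 γ)⁻¹ * PhiC y * bst (ext3 (chi3 γ))) *
          bst (- ext3 (chi3 γ)) := by
        rw [bst_neg]; group
      rw [this, hθ, neg_add, bst_add]
      group
    · rintro ⟨θ, hθ⟩
      refine ⟨θ, ?_⟩
      rw [hθ, neg_add, bst_add, bst_neg (ext3 (chi3 γ))]
      group
  · -- smoothness
    rw [contDiff_iff_contDiffAt]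
    intro q0
    rw [contDiffAt_pi]
    intro i
    set h0 := HH3 q0 with hh0
    set x : GHC := PsiC (h0 * bst (V h0) * rt (fun _ => Real.pi / 2) * bst (- V h0)) with hx
    have hπx : π x = π (PsiC h0) := hfib' h0 _
    obtain ⟨s, hs1, hs2, hs3⟩ := hsec x
    rw [hπx] at hs1 hs2 hs3
    set m : Par → GC := fun q => s (π (PsiC (HH3 q))) with hm
    have hm_sm : SmAt (fun q => matC (m q)) q0 := by
      intro k l
      have h1 := (hs1 k l).comp q0 (hplot.contMDiffAt (x := q0))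
      exact contMDiffAt_iff_contDiffAt.1 h1
    have hcont : ContinuousAt (fun q : Par => π (PsiC (HH3 q))) q0 :=
      (hplot.contMDiffAt (x := q0)).continuousAt
    have hev : ∀ᶠ q in 𝓝 q0, π (QuotientGroup.mk (m q)) = π (PsiC (HH3 q)) :=
      hcont.eventually hs2
    -- the comparison element
    set Q : Par → G1 := fun q => (HH3 q i)⁻¹ * phiC (m q) i with hQ
    have hQ_sm : SmAt (fun q => mt (Q q)) q0 :=
      (smAt_inv (smAt_HH3 i q0)).mul (smAt_phiC hm_sm i)
    have hQev : ∀ᶠ q in 𝓝 q0, ∃ θ, Q q = boost (V (HH3 q) i) * rot θ * boost (- V (HH3 q) i) := by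
      filter_upwards [hev] with q hq
      have h1 := (hv' (HH3 q) _).1 hq
      obtain ⟨θ, hθ⟩ := h1
      rw [PhiC_mk] at hθ
      refine ⟨θ i, ?_⟩
      have h2 : phiC (m q) i = HH3 q i * boost (V (HH3 q) i) * rot (θ i) *
          boost (- V (HH3 q) i) := congrFun hθ i
      simp only [hQ]
      rw [h2]
      group
    have hQ0 : Q q0 = boost (V h0 i) * rot (Real.pi / 2) * boost (- V h0 i) := by
      have h1 : PhiC (QuotientGroup.mk (m q0)) = PhiC x := congrArg PhiC hs3
      rw [PhiC_mk, hx, PhiC_PsiC] at h1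
      have h2 : phiC (m q0) i = h0 i * boost (V h0 i) * rot (Real.pi / 2) *
          boost (- V h0 i) := congrFun h1 i
      show (h0 i)⁻¹ * phiC (m q0) i = _
      rw [h2]
      group
    set f1 : Par → ℝ := fun q => mt (Q q) 0 1 + mt (Q q) 2 1 with hf1
    set f2 : Par → ℝ := fun q => mt (Q q) 0 1 - mt (Q q) 2 1 with hf2
    have sf1 : ContDiffAt ℝ ∞ f1 q0 := (hQ_sm 0 1).add (hQ_sm 2 1)
    have sf2 : ContDiffAt ℝ ∞ f2 q0 := (hQ_sm 0 1).sub (hQ_sm 2 1)
    have f10 : f1 q0 ≠ 0 := by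
      simp only [hf1]
      rw [hQ0, (conj_entries _ _).1, Real.sin_pi_div_two, one_mul]
      exact neg_ne_zero.2 (Real.exp_pos _).ne'
    have f20 : f2 q0 ≠ 0 := by
      simp only [hf2]
      rw [hQ0, (conj_entries _ _).2, Real.sin_pi_div_two, one_mul]
      exact neg_ne_zero.2 (Real.exp_pos _).ne'
    have hfinal : ContDiffAt ℝ ∞ (fun q => Real.log (f1 q / f2 q) / 2) q0 := by
      have h1 : ContDiffAt ℝ ∞ (fun q => f1 q / f2 q) q0 := sf1.div sf2 f20
      exact (h1.log (div_ne_zero f10 f20)).div_const 2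
    refine hfinal.congr_of_eventuallyEq ?_
    have hne : ∀ᶠ q in 𝓝 q0, f2 q ≠ 0 := sf2.continuousAt.eventually_ne f20
    filter_upwards [hQev, hne] with q ⟨θ, hθ⟩ hq
    have e1 : f1 q = - (Real.sin θ * Real.exp (V (HH3 q) i)) := by
      simp only [hf1]; rw [hθ, (conj_entries _ _).1]
    have e2 : f2 q = - (Real.sin θ * Real.exp (- V (HH3 q) i)) := by
      simp only [hf2]; rw [hθ, (conj_entries _ _).2]
    have hsin : Real.sin θ ≠ 0 := by
      intro h0
      apply hq
      rw [e2, h0]; simp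
    have e3 : f1 q / f2 q = Real.exp (2 * V (HH3 q) i) := by
      rw [e1, e2, neg_div_neg_eq, mul_div_mul_left _ _ hsin, ← Real.exp_sub]
      congr 1; ring
    rw [e3, Real.log_exp]
    show V (HH3 q) i = _
    ring

end

end Pool.Agent.Lib.MP_e63071_gt
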