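import Mathlib

/-!
# The connected example: an integral estimate
-/

set_option autoImplicit false

namespace Pool.Agent.Lib.MP_e63071_gt

open MeasureTheory
open scoped ContDiff

/-! ### iterated integrals -/

lemma swap_int (f : ℝ → ℝ → ℝ) (hf : Continuous (Function.uncurry f)) {a b c d : ℝ}
    (hab : a ≤ b) (hcd : c ≤ d) :
    ∫ x in a..b, ∫ y in c..d, f x y = ∫ y in c..d, ∫ x in a..b, f x y := by
  simp only [intervalIntegral.integral_of_le hab, intervalIntegral.integral_of_le hcd]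
  apply MeasureTheory.integral_integral_swap
  rw [Measure.prod_restrict]
  have h1 : IntegrableOn (Function.uncurry f) (Set.Icc a b ×ˢ Set.Icc c d)
      ((volume : Measure ℝ).prod (volume : Measure ℝ)) :=
    hf.continuousOn.integrableOn_compact (isCompact_Icc.prod isCompact_Icc)
  exact h1.mono_set (Set.prod_mono Set.Ioc_subset_Icc_self Set.Ioc_subset_Icc_self)

lemma cont_inner {f : ℝ → ℝ → ℝ} (hf : Continuous (Function.uncurry f)) (c d : ℝ) :
    Continuous (fun x => ∫ y in c..d, f x y) :=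
  intervalIntegral.continuous_parametric_intervalIntegral_of_continuous' hf c d

lemma cont_sec {f : ℝ → ℝ → ℝ} (hf : Continuous (Function.uncurry f)) (x : ℝ) :
    Continuous (f x) := hf.comp (continuous_const.prodMk continuous_id)

lemma cadd {f g : ℝ → ℝ → ℝ} (hf : Continuous (Function.uncurry f))
    (hg : Continuous (Function.uncurry g)) :
    Continuous (Function.uncurry fun x y => f x y + g x y) := hf.add hg

lemma cadd1 {f g : (Fin 3 → ℝ) → ℝ} (hf : Continuous f) (hg : Continuous g) :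
    Continuous (fun v => f v + g v) := hf.add hg

/-- double integral -/
noncomputable def I2 (a b c d : ℝ) (f : ℝ → ℝ → ℝ) : ℝ := ∫ x in a..b, ∫ y in c..d, f x y

lemma I2_add {f g : ℝ → ℝ → ℝ} (hf : Continuous (Function.uncurry f))
    (hg : Continuous (Function.uncurry g)) (a b c d : ℝ) :
    I2 a b c d (fun x y => f x y + g x y) = I2 a b c d f + I2 a b c d g := by
  unfold I2
  rw [← intervalIntegral.integral_add ((cont_inner hf c d).intervalIntegrable _ _)
    ((cont_inner hg c d).intervalIntegrable _ _)]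
  congr 1
  funext x
  exact intervalIntegral.integral_add ((cont_sec hf x).intervalIntegrable _ _)
    ((cont_sec hg x).intervalIntegrable _ _)

lemma I2_smul (k : ℝ) (f : ℝ → ℝ → ℝ) (a b c d : ℝ) :
    I2 a b c d (fun x y => k * f x y) = k * I2 a b c d f := by
  unfold I2
  simp only [intervalIntegral.integral_const_mul]

lemma I2_const (k a b c d : ℝ) : I2 a b c d (fun _ _ => k) = k * (b - a) * (d - c) := by
  unfold I2
  simp only [intervalIntegral.integral_const, smul_eq_mul]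
  ring

/-- triple integral -/
noncomputable def I3 (r P : ℝ) (G : (Fin 3 → ℝ) → ℝ) : ℝ :=
  ∫ x in (0:ℝ)..r, ∫ y in (0:ℝ)..P, ∫ z in (0:ℝ)..P, G ![x, y, z]

lemma cont_vec : Continuous (fun q : ℝ × ℝ × ℝ => (![q.1, q.2.1, q.2.2] : Fin 3 → ℝ)) := by
  refine continuous_pi fun i => ?_
  fin_cases i
  · exact continuous_fst
  · exact continuous_fst.comp continuous_snd
  · exact continuous_snd.comp continuous_snd

lemma cont_c1 {G : (Fin 3 → ℝ) → ℝ} (hG : Continuous G) (x : ℝ) :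
    Continuous (Function.uncurry fun y z => G ![x, y, z]) := by
  have h1 : Continuous (fun q : ℝ × ℝ => ((x, q.1, q.2) : ℝ × ℝ × ℝ)) :=
    continuous_const.prodMk (continuous_fst.prodMk continuous_snd)
  exact hG.comp (cont_vec.comp h1)

lemma cont_c2 {G : (Fin 3 → ℝ) → ℝ} (hG : Continuous G) (c d : ℝ) :
    Continuous (Function.uncurry fun x y => ∫ z in c..d, G ![x, y, z]) := by
  have h1 : Continuous (fun q : (ℝ × ℝ) × ℝ => ((q.1.1, q.1.2, q.2) : ℝ × ℝ × ℝ)) :=
    (continuous_fst.comp continuous_fst).prodMk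
      ((continuous_snd.comp continuous_fst).prodMk continuous_snd)
  have h2 : Continuous (Function.uncurry fun (q : ℝ × ℝ) z => G ![q.1, q.2, z]) :=
    hG.comp (cont_vec.comp h1)
  exact intervalIntegral.continuous_parametric_intervalIntegral_of_continuous' h2 c d

lemma cont_c3 {G : (Fin 3 → ℝ) → ℝ} (hG : Continuous G) (a b c d : ℝ) :
    Continuous (fun x => ∫ y in a..b, ∫ z in c..d, G ![x, y, z]) :=
  cont_inner (cont_c2 hG c d) a b

lemma I3_add {G H : (Fin 3 → ℝ) → ℝ} (hG : Continuous G) (hH : Continuous H) (r P : ℝ) :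
    I3 r P (fun v => G v + H v) = I3 r P G + I3 r P H := by
  unfold I3
  rw [← intervalIntegral.integral_add ((cont_c3 hG _ _ _ _).intervalIntegrable _ _)
    ((cont_c3 hH _ _ _ _).intervalIntegrable _ _)]
  congr 1
  funext x
  exact I2_add (cont_c1 hG x) (cont_c1 hH x) _ _ _ _

lemma I3_one (r P : ℝ) : I3 r P (fun _ => 1) = P ^ 2 * r := by
  unfold I3
  simp only [intervalIntegral.integral_const, smul_eq_mul]
  ring

lemma I3_pos {G : (Fin 3 → ℝ) → ℝ} (hG : Continuous G) (hpos : ∀ v, 0 < G v) {r P : ℝ}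
    (hr : 0 < r) (hP : 0 < P) : 0 < I3 r P G := by
  unfold I3
  refine intervalIntegral.intervalIntegral_pos_of_pos
    ((cont_c3 hG _ _ _ _).intervalIntegrable _ _) (fun x => ?_) hr
  refine intervalIntegral.intervalIntegral_pos_of_pos
    ((cont_sec (cont_c2 hG _ _) x).intervalIntegrable _ _) (fun y => ?_) hP
  exact intervalIntegral.intervalIntegral_pos_of_pos
    ((cont_sec (cont_c1 hG x) y).intervalIntegrable _ _) (fun z => hpos _) hP

/-! ### partial derivatives -/

/-- partial derivative -/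
noncomputable def pd (j : Fin 3) (p : (Fin 3 → ℝ) → ℝ) (v : Fin 3 → ℝ) : ℝ :=
  fderiv ℝ p v (Pi.single j 1)

lemma contDiff_pd {p : (Fin 3 → ℝ) → ℝ} (hp : ContDiff ℝ ∞ p) (j : Fin 3) :
    ContDiff ℝ ∞ (pd j p) :=
  (hp.fderiv_right (m := ∞) (by simp)).clm_apply contDiff_const

lemma diffAt {p : (Fin 3 → ℝ) → ℝ} (hp : ContDiff ℝ ∞ p) (v : Fin 3 → ℝ) :
    DifferentiableAt ℝ p v := hp.differentiable (by simp) v

lemma pd_add {p q : (Fin 3 → ℝ) → ℝ} (hp : ContDiff ℝ ∞ p) (hq : ContDiff ℝ ∞ q) (j : Fin 3)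
    (v : Fin 3 → ℝ) : pd j (fun v => p v + q v) v = pd j p v + pd j q v := by
  unfold pd
  rw [fderiv_fun_add (diffAt hp v) (diffAt hq v)]
  rfl

lemma pd_smul {p : (Fin 3 → ℝ) → ℝ} (hp : ContDiff ℝ ∞ p) (k : ℝ) (j : Fin 3)
    (v : Fin 3 → ℝ) : pd j (fun v => k * p v) v = k * pd j p v := by
  unfold pd
  rw [fderiv_const_mul (diffAt hp v)]
  rfl

lemma pd_mul {p q : (Fin 3 → ℝ) → ℝ} (hp : ContDiff ℝ ∞ p) (hq : ContDiff ℝ ∞ q) (j : Fin 3)
    (v : Fin 3 → ℝ) : pd j (fun v => p v * q v) v = p v * pd j q v + q v * pd j p v := by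
  unfold pd
  rw [fderiv_fun_mul (diffAt hp v) (diffAt hq v)]
  rfl

lemma pd_comm {p : (Fin 3 → ℝ) → ℝ} (hp : ContDiff ℝ ∞ p) (i j : Fin 3) (v : Fin 3 → ℝ) :
    pd i (pd j p) v = pd j (pd i p) v := by
  have h1 : ∀ k l, pd k (pd l p) v = fderiv ℝ (fderiv ℝ p) v (Pi.single k 1) (Pi.single l 1) := by
    intro k l
    unfold pd
    have h2 : DifferentiableAt ℝ (fderiv ℝ p) v :=
      (hp.fderiv_right (m := ∞) (by simp)).differentiable (by simp) v
    rw [fderiv_clm_apply h2 (differentiableAt_const _)]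
    simp
  rw [h1, h1]
  have h3 : IsSymmSndFDerivAt ℝ p v := hp.contDiffAt.isSymmSndFDerivAt (by
    rw [minSmoothness_of_isRCLikeNormedField]
    exact WithTop.coe_le_coe.2 (le_top : (2 : ℕ∞) ≤ ⊤))
  exact h3 _ _

lemma pd_periodic {p : (Fin 3 → ℝ) → ℝ} {w : Fin 3 → ℝ} {c : ℝ}
    (h : ∀ v, p (v + w) = p v + c) (j : Fin 3) (v : Fin 3 → ℝ) :
    pd j p (v + w) = pd j p v := by
  unfold pd
  rw [← fderiv_comp_add_right]
  have : (fun x => p (x + w)) = fun x => p x + c := funext h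
  rw [this, fderiv_add_const]

lemma hasDerivAt_0 {p : (Fin 3 → ℝ) → ℝ} (hp : ContDiff ℝ ∞ p) (x y z : ℝ) :
    HasDerivAt (fun x => p ![x, y, z]) (pd 0 p ![x, y, z]) x := by
  have h1 : HasDerivAt (fun x : ℝ => (![x, y, z] : Fin 3 → ℝ)) (Pi.single 0 1) x := by
    rw [hasDerivAt_pi]
    intro i
    fin_cases i
    · exact hasDerivAt_id x
    · exact hasDerivAt_const x y
    · exact hasDerivAt_const x z
  exact (diffAt hp _).hasFDerivAt.comp_hasDerivAt x h1

lemma hasDerivAt_1 {p : (Fin 3 → ℝ) → ℝ} (hp : ContDiff ℝ ∞ p) (x y z : ℝ) :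
    HasDerivAt (fun y => p ![x, y, z]) (pd 1 p ![x, y, z]) y := by
  have h1 : HasDerivAt (fun y : ℝ => (![x, y, z] : Fin 3 → ℝ)) (Pi.single 1 1) y := by
    rw [hasDerivAt_pi]
    intro i
    fin_cases i
    · exact hasDerivAt_const y x
    · exact hasDerivAt_id y
    · exact hasDerivAt_const y z
  exact (diffAt hp _).hasFDerivAt.comp_hasDerivAt y h1

lemma hasDerivAt_2 {p : (Fin 3 → ℝ) → ℝ} (hp : ContDiff ℝ ∞ p) (x y z : ℝ) :
    HasDerivAt (fun z => p ![x, y, z]) (pd 2 p ![x, y, z]) z := by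
  have h1 : HasDerivAt (fun z : ℝ => (![x, y, z] : Fin 3 → ℝ)) (Pi.single 2 1) z := by
    rw [hasDerivAt_pi]
    intro i
    fin_cases i
    · exact hasDerivAt_const z x
    · exact hasDerivAt_const z y
    · exact hasDerivAt_id z
  exact (diffAt hp _).hasFDerivAt.comp_hasDerivAt z h1

lemma cont_of {p : (Fin 3 → ℝ) → ℝ} (hp : ContDiff ℝ ∞ p) {X : Type*} [TopologicalSpace X]
    {x y z : X → ℝ} (hx : Continuous x) (hy : Continuous y) (hz : Continuous z) :
    Continuous (fun t => p ![x t, y t, z t]) :=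
  hp.continuous.comp (cont_vec.comp (hx.prodMk (hy.prodMk hz)))

lemma int_0 {p : (Fin 3 → ℝ) → ℝ} (hp : ContDiff ℝ ∞ p) (a b y z : ℝ) :
    ∫ x in a..b, pd 0 p ![x, y, z] = p ![b, y, z] - p ![a, y, z] :=
  intervalIntegral.integral_eq_sub_of_hasDerivAt (fun x _ => hasDerivAt_0 hp x y z)
    ((cont_of (contDiff_pd hp 0) continuous_id continuous_const
      continuous_const).intervalIntegrable _ _)

lemma int_1 {p : (Fin 3 → ℝ) → ℝ} (hp : ContDiff ℝ ∞ p) (a b x z : ℝ) :
    ∫ y in a..b, pd 1 p ![x, y, z] = p ![x, b, z] - p ![x, a, z] :=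
  intervalIntegral.integral_eq_sub_of_hasDerivAt (fun y _ => hasDerivAt_1 hp x y z)
    ((cont_of (contDiff_pd hp 1) continuous_const continuous_id
      continuous_const).intervalIntegrable _ _)

lemma int_2 {p : (Fin 3 → ℝ) → ℝ} (hp : ContDiff ℝ ∞ p) (a b x y : ℝ) :
    ∫ z in a..b, pd 2 p ![x, y, z] = p ![x, y, b] - p ![x, y, a] :=
  intervalIntegral.integral_eq_sub_of_hasDerivAt (fun z _ => hasDerivAt_2 hp x y z)
    ((cont_of (contDiff_pd hp 2) continuous_const continuous_const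
      continuous_id).intervalIntegrable _ _)

lemma I3_pd0 {G : (Fin 3 → ℝ) → ℝ} (hG : ContDiff ℝ ∞ G) {r P : ℝ} (hr : 0 ≤ r) (hP : 0 ≤ P) :
    I3 r P (pd 0 G) = I2 0 P 0 P (fun y z => G ![r, y, z] - G ![0, y, z]) := by
  unfold I3 I2
  rw [swap_int (fun x y => ∫ z in (0:ℝ)..P, pd 0 G ![x, y, z])
    (cont_c2 (contDiff_pd hG 0).continuous _ _) hr hP]
  congr 1
  funext y
  rw [swap_int (fun x z => pd 0 G ![x, y, z])
    (cont_of (contDiff_pd hG 0) continuous_fst continuous_const continuous_snd) hr hP]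
  congr 1
  funext z
  exact int_0 hG 0 r y z

lemma I3_pd1 {G : (Fin 3 → ℝ) → ℝ} (hG : ContDiff ℝ ∞ G) {r P : ℝ} (hP : 0 ≤ P) :
    I3 r P (pd 1 G) = I2 0 r 0 P (fun x z => G ![x, P, z] - G ![x, 0, z]) := by
  unfold I3 I2
  congr 1
  funext x
  rw [swap_int (fun y z => pd 1 G ![x, y, z])
    (cont_of (contDiff_pd hG 1) continuous_const continuous_fst continuous_snd) hP hP]
  congr 1
  funext z
  exact int_1 hG 0 P x z

lemma I3_pd2 {G : (Fin 3 → ℝ) → ℝ} (hG : ContDiff ℝ ∞ G) {r P : ℝ} :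
    I3 r P (pd 2 G) = I2 0 r 0 P (fun x y => G ![x, y, P] - G ![x, y, 0]) := by
  unfold I3 I2
  congr 1
  funext x
  congr 1
  funext y
  exact int_2 hG 0 P x y

/-! ### the functionals -/

/-- average of the sum (times the area) -/
noncomputable def A0 (P : ℝ) (p q : (Fin 3 → ℝ) → ℝ) (x : ℝ) : ℝ :=
  I2 0 P 0 P (fun y z => p ![x, y, z] + q ![x, y, z])

noncomputable def A2 (P a2 : ℝ) (p q : (Fin 3 → ℝ) → ℝ) (x : ℝ) : ℝ :=
  I2 0 P 0 P (fun y z => p ![x, y, z] * pd 1 q ![x, y, z]) - P * a2 * ∫ z in (0:ℝ)..P, q ![x, 0, z]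

noncomputable def A3 (P a3 : ℝ) (p q : (Fin 3 → ℝ) → ℝ) (x : ℝ) : ℝ :=
  I2 0 P 0 P (fun y z => p ![x, y, z] * pd 2 q ![x, y, z]) - P * a3 * ∫ y in (0:ℝ)..P, q ![x, y, 0]

/-- the integrated inequality -/
theorem green {p q : (Fin 3 → ℝ) → ℝ} (hp : ContDiff ℝ ∞ p) (hq : ContDiff ℝ ∞ q)
    {P r a2 b2 a3 b3 e1 e2 e3 : ℝ} (hP : 0 < P) (hr : 0 < r)
    (hpy : ∀ v, p (v + Pi.single 1 P) = p v + P * a2)
    (hqy : ∀ v, q (v + Pi.single 1 P) = q v + P * b2)
    (hpz : ∀ v, p (v + Pi.single 2 P) = p v + P * a3)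
    (hqz : ∀ v, q (v + Pi.single 2 P) = q v + P * b3)
    (hJ : ∀ v, 0 < 1 - e2 * pd 1 p v - e3 * pd 2 q v
      + e2 * e3 * (pd 1 p v * pd 2 q v - pd 2 p v * pd 1 q v)
      - e1 * (pd 0 p v + pd 0 q v + e2 * (pd 0 p v * pd 1 q v - pd 1 p v * pd 0 q v)
        - e3 * (pd 0 p v * pd 2 q v - pd 2 p v * pd 0 q v))) :
    e1 * ((A0 P p q r + e2 * A2 P a2 p q r - e3 * A3 P a3 p q r)
      - (A0 P p q 0 + e2 * A2 P a2 p q 0 - e3 * A3 P a3 p q 0))
      < P ^ 2 * r * (1 - e2 * a2 - e3 * b3 + e2 * e3 * (a2 * b3 - a3 * b2)) := by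
  set X : (Fin 3 → ℝ) → ℝ := fun v => -e1 * (p v + q v) + (-e1 * e2) * (p v * pd 1 q v)
    + (e1 * e3) * (p v * pd 2 q v) with hX
  set Y : (Fin 3 → ℝ) → ℝ := fun v => -e2 * p v + (e2 * e3) * (p v * pd 2 q v)
    + (e1 * e2) * (p v * pd 0 q v) with hY
  set Z : (Fin 3 → ℝ) → ℝ := fun v => -e3 * q v + (-e2 * e3) * (p v * pd 1 q v)
    + (-e1 * e3) * (p v * pd 0 q v) with hZ
  have hq0 := contDiff_pd hq 0
  have hq1 := contDiff_pd hq 1
  have hq2 := contDiff_pd hq 2
  have sX : ContDiff ℝ ∞ X := by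
    refine ((contDiff_const.mul (hp.add hq)).add (contDiff_const.mul (hp.mul hq1))).add
      (contDiff_const.mul (hp.mul hq2))
  have sY : ContDiff ℝ ∞ Y := by
    refine ((contDiff_const.mul hp).add (contDiff_const.mul (hp.mul hq2))).add
      (contDiff_const.mul (hp.mul hq0))
  have sZ : ContDiff ℝ ∞ Z := by
    refine ((contDiff_const.mul hq).add (contDiff_const.mul (hp.mul hq1))).add
      (contDiff_const.mul (hp.mul hq0))
  have hdiv : ∀ v, 1 - e2 * pd 1 p v - e3 * pd 2 q v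
      + e2 * e3 * (pd 1 p v * pd 2 q v - pd 2 p v * pd 1 q v)
      - e1 * (pd 0 p v + pd 0 q v + e2 * (pd 0 p v * pd 1 q v - pd 1 p v * pd 0 q v)
        - e3 * (pd 0 p v * pd 2 q v - pd 2 p v * pd 0 q v)) =
      1 + pd 0 X v + pd 1 Y v + pd 2 Z v := by
    intro v
    have x1 : pd 0 X v = -e1 * (pd 0 p v + pd 0 q v)
        + (-e1 * e2) * (p v * pd 0 (pd 1 q) v + pd 1 q v * pd 0 p v)
        + (e1 * e3) * (p v * pd 0 (pd 2 q) v + pd 2 q v * pd 0 p v) := by
      rw [hX, pd_add ((contDiff_const.mul (hp.add hq)).add (contDiff_const.mul (hp.mul hq1)))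
        (contDiff_const.mul (hp.mul hq2)), pd_add (contDiff_const.mul (hp.add hq))
        (contDiff_const.mul (hp.mul hq1)), pd_smul (hp.add hq), pd_smul (hp.mul hq1),
        pd_smul (hp.mul hq2), pd_add hp hq, pd_mul hp hq1, pd_mul hp hq2]
    have x2 : pd 1 Y v = -e2 * pd 1 p v
        + (e2 * e3) * (p v * pd 1 (pd 2 q) v + pd 2 q v * pd 1 p v)
        + (e1 * e2) * (p v * pd 1 (pd 0 q) v + pd 0 q v * pd 1 p v) := by
      rw [hY, pd_add ((contDiff_const.mul hp).add (contDiff_const.mul (hp.mul hq2)))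
        (contDiff_const.mul (hp.mul hq0)), pd_add (contDiff_const.mul hp)
        (contDiff_const.mul (hp.mul hq2)), pd_smul hp, pd_smul (hp.mul hq2),
        pd_smul (hp.mul hq0), pd_mul hp hq2, pd_mul hp hq0]
    have x3 : pd 2 Z v = -e3 * pd 2 q v
        + (-e2 * e3) * (p v * pd 2 (pd 1 q) v + pd 1 q v * pd 2 p v)
        + (-e1 * e3) * (p v * pd 2 (pd 0 q) v + pd 0 q v * pd 2 p v) := by
      rw [hZ, pd_add ((contDiff_const.mul hq).add (contDiff_const.mul (hp.mul hq1)))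
        (contDiff_const.mul (hp.mul hq0)), pd_add (contDiff_const.mul hq)
        (contDiff_const.mul (hp.mul hq1)), pd_smul hq, pd_smul (hp.mul hq1),
        pd_smul (hp.mul hq0), pd_mul hp hq1, pd_mul hp hq0]
    rw [x1, x2, x3, pd_comm hq 1 0, pd_comm hq 2 0, pd_comm hq 2 1]
    ring
  have c1 : Continuous (fun _ : Fin 3 → ℝ => (1:ℝ)) := continuous_const
  have cX := (contDiff_pd sX 0).continuous
  have cY := (contDiff_pd sY 1).continuous
  have cZ := (contDiff_pd sZ 2).continuous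
  have hpos : 0 < I3 r P (fun v => 1 + pd 0 X v + pd 1 Y v + pd 2 Z v) := by
    refine I3_pos (cadd1 (cadd1 (cadd1 c1 cX) cY) cZ) (fun v => ?_) hr hP
    rw [← hdiv v]
    exact hJ v
  have h1 : I3 r P (fun v => 1 + pd 0 X v + pd 1 Y v + pd 2 Z v) =
      P ^ 2 * r + I3 r P (pd 0 X) + I3 r P (pd 1 Y) + I3 r P (pd 2 Z) := by
    rw [I3_add (cadd1 (cadd1 c1 cX) cY) cZ, I3_add (cadd1 c1 cX) cY, I3_add c1 cX, I3_one]
  rw [h1, I3_pd0 sX hr.le hP.le, I3_pd1 sY hP.le, I3_pd2 sZ] at hpos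
  -- the `X` term
  have cc1 : ∀ {g : (Fin 3 → ℝ) → ℝ} (_ : ContDiff ℝ ∞ g) (x : ℝ),
      Continuous (Function.uncurry fun y z => g ![x, y, z]) := fun hg x => cont_c1 hg.continuous x
  have tX : I2 0 P 0 P (fun y z => X ![r, y, z] - X ![0, y, z]) =
      - e1 * ((A0 P p q r - A0 P p q 0)
        + e2 * (I2 0 P 0 P (fun y z => p ![r, y, z] * pd 1 q ![r, y, z])
          - I2 0 P 0 P (fun y z => p ![0, y, z] * pd 1 q ![0, y, z]))
        - e3 * (I2 0 P 0 P (fun y z => p ![r, y, z] * pd 2 q ![r, y, z])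
          - I2 0 P 0 P (fun y z => p ![0, y, z] * pd 2 q ![0, y, z]))) := by
    have e0 : (fun y z => X ![r, y, z] - X ![0, y, z]) = fun y z =>
        (((-e1 * (p ![r, y, z] + q ![r, y, z]) + e1 * (p ![0, y, z] + q ![0, y, z])) +
        (-e1 * e2) * (p ![r, y, z] * pd 1 q ![r, y, z])) +
        (e1 * e2) * (p ![0, y, z] * pd 1 q ![0, y, z])) +
        (e1 * e3) * (p ![r, y, z] * pd 2 q ![r, y, z]) +
        (-e1 * e3) * (p ![0, y, z] * pd 2 q ![0, y, z]) := by
      funext y z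
      simp only [hX]
      ring
    have d1 : ∀ k x, Continuous (Function.uncurry fun y z => k * (p ![x, y, z] + q ![x, y, z])) :=
      fun k x => continuous_const.mul (cc1 (hp.add hq) x)
    have d2 : ∀ k x, Continuous (Function.uncurry fun y z =>
        k * (p ![x, y, z] * pd 1 q ![x, y, z])) :=
      fun k x => continuous_const.mul (cc1 (hp.mul hq1) x)
    have d3 : ∀ k x, Continuous (Function.uncurry fun y z =>
        k * (p ![x, y, z] * pd 2 q ![x, y, z])) :=
      fun k x => continuous_const.mul (cc1 (hp.mul hq2) x)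
    rw [e0, I2_add (cadd (cadd (cadd (cadd (d1 _ _) (d1 _ _)) (d2 _ _)) (d2 _ _)) (d3 _ _)) (d3 _ _),
      I2_add (cadd (cadd (cadd (d1 _ _) (d1 _ _)) (d2 _ _)) (d2 _ _)) (d3 _ _),
      I2_add (cadd (cadd (d1 _ _) (d1 _ _)) (d2 _ _)) (d2 _ _),
      I2_add (cadd (d1 _ _) (d1 _ _)) (d2 _ _), I2_add (d1 _ _) (d1 _ _),
      I2_smul, I2_smul, I2_smul, I2_smul, I2_smul, I2_smul]
    unfold A0
    ring
  -- the `Y` term
  have vy : ∀ x z : ℝ, (![x, P, z] : Fin 3 → ℝ) = ![x, 0, z] + Pi.single 1 P := by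
    intro x z
    funext i
    fin_cases i <;> simp
  have vz : ∀ x y : ℝ, (![x, y, P] : Fin 3 → ℝ) = ![x, y, 0] + Pi.single 2 P := by
    intro x y
    funext i
    fin_cases i <;> simp
  have tY : I2 0 r 0 P (fun x z => Y ![x, P, z] - Y ![x, 0, z]) =
      P * a2 * (-e2 * (r * P) + e2 * e3 * (r * (P * b3))
        + e1 * e2 * ((∫ z in (0:ℝ)..P, q ![r, 0, z]) - ∫ z in (0:ℝ)..P, q ![0, 0, z])) := by
    have e0 : (fun x z => Y ![x, P, z] - Y ![x, 0, z]) = fun x z =>
        (-e2 * (P * a2) + (P * a2 * (e2 * e3)) * pd 2 q ![x, 0, z])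
          + (P * a2 * (e1 * e2)) * pd 0 q ![x, 0, z] := by
      funext x z
      simp only [hY]
      rw [vy, hpy, pd_periodic hqy, pd_periodic hqy]
      ring
    have d1 : Continuous (Function.uncurry fun (x z : ℝ) =>
        (P * a2 * (e2 * e3)) * pd 2 q ![x, 0, z]) :=
      continuous_const.mul (cont_of hq2 continuous_fst continuous_const continuous_snd)
    have d2 : Continuous (Function.uncurry fun (x z : ℝ) =>
        (P * a2 * (e1 * e2)) * pd 0 q ![x, 0, z]) :=
      continuous_const.mul (cont_of hq0 continuous_fst continuous_const continuous_snd)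
    have d0 : Continuous (Function.uncurry fun (_ _ : ℝ) => -e2 * (P * a2)) := continuous_const
    have i1 : I2 0 r 0 P (fun x z => pd 2 q ![x, 0, z]) = r * (P * b3) := by
      unfold I2
      have : ∀ x : ℝ, ∫ z in (0:ℝ)..P, pd 2 q ![x, 0, z] = P * b3 := by
        intro x
        rw [int_2 hq, vz, hqz]
        ring
      simp only [this, intervalIntegral.integral_const, smul_eq_mul]
      ring
    have i2 : I2 0 r 0 P (fun x z => pd 0 q ![x, 0, z]) =
        (∫ z in (0:ℝ)..P, q ![r, 0, z]) - ∫ z in (0:ℝ)..P, q ![0, 0, z] := by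
      unfold I2
      rw [swap_int (fun x z => pd 0 q ![x, 0, z])
        (cont_of hq0 continuous_fst continuous_const continuous_snd) hr.le hP.le,
        ← intervalIntegral.integral_sub]
      · congr 1
        funext z
        exact int_0 hq 0 r 0 z
      · exact (cont_of hq continuous_const continuous_const continuous_id).intervalIntegrable _ _
      · exact (cont_of hq continuous_const continuous_const continuous_id).intervalIntegrable _ _
    rw [e0, I2_add (cadd d0 d1) d2, I2_add d0 d1, I2_const, I2_smul, I2_smul, i1, i2]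
    ring
  have tZ : I2 0 r 0 P (fun x y => Z ![x, y, P] - Z ![x, y, 0]) =
      -e3 * (P * b3) * (r * P) - e2 * e3 * (P * a3) * (r * (P * b2))
        - e1 * e3 * (P * a3) * ((∫ y in (0:ℝ)..P, q ![r, y, 0]) - ∫ y in (0:ℝ)..P, q ![0, y, 0]) := by
    have e0 : (fun x y => Z ![x, y, P] - Z ![x, y, 0]) = fun x y =>
        (-e3 * (P * b3) + (-(P * a3) * (e2 * e3)) * pd 1 q ![x, y, 0])
          + (-(P * a3) * (e1 * e3)) * pd 0 q ![x, y, 0] := by
      funext x y
      simp only [hZ]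
      rw [vz, hpz, hqz, pd_periodic hqz, pd_periodic hqz]
      ring
    have d1 : Continuous (Function.uncurry fun (x y : ℝ) =>
        (-(P * a3) * (e2 * e3)) * pd 1 q ![x, y, 0]) :=
      continuous_const.mul (cont_of hq1 continuous_fst continuous_snd continuous_const)
    have d2 : Continuous (Function.uncurry fun (x y : ℝ) =>
        (-(P * a3) * (e1 * e3)) * pd 0 q ![x, y, 0]) :=
      continuous_const.mul (cont_of hq0 continuous_fst continuous_snd continuous_const)
    have d0 : Continuous (Function.uncurry fun (_ _ : ℝ) => -e3 * (P * b3)) := continuous_const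
    have i1 : I2 0 r 0 P (fun x y => pd 1 q ![x, y, 0]) = r * (P * b2) := by
      unfold I2
      have : ∀ x : ℝ, ∫ y in (0:ℝ)..P, pd 1 q ![x, y, 0] = P * b2 := by
        intro x
        rw [int_1 hq, vy, hqy]
        ring
      simp only [this, intervalIntegral.integral_const, smul_eq_mul]
      ring
    have i2 : I2 0 r 0 P (fun x y => pd 0 q ![x, y, 0]) =
        (∫ y in (0:ℝ)..P, q ![r, y, 0]) - ∫ y in (0:ℝ)..P, q ![0, y, 0] := by
      unfold I2
      rw [swap_int (fun x y => pd 0 q ![x, y, 0])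
        (cont_of hq0 continuous_fst continuous_snd continuous_const) hr.le hP.le,
        ← intervalIntegral.integral_sub]
      · congr 1
        funext y
        exact int_0 hq 0 r y 0
      · exact (cont_of hq continuous_const continuous_id continuous_const).intervalIntegrable _ _
      · exact (cont_of hq continuous_const continuous_id continuous_const).intervalIntegrable _ _
    rw [e0, I2_add (cadd d0 d1) d2, I2_add d0 d1, I2_const, I2_smul, I2_smul, i1, i2]
    ring
  rw [tX, tY, tZ] at hpos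
  unfold A2 A3
  linarith

end Pool.Agent.Lib.MP_e63071_gt
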