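import Pool.Agent.Lib.MP_e63071_gt.CW
import Pool.Agent.Lib.MP_e63071_gt.CGreen
import Pool.Agent.Lib.MP_e63071_gt.CAxis

/-!
# The connected example: the contradiction
-/

set_option autoImplicit false

namespace Pool.Agent.Lib.MP_e63071_gt

open Matrix
open scoped ContDiff

variable {V : G3 → Fin 3 → ℝ}

/-! ### elements in one factor -/

lemma chi3_single0 (g : Gam) : ext3 (chi3 (Pi.mulSingle 0 g)) = ![chia g + chib g, chia g, chib g] := by
  have h0 : chi3 (Pi.mulSingle 0 g) 0 = chia g := by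
    rw [chi3_zero]
    unfold chia phir
    simp [cr_one]
  have h1 : chi3 (Pi.mulSingle 0 g) 1 = chib g := by
    rw [chi3_one']
    unfold chib phir
    simp [cr_one]
  funext i
  fin_cases i
  · show chi3 _ 0 + chi3 _ 1 = _
    rw [h0, h1]; rfl
  · exact h0
  · exact h1

lemma chi3_single1 (g : Gam) : ext3 (chi3 (Pi.mulSingle 1 g)) =
    ![3 / 8 * phir g, -(1 / 4) * phir g, 5 / 8 * phir g] := by
  have h0 : chi3 (Pi.mulSingle 1 g) 0 = -(1 / 4) * phir g := by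
    rw [chi3_zero]
    unfold chia phir
    simp [cr_one]
  have h1 : chi3 (Pi.mulSingle 1 g) 1 = 5 / 8 * phir g := by
    rw [chi3_one']
    unfold chib phir
    simp [cr_one]
  funext i
  fin_cases i
  · show chi3 _ 0 + chi3 _ 1 = 3 / 8 * phir g
    rw [h0, h1]; ring
  · exact h0
  · exact h1

lemma chi3_single2 (g : Gam) : ext3 (chi3 (Pi.mulSingle 2 g)) =
    ![3 / 8 * phir g, 5 / 8 * phir g, -(1 / 4) * phir g] := by
  have h0 : chi3 (Pi.mulSingle 2 g) 0 = 5 / 8 * phir g := by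
    rw [chi3_zero]
    unfold chia phir
    simp [cr_one]
  have h1 : chi3 (Pi.mulSingle 2 g) 1 = -(1 / 4) * phir g := by
    rw [chi3_one']
    unfold chib phir
    simp [cr_one]
  funext i
  fin_cases i
  · show chi3 _ 0 + chi3 _ 1 = 3 / 8 * phir g
    rw [h0, h1]; ring
  · exact h0
  · exact h1

lemma phir_gamA1 : phir (gamA 1) = 2 * d0 := by
  unfold phir
  rw [cr_gamA]
  simp
  ring

lemma emb3_single_apply (i k : Fin 3) (g : Gam) (h : G3) :
    (emb3 (Pi.mulSingle i g) * h) k = if k = i then emb g * h k else h k := by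
  show emb ((Pi.mulSingle i g : Fin 3 → Gam) k) * h k = _
  by_cases hk : k = i
  · subst hk
    rw [Pi.mulSingle_eq_same, if_pos rfl]
  · rw [Pi.mulSingle_eq_of_ne hk, if_neg hk, map_one, one_mul]

/-! ### the functions on the flats -/

/-- the frame -/
noncomputable def hB (B : G1) : G3 := ![B, Cax, Cax]

/-- components of `w` on the flat -/
noncomputable def FamC.pB (F : FamC V) (i : Fin 3) (B : G1) (v : Fin 3 → ℝ) : ℝ :=
  F.w (hB B * bst v) i

lemma FamC.pB_smooth (F : FamC V) (i : Fin 3) (B : G1) : ContDiff ℝ ∞ (F.pB i B) :=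
  contDiff_pi.1 (F.contDiff_w (hB B)) i

lemma FamC.Wm_apply (F : FamC V) (B : G1) (r : Fin 3 → ℝ) (i j : Fin 3) :
    F.Wm (hB B) r i j = pd j (F.pB i B) r := by
  unfold FamC.Wm pd
  rw [LinearMap.toMatrix'_apply]
  have h1 : HasFDerivAt (fun r => F.w (hB B * bst r))
      (fderiv ℝ (fun r => F.w (hB B * bst r)) r) r :=
    ((F.contDiff_w (hB B)).differentiable (by simp) r).hasFDerivAt
  have h2 : HasFDerivAt (F.pB i B) ((ContinuousLinearMap.proj i).comp
      (fderiv ℝ (fun r => F.w (hB B * bst r)) r)) r :=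
    (ContinuousLinearMap.proj (R := ℝ) (φ := fun _ : Fin 3 => ℝ) i).hasFDerivAt.comp r h1
  rw [h2.fderiv]
  rfl

lemma FamC.pB_sum (F : FamC V) (B : G1) : F.pB 0 B = fun v => F.pB 1 B v + F.pB 2 B v := by
  funext v
  exact F.w_S _

lemma FamC.pB_one (F : FamC V) (B : G1) (v : Fin 3 → ℝ) (i : Fin 3) :
    F.pB i B (v + Pi.single 1 (2 * d0)) = F.pB i B v +
      (![3 / 8 * (2 * d0), -(1 / 4) * (2 * d0), 5 / 8 * (2 * d0)] : Fin 3 → ℝ) i := by
  have h1 : hB B * bst (v + Pi.single 1 (2 * d0)) =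
      emb3 (Pi.mulSingle 1 (gamA 1)) * (hB B * bst v) := by
    funext k
    rw [emb3_single_apply]
    fin_cases k
    · show B * boost (v 0 + (Pi.single 1 (2 * d0) : Fin 3 → ℝ) 0) = _
      simp [hB, bst]
    · show Cax * boost (v 1 + (Pi.single 1 (2 * d0) : Fin 3 → ℝ) 1) = _
      rw [Pi.single_eq_same, add_comm, boost_add, ← mul_assoc, ← gamA1_Cax]
      simp [hB, bst, mul_assoc]
    · show Cax * boost (v 2 + (Pi.single 1 (2 * d0) : Fin 3 → ℝ) 2) = _
      simp [hB, bst]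
  unfold FamC.pB
  rw [h1, F.w_emb, chi3_single1, phir_gamA1]
  rfl

lemma FamC.pB_two (F : FamC V) (B : G1) (v : Fin 3 → ℝ) (i : Fin 3) :
    F.pB i B (v + Pi.single 2 (2 * d0)) = F.pB i B v +
      (![3 / 8 * (2 * d0), 5 / 8 * (2 * d0), -(1 / 4) * (2 * d0)] : Fin 3 → ℝ) i := by
  have h1 : hB B * bst (v + Pi.single 2 (2 * d0)) =
      emb3 (Pi.mulSingle 2 (gamA 1)) * (hB B * bst v) := by
    funext k
    rw [emb3_single_apply]
    fin_cases k
    · show B * boost (v 0 + (Pi.single 2 (2 * d0) : Fin 3 → ℝ) 0) = _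
      simp [hB, bst]
    · show Cax * boost (v 1 + (Pi.single 2 (2 * d0) : Fin 3 → ℝ) 1) = _
      simp [hB, bst]
    · show Cax * boost (v 2 + (Pi.single 2 (2 * d0) : Fin 3 → ℝ) 2) = _
      rw [Pi.single_eq_same, add_comm, boost_add, ← mul_assoc, ← gamA1_Cax]
      simp [hB, bst, mul_assoc]
  unfold FamC.pB
  rw [h1, F.w_emb, chi3_single2, phir_gamA1]
  rfl

lemma FamC.J_pos (F : FamC V) (B : G1) (b : Fin 3 → Bool) (v : Fin 3 → ℝ) :
    0 < 1 - sg b 1 * pd 1 (F.pB 1 B) v - sg b 2 * pd 2 (F.pB 2 B) v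
      + sg b 1 * sg b 2 * (pd 1 (F.pB 1 B) v * pd 2 (F.pB 2 B) v
        - pd 2 (F.pB 1 B) v * pd 1 (F.pB 2 B) v)
      - sg b 0 * (pd 0 (F.pB 1 B) v + pd 0 (F.pB 2 B) v
        + sg b 1 * (pd 0 (F.pB 1 B) v * pd 1 (F.pB 2 B) v
          - pd 1 (F.pB 1 B) v * pd 0 (F.pB 2 B) v)
        - sg b 2 * (pd 0 (F.pB 1 B) v * pd 2 (F.pB 2 B) v
          - pd 2 (F.pB 1 B) v * pd 0 (F.pB 2 B) v)) := by
  have h1 := F.Wm_pos (hB B) v b
  have h0 : ∀ j, F.Wm (hB B) v 0 j = pd j (F.pB 1 B) v + pd j (F.pB 2 B) v := by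
    intro j
    rw [F.Wm_apply, F.pB_sum, pd_add (F.pB_smooth 1 B) (F.pB_smooth 2 B)]
  refine lt_of_lt_of_eq h1 ?_
  rw [Matrix.det_fin_three]
  simp only [Matrix.sub_apply, Matrix.mul_diagonal, Matrix.one_apply, h0, F.Wm_apply]
  simp
  ring

/-! ### the functionals on the first factor -/

noncomputable def FamC.W0 (F : FamC V) (B : G1) : ℝ := A0 (2 * d0) (F.pB 1 B) (F.pB 2 B) 0
noncomputable def FamC.W2 (F : FamC V) (B : G1) : ℝ :=
  A2 (2 * d0) (-(1 / 4)) (F.pB 1 B) (F.pB 2 B) 0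
noncomputable def FamC.W3 (F : FamC V) (B : G1) : ℝ :=
  A3 (2 * d0) (5 / 8) (F.pB 1 B) (F.pB 2 B) 0

lemma FamC.pB_shift (F : FamC V) (i : Fin 3) (B : G1) (x : ℝ) (v : Fin 3 → ℝ) :
    F.pB i B (v + Pi.single 0 x) = F.pB i (B * boost x) v := by
  unfold FamC.pB
  have : hB B * bst (v + Pi.single 0 x) = hB (B * boost x) * bst v := by
    funext k
    fin_cases k
    · show B * boost (v 0 + (Pi.single 0 x : Fin 3 → ℝ) 0) = B * boost x * boost (v 0)
      rw [Pi.single_eq_same, add_comm, boost_add, mul_assoc]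
    · show Cax * boost (v 1 + (Pi.single 0 x : Fin 3 → ℝ) 1) = Cax * boost (v 1)
      simp
    · show Cax * boost (v 2 + (Pi.single 0 x : Fin 3 → ℝ) 2) = Cax * boost (v 2)
      simp
  rw [this]

lemma FamC.pd_shift (F : FamC V) (i j : Fin 3) (B : G1) (x : ℝ) (v : Fin 3 → ℝ) :
    pd j (F.pB i B) (v + Pi.single 0 x) = pd j (F.pB i (B * boost x)) v := by
  unfold pd
  rw [← fderiv_comp_add_right]
  have : (fun v => F.pB i B (v + Pi.single 0 x)) = F.pB i (B * boost x) :=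
    funext (F.pB_shift i B x)
  rw [this]

lemma vx (x y z : ℝ) : (![x, y, z] : Fin 3 → ℝ) = ![0, y, z] + Pi.single 0 x := by
  funext i
  fin_cases i <;> simp

lemma FamC.A0_shift (F : FamC V) (B : G1) (x : ℝ) :
    A0 (2 * d0) (F.pB 1 B) (F.pB 2 B) x = F.W0 (B * boost x) := by
  unfold FamC.W0 A0
  congr 1
  funext y z
  rw [vx x, F.pB_shift, F.pB_shift]

lemma FamC.A2_shift (F : FamC V) (B : G1) (x : ℝ) :
    A2 (2 * d0) (-(1 / 4)) (F.pB 1 B) (F.pB 2 B) x = F.W2 (B * boost x) := by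
  unfold FamC.W2 A2
  have h1 : (fun y z => F.pB 1 B ![x, y, z] * pd 1 (F.pB 2 B) ![x, y, z]) = fun y z =>
      F.pB 1 (B * boost x) ![0, y, z] * pd 1 (F.pB 2 (B * boost x)) ![0, y, z] := by
    funext y z
    rw [vx x, F.pB_shift, F.pd_shift]
  have h2 : (fun z => F.pB 2 B ![x, 0, z]) = fun z => F.pB 2 (B * boost x) ![0, 0, z] := by
    funext z
    rw [vx x, F.pB_shift]
  rw [h1, h2]

lemma FamC.A3_shift (F : FamC V) (B : G1) (x : ℝ) :
    A3 (2 * d0) (5 / 8) (F.pB 1 B) (F.pB 2 B) x = F.W3 (B * boost x) := by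
  unfold FamC.W3 A3
  have h1 : (fun y z => F.pB 1 B ![x, y, z] * pd 2 (F.pB 2 B) ![x, y, z]) = fun y z =>
      F.pB 1 (B * boost x) ![0, y, z] * pd 2 (F.pB 2 (B * boost x)) ![0, y, z] := by
    funext y z
    rw [vx x, F.pB_shift, F.pd_shift]
  have h2 : (fun y => F.pB 2 B ![x, y, 0]) = fun y => F.pB 2 (B * boost x) ![0, y, 0] := by
    funext y
    rw [vx x, F.pB_shift]
  rw [h1, h2]

/-- the Lipschitz estimate -/
lemma FamC.lip (F : FamC V) (B : G1) {r : ℝ} (hr : 0 < r) (b : Fin 3 → Bool) :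
    sg b 0 * ((F.W0 (B * boost r) + sg b 1 * F.W2 (B * boost r) - sg b 2 * F.W3 (B * boost r))
      - (F.W0 B + sg b 1 * F.W2 B - sg b 2 * F.W3 B)) <
      (2 * d0) ^ 2 * r * Kf (sg b 1) (sg b 2) := by
  have h1 := green (F.pB_smooth 1 B) (F.pB_smooth 2 B) (P := 2 * d0) (r := r)
    (a2 := -(1 / 4)) (b2 := 5 / 8) (a3 := 5 / 8) (b3 := -(1 / 4))
    (e1 := sg b 0) (e2 := sg b 1) (e3 := sg b 2) (by have := d0_pos; linarith) hr
    (fun v => by rw [F.pB_one B v 1]; simp; ring) (fun v => by rw [F.pB_one B v 2]; simp; ring)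
    (fun v => by rw [F.pB_two B v 1]; simp; ring) (fun v => by rw [F.pB_two B v 2]; simp; ring)
    (F.J_pos B b)
  rw [F.A0_shift, F.A2_shift, F.A3_shift, F.A0_shift, F.A2_shift, F.A3_shift, boost_zero,
    mul_one] at h1
  refine lt_of_lt_of_eq h1 ?_
  unfold Kf
  ring

/-- invariance under rotations -/
lemma FamC.pB_rot (F : FamC V) (i : Fin 3) (B : G1) (θ y z : ℝ) :
    F.pB i (B * rot θ) ![0, y, z] = F.pB i B ![0, y, z] := by
  unfold FamC.pB
  have : hB (B * rot θ) * bst ![0, y, z] = hB B * bst ![0, y, z] * rt ![θ, 0, 0] := by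
    funext k
    fin_cases k
    · show B * rot θ * boost 0 = B * boost 0 * rot θ
      rw [boost_zero, mul_one, mul_one]
    · show Cax * boost y = Cax * boost y * rot 0
      rw [rot_zero, mul_one]
    · show Cax * boost z = Cax * boost z * rot 0
      rw [rot_zero, mul_one]
  rw [this, F.w_rt]

lemma pd1_congr {p q : (Fin 3 → ℝ) → ℝ} (hp : ContDiff ℝ ∞ p) (hq : ContDiff ℝ ∞ q)
    (h : ∀ y z, p ![0, y, z] = q ![0, y, z]) (y z : ℝ) :
    pd 1 p ![0, y, z] = pd 1 q ![0, y, z] := by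
  have h1 := hasDerivAt_1 hp 0 y z
  have h2 := hasDerivAt_1 hq 0 y z
  have h3 : (fun y => p ![0, y, z]) = fun y => q ![0, y, z] := funext fun y => h y z
  rw [h3] at h1
  exact h1.unique h2

lemma pd2_congr {p q : (Fin 3 → ℝ) → ℝ} (hp : ContDiff ℝ ∞ p) (hq : ContDiff ℝ ∞ q)
    (h : ∀ y z, p ![0, y, z] = q ![0, y, z]) (y z : ℝ) :
    pd 2 p ![0, y, z] = pd 2 q ![0, y, z] := by
  have h1 := hasDerivAt_2 hp 0 y z
  have h2 := hasDerivAt_2 hq 0 y z
  have h3 : (fun z => p ![0, y, z]) = fun z => q ![0, y, z] := funext fun z => h y z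
  rw [h3] at h1
  exact h1.unique h2

lemma FamC.W_rot (F : FamC V) (B : G1) (θ : ℝ) :
    F.W0 (B * rot θ) = F.W0 B ∧ F.W2 (B * rot θ) = F.W2 B ∧ F.W3 (B * rot θ) = F.W3 B := by
  have e1 := pd1_congr (F.pB_smooth 2 (B * rot θ)) (F.pB_smooth 2 B) (F.pB_rot 2 B θ)
  have e2 := pd2_congr (F.pB_smooth 2 (B * rot θ)) (F.pB_smooth 2 B) (F.pB_rot 2 B θ)
  unfold FamC.W0 FamC.W2 FamC.W3 A0 A2 A3
  simp only [F.pB_rot, e1, e2]
  exact ⟨trivial, trivial, trivial⟩

/-- equivariance in the first factor -/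
lemma FamC.pB_emb (F : FamC V) (g : Gam) (B : G1) (v : Fin 3 → ℝ) (i : Fin 3) :
    F.pB i (emb g * B) v = F.pB i B v + (![chia g + chib g, chia g, chib g] : Fin 3 → ℝ) i := by
  unfold FamC.pB
  have : hB (emb g * B) * bst v = emb3 (Pi.mulSingle 0 g) * (hB B * bst v) := by
    funext k
    rw [emb3_single_apply]
    fin_cases k
    · show emb g * B * boost (v 0) = _
      simp [hB, bst, mul_assoc]
    · simp [hB, bst]
    · simp [hB, bst]
  rw [this, F.w_emb, chi3_single0]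
  rfl

lemma pd_add_const {p q : (Fin 3 → ℝ) → ℝ} {c : ℝ} (h : ∀ v, p v = q v + c) (j : Fin 3)
    (v : Fin 3 → ℝ) : pd j p v = pd j q v := by
  unfold pd
  have : p = fun v => q v + c := funext h
  rw [this, fderiv_add_const]

lemma FamC.W0_emb (F : FamC V) (g : Gam) (B : G1) :
    F.W0 (emb g * B) = F.W0 B + (2 * d0) ^ 2 * (chia g + chib g) := by
  unfold FamC.W0 A0
  have h1 : (fun y z => F.pB 1 (emb g * B) ![0, y, z] + F.pB 2 (emb g * B) ![0, y, z]) =
      fun y z => (F.pB 1 B ![0, y, z] + F.pB 2 B ![0, y, z]) + (chia g + chib g) := by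
    funext y z
    rw [F.pB_emb, F.pB_emb]
    simp
    ring
  have c1 : Continuous (Function.uncurry fun y z => F.pB 1 B ![0, y, z] + F.pB 2 B ![0, y, z]) :=
    cadd (cont_c1 (F.pB_smooth 1 B).continuous 0) (cont_c1 (F.pB_smooth 2 B).continuous 0)
  have c2 : Continuous (Function.uncurry fun (_ _ : ℝ) => chia g + chib g) := continuous_const
  rw [h1, I2_add c1 c2, I2_const]
  ring

lemma FamC.int_pd1 (F : FamC V) (B : G1) :
    I2 0 (2 * d0) 0 (2 * d0) (fun y z => pd 1 (F.pB 2 B) ![0, y, z]) = (2 * d0) ^ 2 * (5 / 8) := by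
  have hd : (0:ℝ) ≤ 2 * d0 := by have := d0_pos; linarith
  unfold I2
  rw [swap_int (fun y z => pd 1 (F.pB 2 B) ![0, y, z])
    (cont_c1 (contDiff_pd (F.pB_smooth 2 B) 1).continuous 0) hd hd]
  have h1 : ∀ z : ℝ, ∫ y in (0:ℝ)..(2 * d0), pd 1 (F.pB 2 B) ![0, y, z] = 5 / 8 * (2 * d0) := by
    intro z
    rw [int_1 (F.pB_smooth 2 B)]
    have e1 : (![0, 2 * d0, z] : Fin 3 → ℝ) = ![0, 0, z] + Pi.single 1 (2 * d0) := by
      funext i
      fin_cases i <;> simp
    rw [e1, F.pB_one]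
    simp
  simp only [h1, intervalIntegral.integral_const, smul_eq_mul]
  ring

lemma FamC.int_pd2 (F : FamC V) (B : G1) :
    I2 0 (2 * d0) 0 (2 * d0) (fun y z => pd 2 (F.pB 2 B) ![0, y, z]) =
      (2 * d0) ^ 2 * (-(1 / 4)) := by
  unfold I2
  have h1 : ∀ y : ℝ, ∫ z in (0:ℝ)..(2 * d0), pd 2 (F.pB 2 B) ![0, y, z] =
      -(1 / 4) * (2 * d0) := by
    intro y
    rw [int_2 (F.pB_smooth 2 B)]
    have e1 : (![0, y, 2 * d0] : Fin 3 → ℝ) = ![0, y, 0] + Pi.single 2 (2 * d0) := by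
      funext i
      fin_cases i <;> simp
    rw [e1, F.pB_two]
    simp
  simp only [h1, intervalIntegral.integral_const, smul_eq_mul]
  ring

lemma FamC.W2_emb (F : FamC V) (g : Gam) (B : G1) :
    F.W2 (emb g * B) = F.W2 B + (2 * d0) ^ 2 * (5 / 8 * chia g + 1 / 4 * chib g) := by
  unfold FamC.W2 A2
  have hpd : ∀ v, pd 1 (F.pB 2 (emb g * B)) v = pd 1 (F.pB 2 B) v :=
    pd_add_const (fun v => F.pB_emb g B v 2) 1
  have h1 : (fun y z => F.pB 1 (emb g * B) ![0, y, z] * pd 1 (F.pB 2 (emb g * B)) ![0, y, z]) =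
      fun y z => (F.pB 1 B ![0, y, z] * pd 1 (F.pB 2 B) ![0, y, z]) +
        chia g * pd 1 (F.pB 2 B) ![0, y, z] := by
    funext y z
    rw [hpd, F.pB_emb]
    simp
    ring
  have c1 : Continuous (Function.uncurry fun y z =>
      F.pB 1 B ![0, y, z] * pd 1 (F.pB 2 B) ![0, y, z]) :=
    cont_c1 ((F.pB_smooth 1 B).mul (contDiff_pd (F.pB_smooth 2 B) 1)).continuous 0
  have c2 : Continuous (Function.uncurry fun y z => chia g * pd 1 (F.pB 2 B) ![0, y, z]) :=
    continuous_const.mul (cont_c1 (contDiff_pd (F.pB_smooth 2 B) 1).continuous 0)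
  have h2 : (fun z => F.pB 2 (emb g * B) ![0, 0, z]) = fun z => F.pB 2 B ![0, 0, z] + chib g := by
    funext z
    rw [F.pB_emb]
    simp
  have h3 : ∫ z in (0:ℝ)..(2 * d0), (F.pB 2 B ![0, 0, z] + chib g) =
      (∫ z in (0:ℝ)..(2 * d0), F.pB 2 B ![0, 0, z]) + 2 * d0 * chib g := by
    have i1 : IntervalIntegrable (fun z => F.pB 2 B ![0, 0, z]) MeasureTheory.volume 0 (2 * d0) :=
      (cont_of (F.pB_smooth 2 B) continuous_const continuous_const
        continuous_id).intervalIntegrable _ _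
    rw [intervalIntegral.integral_add i1 (continuous_const.intervalIntegrable _ _)]
    simp
  rw [h1, I2_add c1 c2, I2_smul, F.int_pd1, h2, h3]
  ring

lemma FamC.W3_emb (F : FamC V) (g : Gam) (B : G1) :
    F.W3 (emb g * B) = F.W3 B - (2 * d0) ^ 2 * (1 / 4 * chia g + 5 / 8 * chib g) := by
  unfold FamC.W3 A3
  have hpd : ∀ v, pd 2 (F.pB 2 (emb g * B)) v = pd 2 (F.pB 2 B) v :=
    pd_add_const (fun v => F.pB_emb g B v 2) 2
  have h1 : (fun y z => F.pB 1 (emb g * B) ![0, y, z] * pd 2 (F.pB 2 (emb g * B)) ![0, y, z]) =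
      fun y z => (F.pB 1 B ![0, y, z] * pd 2 (F.pB 2 B) ![0, y, z]) +
        chia g * pd 2 (F.pB 2 B) ![0, y, z] := by
    funext y z
    rw [hpd, F.pB_emb]
    simp
    ring
  have c1 : Continuous (Function.uncurry fun y z =>
      F.pB 1 B ![0, y, z] * pd 2 (F.pB 2 B) ![0, y, z]) :=
    cont_c1 ((F.pB_smooth 1 B).mul (contDiff_pd (F.pB_smooth 2 B) 2)).continuous 0
  have c2 : Continuous (Function.uncurry fun y z => chia g * pd 2 (F.pB 2 B) ![0, y, z]) :=
    continuous_const.mul (cont_c1 (contDiff_pd (F.pB_smooth 2 B) 2).continuous 0)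
  have h2 : (fun y => F.pB 2 (emb g * B) ![0, y, 0]) = fun y => F.pB 2 B ![0, y, 0] + chib g := by
    funext y
    rw [F.pB_emb]
    simp
  have h3 : ∫ y in (0:ℝ)..(2 * d0), (F.pB 2 B ![0, y, 0] + chib g) =
      (∫ y in (0:ℝ)..(2 * d0), F.pB 2 B ![0, y, 0]) + 2 * d0 * chib g := by
    have i1 : IntervalIntegrable (fun y => F.pB 2 B ![0, y, 0]) MeasureTheory.volume 0 (2 * d0) :=
      (cont_of (F.pB_smooth 2 B) continuous_const continuous_id
        continuous_const).intervalIntegrable _ _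
    rw [intervalIntegral.integral_add i1 (continuous_const.intervalIntegrable _ _)]
    simp
  rw [h1, I2_add c1 c2, I2_smul, F.int_pd2, h2, h3]
  ring

/-! ### the contradiction -/

/-- the values on the three geodesics of the theta graph -/
lemma FamC.theta (F : FamC V) (j : Fin 3) :
    F.W0 (Bj j * boost R0) - F.W0 (Bj j) = (F.W0 (boost R0) - F.W0 1)
        + (2 * d0) ^ 2 * (chia (gamA j) + chib (gamA j)) ∧
    F.W2 (Bj j * boost R0) - F.W2 (Bj j) = (F.W2 (boost R0) - F.W2 1)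
        + (2 * d0) ^ 2 * (5 / 8 * chia (gamA j) + 1 / 4 * chib (gamA j)) ∧
    F.W3 (Bj j * boost R0) - F.W3 (Bj j) = (F.W3 (boost R0) - F.W3 1)
        - (2 * d0) ^ 2 * (1 / 4 * chia (gamA j) + 5 / 8 * chib (gamA j)) := by
  obtain ⟨φ, hφ⟩ := Bj_rot j
  have hB0 : Bj 0 = 1 := by unfold Bj; simp
  obtain ⟨θ, hθ⟩ := gamA_rel j
  rw [hB0, one_mul] at hθ
  obtain ⟨a0, a2, a3⟩ := F.W_rot (Bj j * boost R0) θ
  obtain ⟨b0, b2, b3⟩ := F.W_rot 1 φ
  rw [one_mul, ← hφ] at b0 b2 b3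
  rw [← a0, ← a2, ← a3, ← hθ, b0, b2, b3, F.W0_emb, F.W2_emb, F.W3_emb]
  refine ⟨by ring, by ring, by ring⟩

theorem FamC.contra (F : FamC V) : False := by
  have hR := R0_pos
  have hd := d0_pos
  -- the relations on the three geodesics
  obtain ⟨a0, a2, a3⟩ := F.theta 0
  obtain ⟨b0, b2, b3⟩ := F.theta 1
  obtain ⟨c0, c2, c3⟩ := F.theta 2
  have k1 := F.lip (Bj 0) hR ![true, false, false]
  have k2 := F.lip (Bj 0) hR ![true, true, true]
  have k3 := F.lip (Bj 2) hR ![false, false, true]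
  have k4 := F.lip (Bj 1) hR ![false, true, false]
  simp only [sg] at k1 k2 k3 k4
  simp at k1 k2 k3 k4
  have p1 : chia (gamA 0) = 0 := by unfold chia; rw [cr_gamA, cr_gamA]; simp
  have p2 : chib (gamA 0) = 0 := by unfold chib; rw [cr_gamA, cr_gamA]; simp
  rw [p1, p2] at a0 a2 a3
  have q1 := psi_pm (gamA 2)
  have q2 := psi_mp (gamA 1)
  rw [cr_gamA] at q1 q2
  unfold psi at q1 q2
  simp at q1 q2
  unfold Kf at k1 k2 k3 k4
  set D := (2 * d0) ^ 2 with hD
  have hDR : 0 < D * R0 := by positivity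
  have q1' := congrArg (fun t => D * t) q1
  have q2' := congrArg (fun t => D * t) q2
  nlinarith

end Pool.Agent.Lib.MP_e63071_gt
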