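import Pool.Agent.Lib.MP_e63071_gt.CTwist

/-!
# The connected example: properness and cocompactness
-/

set_option autoImplicit false

namespace Pool.Agent.Lib.MP_e63071_gt

open Matrix

lemma ext3_0 (v : Fin 2 → ℝ) : ext3 v 0 = v 0 + v 1 := rfl
lemma ext3_1 (v : Fin 2 → ℝ) : ext3 v 1 = v 0 := rfl
lemma ext3_2 (v : Fin 2 → ℝ) : ext3 v 2 = v 1 := rfl

lemma chia_bound {g : Gam} {T : ℝ} (h : ∀ j, d0 * |cr g j| ≤ T) :
    |chia g| ≤ 2 * T ∧ |chib g| ≤ 2 * T := by
  have hd := d0_pos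
  have hR := R0_pos
  have hT : 0 ≤ T := le_trans (by positivity) (h 0)
  have key : ∀ j, R0 * |cr g j| ≤ 5 / 4 * T := by
    intro j
    have h1 := four_R0_lt
    have h2 := h j
    have h3 : 4 * R0 * |cr g j| ≤ 5 * d0 * |cr g j| :=
      mul_le_mul_of_nonneg_right h1.le (abs_nonneg _)
    nlinarith
  have k1 := key 1
  have k2 := key 2
  have e1 : |R0 * cr g 1| ≤ 5 / 4 * T := by rw [abs_mul, abs_of_pos hR]; exact k1
  have e2 : |R0 * cr g 2| ≤ 5 / 4 * T := by rw [abs_mul, abs_of_pos hR]; exact k2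
  obtain ⟨a1, a2⟩ := abs_le.1 e1
  obtain ⟨b1, b2⟩ := abs_le.1 e2
  unfold chia chib
  constructor
  · have : R0 / 12 * (11 * cr g 2 - 5 * cr g 1) = 11 / 12 * (R0 * cr g 2) - 5 / 12 * (R0 * cr g 1) := by
      ring
    rw [this, abs_le]; constructor <;> linarith
  · have : R0 / 12 * (11 * cr g 1 - 5 * cr g 2) = 11 / 12 * (R0 * cr g 1) - 5 / 12 * (R0 * cr g 2) := by
      ring
    rw [this, abs_le]; constructor <;> linarith

lemma cr_le_log (g : Gam) (j : Fin 3) :
    d0 * |cr g j| ≤ Real.log (2 * mt (emb g) 2 2) + d0 := by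
  obtain ⟨t, ht, h⟩ := exists_cosh (one_le_22 (emb g))
  have h1 := cr_bound g j ht h
  have h2 := le_log_cosh t
  rw [h] at h2
  have h3 := mul_le_mul_of_nonneg_left h1 d0_pos.le
  have h4 : d0 * (t / d0 + 1) = t + d0 := by have := d0_pos; field_simp
  linarith

/-- upper bound of `emb g` from a relation -/
lemma rel_22 {M : ℝ} {g : Gam} {b b' : G1} {y : ℝ}
    (hb : mt b 2 2 ≤ M) (hb' : mt b' 2 2 ≤ M) (h : emb g * b * boost (-y) = b') :
    mt (emb g) 2 2 ≤ 4 * M * M * Real.exp |y| := by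
  have h1 : emb g = b' * boost y * b⁻¹ := by
    rw [← h, boost_neg]; group
  have e1 := mul_22_le (b' * boost y) b⁻¹
  have e2 := mul_22_le b' (boost y)
  rw [← h1] at e1
  rw [inv_22] at e1
  rw [boost_22] at e2
  have e3 := cosh_le_exp_abs y
  have b1 := one_le_22 b
  have b2 := one_le_22 b'
  have c1 := Real.one_le_cosh y
  have hM0 : 0 ≤ M := by linarith
  calc mt (emb g) 2 2 ≤ 2 * mt (b' * boost y) 2 2 * mt b 2 2 := e1
    _ ≤ 2 * (2 * mt b' 2 2 * Real.cosh y) * mt b 2 2 := by gcongr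
    _ ≤ 2 * (2 * M * Real.exp |y|) * M := by gcongr
    _ = 4 * M * M * Real.exp |y| := by ring

/-- properness estimate -/
lemma bound_of_relC (M : ℝ) (hM : 1 ≤ M) : ∃ C, ∀ (g : Fin 3 → Gam) (b b' : G3),
    (∀ i, mt (b i) 2 2 ≤ M) → (∀ i, mt (b' i) 2 2 ≤ M) →
    (∀ i, emb (g i) * b i * boost (- ext3 (chi3 g) i) = b' i) →
    ∀ i, mt (emb (g i)) 2 2 ≤ C := by
  set D : ℝ := Real.log (2 * (4 * M * M)) + d0 with hD
  have hD0 : 0 ≤ D := by
    have h1 : 0 ≤ Real.log (2 * (4 * M * M)) := Real.log_nonneg (by nlinarith)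
    have := d0_pos
    rw [hD]; linarith
  have hq := qc_lt_one
  have hq0 := qc_pos
  set Y0 : ℝ := 21 * D / (1 - qc) with hY0
  have hY00 : 0 ≤ Y0 := div_nonneg (by linarith) (by linarith)
  set Y : ℝ := 11 * (4 * (Y0 + D) + 2 * D) with hY
  refine ⟨4 * M * M * Real.exp (max Y0 Y), ?_⟩
  intro g b b' hb hb' hrel
  set y := ext3 (chi3 g) with hy
  have h22 : ∀ i, mt (emb (g i)) 2 2 ≤ 4 * M * M * Real.exp |y i| :=
    fun i => rel_22 (hb i) (hb' i) (hrel i)
  have hc : ∀ i j, d0 * |cr (g i) j| ≤ |y i| + D := by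
    intro i j
    refine (cr_le_log (g i) j).trans ?_
    have h1 : 0 < mt (emb (g i)) 2 2 := by have := one_le_22 (emb (g i)); linarith
    have h2 : Real.log (2 * mt (emb (g i)) 2 2) ≤ Real.log (2 * (4 * M * M) * Real.exp |y i|) := by
      apply Real.log_le_log (by linarith)
      have := h22 i
      linarith
    rw [Real.log_mul (by positivity) (Real.exp_pos _).ne', Real.log_exp] at h2
    rw [hD]; linarith
  have hx1 : |phir (g 1)| ≤ |y 1| + D := by
    unfold phir
    rw [abs_mul, abs_of_pos d0_pos]; exact hc 1 1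
  have hx2 : |phir (g 2)| ≤ |y 2| + D := by
    unfold phir
    rw [abs_mul, abs_of_pos d0_pos]; exact hc 2 1
  have e1 : y 1 = chia (g 0) - 1 / 4 * phir (g 1) + 5 / 8 * phir (g 2) := rfl
  have e2 : y 2 = chib (g 0) + 5 / 8 * phir (g 1) - 1 / 4 * phir (g 2) := rfl
  have e0 : y 0 = y 1 + y 2 := rfl
  obtain ⟨l1, l2, l3⟩ := lin (T := |y 0| + D) hD0 hx1 hx2 e1 e2
  have l1' := l1 (corner_of (hc 0))
  rw [← e0] at l1'
  have b0 : |y 0| ≤ Y0 := by
    rw [hY0, le_div_iff₀ (by linarith)]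
    nlinarith
  obtain ⟨c1, c2⟩ := chia_bound (hc 0)
  have b1 : |y 1| ≤ Y := by rw [hY]; linarith
  have b2 : |y 2| ≤ Y := by rw [hY]; linarith
  have ball : ∀ i, |y i| ≤ max Y0 Y := by
    intro i
    fin_cases i
    · exact b0.trans (le_max_left _ _)
    · exact b1.trans (le_max_right _ _)
    · exact b2.trans (le_max_right _ _)
  intro i
  refine (h22 i).trans ?_
  have := Real.exp_le_exp.2 (ball i)
  gcongr

/-- approximate fixed points of coarse contractions -/
lemma coarse_fixed {E : Type*} [SeminormedAddCommGroup E] (Θ : E → E) (c : ℝ)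
    (h : ∀ x y, ‖Θ x - Θ y‖ ≤ 7 / 8 * ‖x - y‖ + c) : ∃ x, ‖Θ x - x‖ ≤ 8 * c + 1 := by
  set d : ℕ → ℝ := fun n => ‖Θ (Θ^[n] 0) - Θ^[n] 0‖ with hd
  have hstep : ∀ n, d (n + 1) ≤ 7 / 8 * d n + c := by
    intro n
    simp only [hd]
    rw [Function.iterate_succ_apply']
    exact h _ _
  have hbd : ∀ n, d n ≤ (7 / 8) ^ n * d 0 + 8 * c := by
    intro n
    induction n with
    | zero =>
      have h0 := h 0 0
      have hc : 0 ≤ c := by simpa using h0
      rw [pow_zero, one_mul]; linarith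
    | succ n ih =>
      have := hstep n
      rw [pow_succ]; linarith
  have hlim : Filter.Tendsto (fun n : ℕ => (7 / 8 : ℝ) ^ n * d 0) Filter.atTop (nhds (0 * d 0)) :=
    (tendsto_pow_atTop_nhds_zero_of_lt_one (by norm_num) (by norm_num)).mul_const _
  rw [zero_mul] at hlim
  obtain ⟨n, hn⟩ := (hlim.eventually (gt_mem_nhds (show (0:ℝ) < 1 by norm_num))).exists
  exact ⟨Θ^[n] 0, by have := hbd n; linarith⟩

/-- zeros of coarsely continuous functions -/
lemma coarse_zero (f : ℝ → ℝ) (q M : ℝ) (hq : q < 1)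
    (h : ∀ s t : ℝ, |(f s - s) - (f t - t)| ≤ q * |s - t| + M) :
    ∃ s, |f s| ≤ 1 + |q| + M := by
  have hstep : ∀ s t : ℝ, |s - t| = 1 → |f s - f t| ≤ 1 + |q| + M := by
    intro s t hst
    have h1 := h s t
    rw [hst, mul_one] at h1
    have h2 : f s - f t = ((f s - s) - (f t - t)) + (s - t) := by ring
    rw [h2]
    refine (abs_add_le _ _).trans ?_
    rw [hst]
    have := le_abs_self q
    linarith
  obtain ⟨n, hn⟩ := exists_nat_gt ((|f 0| + M) / (1 - q))
  rw [div_lt_iff₀ (by linarith)] at hn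
  have hn0 : (0 : ℝ) ≤ n := Nat.cast_nonneg n
  rcases le_total (f 0) 0 with h0 | h0
  · obtain ⟨k, hk0, hk1⟩ := discrete_ivt (fun k => f k) (1 + |q| + M) (by simpa using h0)
      (by
        intro k
        have := hstep ((k : ℝ) + 1) k (by rw [add_sub_cancel_left, abs_one])
        push_cast
        exact (abs_le.1 this).2)
      ⟨n, by
        have h1 := h n 0
        rw [sub_zero, sub_zero, abs_of_nonneg hn0] at h1
        have h2 := (abs_le.1 h1).1
        have h3 := neg_abs_le (f 0)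
        linarith⟩
    exact ⟨k, by rw [abs_of_nonneg hk0]; exact hk1⟩
  · obtain ⟨k, hk0, hk1⟩ := discrete_ivt (fun k => - f (-k)) (1 + |q| + M) (by simpa using h0)
      (by
        intro k
        have := hstep (-((k : ℝ) + 1)) (-k) (by
          rw [show -((k:ℝ) + 1) - -k = -1 by ring, abs_neg, abs_one])
        push_cast
        have := (abs_le.1 this).1
        linarith)
      ⟨n, by
        have h1 := h (-n) 0
        rw [sub_zero, sub_zero, abs_neg, abs_of_nonneg hn0] at h1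
        have h2 := (abs_le.1 h1).2
        have h3 := le_abs_self (f 0)
        linarith⟩
    refine ⟨-k, ?_⟩
    rw [← abs_neg, abs_of_nonneg hk0]
    exact hk1

/-- coarse Lipschitz estimate for a choice of group elements along an orbit -/
lemma cr_diff {C0 : ℝ} (hC0 : 1 ≤ C0) {h : G1} {γ : ℝ → Gam}
    (hγ : ∀ s, mt (emb (γ s) * h * boost s) 2 2 ≤ C0) (s t : ℝ) (j : Fin 3) :
    d0 * |cr (γ s * (γ t)⁻¹) j| ≤ |s - t| + (Real.log (2 * (4 * C0 * C0)) + d0) := by
  refine (cr_le_log _ j).trans ?_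
  have e2 : emb (γ s * (γ t)⁻¹) =
      (emb (γ s) * h * boost s) * boost (t - s) * (emb (γ t) * h * boost t)⁻¹ := by
    rw [map_mul, map_inv, mul_assoc _ (boost s), ← boost_add, add_sub_cancel]
    group
  have e3 : mt (emb (γ s * (γ t)⁻¹)) 2 2 ≤ 4 * C0 * C0 * Real.exp |s - t| := by
    rw [e2]
    have f1 := mul_22_le ((emb (γ s) * h * boost s) * boost (t - s)) (emb (γ t) * h * boost t)⁻¹
    have f2 := mul_22_le (emb (γ s) * h * boost s) (boost (t - s))
    rw [inv_22] at f1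
    rw [boost_22] at f2
    have f3 := hγ s
    have f4 := hγ t
    have f5 := one_le_22 (emb (γ s) * h * boost s)
    have f6 := one_le_22 (emb (γ t) * h * boost t)
    have f7 : Real.cosh (t - s) ≤ Real.exp |s - t| := by
      rw [← Real.cosh_neg, neg_sub]; exact cosh_le_exp_abs _
    have f8 := Real.one_le_cosh (t - s)
    calc _ ≤ 2 * mt (emb (γ s) * h * boost s * boost (t - s)) 2 2 *
          mt (emb (γ t) * h * boost t) 2 2 := f1
      _ ≤ 2 * (2 * mt (emb (γ s) * h * boost s) 2 2 * Real.cosh (t - s)) *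
          mt (emb (γ t) * h * boost t) 2 2 := by gcongr
      _ ≤ 2 * (2 * C0 * Real.exp |s - t|) * C0 := by gcongr
      _ = _ := by ring
  have f9 := one_le_22 (emb (γ s * (γ t)⁻¹))
  have f10 : Real.log (2 * mt (emb (γ s * (γ t)⁻¹)) 2 2) ≤
      Real.log (2 * (4 * C0 * C0) * Real.exp |s - t|) :=
    Real.log_le_log (by linarith) (by linarith)
  rw [Real.log_mul (by positivity) (Real.exp_pos _).ne', Real.log_exp] at f10
  linarith

lemma cr_div (g h : Gam) (j : Fin 3) : cr (g * h⁻¹) j = cr g j - cr h j := by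
  rw [cr_mul, cr_inv]; ring

lemma phir_div (g h : Gam) : phir (g * h⁻¹) = phir g - phir h := by
  unfold phir; rw [cr_div]; ring

lemma chia_div (g h : Gam) : chia (g * h⁻¹) = chia g - chia h := by
  unfold chia; rw [cr_div, cr_div]; ring

lemma chib_div (g h : Gam) : chib (g * h⁻¹) = chib g - chib h := by
  unfold chib; rw [cr_div, cr_div]; ring

/-- cocompactness in coordinates -/
theorem cocompact_coordC : ∃ C, ∀ h : G3, ∃ g : Fin 3 → Gam,
    ∀ i, mt (emb (g i) * h i * boost (- ext3 (chi3 g) i)) 2 2 ≤ C := by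
  obtain ⟨C0, hC0⟩ := Gam_cocompact
  have hC1 : 1 ≤ C0 := by
    obtain ⟨γ, h⟩ := hC0 1
    exact (one_le_22 _).trans h
  set D : ℝ := Real.log (2 * (4 * C0 * C0)) + d0 with hD
  have hD0 : 0 ≤ D := by
    have h1 : 0 ≤ Real.log (2 * (4 * C0 * C0)) := Real.log_nonneg (by nlinarith)
    have := d0_pos
    rw [hD]; linarith
  have hq := qc_lt_one
  have hq0 := qc_pos
  set M1 : ℝ := 8 * D + 1 with hM1
  set c : ℝ := 2 * M1 + D with hc
  have hc0 : 0 ≤ c := by rw [hc, hM1]; linarith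
  set M : ℝ := 1 + |qc| + (qc * D + 20 * c) with hM
  refine ⟨2 * C0 * Real.exp (max M M1), ?_⟩
  intro h
  choose γ hγ using fun (i : Fin 3) (s : ℝ) => hC0 (h i * boost s)
  have hγ' : ∀ i s, mt (emb (γ i s) * h i * boost s) 2 2 ≤ C0 := fun i s => by
    rw [mul_assoc]; exact hγ i s
  have hcr : ∀ i s t j, d0 * |cr (γ i s * (γ i t)⁻¹) j| ≤ |s - t| + D :=
    fun i s t j => cr_diff hC1 (hγ' i) s t j
  have hph : ∀ i s t, |phir (γ i s) - phir (γ i t)| ≤ |s - t| + D := by
    intro i s t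
    rw [← phir_div]
    unfold phir
    rw [abs_mul, abs_of_pos d0_pos]
    exact hcr i s t 1
  -- inner problem
  have inner : ∀ s : ℝ, ∃ σ : ℝ × ℝ,
      |σ.1 + (chia (γ 0 s) - 1 / 4 * phir (γ 1 σ.1) + 5 / 8 * phir (γ 2 σ.2))| ≤ M1 ∧
      |σ.2 + (chib (γ 0 s) + 5 / 8 * phir (γ 1 σ.1) - 1 / 4 * phir (γ 2 σ.2))| ≤ M1 := by
    intro s
    obtain ⟨σ, hσ⟩ := coarse_fixed (E := ℝ × ℝ) (fun σ =>
      (-(chia (γ 0 s) - 1 / 4 * phir (γ 1 σ.1) + 5 / 8 * phir (γ 2 σ.2)),
       -(chib (γ 0 s) + 5 / 8 * phir (γ 1 σ.1) - 1 / 4 * phir (γ 2 σ.2)))) D (by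
      intro x y
      have h1 := hph 1 x.1 y.1
      have h2 := hph 2 x.2 y.2
      have n1 : |x.1 - y.1| ≤ ‖x - y‖ := norm_fst_le (x - y)
      have n2 : |x.2 - y.2| ≤ ‖x - y‖ := norm_snd_le (x - y)
      obtain ⟨a1, a2⟩ := abs_le.1 (h1.trans (add_le_add_left n1 D))
      obtain ⟨b1, b2⟩ := abs_le.1 (h2.trans (add_le_add_left n2 D))
      rw [Prod.norm_def]
      apply max_le
      · show |_| ≤ _
        simp only [Prod.fst_sub]
        rw [abs_le]; constructor <;> linarith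
      · show |_| ≤ _
        simp only [Prod.snd_sub]
        rw [abs_le]; constructor <;> linarith)
    rw [Prod.norm_def] at hσ
    refine ⟨σ, ?_, ?_⟩
    · have := (le_max_left _ _).trans hσ
      rw [Prod.fst_sub, Real.norm_eq_abs] at this
      rw [← abs_neg, neg_add, add_comm]
      exact this
    · have := (le_max_right _ _).trans hσ
      rw [Prod.snd_sub, Real.norm_eq_abs] at this
      rw [← abs_neg, neg_add, add_comm]
      exact this
  choose σ hσ1 hσ2 using inner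
  set y1 : ℝ → ℝ := fun s => chia (γ 0 s) - 1 / 4 * phir (γ 1 (σ s).1) + 5 / 8 * phir (γ 2 (σ s).2)
    with hy1
  set y2 : ℝ → ℝ := fun s => chib (γ 0 s) + 5 / 8 * phir (γ 1 (σ s).1) - 1 / 4 * phir (γ 2 (σ s).2)
    with hy2
  have hσ1' : ∀ s, |(σ s).1 + y1 s| ≤ M1 := hσ1
  have hσ2' : ∀ s, |(σ s).2 + y2 s| ≤ M1 := hσ2
  obtain ⟨s, hs⟩ := coarse_zero (fun s => s + (y1 s + y2 s)) qc (qc * D + 20 * c) hq
    (by
      intro s t
      have e1 : (s + (y1 s + y2 s) - s) - (t + (y1 t + y2 t) - t) =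
          (y1 s - y1 t) + (y2 s - y2 t) := by ring
      rw [e1]
      have x1 : |phir (γ 1 (σ s).1) - phir (γ 1 (σ t).1)| ≤ |y1 s - y1 t| + c := by
        refine (hph 1 _ _).trans ?_
        have e2 : (σ s).1 - (σ t).1 = ((σ s).1 + y1 s) - ((σ t).1 + y1 t) - (y1 s - y1 t) := by ring
        have e3 : |(σ s).1 - (σ t).1| ≤ 2 * M1 + |y1 s - y1 t| := by
          rw [e2]
          refine (abs_sub _ _).trans ?_
          have := (abs_sub ((σ s).1 + y1 s) ((σ t).1 + y1 t)).trans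
            (add_le_add (hσ1' s) (hσ1' t))
          linarith
        rw [hc]; linarith
      have x2 : |phir (γ 2 (σ s).2) - phir (γ 2 (σ t).2)| ≤ |y2 s - y2 t| + c := by
        refine (hph 2 _ _).trans ?_
        have e2 : (σ s).2 - (σ t).2 = ((σ s).2 + y2 s) - ((σ t).2 + y2 t) - (y2 s - y2 t) := by ring
        have e3 : |(σ s).2 - (σ t).2| ≤ 2 * M1 + |y2 s - y2 t| := by
          rw [e2]
          refine (abs_sub _ _).trans ?_
          have := (abs_sub ((σ s).2 + y2 s) ((σ t).2 + y2 t)).trans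
            (add_le_add (hσ2' s) (hσ2' t))
          linarith
        rw [hc]; linarith
      have l := (lin (a := chia (γ 0 s) - chia (γ 0 t)) (b := chib (γ 0 s) - chib (γ 0 t))
        (T := |s - t| + D) hc0 x1 x2 (by simp only [hy1]; ring) (by simp only [hy2]; ring)).1 (by
          rw [← chia_div, ← chib_div]
          exact corner_of (hcr 0 s t))
      linarith)
  refine ⟨![γ 0 s, γ 1 (σ s).1, γ 2 (σ s).2], ?_⟩
  have key : ∀ i (r y : ℝ), |r + y| ≤ max M M1 →
      mt (emb (γ i r) * h i * boost (-y)) 2 2 ≤ 2 * C0 * Real.exp (max M M1) := by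
    intro i r y hry
    have e1 : emb (γ i r) * h i * boost (-y) = (emb (γ i r) * h i * boost r) * boost (-(r + y)) := by
      rw [mul_assoc _ (boost r), ← boost_add]
      congr 2
      ring
    rw [e1]
    have f1 := mul_22_le (emb (γ i r) * h i * boost r) (boost (-(r + y)))
    rw [boost_22, Real.cosh_neg] at f1
    have f2 := cosh_le_exp_abs (r + y)
    have f3 := Real.exp_le_exp.2 hry
    have f4 := hγ' i r
    have f5 := one_le_22 (emb (γ i r) * h i * boost r)
    calc _ ≤ _ := f1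
      _ ≤ 2 * C0 * Real.exp (max M M1) := by gcongr; exact f2.trans f3
  intro i
  fin_cases i
  · exact key 0 s _ (hs.trans (le_max_left _ _))
  · exact key 1 (σ s).1 _ ((hσ1' s).trans (le_max_right _ _))
  · exact key 2 (σ s).2 _ ((hσ2' s).trans (le_max_right _ _))

end Pool.Agent.Lib.MP_e63071_gt
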