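import Pool.Agent.Lib.MP_e63071_gt.Action

/-!
# `G` and `H` are closed, stable under transposition, with finitely many components
-/

set_option autoImplicit false

namespace Pool.Agent.Lib.MP_e63071_gt

open Matrix

/-! ### transposition -/

lemma mono_transpose (v : Fin 3 → ℝ) (j : Fin 3) :
    (mono v j)ᵀ = mono (fun i => v (i + j)) (-j) := by
  ext i k
  rw [Matrix.transpose_apply]
  unfold mono
  by_cases h : k = i + j
  · rw [if_pos h, if_pos (by rw [h]; abel), h]
  · rw [if_neg h, if_neg]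
    intro h2; apply h; rw [h2]; abel

lemma blk_transpose (A : Matrix (Fin 3) (Fin 3) ℝ) (v : Fin 3 → ℝ) (j : Fin 3) :
    (blk A v j)ᵀ = blk Aᵀ (fun i => v (i + j)) (-j) := by
  unfold blk
  rw [Matrix.fromBlocks_transpose, mono_transpose]
  simp

lemma transpose_GG (g : GL I6 ℝ) (hg : g ∈ GG) :
    ∃ h ∈ GG, (h : Matrix I6 I6 ℝ) = (g : Matrix I6 I6 ℝ)ᵀ := by
  obtain ⟨A, v, j, hA, hv, hg⟩ := hg
  have h2 : ∑ i, v (i + j) = 0 := by rw [sum_shift', hv]
  refine ⟨(mkG (mkG1 Aᵀ hA.transpose) (fun i => v (i + j)) h2 (-j) : GG),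
    (mkG (mkG1 Aᵀ hA.transpose) (fun i => v (i + j)) h2 (-j)).2, ?_⟩
  rw [hg, blk_transpose]
  rfl

lemma boostM_transpose (t : ℝ) : (boostM t)ᵀ = boostM t := by
  ext i j
  fin_cases i <;> fin_cases j <;> simp [boostM]

lemma transpose_HH (g : GL I6 ℝ) (hg : g ∈ HH) :
    ∃ h ∈ HH, (h : Matrix I6 I6 ℝ) = (g : Matrix I6 I6 ℝ)ᵀ := by
  refine ⟨g, hg, ?_⟩
  obtain ⟨w, hw, hg⟩ := hg
  rw [hg, blk_transpose, boostM_transpose]
  simp

/-! ### closedness -/

/-- the set of matrices `mono v j` -/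
def MonoSet (j : Fin 3) : Set (Matrix (Fin 3) (Fin 3) ℝ) :=
  {M | (∀ i k, i ≠ k + j → M i k = 0) ∧ (∀ k, 0 ≤ M (k + j) k) ∧ ∏ k, M (k + j) k = 1}

lemma continuous_coord (i k : Fin 3) : Continuous (fun M : Matrix (Fin 3) (Fin 3) ℝ => M i k) :=
  (continuous_apply k).comp (continuous_apply i)

lemma isClosed_MonoSet (j : Fin 3) : IsClosed (MonoSet j) := by
  have : MonoSet j = (⋂ i, ⋂ k, {M | i ≠ k + j → M i k = 0}) ∩
      ((⋂ k, {M | 0 ≤ M (k + j) k}) ∩ {M | ∏ k, M (k + j) k = 1}) := by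
    ext M
    simp only [MonoSet, Set.mem_inter_iff, Set.mem_iInter]
    rfl
  rw [this]
  refine IsClosed.inter ?_ (IsClosed.inter ?_ ?_)
  · refine isClosed_iInter fun i => isClosed_iInter fun k => ?_
    by_cases h : i ≠ k + j
    · have e : {M : Matrix (Fin 3) (Fin 3) ℝ | i ≠ k + j → M i k = 0} = {M | M i k = 0} := by
        ext M; exact ⟨fun h' => h' h, fun h' _ => h'⟩
      rw [e]
      exact isClosed_eq (continuous_coord i k) continuous_const
    · have e : {M : Matrix (Fin 3) (Fin 3) ℝ | i ≠ k + j → M i k = 0} = Set.univ := by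
        ext M; exact ⟨fun _ => trivial, fun _ h' => absurd h' h⟩
      rw [e]
      exact isClosed_univ
  · exact isClosed_iInter fun k => isClosed_le continuous_const (continuous_coord _ _)
  · exact isClosed_eq (continuous_finsetProd _ fun k _ => continuous_coord _ _) continuous_const

lemma mem_MonoSet (M : Matrix (Fin 3) (Fin 3) ℝ) (j : Fin 3) :
    M ∈ MonoSet j ↔ ∃ v : Fin 3 → ℝ, ∑ i, v i = 0 ∧ M = mono v j := by
  constructor
  · rintro ⟨h1, h2, h3⟩
    have hpos : ∀ k, 0 < M (k + j) k := by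
      intro k
      rcases (h2 k).lt_or_eq with h | h
      · exact h
      · exfalso
        have : ∏ k, M (k + j) k = 0 := Finset.prod_eq_zero (Finset.mem_univ k) h.symm
        rw [this] at h3
        exact zero_ne_one h3
    refine ⟨fun i => Real.log (M i (i - j)), ?_, ?_⟩
    · rw [← Equiv.sum_comp (Equiv.addRight j)]
      simp only [Equiv.coe_addRight, add_sub_cancel_right]
      rw [← Real.log_prod (fun k _ => (hpos k).ne'), h3, Real.log_one]
    · ext i k
      unfold mono
      by_cases h : i = k + j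
      · subst h
        rw [if_pos rfl]
        show M (k + j) k = Real.exp (Real.log (M (k + j) (k + j - j)))
        rw [add_sub_cancel_right, Real.exp_log (hpos k)]
      · rw [if_neg h, h1 i k h]
  · rintro ⟨v, hv, rfl⟩
    refine ⟨?_, ?_, ?_⟩
    · intro i k h; unfold mono; rw [if_neg h]
    · intro k; unfold mono; rw [if_pos rfl]; exact (Real.exp_pos _).le
    · have : ∀ k, mono v j (k + j) k = Real.exp (v (k + j)) := by
        intro k; unfold mono; rw [if_pos rfl]
      simp only [this]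
      rw [← Real.exp_sum, sum_shift', hv, Real.exp_zero]

lemma GG_eq : (GG : Set (GL I6 ℝ)) = (fun g : GL I6 ℝ => (g : Matrix I6 I6 ℝ)) ⁻¹'
    ({M | M.toBlocks₁₂ = 0} ∩ ({M | M.toBlocks₂₁ = 0} ∩ ({M | IsLor M.toBlocks₁₁} ∩
      ⋃ j, {M | M.toBlocks₂₂ ∈ MonoSet j}))) := by
  ext g
  simp only [Set.mem_preimage, Set.mem_inter_iff, Set.mem_iUnion]
  constructor
  · rintro ⟨A, v, j, hA, hv, hg⟩
    rw [hg]
    refine ⟨?_, ?_, ?_, j, ?_⟩
    · exact Matrix.toBlocks_fromBlocks₁₂ _ _ _ _
    · exact Matrix.toBlocks_fromBlocks₂₁ _ _ _ _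
    · show IsLor (blk A v j).toBlocks₁₁
      rw [blk, Matrix.toBlocks_fromBlocks₁₁]; exact hA
    · show (blk A v j).toBlocks₂₂ ∈ MonoSet j
      rw [blk, Matrix.toBlocks_fromBlocks₂₂, mem_MonoSet]
      exact ⟨v, hv, rfl⟩
  · rintro ⟨h1, h2, h3, j, h4⟩
    obtain ⟨v, hv, hM⟩ := (mem_MonoSet _ _).1 h4
    refine ⟨(g : Matrix I6 I6 ℝ).toBlocks₁₁, v, j, h3, hv, ?_⟩
    rw [← Matrix.fromBlocks_toBlocks (g : Matrix I6 I6 ℝ)]
    unfold blk
    have h1' : (g : Matrix I6 I6 ℝ).toBlocks₁₂ = 0 := h1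
    have h2' : (g : Matrix I6 I6 ℝ).toBlocks₂₁ = 0 := h2
    rw [h1', h2', hM]
    simp

lemma continuous_block {M : Type*} [TopologicalSpace M] {f : M → Matrix I6 I6 ℝ}
    (hf : Continuous f) (i k : I6) : Continuous (fun x => f x i k) :=
  (continuous_apply k).comp ((continuous_apply i).comp hf)

lemma isClosed_GG : IsClosed (GG : Set (GL I6 ℝ)) := by
  rw [GG_eq]
  refine IsClosed.preimage Units.continuous_val ?_
  have c11 : Continuous (fun M : Matrix I6 I6 ℝ => M.toBlocks₁₁) :=
    continuous_matrix fun i k => continuous_block continuous_id (Sum.inl i) (Sum.inl k)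
  have c12 : Continuous (fun M : Matrix I6 I6 ℝ => M.toBlocks₁₂) :=
    continuous_matrix fun i k => continuous_block continuous_id (Sum.inl i) (Sum.inr k)
  have c21 : Continuous (fun M : Matrix I6 I6 ℝ => M.toBlocks₂₁) :=
    continuous_matrix fun i k => continuous_block continuous_id (Sum.inr i) (Sum.inl k)
  have c22 : Continuous (fun M : Matrix I6 I6 ℝ => M.toBlocks₂₂) :=
    continuous_matrix fun i k => continuous_block continuous_id (Sum.inr i) (Sum.inr k)
  refine IsClosed.inter (isClosed_eq c12 continuous_const)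
    (IsClosed.inter (isClosed_eq c21 continuous_const) (IsClosed.inter ?_ ?_))
  · exact isClosed_IsLor.preimage c11
  · exact isClosed_iUnion_of_finite fun j => (isClosed_MonoSet j).preimage c22

lemma HH_eq : (HH : Set (GL I6 ℝ)) =
    (Subtype.val : GG → GL I6 ℝ) '' {g | pj g = 0 ∧ pA g = boost (pv g 0)} := by
  ext g
  constructor
  · rintro ⟨w, hw, hg⟩
    refine ⟨mkG (boost (w 0)) w hw 0, ?_, ?_⟩
    · refine ⟨pj_mkG _ _ _ _, ?_⟩
      rw [pA_mkG, pv_mkG]
    · exact Units.ext hg.symm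
  · rintro ⟨g, ⟨h1, h2⟩, rfl⟩
    refine ⟨pv g, sum_pv g, ?_⟩
    have h3 := congrArg mat (mkG_eta g)
    rw [mat_mkG, h1, h2] at h3
    exact h3.symm

lemma isClosed_HH : IsClosed (HH : Set (GL I6 ℝ)) := by
  rw [HH_eq]
  have he : Topology.IsClosedEmbedding (Subtype.val : GG → GL I6 ℝ) :=
    isClosed_GG.isClosedEmbedding_subtypeVal
  rw [← he.isClosed_iff_image_isClosed]
  have hT2 : T2Space G1 := isClosedEmbedding_mt.isEmbedding.t2Space
  exact (isClosed_eq continuous_pj continuous_const).inter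
    (isClosed_eq continuous_pA (continuous_boost.comp (continuous_pv 0)))

/-! ### components -/

lemma sum_smul {v : Fin 3 → ℝ} (hv : ∑ i, v i = 0) (s : ℝ) : ∑ i, (s • v) i = 0 := by
  simp only [Pi.smul_apply, smul_eq_mul]
  rw [← Finset.mul_sum, hv, mul_zero]

lemma finite_components_GG : Finite (ConnectedComponents GG) := by
  refine Finite.of_surjective
    (fun j : Fin 3 => (ConnectedComponents.mk (mkG 1 0 (by simp) j))) ?_
  intro c
  obtain ⟨g, rfl⟩ := ConnectedComponents.surjective_coe c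
  obtain ⟨A, v, hv, j, rfl⟩ := exists_mkG g
  refine ⟨j, ?_⟩
  apply ConnectedComponents.coe_eq_coe'.2
  obtain ⟨θ, t, θ', rfl⟩ := cartan A
  let f : ℝ × ℝ × ℝ × ℝ → GG := fun p =>
    mkG (rot p.1 * boost p.2.1 * rot p.2.2.1) (p.2.2.2 • v) (sum_smul hv _) j
  have hf : Continuous f := by
    refine continuous_mkG_aux j ?_ ?_
    · exact ((continuous_rot.comp continuous_fst).mul
        (continuous_boost.comp (continuous_fst.comp continuous_snd))).mul
        (continuous_rot.comp (continuous_fst.comp (continuous_snd.comp continuous_snd)))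
    · exact (continuous_snd.comp (continuous_snd.comp continuous_snd)).smul continuous_const
  refine (isPreconnected_range hf).subset_connectedComponent ?_ ?_
  · exact ⟨(θ, t, θ', 1), mkG_congr rfl (one_smul _ _) rfl⟩
  · refine ⟨(0, 0, 0, 0), mkG_congr ?_ (zero_smul _ _) rfl⟩
    show rot 0 * boost 0 * rot 0 = 1
    rw [rot_zero, boost_zero, one_mul, one_mul]

lemma finite_components_HH : Finite (ConnectedComponents HH) := by
  have : ∀ c : ConnectedComponents HH, c = ConnectedComponents.mk 1 := by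
    intro c
    obtain ⟨g, rfl⟩ := ConnectedComponents.surjective_coe c
    obtain ⟨w, hw, hg⟩ := g.2
    apply ConnectedComponents.coe_eq_coe'.2
    let f : ℝ → HH := fun s => ⟨(mkG (boost ((s • w) 0)) (s • w) (sum_smul hw s) 0 : GG),
      ⟨s • w, sum_smul hw s, rfl⟩⟩
    have hf : Continuous f := by
      refine Continuous.subtype_mk ?_ _
      refine continuous_subtype_val.comp (continuous_mkG_aux 0 ?_ ?_)
      · refine continuous_boost.comp ?_
        exact (continuous_apply 0).comp (continuous_id.smul continuous_const)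
      · exact continuous_id.smul continuous_const
    refine (isPreconnected_range hf).subset_connectedComponent ?_ ?_
    · refine ⟨0, Subtype.ext (Units.ext ?_)⟩
      show blk (mt (boost (((0 : ℝ) • w) 0))) ((0 : ℝ) • w) 0 = 1
      rw [zero_smul, Pi.zero_apply, boost_zero, mt_one, blk_one]
    · refine ⟨1, Subtype.ext (Units.ext ?_)⟩
      show blk (mt (boost (((1 : ℝ) • w) 0))) ((1 : ℝ) • w) 0 = _
      rw [one_smul, mt_boost]
      exact hg.symm
  exact Finite.of_surjective (fun _ : Unit => ConnectedComponents.mk (1 : HH))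
    (fun c => ⟨(), (this c).symm⟩)

end Pool.Agent.Lib.MP_e63071_gt
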