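import Pool.Agent.Lib.MP_e63071_gt.CAction
import Pool.Agent.Lib.MP_e63071_gt.Reductive

/-!
# The connected example: `G` and `H` are closed, connected and stable under transposition
-/

set_option autoImplicit false

namespace Pool.Agent.Lib.MP_e63071_gt

open Matrix

/-! ### transposition -/

lemma blk3_transpose (A : Fin 3 → Matrix (Fin 3) (Fin 3) ℝ) (v : Fin 2 → ℝ) :
    (blk3 A v)ᵀ = blk3 (fun i => (A i)ᵀ) v := by
  unfold blk3
  rw [Matrix.fromBlocks_transpose, Matrix.blockDiagonal_transpose, Matrix.diagonal_transpose]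
  simp

lemma transpose_GC (g : GL J11 ℝ) (hg : g ∈ GC) :
    ∃ h ∈ GC, (h : Matrix J11 J11 ℝ) = (g : Matrix J11 J11 ℝ)ᵀ := by
  obtain ⟨A, v, hA, hg⟩ := hg
  refine ⟨(mkC (fun i => mkG1 (A i)ᵀ (hA i).transpose) v : GC),
    (mkC (fun i => mkG1 (A i)ᵀ (hA i).transpose) v).2, ?_⟩
  rw [hg, blk3_transpose]
  rfl

lemma transpose_HC (g : GL J11 ℝ) (hg : g ∈ HC) :
    ∃ h ∈ HC, (h : Matrix J11 J11 ℝ) = (g : Matrix J11 J11 ℝ)ᵀ := by
  refine ⟨g, hg, ?_⟩
  obtain ⟨w, hg⟩ := hg
  rw [hg, blk3_transpose]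
  simp only [boostM_transpose]

/-! ### closedness -/

/-- the block number `i` -/
def bl (M : Matrix J11 J11 ℝ) (i : Fin 3) : Matrix (Fin 3) (Fin 3) ℝ :=
  Matrix.of fun a b => M (Sum.inl (a, i)) (Sum.inl (b, i))

lemma GC_eq : (GC : Set (GL J11 ℝ)) = (fun g : GL J11 ℝ => (g : Matrix J11 J11 ℝ)) ⁻¹'
    ({M | ∀ i j, M (Sum.inl i) (Sum.inr j) = 0} ∩ ({M | ∀ i j, M (Sum.inr i) (Sum.inl j) = 0} ∩
      ({M | ∀ a b i j, i ≠ j → M (Sum.inl (a, i)) (Sum.inl (b, j)) = 0} ∩
      ({M | ∀ i j, i ≠ j → M (Sum.inr i) (Sum.inr j) = 0} ∩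
      ({M | ∀ i, 0 ≤ M (Sum.inr i) (Sum.inr i)} ∩ {M | ∀ i, IsLor (bl M i)}))))) := by
  ext g
  simp only [Set.mem_preimage, Set.mem_inter_iff]
  constructor
  · rintro ⟨A, v, hA, hg⟩
    rw [hg]
    refine ⟨?_, ?_, ?_, ?_, ?_, ?_⟩
    · intro i j; rfl
    · intro i j; rfl
    · intro a b i j hij
      simp [blk3, Matrix.blockDiagonal_apply, hij]
    · intro i j hij
      simp [blk3, hij]
    · intro i
      simp [blk3, Real.exp_nonneg]
    · intro i
      have : bl (blk3 A v) i = A i := by
        ext a b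
        simp [bl, blk3, Matrix.blockDiagonal_apply]
      rw [this]
      exact hA i
  · rintro ⟨h12, h21, h11, h22, hpos, hlor⟩
    have hp : ∀ i, 0 < (g : Matrix J11 J11 ℝ) (Sum.inr i) (Sum.inr i) := by
      intro i
      refine lt_of_le_of_ne (hpos i) ?_
      intro h0
      have h1 : ((g : Matrix J11 J11 ℝ) * ((g⁻¹ : GL J11 ℝ) : Matrix J11 J11 ℝ))
          (Sum.inr i) (Sum.inr i) = 1 := by
        rw [← Units.val_mul, mul_inv_cancel, Units.val_one, Matrix.one_apply_eq]
      rw [Matrix.mul_apply] at h1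
      have h2 : ∀ k, (g : Matrix J11 J11 ℝ) (Sum.inr i) k = 0 := by
        intro k
        rcases k with k | k
        · exact h21 i k
        · by_cases hik : i = k
          · subst hik; exact h0.symm
          · exact h22 i k hik
      simp only [h2, zero_mul, Finset.sum_const_zero] at h1
      exact zero_ne_one h1
    refine ⟨fun i => bl (g : Matrix J11 J11 ℝ) i,
      fun i => Real.log ((g : Matrix J11 J11 ℝ) (Sum.inr i) (Sum.inr i)), hlor, ?_⟩
    ext k l
    rcases k with ⟨a, i⟩ | k <;> rcases l with ⟨b, j⟩ | l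
    · by_cases hij : i = j
      · subst hij
        simp [bl, blk3, Matrix.blockDiagonal_apply]
      · simp [blk3, Matrix.blockDiagonal_apply, hij, h11 a b i j hij]
    · rw [h12 (a, i) l]; rfl
    · rw [h21 k (b, j)]; rfl
    · by_cases hkl : k = l
      · subst hkl
        simp [blk3, Real.exp_log (hp k)]
      · rw [h22 k l hkl]
        simp [blk3, hkl]

lemma continuous_entry11 (k l : J11) : Continuous (fun M : Matrix J11 J11 ℝ => M k l) :=
  (continuous_apply l).comp (continuous_apply k)

lemma continuous_bl (i : Fin 3) : Continuous (fun M : Matrix J11 J11 ℝ => bl M i) :=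
  continuous_matrix fun a b => continuous_entry11 (Sum.inl (a, i)) (Sum.inl (b, i))

lemma isClosed_GC : IsClosed (GC : Set (GL J11 ℝ)) := by
  rw [GC_eq]
  refine IsClosed.preimage Units.continuous_val ?_
  have z : ∀ k l, IsClosed {M : Matrix J11 J11 ℝ | M k l = 0} := fun k l =>
    isClosed_eq (continuous_entry11 k l) continuous_const
  have himp : ∀ (p : Prop) (s : Set (Matrix J11 J11 ℝ)), IsClosed s →
      IsClosed {M : Matrix J11 J11 ℝ | p → M ∈ s} := by
    intro p s hs
    by_cases hp : p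
    · have : {M : Matrix J11 J11 ℝ | p → M ∈ s} = s := by
        ext M; exact ⟨fun h => h hp, fun h _ => h⟩
      rw [this]; exact hs
    · have : {M : Matrix J11 J11 ℝ | p → M ∈ s} = Set.univ := by
        ext M; exact ⟨fun _ => trivial, fun _ h => absurd h hp⟩
      rw [this]; exact isClosed_univ
  refine IsClosed.inter ?_ (IsClosed.inter ?_ (IsClosed.inter ?_ (IsClosed.inter ?_
    (IsClosed.inter ?_ ?_))))
  · simp only [Set.ofPred_forall]
    exact isClosed_iInter fun i => isClosed_iInter fun j => z _ _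
  · simp only [Set.ofPred_forall]
    exact isClosed_iInter fun i => isClosed_iInter fun j => z _ _
  · have : {M : Matrix J11 J11 ℝ | ∀ a b i j, i ≠ j → M (Sum.inl (a, i)) (Sum.inl (b, j)) = 0} =
        ⋂ a, ⋂ b, ⋂ i, ⋂ j, {M : Matrix J11 J11 ℝ | i ≠ j →
          M ∈ {M : Matrix J11 J11 ℝ | M (Sum.inl (a, i)) (Sum.inl (b, j)) = 0}} := by
      ext M; simp only [Set.mem_iInter]; rfl
    rw [this]
    exact isClosed_iInter fun a => isClosed_iInter fun b => isClosed_iInter fun i =>
      isClosed_iInter fun j => himp _ _ (z _ _)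
  · have : {M : Matrix J11 J11 ℝ | ∀ i j, i ≠ j → M (Sum.inr i) (Sum.inr j) = 0} =
        ⋂ i, ⋂ j, {M : Matrix J11 J11 ℝ | i ≠ j →
          M ∈ {M : Matrix J11 J11 ℝ | M (Sum.inr i) (Sum.inr j) = 0}} := by
      ext M; simp only [Set.mem_iInter]; rfl
    rw [this]
    exact isClosed_iInter fun i => isClosed_iInter fun j => himp _ _ (z _ _)
  · simp only [Set.ofPred_forall]
    exact isClosed_iInter fun i => isClosed_le continuous_const (continuous_entry11 _ _)
  · simp only [Set.ofPred_forall]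
    exact isClosed_iInter fun i => isClosed_IsLor.preimage (continuous_bl i)

lemma HC_eq : (HC : Set (GL J11 ℝ)) =
    (Subtype.val : GC → GL J11 ℝ) '' {g | cA g = bst (ext3 (cv2 g))} := by
  ext g
  constructor
  · rintro ⟨w, hg⟩
    refine ⟨mkC (bst (ext3 w)) w, ?_, ?_⟩
    · show cA _ = _
      rw [cA_mkC, cv2_mkC]
    · exact Units.ext hg.symm
  · rintro ⟨g, h2, rfl⟩
    refine ⟨cv2 g, ?_⟩
    have h3 := congrArg matC (mkC_eta g)
    have h2' : cA g = bst (ext3 (cv2 g)) := h2
    rw [matC_mkC, h2'] at h3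
    exact h3.symm

lemma isClosed_HC : IsClosed (HC : Set (GL J11 ℝ)) := by
  rw [HC_eq]
  have he : Topology.IsClosedEmbedding (Subtype.val : GC → GL J11 ℝ) :=
    isClosed_GC.isClosedEmbedding_subtypeVal
  rw [← he.isClosed_iff_image_isClosed]
  have hT2 : T2Space G1 := isClosedEmbedding_mt.isEmbedding.t2Space
  exact isClosed_eq continuous_cA (continuous_bst.comp (continuous_ext3.comp continuous_cv2))

/-! ### connectedness -/

/-- elements of `SO₀(2,1)³` from Cartan parameters -/
noncomputable def cart (α β γ : Fin 3 → ℝ) : G3 := fun i => rot (α i) * boost (β i) * rot (γ i)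

lemma continuous_cart : Continuous (fun p : (Fin 3 → ℝ) × (Fin 3 → ℝ) × (Fin 3 → ℝ) =>
    cart p.1 p.2.1 p.2.2) := by
  refine continuous_pi fun i => ?_
  refine Continuous.mul (Continuous.mul ?_ ?_) ?_
  · exact continuous_rot.comp ((continuous_apply i).comp continuous_fst)
  · exact continuous_boost.comp ((continuous_apply i).comp (continuous_fst.comp continuous_snd))
  · exact continuous_rot.comp ((continuous_apply i).comp (continuous_snd.comp continuous_snd))

lemma exists_cart (h : G3) : ∃ α β γ : Fin 3 → ℝ, h = cart α β γ := by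
  choose α β γ h' using fun i => cartan (h i)
  exact ⟨α, β, γ, funext h'⟩

lemma connected_GC : ConnectedSpace GC := by
  let f : ((Fin 3 → ℝ) × (Fin 3 → ℝ) × (Fin 3 → ℝ)) × (Fin 2 → ℝ) → GC := fun p =>
    mkC (cart p.1.1 p.1.2.1 p.1.2.2) p.2
  have hf : Continuous f :=
    continuous_mkC_aux (continuous_cart.comp continuous_fst) continuous_snd
  have hs : Function.Surjective f := by
    intro g
    obtain ⟨A, v, rfl⟩ := exists_mkC g
    obtain ⟨α, β, γ, rfl⟩ := exists_cart A
    exact ⟨((α, β, γ), v), rfl⟩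
  exact hs.connectedSpace hf

lemma connected_HC : ConnectedSpace HC := by
  let f : (Fin 2 → ℝ) → HC := fun v => ⟨(mkC (bst (ext3 v)) v : GC), ⟨v, rfl⟩⟩
  have hf : Continuous f := by
    refine Continuous.subtype_mk ?_ _
    refine continuous_subtype_val.comp (continuous_mkC_aux ?_ continuous_id)
    exact continuous_bst.comp continuous_ext3
  have hs : Function.Surjective f := by
    intro g
    obtain ⟨w, hg⟩ := g.2
    refine ⟨w, Subtype.ext (Units.ext ?_)⟩
    exact hg.symm
  exact hs.connectedSpace hf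

lemma finite_components_of_connected {X : Type*} [TopologicalSpace X] (h : ConnectedSpace X) :
    Finite (ConnectedComponents X) := by
  have : Subsingleton (ConnectedComponents X) := by
    constructor
    intro a b
    obtain ⟨x, rfl⟩ := ConnectedComponents.surjective_coe a
    obtain ⟨y, rfl⟩ := ConnectedComponents.surjective_coe b
    rw [ConnectedComponents.coe_eq_coe, PreconnectedSpace.connectedComponent_eq_univ,
      PreconnectedSpace.connectedComponent_eq_univ]
  infer_instance

end Pool.Agent.Lib.MP_e63071_gt
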