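import Pool.Agent.Lib.MP_e63071_gt.Proper

/-!
# The connected example: groups and coordinates
-/

set_option autoImplicit false

namespace Pool.Agent.Lib.MP_e63071_gt

open Matrix

/-- Index set of the `11 × 11` matrices. -/
abbrev J11 : Type := (Fin 3 × Fin 3) ⊕ Fin 2

/-- The block diagonal matrix with blocks `A 0`, `A 1`, `A 2` (of size three), `exp (v 0)` and
`exp (v 1)`. -/
noncomputable def blk3 (A : Fin 3 → Matrix (Fin 3) (Fin 3) ℝ) (v : Fin 2 → ℝ) :
    Matrix J11 J11 ℝ :=
  Matrix.fromBlocks (Matrix.blockDiagonal A) 0 0 (Matrix.diagonal fun i => Real.exp (v i))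

/-- The map `(a, b) ↦ (a + b, a, b)`. -/
def ext3 (v : Fin 2 → ℝ) : Fin 3 → ℝ := ![v 0 + v 1, v 0, v 1]

lemma ext3_add (v w : Fin 2 → ℝ) (i : Fin 3) : ext3 (v + w) i = ext3 v i + ext3 w i := by
  fin_cases i
  · simp [ext3]; ring
  · simp [ext3]
  · simp [ext3]

lemma ext3_neg (v : Fin 2 → ℝ) (i : Fin 3) : ext3 (-v) i = - ext3 v i := by
  fin_cases i
  · simp [ext3]; ring
  · simp [ext3]
  · simp [ext3]

lemma ext3_zero (i : Fin 3) : ext3 0 i = 0 := by
  fin_cases i <;> simp [ext3]

lemma ext3_injective : Function.Injective ext3 := by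
  intro v w h
  funext i
  fin_cases i
  · exact congrFun h 1
  · exact congrFun h 2

lemma blk3_mul (A A' : Fin 3 → Matrix (Fin 3) (Fin 3) ℝ) (v v' : Fin 2 → ℝ) :
    blk3 A v * blk3 A' v' = blk3 (fun i => A i * A' i) (v + v') := by
  unfold blk3
  rw [Matrix.fromBlocks_multiply, ← Matrix.blockDiagonal_mul, Matrix.diagonal_mul_diagonal]
  simp [Real.exp_add]

lemma blk3_one : blk3 (fun _ => 1) 0 = 1 := by
  unfold blk3
  have h1 : Matrix.blockDiagonal (fun _ : Fin 3 => (1 : Matrix (Fin 3) (Fin 3) ℝ)) = 1 := by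
    exact Matrix.blockDiagonal_one
  have h2 : (Matrix.diagonal fun i : Fin 2 => Real.exp ((0 : Fin 2 → ℝ) i)) = 1 := by
    simp
  rw [h1, h2, Matrix.fromBlocks_one]

lemma GL11_inv_val {g : GL J11 ℝ} {B : Matrix J11 J11 ℝ}
    (h : (g : Matrix J11 J11 ℝ) * B = 1) :
    ((g⁻¹ : GL J11 ℝ) : Matrix J11 J11 ℝ) = B := by
  have h2 : ((g⁻¹ : GL J11 ℝ) : Matrix J11 J11 ℝ) * (g : Matrix J11 J11 ℝ)
      = 1 := by rw [← Units.val_mul, inv_mul_cancel, Units.val_one]
  calc ((g⁻¹ : GL J11 ℝ) : Matrix J11 J11 ℝ)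
      = ((g⁻¹ : GL J11 ℝ) : Matrix J11 J11 ℝ) *
        ((g : Matrix J11 J11 ℝ) * B) := by rw [h, Matrix.mul_one]
    _ = B := by rw [← Matrix.mul_assoc, h2, Matrix.one_mul]

/-- The connected group `G = SO₀(2,1)³ × ℝ²`. -/
def GC : Subgroup (GL J11 ℝ) where
  carrier := {g | ∃ (A : Fin 3 → Matrix (Fin 3) (Fin 3) ℝ) (v : Fin 2 → ℝ),
    (∀ i, IsLor (A i)) ∧ (g : Matrix J11 J11 ℝ) = blk3 A v}
  one_mem' := ⟨fun _ => 1, 0, fun _ => IsLor.one, by rw [Units.val_one, blk3_one]⟩
  mul_mem' := by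
    rintro g h ⟨A, v, hA, hg⟩ ⟨B, w, hB, hh⟩
    exact ⟨_, _, fun i => (hA i).mul (hB i), by rw [Units.val_mul, hg, hh, blk3_mul]⟩
  inv_mem' := by
    rintro g ⟨A, v, hA, hg⟩
    refine ⟨fun i => Sig * (A i)ᵀ * Sig, -v, fun i => (hA i).inv', GL11_inv_val ?_⟩
    rw [hg, blk3_mul, add_neg_cancel]
    simp only [fun i => IsLor.mul_inv' (hA i).form]
    exact blk3_one

/-- The group `H`, a copy of `ℝ²`: the hyperbolic elements with parameters `a + b`, `a`, `b` in
the three factors `SO₀(2,1)`, and `(a, b)` in the factor `ℝ²`. -/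
def HC : Subgroup (GL J11 ℝ) where
  carrier := {g | ∃ v : Fin 2 → ℝ,
    (g : Matrix J11 J11 ℝ) = blk3 (fun i => boostM (ext3 v i)) v}
  one_mem' := ⟨0, by
    have h0 : boostM 0 = 1 := congrArg mt boost_zero
    have : (fun i => boostM (ext3 0 i)) = fun _ : Fin 3 => (1 : Matrix (Fin 3) (Fin 3) ℝ) := by
      funext i; rw [ext3_zero, h0]
    rw [Units.val_one, this, blk3_one]⟩
  mul_mem' := by
    rintro g h ⟨w, hg⟩ ⟨u, hh⟩
    refine ⟨w + u, ?_⟩
    rw [Units.val_mul, hg, hh, blk3_mul]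
    congr 1
    funext i
    rw [ext3_add]
    exact (congrArg mt (boost_add (ext3 w i) (ext3 u i))).symm
  inv_mem' := by
    rintro g ⟨w, hg⟩
    refine ⟨-w, GL11_inv_val ?_⟩
    rw [hg, blk3_mul, add_neg_cancel, ← blk3_one]
    congr 1
    funext i
    rw [ext3_neg]
    have := congrArg mt (boost_add (ext3 w i) (- ext3 w i))
    rw [add_neg_cancel, boost_zero] at this
    exact this.symm

lemma HC_le_GC : HC ≤ GC := by
  rintro g ⟨w, hg⟩
  exact ⟨_, w, fun i => boostM_isLor _, hg⟩

/-! ### coordinates -/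

/-- the group `SO₀(2,1)³` -/
abbrev G3 : Type := Fin 3 → G1

/-- the matrix of an element of `GC` -/
def matC (g : GC) : Matrix J11 J11 ℝ := ((g : GL J11 ℝ) : Matrix J11 J11 ℝ)

lemma matC_injective : Function.Injective matC := by
  intro g h hgh
  exact Subtype.ext (Units.ext hgh)

lemma matC_mul (g h : GC) : matC (g * h) = matC g * matC h := rfl
lemma matC_one : matC 1 = 1 := rfl

/-- the element of `GC` with given coordinates -/
noncomputable def mkC (A : G3) (v : Fin 2 → ℝ) : GC :=
  ⟨⟨blk3 (fun i => mt (A i)) v, blk3 (fun i => mt (A i)⁻¹) (-v),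
    by
      rw [blk3_mul, add_neg_cancel, ← blk3_one]
      congr 1
      funext i
      rw [← mt_mul, mul_inv_cancel, mt_one],
    by
      rw [blk3_mul, neg_add_cancel, ← blk3_one]
      congr 1
      funext i
      rw [← mt_mul, inv_mul_cancel, mt_one]⟩,
    ⟨_, v, fun i => mt_isLor (A i), rfl⟩⟩

lemma matC_mkC (A : G3) (v : Fin 2 → ℝ) : matC (mkC A v) = blk3 (fun i => mt (A i)) v := rfl

lemma exists_mkC (g : GC) : ∃ (A : G3) (v : Fin 2 → ℝ), g = mkC A v := by
  obtain ⟨A, v, hA, hg⟩ := g.2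
  exact ⟨fun i => mkG1 (A i) (hA i), v, matC_injective hg⟩

lemma mkC_mul (A A' : G3) (v v' : Fin 2 → ℝ) :
    mkC A v * mkC A' v' = mkC (A * A') (v + v') := by
  apply matC_injective
  rw [matC_mul, matC_mkC, matC_mkC, matC_mkC, blk3_mul]
  rfl

lemma mkC_one : mkC 1 0 = 1 := by
  apply matC_injective
  rw [matC_mkC, matC_one, ← blk3_one]
  rfl

/-- first coordinate -/
noncomputable def cA (g : GC) : G3 := fun i =>
  mkG1 (Matrix.of fun a b => matC g (Sum.inl (a, i)) (Sum.inl (b, i))) (by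
    obtain ⟨A, v, hA, hg⟩ := g.2
    have h1 : matC g = blk3 A v := hg
    have h2 : (Matrix.of fun a b => matC g (Sum.inl (a, i)) (Sum.inl (b, i))) = A i := by
      ext a b
      rw [h1]
      simp [blk3, Matrix.blockDiagonal_apply]
    rw [h2]
    exact hA i)

/-- second coordinate -/
noncomputable def cv2 (g : GC) (i : Fin 2) : ℝ := Real.log (matC g (Sum.inr i) (Sum.inr i))

lemma cA_mkC (A : G3) (v : Fin 2 → ℝ) : cA (mkC A v) = A := by
  funext i
  apply mt_injective
  unfold cA
  rw [mt_mkG1]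
  ext a b
  rw [matC_mkC]
  simp [blk3, Matrix.blockDiagonal_apply]

lemma cv2_mkC (A : G3) (v : Fin 2 → ℝ) : cv2 (mkC A v) = v := by
  funext i
  unfold cv2
  rw [matC_mkC]
  simp [blk3]

lemma mkC_eta (g : GC) : mkC (cA g) (cv2 g) = g := by
  obtain ⟨A, v, rfl⟩ := exists_mkC g
  rw [cA_mkC, cv2_mkC]

/-! ### continuity -/

lemma continuous_matC : Continuous matC := Units.continuous_val.comp continuous_subtype_val

lemma continuous_entryC (i k : J11) : Continuous (fun g : GC => matC g i k) :=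
  (continuous_apply k).comp ((continuous_apply i).comp continuous_matC)

lemma continuous_cA : Continuous cA := by
  refine continuous_pi fun i => ?_
  rw [continuous_iff_mt]
  refine continuous_matrix fun a b => ?_
  exact continuous_entryC (Sum.inl (a, i)) (Sum.inl (b, i))

lemma continuous_cv2 : Continuous cv2 := by
  refine continuous_pi fun i => ?_
  unfold cv2
  refine Continuous.log (continuous_entryC _ _) ?_
  intro g
  obtain ⟨A, v, rfl⟩ := exists_mkC g
  rw [matC_mkC]
  simp [blk3]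

lemma continuous_mkC_aux {X : Type*} [TopologicalSpace X] {A : X → G3} {v : X → Fin 2 → ℝ}
    (hA : Continuous A) (hcv : Continuous v) : Continuous (fun x => mkC (A x) (v x)) := by
  have hblk : ∀ {A : X → Fin 3 → Matrix (Fin 3) (Fin 3) ℝ} {v : X → Fin 2 → ℝ},
      Continuous A → Continuous v → Continuous (fun x => blk3 (A x) (v x)) := by
    intro A v hA hv
    unfold blk3
    refine Continuous.matrix_fromBlocks (hA.matrix_blockDiagonal) continuous_const
      continuous_const ?_
    refine Continuous.matrix_diagonal ?_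
    exact continuous_pi fun i => Real.continuous_exp.comp ((continuous_apply i).comp hv)
  refine Continuous.subtype_mk ?_ _
  rw [Units.continuous_iff]
  constructor
  · refine hblk ?_ hcv
    exact continuous_pi fun i => continuous_mt.comp ((continuous_apply i).comp hA)
  · refine hblk (v := fun x => - v x) ?_ hcv.neg
    exact continuous_pi fun i => continuous_mt.comp ((continuous_apply i).comp hA).inv

/-! ### the space `G/H` -/

/-- the product of the hyperbolic elements -/
noncomputable def bst (t : Fin 3 → ℝ) : G3 := fun i => boost (t i)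

lemma bst_add (s t : Fin 3 → ℝ) : bst (s + t) = bst s * bst t := by
  funext i; exact boost_add _ _

lemma bst_zero : bst 0 = 1 := by
  funext i; exact boost_zero

lemma bst_neg (t : Fin 3 → ℝ) : bst (-t) = (bst t)⁻¹ := by
  funext i; exact boost_neg _

lemma continuous_bst : Continuous bst :=
  continuous_pi fun i => continuous_boost.comp (continuous_apply i)

lemma ext3_add' (v w : Fin 2 → ℝ) : ext3 (v + w) = ext3 v + ext3 w := by
  funext i; exact ext3_add v w i

lemma ext3_neg' (v : Fin 2 → ℝ) : ext3 (-v) = - ext3 v := by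
  funext i; exact ext3_neg v i

lemma ext3_zero' : ext3 0 = 0 := by funext i; exact ext3_zero i

lemma continuous_ext3 : Continuous ext3 := by
  refine continuous_pi fun i => ?_
  fin_cases i
  · exact (continuous_apply 0).add (continuous_apply 1)
  · exact continuous_apply 0
  · exact continuous_apply 1

/-- the space `G/H` -/
abbrev GHC : Type := GC ⧸ HC.subgroupOf GC

/-- invariant coordinates of a class -/
noncomputable def phiC (g : GC) : G3 := cA g * bst (- ext3 (cv2 g))

lemma phiC_mkC (A : G3) (v : Fin 2 → ℝ) : phiC (mkC A v) = A * bst (- ext3 v) := by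
  unfold phiC
  rw [cA_mkC, cv2_mkC]

lemma mem_HC_iff (g : GC) : g ∈ HC.subgroupOf GC ↔ ∃ w : Fin 2 → ℝ, g = mkC (bst (ext3 w)) w := by
  rw [Subgroup.mem_subgroupOf]
  constructor
  · rintro ⟨w, hg⟩
    exact ⟨w, matC_injective hg⟩
  · rintro ⟨w, rfl⟩
    exact ⟨w, rfl⟩

lemma phiC_mul_H (g h : GC) (hh : h ∈ HC.subgroupOf GC) : phiC (g * h) = phiC g := by
  obtain ⟨w, rfl⟩ := (mem_HC_iff h).1 hh
  obtain ⟨A, v, rfl⟩ := exists_mkC g
  rw [mkC_mul, phiC_mkC, phiC_mkC, mul_assoc, ← bst_add, ext3_add']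
  congr 2
  abel

/-- the map `G/H → SO₀(2,1)³` -/
noncomputable def PhiC : GHC → G3 :=
  Quotient.lift phiC (by
    intro g h hgh
    have h1 : g⁻¹ * h ∈ HC.subgroupOf GC := QuotientGroup.leftRel_apply.1 hgh
    have := phiC_mul_H g (g⁻¹ * h) h1
    rw [mul_inv_cancel_left] at this
    exact this.symm)

lemma PhiC_mk (g : GC) : PhiC (QuotientGroup.mk g) = phiC g := rfl

/-- the inverse map -/
noncomputable def PsiC (p : G3) : GHC := QuotientGroup.mk (mkC p 0)

lemma PhiC_PsiC (p : G3) : PhiC (PsiC p) = p := by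
  unfold PsiC
  rw [PhiC_mk, phiC_mkC, ext3_zero', neg_zero, bst_zero, mul_one]

lemma PsiC_PhiC (x : GHC) : PsiC (PhiC x) = x := by
  induction x using QuotientGroup.induction_on with
  | H g =>
    obtain ⟨A, v, rfl⟩ := exists_mkC g
    rw [PhiC_mk, phiC_mkC]
    unfold PsiC
    apply Eq.symm
    rw [QuotientGroup.eq, mem_HC_iff]
    refine ⟨-v, ?_⟩
    rw [inv_mul_eq_iff_eq_mul, mkC_mul, ext3_neg', add_neg_cancel]

lemma continuous_phiC : Continuous phiC :=
  continuous_cA.mul (continuous_bst.comp (continuous_ext3.comp continuous_cv2).neg)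

lemma continuous_PhiC : Continuous PhiC :=
  Continuous.quotient_lift continuous_phiC _

lemma continuous_PsiC : Continuous PsiC :=
  continuous_quotient_mk'.comp (continuous_mkC_aux continuous_id continuous_const)

lemma PhiC_injective : Function.Injective PhiC :=
  Function.LeftInverse.injective PsiC_PhiC

lemma PhiC_smul (A : G3) (v : Fin 2 → ℝ) (x : GHC) :
    PhiC (mkC A v • x) = A * PhiC x * bst (- ext3 v) := by
  induction x using QuotientGroup.induction_on with
  | H g =>
    obtain ⟨B, w, rfl⟩ := exists_mkC g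
    have : mkC A v • (QuotientGroup.mk (mkC B w) : GHC)
        = QuotientGroup.mk (mkC A v * mkC B w) := rfl
    rw [this, PhiC_mk, PhiC_mk, mkC_mul, phiC_mkC, phiC_mkC, ext3_add', mul_assoc A (B * _),
      mul_assoc B, ← bst_add, mul_assoc]
    congr 3
    abel

end Pool.Agent.Lib.MP_e63071_gt
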