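import Pool.Agent.Lib.MP_e63071_gt.CSetup

/-!
# The connected example: the twisting homomorphism
-/

set_option autoImplicit false

namespace Pool.Agent.Lib.MP_e63071_gt

open Matrix

/-- the cocycles as real numbers -/
noncomputable def cr (g : Gam) (j : Fin 3) : ℝ := (c j (g : GL (Fin 3) ℤ) : ℝ)

lemma cr_mul (g h : Gam) (j : Fin 3) : cr (g * h) j = cr g j + cr h j := by
  unfold cr
  have h1 : ((g * h : Gam) : GL (Fin 3) ℤ) = (g : GL (Fin 3) ℤ) * (h : GL (Fin 3) ℤ) := rfl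
  rw [h1, c_mul g.2.1 h.2.1 (Or.inl rfl) g.2.2.1]
  push_cast; ring

lemma cr_one (j : Fin 3) : cr 1 j = 0 := by
  unfold cr
  have h1 : ((1 : Gam) : GL (Fin 3) ℤ) = 1 := rfl
  rw [h1, c_one]; simp

lemma cr_inv (g : Gam) (j : Fin 3) : cr g⁻¹ j = - cr g j := by
  have := cr_mul g⁻¹ g j
  rw [inv_mul_cancel, cr_one] at this
  linarith

lemma cr_sum (g : Gam) : cr g 0 + cr g 1 + cr g 2 = 0 := by
  have h := C_zero g.2.1 g.2.2.1
  unfold C at h
  unfold cr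
  exact_mod_cast h

lemma cr_bound (g : Gam) (j : Fin 3) {t : ℝ} (ht : 0 ≤ t) (h : Real.cosh t = mt (emb g) 2 2) :
    |cr g j| ≤ t / d0 + 1 := c_bound g j ht h

lemma cr_gamA (i j : Fin 3) : cr (gamA j) i = (if i = j then 2 else 0) - (if i = 0 then 2 else 0) := by
  unfold cr
  rw [c_gamA]
  push_cast
  rfl

lemma cr_gamB (i j : Fin 3) : cr (gamB j) i = 0 := by
  unfold cr
  rw [c_gamB]; simp

/-- the twist of the first factor -/
noncomputable def chia (g : Gam) : ℝ := R0 / 12 * (11 * cr g 2 - 5 * cr g 1)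
noncomputable def chib (g : Gam) : ℝ := R0 / 12 * (11 * cr g 1 - 5 * cr g 2)

/-- the twist of the other two factors -/
noncomputable def phir (g : Gam) : ℝ := d0 * cr g 1

/-- the twisting homomorphism -/
noncomputable def chi3 (g : Fin 3 → Gam) : Fin 2 → ℝ :=
  ![chia (g 0) - 1 / 4 * phir (g 1) + 5 / 8 * phir (g 2),
    chib (g 0) + 5 / 8 * phir (g 1) - 1 / 4 * phir (g 2)]

lemma chi3_zero (g : Fin 3 → Gam) :
    chi3 g 0 = chia (g 0) - 1 / 4 * phir (g 1) + 5 / 8 * phir (g 2) := rfl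

lemma chi3_one' (g : Fin 3 → Gam) :
    chi3 g 1 = chib (g 0) + 5 / 8 * phir (g 1) - 1 / 4 * phir (g 2) := rfl

lemma chi3_mul (g h : Fin 3 → Gam) : chi3 (g * h) = chi3 g + chi3 h := by
  funext i
  fin_cases i
  · show chi3 (g * h) 0 = chi3 g 0 + chi3 h 0
    rw [chi3_zero, chi3_zero, chi3_zero]
    simp only [Pi.mul_apply, chia, phir, cr_mul]
    ring
  · show chi3 (g * h) 1 = chi3 g 1 + chi3 h 1
    rw [chi3_one', chi3_one', chi3_one']
    simp only [Pi.mul_apply, chib, phir, cr_mul]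
    ring

lemma chi3_one : chi3 1 = 0 := by
  have := chi3_mul 1 1
  rw [mul_one] at this
  exact left_eq_add.1 this

lemma chi3_inv (g : Fin 3 → Gam) : chi3 g⁻¹ = - chi3 g := by
  have := chi3_mul g⁻¹ g
  rw [inv_mul_cancel, chi3_one] at this
  exact eq_neg_of_add_eq_zero_left this.symm

/-! ### the contraction factor -/

lemma exp_R0 : Real.exp R0 = 4 * Real.sqrt 10 / 3 + 13 / 3 := by
  rw [← Real.sinh_add_cosh, sinh_R0, cosh_R0]

lemma exp_d0 : Real.exp d0 = Real.sqrt 8 + 3 := by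
  unfold d0
  rw [Real.exp_arsinh, Real.sq_sqrt (by norm_num),
    show (1 : ℝ) + 8 = 3 ^ 2 by norm_num, Real.sqrt_sq (by norm_num)]

lemma four_R0_lt : 4 * R0 < 5 * d0 := by
  have h10 : Real.sqrt 10 < 3.163 := by
    rw [show (3.163:ℝ) = Real.sqrt (3.163 ^ 2) by rw [Real.sqrt_sq (by norm_num)]]
    exact Real.sqrt_lt_sqrt (by norm_num) (by norm_num)
  have h8 : (2.828 : ℝ) < Real.sqrt 8 := by
    rw [show (2.828:ℝ) = Real.sqrt (2.828 ^ 2) by rw [Real.sqrt_sq (by norm_num)]]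
    exact Real.sqrt_lt_sqrt (by norm_num) (by norm_num)
  apply Real.exp_lt_exp.1
  have h1 : Real.exp (4 * R0) = (4 * Real.sqrt 10 / 3 + 13 / 3) ^ 4 := by
    rw [← exp_R0, ← Real.exp_nat_mul]; norm_num
  have h2 : Real.exp (5 * d0) = (Real.sqrt 8 + 3) ^ 5 := by
    rw [← exp_d0, ← Real.exp_nat_mul]; norm_num
  rw [h1, h2]
  calc (4 * Real.sqrt 10 / 3 + 13 / 3) ^ 4 ≤ (8.551 : ℝ) ^ 4 := by
        apply pow_le_pow_left₀ (by positivity)
        linarith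
    _ < (5.828 : ℝ) ^ 5 := by norm_num
    _ ≤ (Real.sqrt 8 + 3) ^ 5 := by
        apply pow_le_pow_left₀ (by norm_num)
        linarith

/-- the contraction factor -/
noncomputable def qc : ℝ := 4 * R0 / (5 * d0)

lemma qc_pos : 0 < qc := div_pos (by have := R0_pos; linarith) (by have := d0_pos; linarith)
lemma qc_lt_one : qc < 1 := (div_lt_one (by have := d0_pos; linarith)).2 four_R0_lt

/-! ### the linear algebra -/

/-- the determinants -/
noncomputable def Kf (e f : ℝ) : ℝ := 1 + 1 / 4 * (e + f) - 21 / 64 * (e * f)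

/-- the adjugate forms -/
noncomputable def psi (e f a b : ℝ) : ℝ :=
  a + b + e * (5 / 8 * a + 1 / 4 * b) + f * (1 / 4 * a + 5 / 8 * b)

lemma exists_tau {x y c : ℝ} (hc : 0 ≤ c) (h : |x| ≤ |y| + c) :
    ∃ τ e : ℝ, (-1 ≤ τ ∧ τ ≤ 1) ∧ |e| ≤ c ∧ x = τ * y + e := by
  by_cases h1 : |x| ≤ c
  · exact ⟨0, x, ⟨by norm_num, by norm_num⟩, h1, by ring⟩
  · push Not at h1
    have hy : 0 < |y| := by linarith
    have hy0 : y ≠ 0 := abs_pos.1 hy
    rcases le_or_gt 0 x with hx | hx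
    · rw [abs_of_nonneg hx] at h h1
      refine ⟨(x - c) / y, c, ?_, by rw [abs_of_nonneg hc], by field_simp; ring⟩
      rw [← abs_le, abs_div, div_le_one hy, abs_of_pos (by linarith)]
      linarith
    · rw [abs_of_neg hx] at h h1
      refine ⟨(x + c) / y, -c, ?_, by rw [abs_neg, abs_of_nonneg hc], by field_simp; ring⟩
      rw [← abs_le, abs_div, div_le_one hy, abs_of_neg (by linarith)]
      linarith

lemma Kf_ge {e f : ℝ} (he : -1 ≤ e ∧ e ≤ 1) (hf : -1 ≤ f ∧ f ≤ 1) : 11 / 64 ≤ Kf e f := by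
  obtain ⟨h1, h2⟩ := he
  obtain ⟨h3, h4⟩ := hf
  unfold Kf
  nlinarith [mul_nonneg (sub_nonneg.2 h1) (sub_nonneg.2 h3), mul_nonneg (sub_nonneg.2 h1) (sub_nonneg.2 h4),
    mul_nonneg (sub_nonneg.2 h2) (sub_nonneg.2 h3), mul_nonneg (sub_nonneg.2 h2) (sub_nonneg.2 h4)]

lemma Kf_le {e f : ℝ} (he : -1 ≤ e ∧ e ≤ 1) (hf : -1 ≤ f ∧ f ≤ 1) : Kf e f ≤ 2 := by
  obtain ⟨h1, h2⟩ := he
  obtain ⟨h3, h4⟩ := hf
  unfold Kf
  nlinarith [mul_nonneg (sub_nonneg.2 h1) (sub_nonneg.2 h3), mul_nonneg (sub_nonneg.2 h1) (sub_nonneg.2 h4),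
    mul_nonneg (sub_nonneg.2 h2) (sub_nonneg.2 h3), mul_nonneg (sub_nonneg.2 h2) (sub_nonneg.2 h4)]

/-- the bounds at the four corners -/
structure Corner (a b T : ℝ) : Prop where
  pp : |psi 1 1 a b| ≤ qc * Kf 1 1 * T
  pm : |psi 1 (-1) a b| ≤ qc * Kf 1 (-1) * T
  mp : |psi (-1) 1 a b| ≤ qc * Kf (-1) 1 * T
  mm : |psi (-1) (-1) a b| ≤ qc * Kf (-1) (-1) * T

lemma Corner.all {a b T : ℝ} (h : Corner a b T) {e f : ℝ} (he : -1 ≤ e ∧ e ≤ 1)
    (hf : -1 ≤ f ∧ f ≤ 1) : |psi e f a b| ≤ qc * Kf e f * T := by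
  obtain ⟨h1, h2⟩ := he
  obtain ⟨h3, h4⟩ := hf
  have w1 : 0 ≤ (1 + e) / 2 * ((1 + f) / 2) := by apply mul_nonneg <;> linarith
  have w2 : 0 ≤ (1 + e) / 2 * ((1 - f) / 2) := by apply mul_nonneg <;> linarith
  have w3 : 0 ≤ (1 - e) / 2 * ((1 + f) / 2) := by apply mul_nonneg <;> linarith
  have w4 : 0 ≤ (1 - e) / 2 * ((1 - f) / 2) := by apply mul_nonneg <;> linarith
  have e1 : psi e f a b = (1 + e) / 2 * ((1 + f) / 2) * psi 1 1 a b
      + (1 + e) / 2 * ((1 - f) / 2) * psi 1 (-1) a b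
      + (1 - e) / 2 * ((1 + f) / 2) * psi (-1) 1 a b
      + (1 - e) / 2 * ((1 - f) / 2) * psi (-1) (-1) a b := by
    unfold psi; ring
  have e2 : qc * Kf e f * T = (1 + e) / 2 * ((1 + f) / 2) * (qc * Kf 1 1 * T)
      + (1 + e) / 2 * ((1 - f) / 2) * (qc * Kf 1 (-1) * T)
      + (1 - e) / 2 * ((1 + f) / 2) * (qc * Kf (-1) 1 * T)
      + (1 - e) / 2 * ((1 - f) / 2) * (qc * Kf (-1) (-1) * T) := by
    unfold Kf; ring
  obtain ⟨a1, a2⟩ := abs_le.1 h.pp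
  obtain ⟨b1, b2⟩ := abs_le.1 h.pm
  obtain ⟨c1, c2⟩ := abs_le.1 h.mp
  obtain ⟨d1, d2⟩ := abs_le.1 h.mm
  rw [e2, abs_le, e1]
  constructor
  · have A := mul_le_mul_of_nonneg_left a1 w1
    have B := mul_le_mul_of_nonneg_left b1 w2
    have C := mul_le_mul_of_nonneg_left c1 w3
    have D := mul_le_mul_of_nonneg_left d1 w4
    linarith
  · have A := mul_le_mul_of_nonneg_left a2 w1
    have B := mul_le_mul_of_nonneg_left b2 w2
    have C := mul_le_mul_of_nonneg_left c2 w3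
    have D := mul_le_mul_of_nonneg_left d2 w4
    linarith

lemma abs_mul_le_of {τ x : ℝ} (hτ : -1 ≤ τ ∧ τ ≤ 1) : |τ * x| ≤ |x| := by
  rw [abs_mul]
  have : |τ| ≤ 1 := abs_le.2 hτ
  have := mul_le_mul_of_nonneg_right this (abs_nonneg x)
  linarith

lemma psi_le {e f a b : ℝ} (he : -1 ≤ e ∧ e ≤ 1) (hf : -1 ≤ f ∧ f ≤ 1) :
    |psi e f a b| ≤ 15 / 8 * (|a| + |b|) := by
  have h1 := abs_mul_le_of (x := a) he
  have h2 := abs_mul_le_of (x := b) he
  have h3 := abs_mul_le_of (x := a) hf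
  have h4 := abs_mul_le_of (x := b) hf
  have e1 : psi e f a b = a + b + 5 / 8 * (e * a) + 1 / 4 * (e * b) + 1 / 4 * (f * a)
    + 5 / 8 * (f * b) := by unfold psi; ring
  rw [e1]
  obtain ⟨a1, a2⟩ := abs_le.1 (le_refl |a|)
  obtain ⟨b1, b2⟩ := abs_le.1 (le_refl |b|)
  obtain ⟨c1, c2⟩ := abs_le.1 h1
  obtain ⟨d1, d2⟩ := abs_le.1 h2
  obtain ⟨f1, f2⟩ := abs_le.1 h3
  obtain ⟨g1, g2⟩ := abs_le.1 h4
  rw [abs_le]
  constructor <;> linarith

lemma K_aux {k c A B : ℝ} (hk : 11 / 64 ≤ k) (hc : 0 ≤ c) (hA : 0 ≤ A) (hB : 0 ≤ B) :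
    5 / 4 * (A + c) + 5 / 8 * (B + c) ≤ k * (11 * (A + B + 2 * c)) := by
  have h1 := mul_nonneg (sub_nonneg.2 hk) (by linarith : (0:ℝ) ≤ A + B + 2 * c)
  nlinarith

/-- the main linear estimate -/
lemma lin {a b x1 x2 y1 y2 c T : ℝ} (hc : 0 ≤ c) (hx1 : |x1| ≤ |y1| + c) (hx2 : |x2| ≤ |y2| + c)
    (h1 : y1 = a - 1 / 4 * x1 + 5 / 8 * x2) (h2 : y2 = b + 5 / 8 * x1 - 1 / 4 * x2) :
    (Corner a b T → |y1 + y2| ≤ qc * T + 20 * c) ∧ |y1| ≤ 11 * (|a| + |b| + 2 * c) ∧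
      |y2| ≤ 11 * (|a| + |b| + 2 * c) := by
  obtain ⟨τ, e, hτ, he, rfl⟩ := exists_tau hc hx1
  obtain ⟨σ, f, hσ, hf, rfl⟩ := exists_tau hc hx2
  have hK := Kf_ge hτ hσ
  have hK0 : 0 < Kf τ σ := by linarith
  have hr1 : |(-(1 / 4) * e + 5 / 8 * f)| ≤ 7 / 8 * c := by
    obtain ⟨c1, c2⟩ := abs_le.1 he
    obtain ⟨d1, d2⟩ := abs_le.1 hf
    rw [abs_le]; constructor <;> linarith
  have hr2 : |(5 / 8 * e - 1 / 4 * f)| ≤ 7 / 8 * c := by
    obtain ⟨c1, c2⟩ := abs_le.1 he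
    obtain ⟨d1, d2⟩ := abs_le.1 hf
    rw [abs_le]; constructor <;> linarith
  set r1 := -(1 / 4) * e + 5 / 8 * f with hr1d
  set r2 := 5 / 8 * e - 1 / 4 * f with hr2d
  have k1 : Kf τ σ * (y1 + y2) = psi τ σ a b + psi τ σ r1 r2 := by
    unfold Kf psi
    rw [hr1d, hr2d]
    linear_combination ((1 + σ / 4) + 5 / 8 * τ) * h1 + ((1 + τ / 4) + 5 / 8 * σ) * h2
  have k2 : Kf τ σ * y1 = (1 + σ / 4) * (a + r1) + 5 / 8 * σ * (b + r2) := by
    unfold Kf
    rw [hr1d, hr2d]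
    linear_combination (1 + σ / 4) * h1 + 5 / 8 * σ * h2
  have k3 : Kf τ σ * y2 = (1 + τ / 4) * (b + r2) + 5 / 8 * τ * (a + r1) := by
    unfold Kf
    rw [hr1d, hr2d]
    linear_combination (1 + τ / 4) * h2 + 5 / 8 * τ * h1
  have ha1 : |a + r1| ≤ |a| + c := (abs_add_le _ _).trans (by linarith)
  have ha2 : |b + r2| ≤ |b| + c := (abs_add_le _ _).trans (by linarith)
  refine ⟨?_, ?_, ?_⟩
  · intro hcor
    have h3 := hcor.all hτ hσ
    have h4 := psi_le (a := r1) (b := r2) hτ hσ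
    have h5 : Kf τ σ * |y1 + y2| ≤ qc * Kf τ σ * T + 15 / 8 * (7 / 8 * c + 7 / 8 * c) := by
      rw [← abs_of_pos hK0, ← abs_mul, abs_of_pos hK0, k1]
      refine (abs_add_le _ _).trans ?_
      linarith
    have h6 : 15 / 8 * (7 / 8 * c + 7 / 8 * c) ≤ Kf τ σ * (20 * c) := by
      nlinarith
    have h7 : Kf τ σ * |y1 + y2| ≤ Kf τ σ * (qc * T + 20 * c) := by
      calc _ ≤ _ := h5
        _ ≤ qc * Kf τ σ * T + Kf τ σ * (20 * c) := by linarith
        _ = _ := by ring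
    exact le_of_mul_le_mul_left h7 hK0
  · have h5 : Kf τ σ * |y1| ≤ 5 / 4 * (|a| + c) + 5 / 8 * (|b| + c) := by
      have hh : Kf τ σ * |y1| = |Kf τ σ * y1| := by rw [abs_mul, abs_of_pos hK0]
      rw [hh, k2]
      refine (abs_add_le _ _).trans ?_
      have e1 : |(1 + σ / 4) * (a + r1)| ≤ 5 / 4 * (|a| + c) := by
        rw [abs_mul, abs_of_nonneg (by linarith [hσ.1] : (0:ℝ) ≤ 1 + σ / 4)]
        have : 1 + σ / 4 ≤ 5 / 4 := by linarith [hσ.2]
        exact mul_le_mul this ha1 (abs_nonneg _) (by norm_num)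
      have e2 : |5 / 8 * σ * (b + r2)| ≤ 5 / 8 * (|b| + c) := by
        rw [mul_assoc, abs_mul, abs_of_nonneg (by norm_num : (0:ℝ) ≤ 5 / 8)]
        have := (abs_mul_le_of (x := b + r2) hσ).trans ha2
        linarith
      linarith
    have h6 := K_aux hK hc (abs_nonneg a) (abs_nonneg b)
    exact le_of_mul_le_mul_left (h5.trans h6) hK0
  · have h5 : Kf τ σ * |y2| ≤ 5 / 4 * (|b| + c) + 5 / 8 * (|a| + c) := by
      have hh : Kf τ σ * |y2| = |Kf τ σ * y2| := by rw [abs_mul, abs_of_pos hK0]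
      rw [hh, k3]
      refine (abs_add_le _ _).trans ?_
      have e1 : |(1 + τ / 4) * (b + r2)| ≤ 5 / 4 * (|b| + c) := by
        rw [abs_mul, abs_of_nonneg (by linarith [hτ.1] : (0:ℝ) ≤ 1 + τ / 4)]
        have : 1 + τ / 4 ≤ 5 / 4 := by linarith [hτ.2]
        exact mul_le_mul this ha2 (abs_nonneg _) (by norm_num)
      have e2 : |5 / 8 * τ * (a + r1)| ≤ 5 / 8 * (|a| + c) := by
        rw [mul_assoc, abs_mul, abs_of_nonneg (by norm_num : (0:ℝ) ≤ 5 / 8)]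
        have := (abs_mul_le_of (x := a + r1) hτ).trans ha1
        linarith
      linarith
    have h6 := K_aux hK hc (abs_nonneg b) (abs_nonneg a)
    rw [add_comm |b| |a|] at h6
    exact le_of_mul_le_mul_left (h5.trans h6) hK0

lemma psi_pp (g : Gam) : psi 1 1 (chia g) (chib g) = -(15 / 16) * (R0 * cr g 0) := by
  have := cr_sum g
  unfold psi chia chib
  linear_combination (-(15 / 16) * R0) * (-1) * this

lemma psi_mm (g : Gam) : psi (-1) (-1) (chia g) (chib g) = -(1 / 16) * (R0 * cr g 0) := by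
  have := cr_sum g
  unfold psi chia chib
  linear_combination (1 / 16 * R0) * this

lemma psi_pm (g : Gam) : psi 1 (-1) (chia g) (chib g) = R0 * cr g 2 := by
  unfold psi chia chib
  ring

lemma psi_mp (g : Gam) : psi (-1) 1 (chia g) (chib g) = R0 * cr g 1 := by
  unfold psi chia chib
  ring

lemma corner_of {g : Gam} {T : ℝ} (h : ∀ j, d0 * |cr g j| ≤ T) : Corner (chia g) (chib g) T := by
  have hd := d0_pos
  have hR := R0_pos
  have hT : 0 ≤ T := le_trans (by positivity) (h 0)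
  have key : ∀ j, R0 * |cr g j| ≤ 5 / 4 * qc * T := by
    intro j
    have e1 : 5 / 4 * qc = R0 / d0 := by unfold qc; field_simp
    rw [e1, div_mul_eq_mul_div, le_div_iff₀ hd]
    nlinarith [h j]
  have hq := qc_pos
  constructor
  · rw [psi_pp, abs_mul, abs_mul, abs_of_pos hR]
    have := key 0
    unfold Kf
    rw [abs_of_neg (by norm_num)]
    nlinarith [mul_nonneg hq.le hT]
  · rw [psi_pm, abs_mul, abs_of_pos hR]
    have := key 2
    unfold Kf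
    nlinarith [mul_nonneg hq.le hT]
  · rw [psi_mp, abs_mul, abs_of_pos hR]
    have := key 1
    unfold Kf
    nlinarith [mul_nonneg hq.le hT]
  · rw [psi_mm, abs_mul, abs_mul, abs_of_pos hR]
    have := key 0
    unfold Kf
    rw [abs_of_neg (by norm_num)]
    nlinarith [mul_nonneg hq.le hT]

end Pool.Agent.Lib.MP_e63071_gt
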