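import Mathlib

/-!
# Hadamard's global inverse function theorem
-/

set_option autoImplicit false

namespace Pool.Agent.Lib.MP_e63071_gt

open Topology Filter

variable {E : Type*} [NormedAddCommGroup E] [NormedSpace ℝ E] [FiniteDimensional ℝ E]

/-- A proper local diffeomorphism of a finite-dimensional space onto itself is a global one. -/
theorem hadamard (u : E → E) {n : WithTop ℕ∞} (hn : n ≠ 0) (hu : ContDiff ℝ n u)
    (u' : E → E ≃L[ℝ] E)
    (hu' : ∀ x, HasFDerivAt u (u' x : E →L[ℝ] E) x)
    (hprop : ∀ M : ℝ, ∃ M' : ℝ, ∀ x, ‖u x‖ ≤ M → ‖x‖ ≤ M') :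
    ∃ e : E ≃ₜ E, (∀ x, e x = u x) ∧ ContDiff ℝ n e.symm := by
  have : CompleteSpace E := FiniteDimensional.complete ℝ E
  have : ProperSpace E := FiniteDimensional.proper ℝ E
  have hc : Continuous u := hu.continuous
  -- local homeomorphism
  have hloc : IsLocalHomeomorph u := by
    intro x
    have hx := hu.contDiffAt (x := x)
    exact ⟨hx.toOpenPartialHomeomorph u (hu' x) hn,
      hx.mem_toOpenPartialHomeomorph_source (hu' x) hn, rfl⟩
  -- proper
  have hproper : IsProperMap u := by
    rw [isProperMap_iff_tendsto_cocompact]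
    refine ⟨hc, ?_⟩
    rw [← Metric.cobounded_eq_cocompact, ← tendsto_norm_atTop_iff_cobounded]
    rw [tendsto_atTop]
    intro M
    obtain ⟨M', hM'⟩ := hprop M
    have h1 : ∀ᶠ x : E in Bornology.cobounded E, M' < ‖x‖ := by
      have := tendsto_norm_cobounded_atTop (E := E)
      exact this.eventually (eventually_gt_atTop M')
    filter_upwards [h1] with x hx
    by_contra hcon
    push Not at hcon
    exact absurd (hM' x hcon.le) (not_le.2 hx)
  have hclosed : IsClosedMap u := hproper.isClosedMap
  have hfin : ∀ y ∈ (Set.univ : Set E), (u ⁻¹' {y}).Finite := by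
    intro y _
    refine (hproper.isCompact_preimage isCompact_singleton).finite ?_
    refine IsDiscrete.of_openPartialHomeomorph u subset_rfl ?_
    intro e _
    obtain ⟨φ, hφ, h⟩ := hloc e
    exact ⟨φ, hφ, h.symm⟩
  have hcov : IsCoveringMap u := by
    rw [isCoveringMap_iff_isCoveringMapOn_univ]
    refine hclosed.isCoveringMapOn_of_isLocalHomeomorphOn hfin ?_
    intro x _
    exact hloc x
  -- lift the identity
  obtain ⟨F, ⟨hF0, hF⟩, -⟩ := hcov.existsUnique_continuousMap_lifts (ContinuousMap.id E)
    (u 0) 0 rfl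
  have h1 : ∀ y, u (F y) = y := fun y => congrFun hF y
  have h2 : F ∘ u = id := by
    refine hcov.eq_of_comp_eq (F.continuous.comp hc) continuous_id ?_ 0 hF0
    funext x
    exact h1 (u x)
  let e : E ≃ₜ E := { toFun := u, invFun := F, left_inv := fun x => congrFun h2 x,
                      right_inv := h1, continuous_toFun := hc, continuous_invFun := F.continuous }
  refine ⟨e, fun x => rfl, ?_⟩
  exact Homeomorph.contDiff_symm e hu' hu

end Pool.Agent.Lib.MP_e63071_gt
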