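import Pool.Agent.Lib.MP_e63071_gt.CDet
import Pool.Agent.Lib.MP_e63071_gt.Hadamard

/-!
# The connected example: the function `w`
-/

set_option autoImplicit false

namespace Pool.Agent.Lib.MP_e63071_gt

open Matrix
open scoped ContDiff

variable {V : G3 → Fin 3 → ℝ}

/-! ### boundedness on compact sets -/

lemma rot_periodic : Function.Periodic rot (2 * Real.pi) := by
  intro θ
  apply mt_injective
  rw [mt_rot, mt_rot]
  ext i j
  fin_cases i <;> fin_cases j <;> simp [rotM]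

lemma mt_cartan_22 (θ t θ' : ℝ) : mt (rot θ * boost t * rot θ') 2 2 = Real.cosh t := by
  rw [mt_mul, mt_mul, mt_rot, mt_rot, mt_boost]
  simp [rotM, boostM, Matrix.mul_apply, Fin.sum_univ_three]

lemma cartan_bdd (g : G1) : ∃ θ t θ' : ℝ, (0 ≤ θ ∧ θ ≤ 2 * Real.pi) ∧
    |t| ≤ Real.log (2 * mt g 2 2) ∧ (0 ≤ θ' ∧ θ' ≤ 2 * Real.pi) ∧
    g = rot θ * boost t * rot θ' := by
  obtain ⟨θ, t, θ', rfl⟩ := cartan g
  obtain ⟨φ, hφ, h1⟩ := rot_periodic.exists_mem_Ico₀ Real.two_pi_pos θ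
  obtain ⟨φ', hφ', h2⟩ := rot_periodic.exists_mem_Ico₀ Real.two_pi_pos θ'
  refine ⟨φ, t, φ', ⟨hφ.1, hφ.2.le⟩, ?_, ⟨hφ'.1, hφ'.2.le⟩, by rw [h1, h2]⟩
  rw [mt_cartan_22, abs_le]
  have e1 := le_log_cosh t
  have e2 := le_log_cosh (-t)
  rw [Real.cosh_neg] at e2
  constructor <;> linarith

lemma FamC.bounded (F : FamC V) (C : ℝ) : ∃ M, 0 ≤ M ∧ ∀ g : G3, (∀ i, mt (g i) 2 2 ≤ C) →
    ‖V g‖ ≤ M := by
  have hc : Continuous (fun p : (Fin 3 → ℝ) × (Fin 3 → ℝ) × (Fin 3 → ℝ) =>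
      V (cart p.1 p.2.1 p.2.2)) := by
    have h1 := F.hsmooth.continuous.comp
      (continuous_id.prodMk (continuous_const (y := (0 : Fin 3 → ℝ))))
    have h2 : (fun p : (Fin 3 → ℝ) × (Fin 3 → ℝ) × (Fin 3 → ℝ) => V (cart p.1 p.2.1 p.2.2)) =
        (fun p : ((Fin 3 → ℝ) × (Fin 3 → ℝ) × (Fin 3 → ℝ)) × (Fin 3 → ℝ) =>
          V (cart p.1.1 p.1.2.1 p.1.2.2 * bst p.2)) ∘ fun x => (id x, 0) := by
      funext p
      simp only [Function.comp, bst_zero, mul_one, id]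
    rw [h2]
    exact h1
  set B := Real.log (2 * C) with hB
  have hK : IsCompact ((Set.pi Set.univ (fun _ : Fin 3 => Set.Icc (0:ℝ) (2 * Real.pi))) ×ˢ
      (Set.pi Set.univ (fun _ : Fin 3 => Set.Icc (-B) B)) ×ˢ
      (Set.pi Set.univ (fun _ : Fin 3 => Set.Icc (0:ℝ) (2 * Real.pi)))) :=
    (isCompact_univ_pi fun _ => isCompact_Icc).prod
      ((isCompact_univ_pi fun _ => isCompact_Icc).prod (isCompact_univ_pi fun _ => isCompact_Icc))
  obtain ⟨M, hM⟩ := hK.exists_bound_of_continuousOn hc.continuousOn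
  refine ⟨max 0 M, le_max_left _ _, ?_⟩
  intro g hg
  choose α β γ hα hβ hγ h using fun i => cartan_bdd (g i)
  have h1 : g = cart α β γ := funext h
  have h2 := hM (α, β, γ) ⟨fun i _ => ⟨(hα i).1, (hα i).2⟩, fun i _ => by
    have h3 : Real.log (2 * mt (g i) 2 2) ≤ B := by
      apply Real.log_le_log
      · have := one_le_22 (g i); linarith
      · have := hg i; linarith
    exact abs_le.1 ((hβ i).trans h3), fun i _ => ⟨(hγ i).1, (hγ i).2⟩⟩
  rw [h1]
  exact h2.trans (le_max_right _ _)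

/-! ### properness of `u` -/

lemma FamC.proper (F : FamC V) (h : G3) (M : ℝ) : ∃ M', ∀ t : Fin 3 → ℝ,
    ‖t + V (h * bst t)‖ ≤ M → ‖t‖ ≤ M' := by
  obtain ⟨C, hC⟩ := cocompact_coordC
  obtain ⟨MV, hMV0, hMV⟩ := F.bounded C
  have hC1 : 1 ≤ C := by
    obtain ⟨g, hg⟩ := hC 1
    exact (one_le_22 _).trans (hg 0)
  set Q : ℝ := max (mt (h 0) 2 2) (max (mt (h 1) 2 2) (mt (h 2) 2 2)) with hQ
  have hQi : ∀ i, mt (h i) 2 2 ≤ Q := by
    intro i
    fin_cases i
    · exact le_max_left _ _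
    · exact (le_max_left _ _).trans (le_max_right _ _)
    · exact (le_max_right _ _).trans (le_max_right _ _)
  set R : ℝ := 4 * C * Real.exp (MV + M) * Q with hR
  have hfin : (Set.pi Set.univ (fun _ : Fin 3 => {g : Gam | mt (emb g) 2 2 ≤ R})).Finite :=
    Set.Finite.pi fun _ => finite_le R
  obtain ⟨Y, hY⟩ := (hfin.image (fun γ => ‖ext3 (chi3 γ)‖)).bddAbove
  refine ⟨Y + (MV + M), ?_⟩
  intro t ht
  obtain ⟨γ, hγ⟩ := hC (h * bst t)
  set y := ext3 (chi3 γ) with hy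
  have hVc := F.hequi γ (h * bst t)
  rw [← hy] at hVc
  have hbd : ‖V (h * bst t) + y‖ ≤ MV := by
    rw [← hVc]
    exact hMV _ hγ
  have hyt : ‖y - t‖ ≤ MV + M := by
    have e1 : y - t = (V (h * bst t) + y) - (t + V (h * bst t)) := by abel
    rw [e1]
    exact (norm_sub_le _ _).trans (add_le_add hbd ht)
  have hmem : γ ∈ Set.pi Set.univ (fun _ : Fin 3 => {g : Gam | mt (emb g) 2 2 ≤ R}) := by
    intro i _
    show mt (emb (γ i)) 2 2 ≤ R
    set c := emb (γ i) * (h i * boost (t i)) * boost (- y i) with hc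
    have hc22 : mt c 2 2 ≤ C := hγ i
    have e1 : emb (γ i) = c * boost (y i - t i) * (h i)⁻¹ := by
      have : boost (y i - t i) = boost (y i) * boost (- t i) := by
        rw [← boost_add]; congr 1
      rw [hc, this, boost_neg (y i), boost_neg (t i)]
      group
    rw [e1]
    have f1 := mul_22_le (c * boost (y i - t i)) (h i)⁻¹
    have f2 := mul_22_le c (boost (y i - t i))
    rw [inv_22] at f1
    rw [boost_22] at f2
    have f3 : Real.cosh (y i - t i) ≤ Real.exp (MV + M) := by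
      refine (cosh_le_exp_abs _).trans (Real.exp_le_exp.2 ?_)
      have := norm_le_pi_norm (y - t) i
      rw [Real.norm_eq_abs, Pi.sub_apply] at this
      exact this.trans hyt
    have f4 := one_le_22 c
    have f5 := one_le_22 (h i)
    have f6 := Real.one_le_cosh (y i - t i)
    have hQ0 : 0 ≤ Q := (by linarith : (0:ℝ) ≤ mt (h i) 2 2).trans (hQi i)
    calc _ ≤ 2 * mt (c * boost (y i - t i)) 2 2 * mt (h i) 2 2 := f1
      _ ≤ 2 * (2 * mt c 2 2 * Real.cosh (y i - t i)) * mt (h i) 2 2 := by gcongr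
      _ ≤ 2 * (2 * C * Real.exp (MV + M)) * Q := by
          have := hQi i
          gcongr
      _ = R := by rw [hR]; ring
  have hyY : ‖y‖ ≤ Y := hY ⟨γ, hmem, rfl⟩
  have e2 : t = y - (y - t) := by abel
  rw [e2]
  exact (norm_sub_le _ _).trans (add_le_add hyY hyt)

/-! ### the global inverse -/

lemma toMatrix_one_add (V : G3 → Fin 3 → ℝ) (h : G3) :
    LinearMap.toMatrix' ((ContinuousLinearMap.id ℝ (Fin 3 → ℝ) + LV V h :
      (Fin 3 → ℝ) →L[ℝ] (Fin 3 → ℝ)) : (Fin 3 → ℝ) →ₗ[ℝ] (Fin 3 → ℝ)) = 1 + Lm V h := by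
  have : ((ContinuousLinearMap.id ℝ (Fin 3 → ℝ) + LV V h :
      (Fin 3 → ℝ) →L[ℝ] (Fin 3 → ℝ)) : (Fin 3 → ℝ) →ₗ[ℝ] (Fin 3 → ℝ)) =
      LinearMap.id + (LV V h : (Fin 3 → ℝ) →ₗ[ℝ] (Fin 3 → ℝ)) := rfl
  rw [this, map_add, LinearMap.toMatrix'_id]
  rfl

lemma FamC.hasFDerivAt_u (F : FamC V) (h : G3) (t : Fin 3 → ℝ) :
    HasFDerivAt (fun t => t + V (h * bst t))
      (ContinuousLinearMap.id ℝ (Fin 3 → ℝ) + LV V (h * bst t)) t :=
  (hasFDerivAt_id t).add (F.hasFDerivAt h t)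

lemma FamC.det_ne (F : FamC V) (h : G3) :
    (ContinuousLinearMap.id ℝ (Fin 3 → ℝ) + LV V h).det ≠ 0 := by
  have h1 : (ContinuousLinearMap.id ℝ (Fin 3 → ℝ) + LV V h).det = (1 + Lm V h).det := by
    rw [← toMatrix_one_add, LinearMap.det_toMatrix']
  rw [h1]
  exact (F.det_pos h).ne'

lemma FamC.exists_homeo (F : FamC V) (h : G3) : ∃ e : (Fin 3 → ℝ) ≃ₜ (Fin 3 → ℝ),
    (∀ t, e t = t + V (h * bst t)) ∧ ContDiff ℝ ∞ e.symm := by
  refine hadamard (n := ∞) (fun t => t + V (h * bst t)) (by simp) (contDiff_id.add (F.contDiff h))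
    (fun t => ContinuousLinearMap.toContinuousLinearEquivOfDetNeZero _ (F.det_ne (h * bst t)))
    ?_ (F.proper h)
  intro t
  rw [ContinuousLinearMap.coe_toContinuousLinearEquivOfDetNeZero]
  exact F.hasFDerivAt_u h t

/-- the homeomorphism `u` -/
noncomputable def FamC.e (F : FamC V) (h : G3) : (Fin 3 → ℝ) ≃ₜ (Fin 3 → ℝ) :=
  (F.exists_homeo h).choose

lemma FamC.e_apply (F : FamC V) (h : G3) (t : Fin 3 → ℝ) : F.e h t = t + V (h * bst t) :=
  (F.exists_homeo h).choose_spec.1 t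

lemma FamC.contDiff_symm (F : FamC V) (h : G3) : ContDiff ℝ ∞ (F.e h).symm :=
  (F.exists_homeo h).choose_spec.2

/-- the function `w` -/
noncomputable def FamC.w (F : FamC V) (A : G3) : Fin 3 → ℝ := - (F.e A).symm 0

lemma FamC.w_spec (F : FamC V) (A : G3) : V (A * bst (- F.w A)) = F.w A := by
  have h1 := F.e_apply A ((F.e A).symm 0)
  rw [Homeomorph.apply_symm_apply] at h1
  have h2 : - F.w A = (F.e A).symm 0 := by unfold FamC.w; rw [neg_neg]
  rw [h2]
  have h3 : V (A * bst ((F.e A).symm 0)) = - (F.e A).symm 0 :=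
    (neg_eq_of_add_eq_zero_right h1.symm).symm
  rw [h3]; rfl

lemma FamC.w_unique (F : FamC V) {A : G3} {v : Fin 3 → ℝ} (h : V (A * bst (-v)) = v) :
    F.w A = v := by
  have h1 := F.e_apply A (-v)
  rw [h, neg_add_cancel] at h1
  unfold FamC.w
  rw [← h1, Homeomorph.symm_apply_apply, neg_neg]

lemma FamC.w_S (F : FamC V) (A : G3) : F.w A 0 = F.w A 1 + F.w A 2 := by
  rw [← F.w_spec A]; exact F.hS _

lemma FamC.w_rt (F : FamC V) (A : G3) (θ : Fin 3 → ℝ) : F.w (A * rt θ) = F.w A := by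
  apply F.w_unique
  have h1 := F.hconst (A * bst (- F.w A)) θ
  rw [F.w_spec A] at h1
  have h2 : A * bst (- F.w A) * bst (F.w A) = A := by
    rw [mul_assoc, ← bst_add, neg_add_cancel, bst_zero, mul_one]
  rwa [h2] at h1

lemma FamC.w_emb (F : FamC V) (γ : Fin 3 → Gam) (A : G3) :
    F.w (emb3 γ * A) = F.w A + ext3 (chi3 γ) := by
  apply F.w_unique
  have h1 := F.hequi γ (A * bst (- F.w A))
  rw [F.w_spec A] at h1
  have h2 : emb3 γ * (A * bst (- F.w A)) * bst (- ext3 (chi3 γ)) =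
      emb3 γ * A * bst (-(F.w A + ext3 (chi3 γ))) := by
    rw [neg_add, bst_add]
    group
  rwa [h2] at h1

lemma FamC.w_bst (F : FamC V) (h : G3) (r : Fin 3 → ℝ) :
    F.w (h * bst r) = r - (F.e h).symm r := by
  apply F.w_unique
  have h1 := F.e_apply h ((F.e h).symm r)
  rw [Homeomorph.apply_symm_apply] at h1
  have h2 : h * bst r * bst (-(r - (F.e h).symm r)) = h * bst ((F.e h).symm r) := by
    rw [mul_assoc, ← bst_add]
    congr 2
    abel
  rw [h2]
  exact (sub_eq_of_eq_add' h1).symm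

lemma FamC.contDiff_w (F : FamC V) (h : G3) : ContDiff ℝ ∞ (fun r => F.w (h * bst r)) := by
  have : (fun r => F.w (h * bst r)) = fun r => r - (F.e h).symm r := funext (F.w_bst h)
  rw [this]
  exact contDiff_id.sub (F.contDiff_symm h)

/-- the matrix of the derivative of `w` -/
noncomputable def FamC.Wm (F : FamC V) (h : G3) (r : Fin 3 → ℝ) : Matrix (Fin 3) (Fin 3) ℝ :=
  LinearMap.toMatrix' (fderiv ℝ (fun r => F.w (h * bst r)) r : (Fin 3 → ℝ) →ₗ[ℝ] (Fin 3 → ℝ))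

theorem FamC.Wm_pos (F : FamC V) (h : G3) (r : Fin 3 → ℝ) (b : Fin 3 → Bool) :
    0 < (1 - F.Wm h r * Matrix.diagonal (sg b)).det := by
  set s := (F.e h).symm r with hs
  set A := fderiv ℝ (F.e h).symm r with hA
  have hA' : HasFDerivAt (F.e h).symm A r :=
    ((F.contDiff_symm h).differentiable (by simp) r).hasFDerivAt
  have hu : HasFDerivAt (fun t => t + V (h * bst t))
      (ContinuousLinearMap.id ℝ (Fin 3 → ℝ) + LV V (h * bst s)) ((F.e h).symm r) :=
    F.hasFDerivAt_u h s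
  have hcomp := hu.comp r hA'
  have hid : (fun t => t + V (h * bst t)) ∘ (F.e h).symm = id := by
    funext x
    show (F.e h).symm x + V (h * bst ((F.e h).symm x)) = x
    rw [← F.e_apply, Homeomorph.apply_symm_apply]
  rw [hid] at hcomp
  have h1 : (ContinuousLinearMap.id ℝ (Fin 3 → ℝ) + LV V (h * bst s)).comp A =
      ContinuousLinearMap.id ℝ (Fin 3 → ℝ) := hcomp.unique (hasFDerivAt_id r)
  set M := LinearMap.toMatrix' (A : (Fin 3 → ℝ) →ₗ[ℝ] (Fin 3 → ℝ)) with hM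
  set N := 1 + Lm V (h * bst s) with hN
  have hNM : N * M = 1 := by
    rw [hN, ← toMatrix_one_add, hM, ← LinearMap.toMatrix'_comp, ← LinearMap.toMatrix'_id]
    congr 1
    exact congrArg (fun f : (Fin 3 → ℝ) →L[ℝ] (Fin 3 → ℝ) =>
      (f : (Fin 3 → ℝ) →ₗ[ℝ] (Fin 3 → ℝ))) h1
  have hWm : F.Wm h r = 1 - M := by
    unfold FamC.Wm
    have e1 : fderiv ℝ (fun r => F.w (h * bst r)) r = ContinuousLinearMap.id ℝ (Fin 3 → ℝ) - A := by
      have e2 : (fun r => F.w (h * bst r)) = fun r => r - (F.e h).symm r := funext (F.w_bst h)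
      rw [e2]
      exact ((hasFDerivAt_id r).sub hA').fderiv
    rw [e1]
    have e3 : ((ContinuousLinearMap.id ℝ (Fin 3 → ℝ) - A : (Fin 3 → ℝ) →L[ℝ] (Fin 3 → ℝ)) :
        (Fin 3 → ℝ) →ₗ[ℝ] (Fin 3 → ℝ)) =
        LinearMap.id - (A : (Fin 3 → ℝ) →ₗ[ℝ] (Fin 3 → ℝ)) := rfl
    rw [e3, map_sub, LinearMap.toMatrix'_id]
  set E := Matrix.diagonal (sg b) with hE
  have hcc : 1 - E = Matrix.diagonal (cc b) := by
    rw [hE, ← Matrix.diagonal_one, Matrix.diagonal_sub]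
    congr 1
    funext i
    exact (cc_eq b i).symm
  have key : N * (1 - F.Wm h r * E) = 1 + Lm V (h * bst s) * Matrix.diagonal (cc b) := by
    rw [hWm, ← hcc]
    calc N * (1 - (1 - M) * E) = N - (N - N * M) * E := by noncomm_ring
      _ = 1 + Lm V (h * bst s) * (1 - E) := by
          rw [hNM, hN]; noncomm_ring
  have hdet := congrArg Matrix.det key
  rw [Matrix.det_mul, Matrix.det_one_add_mul_comm] at hdet
  have hD : 0 < DD V (cc b) (h * bst s) := F.DD_pos b _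
  unfold DD at hD
  rw [← hdet] at hD
  exact (pos_iff_pos_of_mul_pos hD).1 (F.det_pos _)

end Pool.Agent.Lib.MP_e63071_gt
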