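import Pool.Agent.Lib.MP_e63071_gt.Lorentz

/-!
# Boosts, rotations, Cartan decomposition
-/

set_option autoImplicit false

namespace Pool.Agent.Lib.MP_e63071_gt

open Matrix

/-- the hyperbolic one-parameter group -/
noncomputable def boostM (t : ℝ) : Matrix (Fin 3) (Fin 3) ℝ :=
  !![Real.cosh t, 0, Real.sinh t; 0, 1, 0; Real.sinh t, 0, Real.cosh t]

noncomputable def rotM (θ : ℝ) : Matrix (Fin 3) (Fin 3) ℝ :=
  !![Real.cos θ, - Real.sin θ, 0; Real.sin θ, Real.cos θ, 0; 0, 0, 1]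

lemma boostM_isLor (t : ℝ) : IsLor (boostM t) := by
  have h := Real.cosh_sq t
  refine ⟨?_, ?_, ?_⟩
  · ext i j
    fin_cases i <;> fin_cases j <;>
      simp [boostM, Sig, Matrix.mul_apply, Fin.sum_univ_three, Matrix.diagonal] <;> nlinarith
  · simp [boostM, Matrix.det_fin_three]; nlinarith
  · simp [boostM, Real.cosh_pos]

lemma rotM_isLor (θ : ℝ) : IsLor (rotM θ) := by
  have h := Real.cos_sq_add_sin_sq θ
  refine ⟨?_, ?_, ?_⟩
  · ext i j
    fin_cases i <;> fin_cases j <;>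
      simp [rotM, Sig, Matrix.mul_apply, Fin.sum_univ_three, Matrix.diagonal] <;> nlinarith
  · simp [rotM, Matrix.det_fin_three]; nlinarith
  · simp [rotM]

noncomputable def boost (t : ℝ) : G1 := mkG1 (boostM t) (boostM_isLor t)
noncomputable def rot (θ : ℝ) : G1 := mkG1 (rotM θ) (rotM_isLor θ)

lemma mt_boost (t : ℝ) : mt (boost t) = boostM t := rfl
lemma mt_rot (θ : ℝ) : mt (rot θ) = rotM θ := rfl

lemma boost_add (s t : ℝ) : boost (s + t) = boost s * boost t := by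
  apply mt_injective
  rw [mt_mul, mt_boost, mt_boost, mt_boost]
  ext i j
  fin_cases i <;> fin_cases j <;>
    simp [boostM, Matrix.mul_apply, Fin.sum_univ_three, Real.cosh_add, Real.sinh_add] <;> ring

lemma boost_zero : boost 0 = 1 := by
  apply mt_injective
  rw [mt_boost, mt_one]
  ext i j
  fin_cases i <;> fin_cases j <;> simp [boostM]

lemma boost_neg (t : ℝ) : boost (-t) = (boost t)⁻¹ := by
  apply eq_inv_of_mul_eq_one_left
  rw [← boost_add]; simp [boost_zero]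

lemma rot_add (s t : ℝ) : rot (s + t) = rot s * rot t := by
  apply mt_injective
  rw [mt_mul, mt_rot, mt_rot, mt_rot]
  ext i j
  fin_cases i <;> fin_cases j <;>
    simp [rotM, Matrix.mul_apply, Fin.sum_univ_three, Real.cos_add, Real.sin_add] <;> ring

lemma rot_zero : rot 0 = 1 := by
  apply mt_injective
  rw [mt_rot, mt_one]
  ext i j
  fin_cases i <;> fin_cases j <;> simp [rotM]

/-- half turn about the base point -/
noncomputable def kap : G1 := rot Real.pi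

lemma kap_boost (t : ℝ) : kap * boost t = boost (-t) * kap := by
  apply mt_injective
  rw [mt_mul, mt_mul, mt_boost, mt_boost, kap, mt_rot]
  ext i j
  fin_cases i <;> fin_cases j <;>
    simp [rotM, boostM, Matrix.mul_apply, Fin.sum_univ_three]

lemma kap_sq : kap * kap = 1 := by
  apply mt_injective
  rw [mt_mul, kap, mt_rot, mt_one]
  ext i j
  fin_cases i <;> fin_cases j <;>
    simp [rotM, Matrix.mul_apply, Fin.sum_univ_three]

lemma continuous_boost : Continuous boost := by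
  rw [continuous_iff_mt]
  refine continuous_matrix ?_
  intro i j
  simp only [mt_boost]
  fin_cases i <;> fin_cases j <;>
    simp [boostM] <;> fun_prop

lemma continuous_rot : Continuous rot := by
  rw [continuous_iff_mt]
  refine continuous_matrix ?_
  intro i j
  simp only [mt_rot]
  fin_cases i <;> fin_cases j <;>
    simp [rotM] <;> fun_prop

/-- the stabiliser of the base point -/
lemma exists_rot_of_22 {A : Matrix (Fin 3) (Fin 3) ℝ} (hA : IsLor A) (h : A 2 2 = 1) :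
    ∃ θ, A = rotM θ := by
  have c22 := col_rel hA.form 2 2
  have r22 := row_rel hA.form 2 2
  rw [Sig_22, h] at c22 r22
  have a02 : A 0 2 = 0 := by nlinarith [sq_nonneg (A 0 2), sq_nonneg (A 1 2)]
  have a12 : A 1 2 = 0 := by nlinarith [sq_nonneg (A 0 2), sq_nonneg (A 1 2)]
  have a20 : A 2 0 = 0 := by nlinarith [sq_nonneg (A 2 0), sq_nonneg (A 2 1)]
  have a21 : A 2 1 = 0 := by nlinarith [sq_nonneg (A 2 0), sq_nonneg (A 2 1)]
  have c00 := col_rel hA.form 0 0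
  rw [Sig_00, a20] at c00
  have c11 := col_rel hA.form 1 1
  rw [Sig_11, a21] at c11
  have c01 := col_rel hA.form 0 1
  have s01 : Sig 0 1 = 0 := by simp [Sig]
  rw [s01, a20] at c01
  have hd := hA.det
  rw [Matrix.det_fin_three, a02, a12, a20, a21, h] at hd
  have h1 : A 0 0 ^ 2 + A 1 0 ^ 2 = 1 := by linarith
  obtain ⟨θ, hθ⟩ : ∃ θ : ℝ, A 0 0 = Real.cos θ ∧ A 1 0 = Real.sin θ := by
    have hz : ‖(⟨A 0 0, A 1 0⟩ : ℂ)‖ = 1 := by
      rw [Complex.norm_eq_sqrt_sq_add_sq]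
      simp only
      rw [h1, Real.sqrt_one]
    refine ⟨Complex.arg ⟨A 0 0, A 1 0⟩, ?_, ?_⟩
    · have hne : (⟨A 0 0, A 1 0⟩ : ℂ) ≠ 0 := by
        intro h0; rw [h0] at hz; simp at hz
      rw [Complex.cos_arg hne, hz]; simp
    · rw [Complex.sin_arg, hz]; simp
  obtain ⟨hc, hs⟩ := hθ
  have hd' : A 0 0 * A 1 1 - A 0 1 * A 1 0 = 1 := by linarith
  have e1 : A 0 1 = - A 1 0 := by
    linear_combination (- A 0 1) * h1 + A 0 0 * c01 - A 1 0 * hd'
  have e2 : A 1 1 = A 0 0 := by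
    linear_combination (- A 1 1) * h1 + A 0 0 * hd' + A 1 0 * c01
  refine ⟨θ, ?_⟩
  ext i j
  fin_cases i <;> fin_cases j
  · simp [rotM, hc]
  · simp [rotM, e1, hs]
  · simp [rotM, a02]
  · simp [rotM, hs]
  · simp [rotM, e2, hc]
  · simp [rotM, a12]
  · simp [rotM, a20]
  · simp [rotM, a21]
  · simp [rotM, h]

lemma exists_rot_boost {x : R3} (hx : L x x = -1) (hp : 0 < x 2) :
    ∃ θ t : ℝ, 0 ≤ t ∧ mt (rot θ * boost t) *ᵥ o = x := by
  unfold L at hx
  set r := Real.sqrt (x 0 ^ 2 + x 1 ^ 2) with hr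
  have hr2 : r ^ 2 = x 0 ^ 2 + x 1 ^ 2 := Real.sq_sqrt (by positivity)
  obtain ⟨θ, h0, h1⟩ : ∃ θ : ℝ, x 0 = r * Real.cos θ ∧ x 1 = r * Real.sin θ := by
    refine ⟨Complex.arg ⟨x 0, x 1⟩, ?_, ?_⟩
    · have := Complex.norm_mul_cos_arg (⟨x 0, x 1⟩ : ℂ)
      rw [Complex.norm_eq_sqrt_sq_add_sq] at this
      exact this.symm
    · have := Complex.norm_mul_sin_arg (⟨x 0, x 1⟩ : ℂ)
      rw [Complex.norm_eq_sqrt_sq_add_sq] at this
      exact this.symm
  have hs : Real.sinh (Real.arsinh r) = r := Real.sinh_arsinh r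
  have hc : Real.cosh (Real.arsinh r) = x 2 := by
    rw [Real.cosh_arsinh, hr2]
    have : (1 : ℝ) + (x 0 ^ 2 + x 1 ^ 2) = x 2 ^ 2 := by nlinarith
    rw [this, Real.sqrt_sq hp.le]
  refine ⟨θ, Real.arsinh r, Real.arsinh_nonneg_iff.2 (Real.sqrt_nonneg _), ?_⟩
  funext i
  rw [mulVec_o, mt_mul, mt_rot, mt_boost, Matrix.mul_apply, Fin.sum_univ_three]
  fin_cases i
  · simp [rotM, boostM, hs]; rw [h0]; ring
  · simp [rotM, boostM, hs]; rw [h1]; ring
  · simp [rotM, boostM, hc]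

lemma cartan (g : G1) : ∃ θ t θ' : ℝ, g = rot θ * boost t * rot θ' := by
  have hx : L (mt g *ᵥ o) (mt g *ᵥ o) = -1 := by rw [(mt_isLor g).L_mulVec, L_o_o]
  have hp : 0 < (mt g *ᵥ o) 2 := by rw [mulVec_o]; exact (mt_isLor g).pos
  obtain ⟨θ, t, -, h⟩ := exists_rot_boost hx hp
  set k := (rot θ * boost t)⁻¹ * g with hk
  have h1 : mt k *ᵥ o = o := by
    rw [hk, mt_mul, ← Matrix.mulVec_mulVec, ← h, Matrix.mulVec_mulVec, ← mt_mul,
      inv_mul_cancel, mt_one, Matrix.one_mulVec]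
  have h2 : mt k 2 2 = 1 := by
    have := congrFun h1 2
    rw [mulVec_o] at this
    rw [this]; simp [o]
  obtain ⟨θ', hθ'⟩ := exists_rot_of_22 (mt_isLor k) h2
  refine ⟨θ, t, θ', ?_⟩
  have : k = rot θ' := mt_injective hθ'
  rw [← this, hk]; group

/-- all entries are bounded by the `(2,2)` entry -/
lemma entry_le {A : Matrix (Fin 3) (Fin 3) ℝ} (hA : IsLor A) (i j : Fin 3) :
    |A i j| ≤ A 2 2 := by
  have h1 := hA.one_le
  have c0 := col_rel hA.form 0 0
  have c1 := col_rel hA.form 1 1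
  have c2 := col_rel hA.form 2 2
  have r2 := row_rel hA.form 2 2
  rw [Sig_00] at c0
  rw [Sig_11] at c1
  rw [Sig_22] at c2 r2
  have h2 : A i j ^ 2 ≤ A 2 2 ^ 2 := by
    fin_cases i <;> fin_cases j
    · show A 0 0 ^ 2 ≤ _
      nlinarith [sq_nonneg (A 1 0), sq_nonneg (A 2 1), sq_nonneg (A 2 0)]
    · show A 0 1 ^ 2 ≤ _
      nlinarith [sq_nonneg (A 1 1), sq_nonneg (A 2 1), sq_nonneg (A 2 0)]
    · show A 0 2 ^ 2 ≤ _
      nlinarith [sq_nonneg (A 1 2)]
    · show A 1 0 ^ 2 ≤ _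
      nlinarith [sq_nonneg (A 0 0), sq_nonneg (A 2 1), sq_nonneg (A 2 0)]
    · show A 1 1 ^ 2 ≤ _
      nlinarith [sq_nonneg (A 0 1), sq_nonneg (A 2 1), sq_nonneg (A 2 0)]
    · show A 1 2 ^ 2 ≤ _
      nlinarith [sq_nonneg (A 0 2)]
    · show A 2 0 ^ 2 ≤ _
      nlinarith [sq_nonneg (A 2 1)]
    · show A 2 1 ^ 2 ≤ _
      nlinarith [sq_nonneg (A 2 0)]
    · exact le_rfl
  exact abs_le_of_sq_le_sq h2 (by linarith)

end Pool.Agent.Lib.MP_e63071_gt
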