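import Pool.Agent.Lib.MP_e63071_gt.Growth

/-!
# `Gam` is cocompact in `SO₀(2,1)`
-/

set_option autoImplicit false

namespace Pool.Agent.Lib.MP_e63071_gt

open Matrix

/-- `-L (tv v) x` bounds the sum of coordinates -/
lemma S_le_of_L {x : R3} (hx : L x x = -1) (hx2 : 0 < x 2) {v : Z3} (hv : B v v = -15)
    (hS : 0 < S v) : (S v : ℝ) ≤ 2 * x 2 * (- L (tv v) x) := by
  set y := tv v with hy
  have hyy : L y y = -15 := by rw [hy, L_tv, hv]; norm_num
  have hy2 : y 2 = Real.sqrt 15 / 3 * (S v : ℝ) := tv_two v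
  have hSr : (0 : ℝ) < S v := by exact_mod_cast hS
  have h15 : (3 : ℝ) < Real.sqrt 15 := by
    rw [show (3:ℝ) = Real.sqrt (3 ^ 2) by rw [Real.sqrt_sq (by norm_num)]]
    exact Real.sqrt_lt_sqrt (by norm_num) (by norm_num)
  have hSy : (S v : ℝ) ≤ y 2 := by rw [hy2]; nlinarith
  have hy2p : 0 < y 2 := lt_of_lt_of_le hSr hSy
  refine hSy.trans ?_
  unfold L at *
  set p := y 0 * x 0 + y 1 * x 1 with hp
  have cs : p ^ 2 ≤ (y 0 ^ 2 + y 1 ^ 2) * (x 0 ^ 2 + x 1 ^ 2) := by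
    nlinarith [sq_nonneg (y 0 * x 1 - y 1 * x 0)]
  have e1 : y 0 ^ 2 + y 1 ^ 2 = y 2 ^ 2 - 15 := by nlinarith
  have e2 : x 0 ^ 2 + x 1 ^ 2 = x 2 ^ 2 - 1 := by nlinarith
  rw [e1, e2] at cs
  -- |p| ≤ y2 * (x2 - 1/(2 x2))
  have hx21 : 1 ≤ x 2 ^ 2 := by nlinarith [sq_nonneg (x 0), sq_nonneg (x 1)]
  have h1 : (2 * x 2 * p) ^ 2 ≤ (y 2 * (2 * x 2 ^ 2 - 1)) ^ 2 := by
    have h2 : (2 * x 2 * p) ^ 2 = 4 * x 2 ^ 2 * p ^ 2 := by ring
    have h3 : 4 * x 2 ^ 2 * p ^ 2 ≤ 4 * x 2 ^ 2 * (y 2 ^ 2 * (x 2 ^ 2 - 1)) := by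
      apply mul_le_mul_of_nonneg_left _ (by positivity)
      nlinarith
    rw [h2]
    refine h3.trans ?_
    nlinarith [sq_nonneg (y 2)]
  have h4 : |2 * x 2 * p| ≤ y 2 * (2 * x 2 ^ 2 - 1) :=
    abs_le_of_sq_le_sq h1 (by nlinarith)
  have h5 := (abs_le.1 h4).2
  nlinarith

/-- sublevel sets are finite -/
lemma sublevel_finite {x : R3} (hx : L x x = -1) (hx2 : 0 < x 2) (C : ℝ) :
    {v : Z3 | B v v = -15 ∧ 0 < S v ∧ - L (tv v) x ≤ C}.Finite := by
  set M : ℤ := ⌈2 * x 2 * C⌉ with hM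
  apply (Set.finite_Icc (fun _ : Fin 3 => -M) (fun _ => M)).subset
  rintro v ⟨h1, h2, h3⟩
  have h4 : (S v : ℝ) ≤ 2 * x 2 * C :=
    (S_le_of_L hx hx2 h1 h2).trans (mul_le_mul_of_nonneg_left h3 (by positivity))
  have h5 : S v ≤ M := by
    have : (S v : ℝ) ≤ (M : ℝ) := h4.trans (Int.le_ceil _)
    exact_mod_cast this
  have h6 : 4 * (v 0 ^ 2 + v 1 ^ 2 + v 2 ^ 2) ≤ 3 * S v ^ 2 := by
    unfold B at h1; nlinarith
  have key : ∀ i, |v i| ≤ M := by
    intro i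
    have h7 : v i ^ 2 ≤ S v ^ 2 := by
      fin_cases i
      · show v 0 ^ 2 ≤ _
        nlinarith [sq_nonneg (v 1), sq_nonneg (v 2)]
      · show v 1 ^ 2 ≤ _
        nlinarith [sq_nonneg (v 0), sq_nonneg (v 2)]
      · show v 2 ^ 2 ≤ _
        nlinarith [sq_nonneg (v 0), sq_nonneg (v 1)]
    exact (abs_le_of_sq_le_sq h7 h2.le).trans h5
  exact ⟨fun i => (abs_le.1 (key i)).1, fun i => (abs_le.1 (key i)).2⟩

/-- the bound on the hexagon -/
lemma hex_bound {y0 y1 y2 s : ℝ} (hs : y0 + y1 + y2 = s)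
    (hq : 4 * (y0 ^ 2 + y1 ^ 2 + y2 ^ 2) - 3 * s ^ 2 = -1)
    (h0 : 0 ≤ y0) (h1 : 0 ≤ y1) (h2 : 0 ≤ y2) (k0 : 4 * y0 ≤ 3 * s) (k1 : 4 * y1 ≤ 3 * s)
    (k2 : 4 * y2 ≤ 3 * s) : s ^ 2 ≤ 4 := by
  have e : y0 * (3 * s - 4 * y0) + y1 * (3 * s - 4 * y1) + y2 * (3 * s - 4 * y2) = 1 := by
    have : 3 * s * (y0 + y1 + y2) = 3 * s ^ 2 := by rw [hs]; ring
    nlinarith
  have hs0 : 0 ≤ s := by linarith
  by_cases c0 : y0 ≤ s / 2
  · by_cases c1 : y1 ≤ s / 2
    · by_cases c2 : y2 ≤ s / 2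
      · have a0 : 0 ≤ y0 * ((3 * s - 4 * y0) - s) := mul_nonneg h0 (by linarith)
        have a1 : 0 ≤ y1 * ((3 * s - 4 * y1) - s) := mul_nonneg h1 (by linarith)
        have a2 : 0 ≤ y2 * ((3 * s - 4 * y2) - s) := mul_nonneg h2 (by linarith)
        nlinarith
      · push Not at c2
        have a0 : 0 ≤ y0 * ((3 * s - 4 * y0) - s) := mul_nonneg h0 (by linarith)
        have a1 : 0 ≤ y1 * ((3 * s - 4 * y1) - s) := mul_nonneg h1 (by linarith)
        have a2 : 0 ≤ y2 * (3 * s - 4 * y2) := mul_nonneg h2 (by linarith)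
        have a3 : 0 ≤ s * (4 * (y0 + y1) - s) := mul_nonneg hs0 (by linarith)
        nlinarith
    · push Not at c1
      have a0 : 0 ≤ y0 * ((3 * s - 4 * y0) - s) := mul_nonneg h0 (by linarith)
      have a1 : 0 ≤ y2 * ((3 * s - 4 * y2) - s) := mul_nonneg h2 (by linarith)
      have a2 : 0 ≤ y1 * (3 * s - 4 * y1) := mul_nonneg h1 (by linarith)
      have a3 : 0 ≤ s * (4 * (y0 + y2) - s) := mul_nonneg hs0 (by linarith)
      nlinarith
  · push Not at c0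
    have a0 : 0 ≤ y1 * ((3 * s - 4 * y1) - s) := mul_nonneg h1 (by linarith)
    have a1 : 0 ≤ y2 * ((3 * s - 4 * y2) - s) := mul_nonneg h2 (by linarith)
    have a2 : 0 ≤ y0 * (3 * s - 4 * y0) := mul_nonneg h0 (by linarith)
    have a3 : 0 ≤ s * (4 * (y1 + y2) - s) := mul_nonneg hs0 (by linarith)
    nlinarith

lemma am_inv_L {g : GL (Fin 3) ℤ} (hg : Good g) (x y : R3) :
    L (am g *ᵥ x) y = L x (am g⁻¹ *ᵥ y) := by
  have h1 : am g *ᵥ (am g⁻¹ *ᵥ y) = y := by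
    rw [Matrix.mulVec_mulVec, ← am_mul, mul_inv_cancel, am_one, Matrix.one_mulVec]
  conv_lhs => rw [← h1]
  rw [am_form hg]

/-- the coordinates in the lattice basis -/
lemma L_e_coord (y' : R3) (j : Fin 3) :
    L (tv (e j)) (y' 0 • tv (e 0) + y' 1 • tv (e 1) + y' 2 • tv (e 2))
      = 4 * y' j - 3 * (y' 0 + y' 1 + y' 2) := by
  simp only [L_add_right, L_smul_right, L_tv]
  fin_cases j <;> simp [B, S, e] <;> ring

lemma exists_W_reduce {x : R3} (hx : L x x = -1) (hx2 : 0 < x 2) :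
    ∃ w : GL (Fin 3) ℤ, Good w ∧ (am w⁻¹ *ᵥ x) 2 ≤ 2 * (Real.sqrt 15 / 3) := by
  let A : Set Z3 := {v | (∃ w, Good w ∧ v = act w rho) ∧ - L (tv v) x ≤ - L (tv rho) x}
  have hA : A.Finite := by
    apply (sublevel_finite hx hx2 (- L (tv rho) x)).subset
    rintro v ⟨⟨w, hw, rfl⟩, hv⟩
    exact ⟨by rw [hw.form, B_rho_rho], hw.sheet, hv⟩
  have hAne : A.Nonempty := ⟨rho, ⟨1, W.one_mem, (act_one rho).symm⟩, le_rfl⟩
  obtain ⟨v, ⟨⟨w, hw, hvw⟩, hv⟩, hmin⟩ := Set.exists_min_image A (fun v => - L (tv v) x) hA hAne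
  have hmin' : ∀ r, Good r → - L (tv (act w rho)) x ≤ - L (tv (act (w * r) rho)) x := by
    intro r hr
    rw [← hvw]
    by_cases h : - L (tv (act (w * r) rho)) x ≤ - L (tv rho) x
    · exact hmin _ ⟨⟨w * r, W.mul_mem hw hr, rfl⟩, h⟩
    · push Not at h; exact hv.trans h.le
  refine ⟨w, hw, ?_⟩
  set y := am w⁻¹ *ᵥ x with hy
  have hLy : ∀ u, L (tv (act w u)) x = L (tv u) y := by
    intro u; rw [← am_tv, am_inv_L hw]
  have hLy2 : ∀ r u, L (tv (act (w * r) u)) x = L (tv (act r u)) y := by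
    intro r u; rw [act_mul, hLy]
  obtain ⟨y', hy'⟩ := exists_coord y
  have hcoord : ∀ j, L (tv (e j)) y = 4 * y' j - 3 * (y' 0 + y' 1 + y' 2) := by
    intro j; rw [hy', L_e_coord]
  have hrho : rho = e 0 + e 1 + e 2 := by
    funext i; fin_cases i <;> simp [rho, e]
  have htv_add : ∀ u v : Z3, tv (u + v) = tv u + tv v := by
    intro u v; unfold tv
    rw [← Matrix.mulVec_add]; congr 1; funext i; simp [cv]
  have htv_smul : ∀ (n : ℤ) (v : Z3), tv (n • v) = (n : ℝ) • tv v := by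
    intro n v; unfold tv
    rw [← Matrix.mulVec_smul]; congr 1; funext i; simp [cv]
  have hLrho : L (tv rho) y = -5 * (y' 0 + y' 1 + y' 2) := by
    rw [hrho, htv_add, htv_add, L_add_left, L_add_left, hcoord, hcoord, hcoord]; ring
  have ha : ∀ j, 4 * y' j ≤ 3 * (y' 0 + y' 1 + y' 2) := by
    intro j
    have h1 := hmin' (a j) (good_a j)
    rw [hLy, hLy2] at h1
    have h2 : act (a j) rho = rho + (10 : ℤ) • e j := by
      funext i
      rw [act_a]
      fin_cases j <;> fin_cases i <;> simp [rho, e, S]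
    rw [h2, htv_add, htv_smul, L_add_left, L_smul_left, hcoord j] at h1
    push_cast at h1
    linarith
  have hs : ∀ j, 0 ≤ y' j := by
    intro j
    have h1 := hmin' (s j) (good_s j)
    rw [hLy, hLy2] at h1
    have h2 : act (s j) rho = (4 : ℤ) • rho + (-5 : ℤ) • e j := by
      funext i
      rw [act_s]
      fin_cases j <;> fin_cases i <;> simp [rho, e]
    rw [h2, htv_add, htv_smul, htv_smul, L_add_left, L_smul_left, L_smul_left, hcoord j, hLrho] at h1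
    push_cast at h1
    linarith
  have hyy : L y y = -1 := by rw [hy, am_form (W.inv_mem hw), hx]
  have hq : 4 * (y' 0 ^ 2 + y' 1 ^ 2 + y' 2 ^ 2) - 3 * (y' 0 + y' 1 + y' 2) ^ 2 = -1 := by
    have : L y y = y' 0 * L (tv (e 0)) y + y' 1 * L (tv (e 1)) y + y' 2 * L (tv (e 2)) y := by
      conv_lhs => rw [show L y y = L (y' 0 • tv (e 0) + y' 1 • tv (e 1) + y' 2 • tv (e 2)) y by
        rw [← hy']]
      rw [L_add_left, L_add_left, L_smul_left, L_smul_left, L_smul_left]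
    rw [hyy, hcoord, hcoord, hcoord] at this
    linarith
  have hb := hex_bound rfl hq (hs 0) (hs 1) (hs 2) (ha 0) (ha 1) (ha 2)
  have h2 : y 2 = Real.sqrt 15 / 3 * (y' 0 + y' 1 + y' 2) := by
    rw [hy']
    simp only [Pi.add_apply, Pi.smul_apply, smul_eq_mul, tv_two, S_e]
    push_cast; ring
  rw [h2]
  have h3 : y' 0 + y' 1 + y' 2 ≤ 2 := by
    have h0 : 0 ≤ y' 0 + y' 1 + y' 2 := by
      have := hs 0; have := hs 1; have := hs 2; linarith
    nlinarith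
  have h15 : 0 < Real.sqrt 15 / 3 := by positivity
  nlinarith

/-! ### finite index -/

def red (g : GL (Fin 3) ℤ) : Matrix (Fin 3) (Fin 3) (ZMod 12) :=
  (g : Matrix (Fin 3) (Fin 3) ℤ).map (Int.castRingHom (ZMod 12))

lemma red_act {r w : GL (Fin 3) ℤ} (h : red r = red w) (v : Z3) (i : Fin 3) :
    (12 : ℤ) ∣ act r v i - act w v i := by
  have hk : ∀ k, (12 : ℤ) ∣ (r : Matrix (Fin 3) (Fin 3) ℤ) i k - (w : Matrix (Fin 3) (Fin 3) ℤ) i k := by
    intro k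
    have h1 := congrFun (congrFun h i) k
    simp only [red, Matrix.map_apply, Int.coe_castRingHom] at h1
    have h2 := (ZMod.intCast_eq_intCast_iff_dvd_sub _ _ 12).1 h1.symm
    exact_mod_cast h2
  have e1 : act r v i - act w v i =
      ((r : Matrix (Fin 3) (Fin 3) ℤ) i 0 - (w : Matrix (Fin 3) (Fin 3) ℤ) i 0) * v 0 +
      ((r : Matrix (Fin 3) (Fin 3) ℤ) i 1 - (w : Matrix (Fin 3) (Fin 3) ℤ) i 1) * v 1 +
      ((r : Matrix (Fin 3) (Fin 3) ℤ) i 2 - (w : Matrix (Fin 3) (Fin 3) ℤ) i 2) * v 2 := by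
    simp [act, Matrix.mulVec, dotProduct, Fin.sum_univ_three]; ring
  rw [e1]
  exact dvd_add (dvd_add (Dvd.dvd.mul_right (hk 0) _) (Dvd.dvd.mul_right (hk 1) _))
    (Dvd.dvd.mul_right (hk 2) _)

lemma red_mul (g h : GL (Fin 3) ℤ) : red (g * h) = red g * red h := by
  unfold red; rw [Units.val_mul, Matrix.map_mul]

lemma mem_Gam_of_red {r w : GL (Fin 3) ℤ} (hr : Good r) (hw : Good w) (h : red r = red w) :
    r * w⁻¹ ∈ Gam := by
  have key : ∀ v i, (12 : ℤ) ∣ act (r * w⁻¹) v i - v i := by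
    intro v i
    have := red_act h (act w⁻¹ v) i
    rw [act_act_inv] at this
    rw [act_mul]; exact this
  refine ⟨W.mul_mem hr (W.inv_mem hw), ?_, ?_, ?_⟩
  · intro v
    have k0 := key v 0; have k1 := key v 1; have k2 := key v 2
    unfold S
    omega
  · have h1 : red (r * w⁻¹) = 1 := by
      have : red (w * w⁻¹) = 1 := by rw [mul_inv_cancel]; unfold red; simp
      rw [red_mul, h, ← red_mul, this]
    have h2 : (((r * w⁻¹ : GL (Fin 3) ℤ) : Matrix (Fin 3) (Fin 3) ℤ).det : ZMod 12) = 1 := by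
      have h3 := RingHom.map_det (Int.castRingHom (ZMod 12))
        ((r * w⁻¹ : GL (Fin 3) ℤ) : Matrix (Fin 3) (Fin 3) ℤ)
      have h4 : (Int.castRingHom (ZMod 12)).mapMatrix
        ((r * w⁻¹ : GL (Fin 3) ℤ) : Matrix (Fin 3) (Fin 3) ℤ) = 1 := h1
      rw [h4, Matrix.det_one] at h3
      simpa using h3
    have h5 : IsUnit (((r * w⁻¹ : GL (Fin 3) ℤ) : Matrix (Fin 3) (Fin 3) ℤ).det) :=
      (Matrix.isUnit_iff_isUnit_det _).1 (r * w⁻¹).isUnit
    rcases Int.isUnit_iff.1 h5 with h6 | h6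
    · exact h6
    · exfalso
      rw [h6] at h2
      revert h2
      decide
  · intro v i
    have := key v i
    omega

theorem Gam_cocompact : ∃ C0 : ℝ, ∀ g : G1, ∃ γ : Gam, mt (emb γ * g) 2 2 ≤ C0 := by
  classical
  let rep : Matrix (Fin 3) (Fin 3) (ZMod 12) → GL (Fin 3) ℤ := fun c =>
    if h : ∃ w, Good w ∧ red w = c then h.choose else 1
  obtain ⟨C0, hC0⟩ := (Set.finite_range (fun c : Matrix (Fin 3) (Fin 3) (ZMod 12) =>
    (∑ k, |am (rep c) 2 k|) * (2 * (Real.sqrt 15 / 3)))).bddAbove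
  refine ⟨C0, ?_⟩
  intro g
  set x := mt g *ᵥ o with hx
  have hxx : L x x = -1 := by rw [hx, (mt_isLor g).L_mulVec, L_o_o]
  have hx2 : 0 < x 2 := by rw [hx, mulVec_o]; exact (mt_isLor g).pos
  obtain ⟨w, hw, hwx⟩ := exists_W_reduce hxx hx2
  have hex : ∃ w', Good w' ∧ red w' = red w := ⟨w, hw, rfl⟩
  have hrep : Good (rep (red w)) ∧ red (rep (red w)) = red w := by
    have : rep (red w) = hex.choose := dif_pos hex
    rw [this]; exact hex.choose_spec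
  have hγ := mem_Gam_of_red hrep.1 hw hrep.2
  refine ⟨⟨rep (red w) * w⁻¹, hγ⟩, ?_⟩
  set y := am w⁻¹ *ᵥ x with hy
  have hyy : L y y = -1 := by rw [hy, am_form (W.inv_mem hw), hxx]
  have e1 : mt (emb ⟨rep (red w) * w⁻¹, hγ⟩ * g) 2 2 = (am (rep (red w)) *ᵥ y) 2 := by
    rw [← mulVec_o (mt (emb ⟨rep (red w) * w⁻¹, hγ⟩ * g)) 2, mt_mul, ← Matrix.mulVec_mulVec, ← hx,
      mt_emb, am_mul, ← Matrix.mulVec_mulVec]
  rw [e1]
  have hyk : ∀ k, |y k| ≤ 2 * (Real.sqrt 15 / 3) := by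
    have hy2 : |y 2| ≤ 2 * (Real.sqrt 15 / 3) := by
      -- y 2 is positive
      have hy2pos : 0 < y 2 := by
        have h1 : L o y = L (am w *ᵥ o) x := by rw [hy, am_inv_L hw]
        have h2 : am w *ᵥ o = (Real.sqrt 15)⁻¹ • tv (act w rho) := by
          have h15 : Real.sqrt 15 ≠ 0 := by positivity
          rw [← am_tv, tv_rho, Matrix.mulVec_smul, smul_smul, inv_mul_cancel₀ h15, one_smul]
        have h3 : L (tv (act w rho)) x < 0 := by
          apply L_neg_of_timelike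
          · rw [L_tv, hw.form, B_rho_rho]; norm_num
          · rw [hxx]; norm_num
          · rw [tv_two]
            have : (0 : ℝ) < (S (act w rho) : ℝ) := by exact_mod_cast hw.sheet
            positivity
          · exact hx2
        rw [h2, L_smul_left] at h1
        have h4 : L o y = - y 2 := by simp [L, o]
        have h5 : (Real.sqrt 15)⁻¹ * L (tv (act w rho)) x < 0 :=
          mul_neg_of_pos_of_neg (by positivity) h3
        rw [← h1, h4] at h5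
        linarith
      rw [abs_of_pos hy2pos]; exact hwx
    intro k
    refine le_trans ?_ hy2
    unfold L at hyy
    apply sq_le_sq.1
    fin_cases k
    · show y 0 ^ 2 ≤ _
      nlinarith [sq_nonneg (y 1)]
    · show y 1 ^ 2 ≤ _
      nlinarith [sq_nonneg (y 0)]
    · exact le_rfl
  have e2 : (am (rep (red w)) *ᵥ y) 2 ≤ (∑ k, |am (rep (red w)) 2 k|) * (2 * (Real.sqrt 15 / 3)) := by
    rw [Matrix.mulVec, dotProduct, Finset.sum_mul]
    apply Finset.sum_le_sum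
    intro k _
    calc am (rep (red w)) 2 k * y k ≤ |am (rep (red w)) 2 k * y k| := le_abs_self _
      _ = |am (rep (red w)) 2 k| * |y k| := abs_mul _ _
      _ ≤ _ := mul_le_mul_of_nonneg_left (hyk k) (abs_nonneg _)
  exact e2.trans (hC0 ⟨red w, rfl⟩)

end Pool.Agent.Lib.MP_e63071_gt
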