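import Pool.Agent.Lib.MP_e63071_gt.Arith

/-!
# The crossing cocycle
-/

set_option autoImplicit false

namespace Pool.Agent.Lib.MP_e63071_gt

open Matrix

def neg (u : Z3) : ℤ := if S u < 0 then 1 else 0
def eta (u : Z3) : ℤ := if S u % 4 = 1 then 1 else -1
def tau (j : Fin 3) (u : Z3) : ℤ := if (3 : ℤ) ∣ u j then 0 else 1

/-- contribution of the wall `u` to the type `j` crossing number of `g` -/
def term (j : Fin 3) (g : GL (Fin 3) ℤ) (u : Z3) : ℤ :=
  if B u u = 1 then eta u * tau j u * (neg (act g⁻¹ u) - neg u) else 0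

/-- crossing number of type `j` (each wall is counted twice, once for each orientation) -/
noncomputable def c (j : Fin 3) (g : GL (Fin 3) ℤ) : ℤ := ∑ᶠ u, term j g u

/-- walls separating `ρ` and `g ρ` (with both orientations) -/
def D (g : GL (Fin 3) ℤ) : Set Z3 := {u | u ∈ V ∧ neg (act g⁻¹ u) ≠ neg u}

def HasSgn (g : GL (Fin 3) ℤ) (ε : ℤ) : Prop := ∀ v, (4 : ℤ) ∣ S (act g v) - ε * S v

lemma Good.hasSgn {g : GL (Fin 3) ℤ} (hg : Good g) : HasSgn g 1 ∨ HasSgn g (-1) := by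
  rcases hg.sgn with h | h
  · left; intro v; simpa using h v
  · right; intro v; simpa using h v

lemma gram (x u : Z3) (hx : B x x = -15) (hu : B u u = 1) :
    225 + 15 * B x u ^ 2 - 25 * S x ^ 2 + 50 * (S u * B x u * S x) + 375 * S u ^ 2
      = - 80 * (x 1 * u 2 - x 2 * u 1 - x 0 * u 2 + x 2 * u 0 + x 0 * u 1 - x 1 * u 0) ^ 2 := by
  have hx' := hx
  have hu' := hu
  unfold B S at hx' hu' ⊢
  linear_combination (15 * (4 * (u 0 * u 0 + u 1 * u 1 + u 2 * u 2) -
    3 * ((u 0 + u 1 + u 2) * (u 0 + u 1 + u 2))) + 25 * (u 0 + u 1 + u 2) ^ 2) * hx' +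
    (-225 + 25 * (x 0 + x 1 + x 2) ^ 2) * hu'

lemma S_inv {g : GL (Fin 3) ℤ} (hg : Good g) (u : Z3) :
    -5 * S (act g⁻¹ u) = B (act g rho) u := by
  rw [← B_rho, B_comm, hg.B_inv, B_comm]

lemma D_bound_aux {g : GL (Fin 3) ℤ} (hg : Good g) {u : Z3} (hu : u ∈ V)
    (h1 : 0 < S u) (h2 : S (act g⁻¹ u) < 0) (i : Fin 3) : |u i| ≤ S (act g rho) := by
  have hb := S_inv hg u
  have hx : B (act g rho) (act g rho) = -15 := by rw [hg.form, B_rho_rho]
  have hs := hg.sheet
  have G := gram (act g rho) u hx hu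
  set x := act g rho
  set b := B x u
  have hbpos : 0 < b := by rw [← hb]; linarith
  have h3 : 0 ≤ S u * b * S x := by positivity
  have h4 : 15 * S u ^ 2 ≤ S x ^ 2 := by
    nlinarith [sq_nonneg (x 1 * u 2 - x 2 * u 1 - x 0 * u 2 + x 2 * u 0 + x 0 * u 1 - x 1 * u 0),
      sq_nonneg b]
  have h5 := V_sq hu
  have h6 : 4 * u i ^ 2 ≤ 1 + 3 * S u ^ 2 := by
    rw [← h5]
    fin_cases i
    · show 4 * u 0 ^ 2 ≤ _
      nlinarith [sq_nonneg (u 1), sq_nonneg (u 2)]
    · show 4 * u 1 ^ 2 ≤ _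
      nlinarith [sq_nonneg (u 0), sq_nonneg (u 2)]
    · show 4 * u 2 ^ 2 ≤ _
      nlinarith [sq_nonneg (u 1), sq_nonneg (u 0)]
  have h7 : u i ^ 2 ≤ S x ^ 2 := by nlinarith
  exact abs_le_of_sq_le_sq h7 hs.le

lemma neg_ne_iff {g : GL (Fin 3) ℤ} (hg : Good g) {u : Z3} (hu : u ∈ V) :
    neg (act g⁻¹ u) ≠ neg u ↔
      (0 < S u ∧ S (act g⁻¹ u) < 0) ∨ (S u < 0 ∧ 0 < S (act g⁻¹ u)) := by
  have h1 : S u ≠ 0 := V_S_ne hu
  have h2 : S (act g⁻¹ u) ≠ 0 :=
    V_S_ne ((act_mem_V (g := g⁻¹) (W.inv_mem hg)).2 hu)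
  unfold neg
  split_ifs with h3 h4 h4
  · simp; omega
  · simp; omega
  · simp; omega
  · simp; omega

lemma D_bound {g : GL (Fin 3) ℤ} (hg : Good g) {u : Z3} (hu : u ∈ D g) (i : Fin 3) :
    |u i| ≤ S (act g rho) := by
  obtain ⟨hV, hn⟩ := hu
  rcases (neg_ne_iff hg hV).1 hn with ⟨h1, h2⟩ | ⟨h1, h2⟩
  · exact D_bound_aux hg hV h1 h2 i
  · have := D_bound_aux hg (neg_mem_V hV) (by rw [S_neg]; linarith)
      (by rw [act_neg, S_neg]; linarith) i
    simpa using this

lemma D_finite {g : GL (Fin 3) ℤ} (hg : Good g) : (D g).Finite := by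
  apply (Set.finite_Icc (fun _ : Fin 3 => - S (act g rho)) (fun _ => S (act g rho))).subset
  intro u hu
  have := D_bound hg hu
  constructor
  · intro i; exact (abs_le.1 (this i)).1
  · intro i; exact (abs_le.1 (this i)).2

lemma support_term (j : Fin 3) (g : GL (Fin 3) ℤ) :
    Function.support (term j g) ⊆ D g := by
  intro u hu
  rw [Function.mem_support] at hu
  unfold term at hu
  split_ifs at hu with h
  · refine ⟨h, fun h2 => hu ?_⟩
    rw [h2]; simp
  · exact absurd rfl hu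

def actEquiv (g : GL (Fin 3) ℤ) : Z3 ≃ Z3 where
  toFun := act g
  invFun := act g⁻¹
  left_inv := act_inv_act g
  right_inv := act_act_inv g

lemma eta_act {g : GL (Fin 3) ℤ} {ε : ℤ} (hε : ε = 1 ∨ ε = -1) (hs : HasSgn g ε) {u : Z3}
    (hu : S u % 2 = 1) : eta (act g u) = ε * eta u := by
  have h := hs u
  unfold eta
  rcases hε with rfl | rfl
  · split_ifs <;> first | rfl | omega
  · split_ifs <;> first | rfl | omega

lemma tau_act {g : GL (Fin 3) ℤ} (hg : Good g) (j : Fin 3) (u : Z3) :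
    tau j (act g u) = tau j u := by
  unfold tau
  simp only [hg.typ]

lemma HasSgn.inv {g : GL (Fin 3) ℤ} {ε : ℤ} (hε : ε = 1 ∨ ε = -1) (hs : HasSgn g ε) :
    HasSgn g⁻¹ ε := by
  intro v
  obtain ⟨a, ha⟩ := hs (act g⁻¹ v)
  rw [act_act_inv] at ha
  rcases hε with rfl | rfl
  · exact ⟨-a, by linarith⟩
  · exact ⟨a, by linarith⟩

lemma term_mul {g h : GL (Fin 3) ℤ} (hg : Good g) {ε : ℤ}
    (hε : ε = 1 ∨ ε = -1) (hs : HasSgn g ε) (j : Fin 3) (u : Z3) :
    term j (g * h) u = ε * term j h (act g⁻¹ u) + term j g u := by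
  unfold term
  by_cases hu : B u u = 1
  · have hu' : B (act g⁻¹ u) (act g⁻¹ u) = 1 := by rw [hg.form_inv]; exact hu
    rw [if_pos hu, if_pos hu, if_pos hu', eta_act hε (hs.inv hε) (V_odd hu),
      tau_act (g := g⁻¹) (W.inv_mem hg), _root_.mul_inv_rev, act_mul]
    have : ε * ε = 1 := by rcases hε with rfl | rfl <;> norm_num
    linear_combination (- (eta u * tau j u * (neg (act h⁻¹ (act g⁻¹ u)) - neg (act g⁻¹ u)))) * this
  · have hu' : ¬ B (act g⁻¹ u) (act g⁻¹ u) = 1 := by rw [hg.form_inv]; exact hu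
    rw [if_neg hu, if_neg hu, if_neg hu']
    simp

lemma c_mul {g h : GL (Fin 3) ℤ} (hg : Good g) (hh : Good h) {ε : ℤ}
    (hε : ε = 1 ∨ ε = -1) (hs : HasSgn g ε) (j : Fin 3) :
    c j (g * h) = c j g + ε * c j h := by
  have h1 : c j (g * h) = ∑ᶠ u, (ε * term j h (act g⁻¹ u) + term j g u) := by
    unfold c
    exact finsum_congr (fun u => term_mul hg hε hs j u)
  have f1 : (Function.support (fun u => term j h (act g⁻¹ u))).Finite := by
    have : Function.support (fun u => term j h (act g⁻¹ u))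
        ⊆ (actEquiv g) '' (D h) := by
      intro u hu
      refine ⟨act g⁻¹ u, support_term j h hu, act_act_inv g u⟩
    exact ((D_finite hh).image _).subset this
  have f2 : (Function.support (term j g)).Finite := (D_finite hg).subset (support_term j g)
  rw [h1, finsum_add_distrib (f1.subset ?_) f2, ← mul_finsum]
  · have : ∑ᶠ u, term j h (act g⁻¹ u) = c j h := by
      have := finsum_comp_equiv (actEquiv g).symm (f := term j h)
      exact this
    rw [this]
    show ε * c j h + c j g = _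
    ring
  · intro u hu
    rw [Function.mem_support] at hu ⊢
    intro h0
    apply hu
    simp only [h0, mul_zero]

lemma c_one (j : Fin 3) : c j 1 = 0 := by
  unfold c
  have : ∀ u, term j 1 u = 0 := by
    intro u
    unfold term
    simp [act_one]
  simp [this]

end Pool.Agent.Lib.MP_e63071_gt
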