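import Pool.Agent.Lib.MP_e63071_gt.Torsion

/-!
# Growth: the number of walls crossed
-/

set_option autoImplicit false

namespace Pool.Agent.Lib.MP_e63071_gt

open Matrix

/-- minimal distance of two walls: `arcosh 3` -/
noncomputable def d0 : ℝ := Real.arsinh (Real.sqrt 8)

lemma cosh_d0 : Real.cosh d0 = 3 := by
  unfold d0
  rw [Real.cosh_arsinh, Real.sq_sqrt (by norm_num)]
  rw [show (1 : ℝ) + 8 = 3 ^ 2 by norm_num, Real.sqrt_sq (by norm_num)]

lemma d0_pos : 0 < d0 := Real.arsinh_pos_iff.2 (by positivity)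

lemma gramL (a b c : R3) :
    L a a * L b b * L c c + 2 * L a b * L b c * L a c - L a a * L b c ^ 2 - L b b * L a c ^ 2
      - L c c * L a b ^ 2
      = - (a 0 * (b 1 * c 2 - b 2 * c 1) - a 1 * (b 0 * c 2 - b 2 * c 0)
          + a 2 * (b 0 * c 1 - b 1 * c 0)) ^ 2 := by
  unfold L; ring

lemma wall_dist {x x' u u' : R3} (hx : L x x = -1) (hx' : L x' x' = -1) (hu : L u u = 1)
    (hu' : L u' u' = 1) (h1 : L x u = 0) (h2 : L x' u' = 0) : L u u' ^ 2 ≤ L x x' ^ 2 := by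
  have g1 := gramL x x' u'
  have g2 := gramL x u u'
  rw [hx, hx', hu', h2] at g1
  rw [hx, hu, hu', h1] at g2
  nlinarith [sq_nonneg (x 0 * (x' 1 * u' 2 - x' 2 * u' 1) - x 1 * (x' 0 * u' 2 - x' 2 * u' 0)
          + x 2 * (x' 0 * u' 1 - x' 1 * u' 0)), sq_nonneg (x 0 * (u 1 * u' 2 - u 2 * u' 1) - x 1 * (u 0 * u' 2 - u 2 * u' 0)
          + x 2 * (u 0 * u' 1 - u 1 * u' 0))]

/-- geodesic from the base point -/
noncomputable def ell (θ s : ℝ) : R3 := mt (rot θ * boost s) *ᵥ o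

lemma ell_eq (θ s : ℝ) :
    ell θ s = ![Real.cos θ * Real.sinh s, Real.sin θ * Real.sinh s, Real.cosh s] := by
  funext i
  unfold ell
  rw [mulVec_o, mt_mul, mt_rot, mt_boost, Matrix.mul_apply, Fin.sum_univ_three]
  fin_cases i <;> simp [rotM, boostM]

lemma L_ell (θ s s' : ℝ) : L (ell θ s) (ell θ s') = - Real.cosh (s - s') := by
  rw [ell_eq, ell_eq, Real.cosh_sub]
  simp [L]
  linear_combination (Real.sinh s * Real.sinh s') * Real.cos_sq_add_sin_sq θ

lemma L_ell_self (θ s : ℝ) : L (ell θ s) (ell θ s) = -1 := by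
  rw [L_ell]; simp

lemma continuous_L_ell (θ : ℝ) (u : R3) : Continuous (fun s => L (ell θ s) u) := by
  simp only [ell_eq, L]
  simp
  fun_prop

lemma ell_zero (θ : ℝ) : ell θ 0 = o := by
  rw [ell_eq]; funext i; fin_cases i <;> simp [o]

lemma D_crossing (g : Gam) {θ t : ℝ} (ht : 0 ≤ t) (h : mt (emb g) *ᵥ o = ell θ t) {u : Z3}
    (hu : u ∈ D (g : GL (Fin 3) ℤ)) : ∃ s, (0 ≤ s ∧ s ≤ t) ∧ L (ell θ s) (tv u) = 0 := by
  have hG : Good (g : GL (Fin 3) ℤ) := g.2.1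
  have f0 : L (ell θ 0) (tv u) = - (Real.sqrt 15 / 3 * (S u : ℝ)) := by
    rw [ell_zero, L_o_tv]
  have ft : L (ell θ t) (tv u) = - (Real.sqrt 15 / 3 * (S (act (g : GL (Fin 3) ℤ)⁻¹ u) : ℝ)) := by
    have : tv u = mt (emb g) *ᵥ tv (act (g : GL (Fin 3) ℤ)⁻¹ u) := by
      rw [mt_emb, am_tv, act_act_inv]
    rw [← h, this, (mt_isLor _).L_mulVec, L_o_tv]
  have h15 : 0 < Real.sqrt 15 / 3 := by positivity
  obtain ⟨hV, hn⟩ := hu
  rcases (neg_ne_iff hG hV).1 hn with ⟨h1, h2⟩ | ⟨h1, h2⟩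
  · have a1 : L (ell θ 0) (tv u) ≤ 0 := by
      rw [f0]
      have : (0 : ℝ) < S u := by exact_mod_cast h1
      have := mul_pos h15 this
      linarith
    have a2 : 0 ≤ L (ell θ t) (tv u) := by
      rw [ft]
      have : (S (act (g : GL (Fin 3) ℤ)⁻¹ u) : ℝ) < 0 := by exact_mod_cast h2
      have := mul_neg_of_pos_of_neg h15 this
      linarith
    obtain ⟨s, hs, hs0⟩ := intermediate_value_Icc ht (continuous_L_ell θ (tv u)).continuousOn
      ⟨a1, a2⟩
    exact ⟨s, hs, hs0⟩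
  · have a1 : 0 ≤ L (ell θ 0) (tv u) := by
      rw [f0]
      have : (S u : ℝ) < 0 := by exact_mod_cast h1
      have := mul_neg_of_pos_of_neg h15 this
      linarith
    have a2 : L (ell θ t) (tv u) ≤ 0 := by
      rw [ft]
      have : (0 : ℝ) < (S (act (g : GL (Fin 3) ℤ)⁻¹ u) : ℝ) := by exact_mod_cast h2
      have := mul_pos h15 this
      linarith
    obtain ⟨s, hs, hs0⟩ := intermediate_value_Icc' ht (continuous_L_ell θ (tv u)).continuousOn
      ⟨a2, a1⟩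
    exact ⟨s, hs, hs0⟩

lemma D_card (g : Gam) {t : ℝ} (ht : 0 ≤ t) (h : Real.cosh t = mt (emb g) 2 2) :
    ((D (g : GL (Fin 3) ℤ)).ncard : ℝ) ≤ 2 * (t / d0 + 1) := by
  have hx : L (mt (emb g) *ᵥ o) (mt (emb g) *ᵥ o) = -1 := by
    rw [(mt_isLor _).L_mulVec, L_o_o]
  have hp : 0 < (mt (emb g) *ᵥ o) 2 := by rw [mulVec_o]; exact (mt_isLor _).pos
  obtain ⟨θ, t', ht', hθ⟩ := exists_rot_boost hx hp
  have htt : t' = t := by
    have h1 : Real.cosh t' = Real.cosh t := by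
      rw [h, ← mulVec_o (mt (emb g)) 2, ← hθ]
      change _ = ell θ t' 2
      rw [ell_eq]; simp
    have h2 : |t'| = |t| := le_antisymm (Real.cosh_le_cosh.1 h1.le) (Real.cosh_le_cosh.1 h1.ge)
    rwa [abs_of_nonneg ht', abs_of_nonneg ht] at h2
  rw [htt] at hθ
  have hcr : ∀ u ∈ D (g : GL (Fin 3) ℤ), ∃ s, (0 ≤ s ∧ s ≤ t) ∧ L (ell θ s) (tv u) = 0 :=
    fun u hu => D_crossing g ht hθ.symm hu
  choose! s hs hs0 using hcr
  set N := ⌊t / d0⌋₊ with hN
  let φ : Z3 → ℕ × Bool := fun u => (⌊s u / d0⌋₊, decide (0 < S u))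
  have hmaps : ∀ u ∈ D (g : GL (Fin 3) ℤ), φ u ∈ ((Finset.range (N + 1)) ×ˢ (Finset.univ : Finset Bool)) := by
    intro u hu
    rw [Finset.mem_product]
    refine ⟨?_, Finset.mem_univ _⟩
    rw [Finset.mem_range, Nat.lt_succ_iff]
    exact Nat.floor_le_floor (div_le_div_of_nonneg_right (hs u hu).2 d0_pos.le)
  have hinj : Set.InjOn φ (D (g : GL (Fin 3) ℤ)) := by
    intro u hu u' hu' huu
    have e1 : ⌊s u / d0⌋₊ = ⌊s u' / d0⌋₊ := congrArg Prod.fst huu
    have e2 : decide (0 < S u) = decide (0 < S u') := congrArg Prod.snd huu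
    have p1 := Nat.floor_le (a := s u / d0) (div_nonneg (hs u hu).1 d0_pos.le)
    have p2 := Nat.lt_floor_add_one (s u / d0)
    have p3 := Nat.floor_le (a := s u' / d0) (div_nonneg (hs u' hu').1 d0_pos.le)
    have p4 := Nat.lt_floor_add_one (s u' / d0)
    rw [e1] at p1 p2
    have q1 : |s u / d0 - s u' / d0| < 1 := by
      rw [abs_lt]; constructor <;> linarith
    have q2 : |s u - s u'| < |d0| := by
      rw [← sub_div, abs_div, div_lt_one (abs_pos.2 d0_pos.ne')] at q1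
      exact q1
    have q3 : Real.cosh (s u - s u') < 3 := by
      rw [← cosh_d0]; exact Real.cosh_lt_cosh.2 q2
    have hBB : L (tv u) (tv u') ^ 2 ≤ L (ell θ (s u)) (ell θ (s u')) ^ 2 := by
      apply wall_dist (L_ell_self _ _) (L_ell_self _ _) ?_ ?_ (hs0 u hu) (hs0 u' hu')
      · rw [L_tv]
        have : B u u = 1 := hu.1
        rw [this]; norm_num
      · rw [L_tv]
        have : B u' u' = 1 := hu'.1
        rw [this]; norm_num
    rw [L_ell, L_tv] at hBB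
    have q4 : ((B u u' : ℤ) : ℝ) ^ 2 < 3 ^ 2 := by
      have := Real.cosh_pos (s u - s u')
      nlinarith
    have q5 : (B u u') ^ 2 < 3 ^ 2 := by exact_mod_cast q4
    have q6 : |B u u'| < 3 := abs_lt_of_sq_lt_sq q5 (by norm_num)
    rcases V_sep hu.1 hu'.1 q6 with h | h
    · exact h
    · exfalso
      have h3 : S u = - S u' := by rw [h, S_neg]
      have h4 := V_S_ne hu'.1
      rw [decide_eq_decide] at e2
      omega
  have hcard : (D (g : GL (Fin 3) ℤ)).ncard ≤ (N + 1) * 2 := by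
    have h1 := Set.ncard_le_ncard_of_injOn φ
      (t := (((Finset.range (N + 1)) ×ˢ (Finset.univ : Finset Bool) : Finset (ℕ × Bool)) : Set (ℕ × Bool)))
      hmaps hinj (Finset.finite_toSet _)
    rw [Set.ncard_coe_finset, Finset.card_product, Finset.card_range] at h1
    simpa using h1
  have h2 : ((D (g : GL (Fin 3) ℤ)).ncard : ℝ) ≤ ((N : ℝ) + 1) * 2 := by exact_mod_cast hcard
  have h3 : (N : ℝ) ≤ t / d0 := Nat.floor_le (div_nonneg ht d0_pos.le)
  linarith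

lemma tau_sum {u : Z3} (hu : u ∈ V) : tau 0 u + tau 1 u + tau 2 u = 1 := by
  have h := V_sq hu
  have sq3 : ∀ a : ℤ, (a % 3 = 0 ∧ a ^ 2 % 3 = 0) ∨ (a % 3 ≠ 0 ∧ a ^ 2 % 3 = 1) := by
    intro a
    have : a % 3 = 0 ∨ a % 3 = 1 ∨ a % 3 = 2 := by omega
    rcases this with h | h | h
    · left; exact ⟨h, by rw [pow_two, Int.mul_emod, h]; rfl⟩
    · right; exact ⟨by omega, by rw [pow_two, Int.mul_emod, h]; rfl⟩
    · right; exact ⟨by omega, by rw [pow_two, Int.mul_emod, h]; rfl⟩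
  have a0 := sq3 (u 0)
  have a1 := sq3 (u 1)
  have a2 := sq3 (u 2)
  unfold tau
  split_ifs <;> omega

lemma term_bound (j : Fin 3) {g : GL (Fin 3) ℤ} {u : Z3} (hu : u ∈ V) :
    |2 * term j g u - (term 0 g u + term 1 g u + term 2 g u)| ≤ 1 := by
  have h1 : B u u = 1 := hu
  have hτ := tau_sum hu
  unfold term
  simp only [if_pos h1]
  have e1 : 2 * (eta u * tau j u * (neg (act g⁻¹ u) - neg u)) -
      (eta u * tau 0 u * (neg (act g⁻¹ u) - neg u) + eta u * tau 1 u * (neg (act g⁻¹ u) - neg u) +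
        eta u * tau 2 u * (neg (act g⁻¹ u) - neg u))
      = eta u * ((2 * tau j u - (tau 0 u + tau 1 u + tau 2 u)) * (neg (act g⁻¹ u) - neg u)) := by
    ring
  rw [e1, hτ, abs_mul, abs_mul]
  have b1 : |eta u| = 1 := by unfold eta; split_ifs <;> simp
  have b2 : |2 * tau j u - 1| = 1 := by unfold tau; split_ifs <;> simp
  have b3 : |neg (act g⁻¹ u) - neg u| ≤ 1 := by unfold neg; split_ifs <;> simp
  rw [b1, b2, one_mul, one_mul]; exact b3

lemma c_bound (g : Gam) (j : Fin 3) {t : ℝ} (ht : 0 ≤ t) (h : Real.cosh t = mt (emb g) 2 2) :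
    |(c j (g : GL (Fin 3) ℤ) : ℝ)| ≤ t / d0 + 1 := by
  have hG : Good (g : GL (Fin 3) ℤ) := g.2.1
  have hfin := D_finite hG
  have hC := C_zero hG g.2.2.1
  have hsum : ∀ i, c i (g : GL (Fin 3) ℤ) = ∑ u ∈ hfin.toFinset, term i (g : GL (Fin 3) ℤ) u := by
    intro i
    unfold c
    apply finsum_eq_sum_of_support_subset
    intro u hu
    rw [Set.Finite.coe_toFinset]
    exact support_term i _ hu
  have h2c : 2 * c j (g : GL (Fin 3) ℤ) = ∑ u ∈ hfin.toFinset,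
      (2 * term j (g : GL (Fin 3) ℤ) u - (term 0 (g : GL (Fin 3) ℤ) u
        + term 1 (g : GL (Fin 3) ℤ) u + term 2 (g : GL (Fin 3) ℤ) u)) := by
    rw [Finset.sum_sub_distrib, Finset.sum_add_distrib, Finset.sum_add_distrib, ← Finset.mul_sum,
      ← hsum, ← hsum, ← hsum, ← hsum]
    unfold C at hC
    linarith
  have h1 : |2 * c j (g : GL (Fin 3) ℤ)| ≤ (D (g : GL (Fin 3) ℤ)).ncard := by
    rw [h2c, Set.ncard_eq_toFinset_card _ hfin]
    refine (Finset.abs_sum_le_sum_abs _ _).trans ?_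
    have : ∑ u ∈ hfin.toFinset, |2 * term j (g : GL (Fin 3) ℤ) u - (term 0 (g : GL (Fin 3) ℤ) u
        + term 1 (g : GL (Fin 3) ℤ) u + term 2 (g : GL (Fin 3) ℤ) u)|
        ≤ ∑ _u ∈ hfin.toFinset, (1 : ℤ) := by
      apply Finset.sum_le_sum
      intro u hu
      exact term_bound j ((hfin.mem_toFinset.1 hu).1)
    simpa using this
  have h2 := D_card g ht h
  have h3 : |2 * (c j (g : GL (Fin 3) ℤ) : ℝ)| ≤ ((D (g : GL (Fin 3) ℤ)).ncard : ℝ) := by
    exact_mod_cast h1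
  rw [abs_mul, abs_of_pos (by norm_num : (0:ℝ) < 2)] at h3
  linarith

end Pool.Agent.Lib.MP_e63071_gt
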