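import Mathlib

/-!
# `SO₀(2,1)` as a group of real matrices
-/

set_option autoImplicit false

namespace Pool.Agent.Lib.MP_e63071_gt

open Matrix

/-- real vectors -/
abbrev R3 : Type := Fin 3 → ℝ

/-- the Lorentz form -/
def L (x y : R3) : ℝ := x 0 * y 0 + x 1 * y 1 - x 2 * y 2

/-- signature matrix -/
def Sig : Matrix (Fin 3) (Fin 3) ℝ := Matrix.diagonal ![1, 1, -1]

/-- membership in `SO₀(2,1)` -/
structure IsLor (A : Matrix (Fin 3) (Fin 3) ℝ) : Prop where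
  form : Aᵀ * Sig * A = Sig
  det : A.det = 1
  pos : 0 < A 2 2

lemma Sig_sq : Sig * Sig = 1 := by
  unfold Sig
  rw [Matrix.diagonal_mul_diagonal, ← Matrix.diagonal_one]
  congr 1
  funext i
  fin_cases i <;> simp

lemma L_eq (x y : R3) : L x y = x ⬝ᵥ (Sig *ᵥ y) := by
  simp [L, Sig, dotProduct, Fin.sum_univ_three, Matrix.mulVec_diagonal]
  ring

lemma L_mulVec {A : Matrix (Fin 3) (Fin 3) ℝ} (hA : Aᵀ * Sig * A = Sig) (x y : R3) :
    L (A *ᵥ x) (A *ᵥ y) = L x y := by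
  rw [L_eq, L_eq]
  conv_rhs => rw [← hA]
  rw [← Matrix.vecMul_transpose, ← Matrix.dotProduct_mulVec, Matrix.mulVec_mulVec,
    Matrix.mulVec_mulVec, Matrix.mul_assoc]

lemma IsLor.L_mulVec {A : Matrix (Fin 3) (Fin 3) ℝ} (hA : IsLor A) (x y : R3) :
    L (A *ᵥ x) (A *ᵥ y) = L x y :=
  Pool.Agent.Lib.MP_e63071_gt.L_mulVec hA.form x y

lemma L_comm (x y : R3) : L x y = L y x := by unfold L; ring

/-- base point -/
def o : R3 := ![0, 0, 1]

lemma mulVec_o (A : Matrix (Fin 3) (Fin 3) ℝ) (i : Fin 3) : (A *ᵥ o) i = A i 2 := by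
  simp [Matrix.mulVec, dotProduct, Fin.sum_univ_three, o]

lemma L_o_o : L o o = -1 := by simp [L, o]

lemma form_right {A : Matrix (Fin 3) (Fin 3) ℝ} (hA : Aᵀ * Sig * A = Sig) :
    A * Sig * Aᵀ = Sig := by
  have h1 : (Sig * Aᵀ * Sig) * A = 1 := by
    rw [Matrix.mul_assoc, Matrix.mul_assoc, ← Matrix.mul_assoc Aᵀ, hA, Sig_sq]
  have h2 : A * (Sig * Aᵀ * Sig) = 1 := mul_eq_one_comm.1 h1
  calc A * Sig * Aᵀ = A * (Sig * Aᵀ * Sig) * Sig := by
        simp only [Matrix.mul_assoc, Sig_sq, Matrix.mul_one]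
    _ = Sig := by rw [h2, Matrix.one_mul]

lemma Sig_transpose : Sigᵀ = Sig := by unfold Sig; exact Matrix.diagonal_transpose _

/-- columns relations -/
lemma col_rel {A : Matrix (Fin 3) (Fin 3) ℝ} (hA : Aᵀ * Sig * A = Sig) (i j : Fin 3) :
    A 0 i * A 0 j + A 1 i * A 1 j - A 2 i * A 2 j = Sig i j := by
  have := congrFun (congrFun hA i) j
  rw [← this]
  simp [Matrix.mul_apply, Fin.sum_univ_three, Sig, Matrix.diagonal]
  ring

lemma row_rel {A : Matrix (Fin 3) (Fin 3) ℝ} (hA : Aᵀ * Sig * A = Sig) (i j : Fin 3) :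
    A i 0 * A j 0 + A i 1 * A j 1 - A i 2 * A j 2 = Sig i j := by
  have := congrFun (congrFun (form_right hA) i) j
  rw [← this]
  simp [Matrix.mul_apply, Fin.sum_univ_three, Sig, Matrix.diagonal]
  ring

lemma Sig_00 : Sig 0 0 = 1 := by simp [Sig]
lemma Sig_11 : Sig 1 1 = 1 := by simp [Sig]
lemma Sig_22 : Sig 2 2 = -1 := by simp [Sig]

lemma IsLor.one_le {A : Matrix (Fin 3) (Fin 3) ℝ} (hA : IsLor A) : 1 ≤ A 2 2 := by
  have := col_rel hA.form 2 2
  rw [Sig_22] at this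
  have h := hA.pos
  nlinarith [sq_nonneg (A 0 2), sq_nonneg (A 1 2)]

lemma IsLor.mul {A B : Matrix (Fin 3) (Fin 3) ℝ} (hA : IsLor A) (hB : IsLor B) :
    IsLor (A * B) := by
  refine ⟨?_, ?_, ?_⟩
  · rw [Matrix.transpose_mul]
    calc Bᵀ * Aᵀ * Sig * (A * B) = Bᵀ * (Aᵀ * Sig * A) * B := by
          simp only [Matrix.mul_assoc]
      _ = Sig := by rw [hA.form, hB.form]
  · rw [Matrix.det_mul, hA.det, hB.det, one_mul]
  · have h1 := row_rel hA.form 2 2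
    have h2 := col_rel hB.form 2 2
    rw [Sig_22] at h1 h2
    rw [Matrix.mul_apply, Fin.sum_univ_three]
    have ha := hA.pos
    have hb := hB.pos
    set p := A 2 0 * B 0 2 + A 2 1 * B 1 2 with hp
    have cs : p ^ 2 ≤ (A 2 0 ^ 2 + A 2 1 ^ 2) * (B 0 2 ^ 2 + B 1 2 ^ 2) := by
      nlinarith [sq_nonneg (A 2 0 * B 1 2 - A 2 1 * B 0 2)]
    have h3 : p ^ 2 < (A 2 2 * B 2 2) ^ 2 := by
      have e1 : A 2 0 ^ 2 + A 2 1 ^ 2 = A 2 2 ^ 2 - 1 := by linarith
      have e2 : B 0 2 ^ 2 + B 1 2 ^ 2 = B 2 2 ^ 2 - 1 := by linarith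
      rw [e1, e2] at cs
      have := hA.one_le
      have := hB.one_le
      nlinarith
    have h4 := abs_lt_of_sq_lt_sq h3 (by positivity)
    have := (abs_lt.1 h4).1
    linarith

lemma IsLor.one : IsLor (1 : Matrix (Fin 3) (Fin 3) ℝ) :=
  ⟨by simp, by simp, by simp⟩

lemma IsLor.mul_inv' {A : Matrix (Fin 3) (Fin 3) ℝ} (hA : Aᵀ * Sig * A = Sig) :
    A * (Sig * Aᵀ * Sig) = 1 := by
  have := form_right hA
  calc A * (Sig * Aᵀ * Sig) = A * Sig * Aᵀ * Sig := by simp only [Matrix.mul_assoc]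
    _ = 1 := by rw [this, Sig_sq]

lemma IsLor.inv' {A : Matrix (Fin 3) (Fin 3) ℝ} (hA : IsLor A) : IsLor (Sig * Aᵀ * Sig) := by
  refine ⟨?_, ?_, ?_⟩
  · rw [Matrix.transpose_mul, Matrix.transpose_mul, Matrix.transpose_transpose, Sig_transpose]
    calc Sig * (A * Sig) * Sig * (Sig * Aᵀ * Sig)
        = Sig * (A * (Sig * Sig) * Sig * Aᵀ) * Sig := by simp only [Matrix.mul_assoc]
      _ = Sig := by rw [Sig_sq, Matrix.mul_one, form_right hA.form, Sig_sq, Matrix.one_mul]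
  · have h := IsLor.mul_inv' hA.form
    have h2 := congrArg Matrix.det h
    rw [Matrix.det_mul, hA.det, one_mul, Matrix.det_one] at h2
    exact h2
  · have : (Sig * Aᵀ * Sig) 2 2 = A 2 2 := by
      simp [Sig, Matrix.mul_apply, Matrix.diagonal]
    rw [this]; exact hA.pos

lemma IsLor.transpose {A : Matrix (Fin 3) (Fin 3) ℝ} (hA : IsLor A) : IsLor Aᵀ := by
  refine ⟨?_, ?_, ?_⟩
  · rw [Matrix.transpose_transpose]; exact form_right hA.form
  · rw [Matrix.det_transpose, hA.det]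
  · simpa using hA.pos

lemma GL_inv_val {g : GL (Fin 3) ℝ} {B : Matrix (Fin 3) (Fin 3) ℝ}
    (h : (g : Matrix (Fin 3) (Fin 3) ℝ) * B = 1) :
    ((g⁻¹ : GL (Fin 3) ℝ) : Matrix (Fin 3) (Fin 3) ℝ) = B := by
  have h2 : ((g⁻¹ : GL (Fin 3) ℝ) : Matrix (Fin 3) (Fin 3) ℝ) * (g : Matrix (Fin 3) (Fin 3) ℝ)
      = 1 := by rw [← Units.val_mul, inv_mul_cancel, Units.val_one]
  calc ((g⁻¹ : GL (Fin 3) ℝ) : Matrix (Fin 3) (Fin 3) ℝ)
      = ((g⁻¹ : GL (Fin 3) ℝ) : Matrix (Fin 3) (Fin 3) ℝ) *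
        ((g : Matrix (Fin 3) (Fin 3) ℝ) * B) := by rw [h, Matrix.mul_one]
    _ = B := by rw [← Matrix.mul_assoc, h2, Matrix.one_mul]

/-- `SO₀(2,1)` -/
def G1 : Subgroup (GL (Fin 3) ℝ) where
  carrier := {g | IsLor (g : Matrix (Fin 3) (Fin 3) ℝ)}
  one_mem' := by
    show IsLor _
    rw [Units.val_one]; exact IsLor.one
  mul_mem' := by
    intro g h hg hh
    show IsLor _
    rw [Units.val_mul]; exact IsLor.mul hg hh
  inv_mem' := by
    intro g hg
    show IsLor _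
    have : IsLor (g : Matrix (Fin 3) (Fin 3) ℝ) := hg
    rw [GL_inv_val (IsLor.mul_inv' this.form)]
    exact this.inv'

lemma mem_G1 {g : GL (Fin 3) ℝ} : g ∈ G1 ↔ IsLor (g : Matrix (Fin 3) (Fin 3) ℝ) := Iff.rfl

lemma G1_inv_val (g : G1) : (((g⁻¹ : G1) : GL (Fin 3) ℝ) : Matrix (Fin 3) (Fin 3) ℝ)
    = Sig * ((g : GL (Fin 3) ℝ) : Matrix (Fin 3) (Fin 3) ℝ)ᵀ * Sig := by
  have : IsLor ((g : GL (Fin 3) ℝ) : Matrix (Fin 3) (Fin 3) ℝ) := g.2
  rw [Subgroup.coe_inv]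
  exact GL_inv_val (IsLor.mul_inv' this.form)

/-- the matrix of an element of `G1` -/
def mt (g : G1) : Matrix (Fin 3) (Fin 3) ℝ := ((g : GL (Fin 3) ℝ) : Matrix (Fin 3) (Fin 3) ℝ)

lemma mt_mul (g h : G1) : mt (g * h) = mt g * mt h := rfl
lemma mt_one : mt 1 = 1 := rfl
lemma mt_inv (g : G1) : mt g⁻¹ = Sig * (mt g)ᵀ * Sig := G1_inv_val g
lemma mt_isLor (g : G1) : IsLor (mt g) := g.2
lemma mt_injective : Function.Injective mt := by
  intro g h hgh
  exact Subtype.ext (Units.ext hgh)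

/-- construct an element of `G1` -/
def mkG1 (A : Matrix (Fin 3) (Fin 3) ℝ) (hA : IsLor A) : G1 :=
  ⟨⟨A, Sig * Aᵀ * Sig, IsLor.mul_inv' hA.form, mul_eq_one_comm.1 (IsLor.mul_inv' hA.form)⟩, hA⟩

lemma mt_mkG1 (A : Matrix (Fin 3) (Fin 3) ℝ) (hA : IsLor A) : mt (mkG1 A hA) = A := rfl

/-! ### topology -/

lemma continuous_mt : Continuous mt :=
  Units.continuous_val.comp continuous_subtype_val

lemma isInducing_mt : Topology.IsInducing mt := by
  have hE : Topology.IsInducing (fun g : G1 =>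
      Units.embedProduct (Matrix (Fin 3) (Fin 3) ℝ) (g : GL (Fin 3) ℝ)) :=
    Units.isInducing_embedProduct.comp Topology.IsInducing.subtypeVal
  have hψ : Continuous (fun A : Matrix (Fin 3) (Fin 3) ℝ =>
      (A, MulOpposite.op (Sig * Aᵀ * Sig))) := by
    refine continuous_id.prodMk (MulOpposite.continuous_op.comp ?_)
    exact (continuous_const.matrix_mul continuous_id.matrix_transpose).matrix_mul continuous_const
  refine Topology.IsInducing.of_comp continuous_mt hψ ?_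
  convert hE using 1
  funext g
  show (mt g, MulOpposite.op (Sig * (mt g)ᵀ * Sig)) = _
  rw [← mt_inv]
  rfl

lemma continuous_iff_mt {X : Type*} [TopologicalSpace X] {f : X → G1} :
    Continuous f ↔ Continuous (fun x => mt (f x)) := isInducing_mt.continuous_iff

end Pool.Agent.Lib.MP_e63071_gt
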