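import Pool.Agent.Lib.MP_e63071_gt.Cocompact

/-!
# The twisting homomorphism and the theta-graph obstruction
-/

set_option autoImplicit false

namespace Pool.Agent.Lib.MP_e63071_gt

open Matrix

/-- `μ = log 30 / 2` -/
noncomputable def mu : ℝ := Real.log 30 / 2

lemma mu_pos : 0 < mu := by unfold mu; have := Real.log_pos (show (1:ℝ) < 30 by norm_num); linarith

lemma mu_lt_d0 : mu < d0 := by
  have h1 : Real.exp (2 * mu) = 30 := by
    unfold mu
    rw [show 2 * (Real.log 30 / 2) = Real.log 30 by ring, Real.exp_log (by norm_num)]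
  have h2 : Real.exp (2 * d0) = (Real.sqrt 8 + 3) ^ 2 := by
    rw [two_mul, Real.exp_add, ← pow_two]
    unfold d0
    rw [Real.exp_arsinh, Real.sq_sqrt (by norm_num),
      show (1 : ℝ) + 8 = 3 ^ 2 by norm_num, Real.sqrt_sq (by norm_num)]
  have h8 : (2.8 : ℝ) < Real.sqrt 8 := by
    rw [show (2.8:ℝ) = Real.sqrt (2.8 ^ 2) by rw [Real.sqrt_sq (by norm_num)]]
    exact Real.sqrt_lt_sqrt (by norm_num) (by norm_num)
  have h3 : Real.exp (2 * mu) < Real.exp (2 * d0) := by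
    rw [h1, h2]; nlinarith
  have := Real.exp_lt_exp.1 h3
  linarith

/-- the twist -/
noncomputable def chi (g : Gam) (j : Fin 3) : ℝ := mu * (c j (g : GL (Fin 3) ℤ) : ℝ)

lemma chi_mul (g h : Gam) (j : Fin 3) : chi (g * h) j = chi g j + chi h j := by
  unfold chi
  have h1 : ((g * h : Gam) : GL (Fin 3) ℤ) = (g : GL (Fin 3) ℤ) * (h : GL (Fin 3) ℤ) := rfl
  rw [h1, c_mul g.2.1 h.2.1 (Or.inl rfl) g.2.2.1]
  push_cast; ring

lemma chi_one (j : Fin 3) : chi 1 j = 0 := by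
  unfold chi
  have h1 : ((1 : Gam) : GL (Fin 3) ℤ) = 1 := rfl
  rw [h1, c_one]; simp

lemma chi_inv (g : Gam) (j : Fin 3) : chi g⁻¹ j = - chi g j := by
  have := chi_mul g⁻¹ g j
  rw [inv_mul_cancel, chi_one] at this
  linarith

lemma chi_sum (g : Gam) : chi g 0 + chi g 1 + chi g 2 = 0 := by
  have h := C_zero g.2.1 g.2.2.1
  unfold chi
  unfold C at h
  have h' : (c 0 (g : GL (Fin 3) ℤ) : ℝ) + c 1 (g : GL (Fin 3) ℤ) + c 2 (g : GL (Fin 3) ℤ) = 0 := by
    exact_mod_cast h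
  rw [← mul_add, ← mul_add, h', mul_zero]

lemma chi_bound (g : Gam) (j : Fin 3) {t : ℝ} (ht : 0 ≤ t) (h : Real.cosh t = mt (emb g) 2 2) :
    |chi g j| ≤ mu * (t / d0 + 1) := by
  unfold chi
  rw [abs_mul, abs_of_pos mu_pos]
  exact mul_le_mul_of_nonneg_left (c_bound g j ht h) mu_pos.le

/-! ### special elements -/

lemma det_a (j : Fin 3) : ((a j : GL (Fin 3) ℤ) : Matrix (Fin 3) (Fin 3) ℤ).det = -1 := by
  show (aMat j).det = -1
  fin_cases j <;> simp [aMat, Matrix.det_fin_three]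

lemma det_s (j : Fin 3) : ((s j : GL (Fin 3) ℤ) : Matrix (Fin 3) (Fin 3) ℤ).det = -1 := by
  show (sMat j).det = -1
  fin_cases j <;> simp [sMat, Matrix.det_fin_three]

lemma par_a (j : Fin 3) (v : Z3) (i : Fin 3) : (2 : ℤ) ∣ act (a j) v i - v i := by
  rw [act_a]
  split_ifs with h
  · subst h; omega
  · simp

noncomputable def gamA (j : Fin 3) : Gam := ⟨a j * a 0, by
  refine ⟨W.mul_mem (good_a j) (good_a 0), ?_, ?_, ?_⟩
  · intro v
    rw [act_mul]
    have h1 := sgn_a j (act (a 0) v)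
    have h2 := sgn_a 0 v
    omega
  · rw [Units.val_mul, Matrix.det_mul, det_a, det_a]; norm_num
  · intro v i
    rw [act_mul]
    have h1 := par_a j (act (a 0) v) i
    have h2 := par_a 0 v i
    omega⟩

noncomputable def gamB (j : Fin 3) : Gam := ⟨a j * s j * (a j * s j), by
  refine ⟨W.mul_mem (W.mul_mem (good_a j) (good_s j)) (W.mul_mem (good_a j) (good_s j)), ?_, ?_, ?_⟩
  · intro v
    rw [act_mul, act_mul, act_mul]
    have h1 := sgn_a j (act (s j) (act (a j) (act (s j) v)))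
    have h2 := sgn_s j (act (a j) (act (s j) v))
    have h3 := sgn_a j (act (s j) v)
    have h4 := sgn_s j v
    omega
  · rw [Units.val_mul, Units.val_mul, Matrix.det_mul, Matrix.det_mul, det_a, det_s]; norm_num
  · intro v i
    rw [act_mul, act_mul, act_mul]
    have h1 := par_a j (act (s j) (act (a j) (act (s j) v))) i
    have h3 := par_a j (act (s j) v)
    have h5 : ∀ w : Z3, (∀ k, (2 : ℤ) ∣ w k - act (s j) v k) → (2 : ℤ) ∣ act (s j) w i - v i := by
      intro w hw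
      have e1 : act (s j) (act (s j) v) i = v i := by
        have : act (s j) (act (s j) v) = v := by
          have := act_inv_act (s j) v
          rwa [s_inv] at this
        rw [this]
      rw [← e1, act_s, act_s]
      have w1 := hw i
      have w2 := hw j
      split_ifs with h
      · omega
      · omega
    have h6 := h5 (act (a j) (act (s j) v)) h3
    omega⟩

lemma c_gamA (i j : Fin 3) : c i ((gamA j : Gam) : GL (Fin 3) ℤ)
    = (if i = j then 2 else 0) - (if i = 0 then 2 else 0) := by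
  show c i (a j * a 0) = _
  rw [c_mul (good_a j) (good_a 0) (Or.inr rfl) (sgn_a j), c_a, c_a]
  ring

lemma c_gamB (i j : Fin 3) : c i ((gamB j : Gam) : GL (Fin 3) ℤ) = 0 := by
  show c i (a j * s j * (a j * s j)) = 0
  have hs : HasSgn (a j * s j) (-1) := by
    intro v
    rw [act_mul]
    have h1 := sgn_a j (act (s j) v)
    have h2 := sgn_s j v
    omega
  rw [c_mul (W.mul_mem (good_a j) (good_s j)) (W.mul_mem (good_a j) (good_s j)) (Or.inr rfl) hs]
  ring

lemma chi_gamB (i j : Fin 3) : chi (gamB j) i = 0 := by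
  unfold chi; rw [c_gamB]; simp

lemma chi_gamA_sum : chi (gamA 0) 0 + chi (gamA 1) 1 + chi (gamA 2) 2 = 4 * mu := by
  unfold chi
  rw [c_gamA, c_gamA, c_gamA]
  simp
  ring

/-! ### geometry of the special elements -/

noncomputable def R0 : ℝ := Real.arsinh (4 * Real.sqrt 10 / 3)

lemma sq10 : Real.sqrt 10 * Real.sqrt 10 = 10 := Real.mul_self_sqrt (by norm_num)

lemma sinh_R0 : Real.sinh R0 = 4 * Real.sqrt 10 / 3 := Real.sinh_arsinh _
lemma cosh_R0 : Real.cosh R0 = 13 / 3 := by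
  unfold R0
  rw [Real.cosh_arsinh]
  have : (1 : ℝ) + (4 * Real.sqrt 10 / 3) ^ 2 = (13 / 3) ^ 2 := by
    have := sq10; nlinarith
  rw [this, Real.sqrt_sq (by norm_num)]

lemma R0_pos : 0 < R0 := Real.arsinh_pos_iff.2 (by positivity)

lemma three_R0_le : 3 * R0 ≤ 4 * mu := by
  have h1 : Real.exp (4 * mu) = 900 := by
    unfold mu
    rw [show 4 * (Real.log 30 / 2) = Real.log 30 + Real.log 30 by ring, Real.exp_add,
      Real.exp_log (by norm_num)]
    norm_num
  have h2 : Real.exp R0 = 4 * Real.sqrt 10 / 3 + 13 / 3 := by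
    rw [← Real.sinh_add_cosh, sinh_R0, cosh_R0]
  have h3 : Real.exp (3 * R0) = (4 * Real.sqrt 10 / 3 + 13 / 3) ^ 3 := by
    rw [← h2, ← Real.exp_nat_mul]; norm_num
  have h10 : Real.sqrt 10 < 3.17 := by
    rw [show (3.17:ℝ) = Real.sqrt (3.17 ^ 2) by rw [Real.sqrt_sq (by norm_num)]]
    exact Real.sqrt_lt_sqrt (by norm_num) (by norm_num)
  have h4 : Real.exp (3 * R0) ≤ Real.exp (4 * mu) := by
    rw [h1, h3]
    have h5 : 4 * Real.sqrt 10 / 3 + 13 / 3 ≤ 9 := by linarith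
    have h6 : (0:ℝ) ≤ 4 * Real.sqrt 10 / 3 + 13 / 3 := by positivity
    calc (4 * Real.sqrt 10 / 3 + 13 / 3) ^ 3 ≤ 9 ^ 3 := pow_le_pow_left₀ h6 h5 3
      _ ≤ 900 := by norm_num
  exact Real.exp_le_exp.1 h4

noncomputable def L1 : ℝ := Real.arsinh (6 * Real.sqrt 10)

lemma sinh_L1 : Real.sinh L1 = 6 * Real.sqrt 10 := Real.sinh_arsinh _
lemma cosh_L1 : Real.cosh L1 = 19 := by
  unfold L1
  rw [Real.cosh_arsinh]
  have : (1 : ℝ) + (6 * Real.sqrt 10) ^ 2 = 19 ^ 2 := by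
    have := sq10; nlinarith
  rw [this, Real.sqrt_sq (by norm_num)]
lemma L1_pos : 0 < L1 := Real.arsinh_pos_iff.2 (by positivity)

/-- cyclic permutation -/
def Pmat : Matrix (Fin 3) (Fin 3) ℤ := !![0, 0, 1; 1, 0, 0; 0, 1, 0]

lemma Pmat_inv1 : Pmat * Pmatᵀ = 1 := by decide
lemma Pmat_inv2 : Pmatᵀ * Pmat = 1 := by decide

def P : GL (Fin 3) ℤ := ⟨Pmat, Pmatᵀ, Pmat_inv1, Pmat_inv2⟩

lemma s10 : Real.sqrt 10 * Real.sqrt 6 = 2 * Real.sqrt 15 := by
  rw [← Real.sqrt_mul (by norm_num), show (10:ℝ) * 6 = 2 ^ 2 * 15 by norm_num,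
    Real.sqrt_mul (by norm_num), Real.sqrt_sq (by norm_num)]
lemma s10' : Real.sqrt 10 * Real.sqrt 15 = 5 * Real.sqrt 6 := by
  rw [← Real.sqrt_mul (by norm_num), show (10:ℝ) * 15 = 5 ^ 2 * 6 by norm_num,
    Real.sqrt_mul (by norm_num), Real.sqrt_sq (by norm_num)]
lemma s3 : Real.sqrt 3 * Real.sqrt 6 = 3 * Real.sqrt 2 := by
  rw [← Real.sqrt_mul (by norm_num), show (3:ℝ) * 6 = 3 ^ 2 * 2 by norm_num,
    Real.sqrt_mul (by norm_num), Real.sqrt_sq (by norm_num)]
lemma s3' : Real.sqrt 3 * Real.sqrt 2 = Real.sqrt 6 := by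
  rw [← Real.sqrt_mul (by norm_num)]; norm_num

lemma am_eq_of {g : GL (Fin 3) ℤ} {A : Matrix (Fin 3) (Fin 3) ℝ} (h : T * rm g = A * T) :
    am g = A := by
  unfold am
  rw [h, Matrix.mul_assoc, T_mul_Ti, Matrix.mul_one]

lemma am_a0s0 : am (a 0 * s 0) = boostM L1 := by
  apply am_eq_of
  have h6 := sq6; have h2 := sq2; have h15 := sq15; have e1 := s10; have e2 := s10'
  have hm : rm (a 0 * s 0) = !![37, 6, 6; 3, 1, 0; 3, 0, 1] := by
    rw [rm_mul]
    ext i j
    fin_cases i <;> fin_cases j <;>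
      simp [rm, a, s, aMat, sMat, Matrix.mul_apply, Fin.sum_univ_three] <;> norm_num
  rw [hm]
  ext i j
  fin_cases i <;> fin_cases j <;>
    simp [T, boostM, Matrix.mul_apply, Fin.sum_univ_three, sinh_L1, cosh_L1] <;> nlinarith

lemma cos23 : Real.cos (2 * Real.pi / 3) = -1 / 2 := by
  rw [show 2 * Real.pi / 3 = Real.pi - Real.pi / 3 by ring, Real.cos_pi_sub, Real.cos_pi_div_three]
  ring

lemma sin23 : Real.sin (2 * Real.pi / 3) = Real.sqrt 3 / 2 := by
  rw [show 2 * Real.pi / 3 = Real.pi - Real.pi / 3 by ring, Real.sin_pi_sub,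
    Real.sin_pi_div_three]

lemma am_P : am P = rotM (2 * Real.pi / 3) := by
  apply am_eq_of
  have h6 := sq6; have h2 := sq2; have h15 := sq15; have e1 := s3; have e2 := s3'
  have hm : rm P = !![0, 0, 1; 1, 0, 0; 0, 1, 0] := by
    ext i j
    fin_cases i <;> fin_cases j <;> simp [rm, P, Pmat]
  rw [hm]
  ext i j
  fin_cases i <;> fin_cases j <;>
    simp [T, rotM, Matrix.mul_apply, Fin.sum_univ_three, cos23, sin23] <;> nlinarith

/-- powers of `P` -/
def Pj (j : Fin 3) : GL (Fin 3) ℤ := P ^ (j : ℕ)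

noncomputable def Bj (j : Fin 3) : G1 := rot (2 * Real.pi / 3) ^ (j : ℕ)

lemma mt_Bj (j : Fin 3) : mt (Bj j) = am (Pj j) := by
  unfold Bj Pj
  induction (j : ℕ) with
  | zero => rw [pow_zero, pow_zero, mt_one, am_one]
  | succ n ih => rw [pow_succ, pow_succ, mt_mul, am_mul, ih, am_P, mt_rot]

lemma rot_pow (θ : ℝ) (n : ℕ) : rot θ ^ n = rot (n * θ) := by
  induction n with
  | zero => simp [rot_zero]
  | succ n ih => rw [pow_succ, ih, ← rot_add]; congr 1; push_cast; ring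

lemma Bj_rot (j : Fin 3) : ∃ θ, Bj j = rot θ := ⟨_, rot_pow _ _⟩

lemma as_conj (j : Fin 3) : a j * s j = Pj j * (a 0 * s 0) * (Pj j)⁻¹ := by
  rw [eq_mul_inv_iff_mul_eq]
  apply Units.ext
  fin_cases j <;> decide

lemma a_conj (j : Fin 3) : a j = Pj j * a 0 * (Pj j)⁻¹ := by
  rw [eq_mul_inv_iff_mul_eq]
  apply Units.ext
  fin_cases j <;> decide

lemma am_inv_mul (g : GL (Fin 3) ℤ) : am g⁻¹ * am g = 1 := by
  rw [← am_mul, inv_mul_cancel, am_one]

lemma gamB_Bj (j : Fin 3) : emb (gamB j) * Bj j = Bj j * boost (2 * L1) := by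
  apply mt_injective
  rw [mt_mul, mt_mul, mt_Bj, mt_emb, mt_boost]
  have h1 : ((gamB j : Gam) : GL (Fin 3) ℤ) = Pj j * (a 0 * s 0) * (a 0 * s 0) * (Pj j)⁻¹ := by
    show a j * s j * (a j * s j) = _
    rw [as_conj]; group
  rw [h1, am_mul, am_mul, am_mul, am_a0s0]
  have h2 : boostM L1 * boostM L1 = boostM (2 * L1) := by
    have := boost_add L1 L1
    have h3 := congrArg mt this
    rw [mt_mul, mt_boost, mt_boost] at h3
    rw [← h3]; congr 1; ring
  calc am (Pj j) * boostM L1 * boostM L1 * am (Pj j)⁻¹ * am (Pj j)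
      = am (Pj j) * (boostM L1 * boostM L1) * (am (Pj j)⁻¹ * am (Pj j)) := by
        simp only [Matrix.mul_assoc]
    _ = am (Pj j) * boostM (2 * L1) := by rw [h2, am_inv_mul, Matrix.mul_one]

lemma eq_mul_rot {g h : G1} (H : mt g *ᵥ o = mt h *ᵥ o) : ∃ θ, g = h * rot θ := by
  have h1 : mt (h⁻¹ * g) *ᵥ o = o := by
    rw [mt_mul, ← Matrix.mulVec_mulVec, H, Matrix.mulVec_mulVec, ← mt_mul, inv_mul_cancel, mt_one,
      Matrix.one_mulVec]
  have h2 : mt (h⁻¹ * g) 2 2 = 1 := by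
    have := congrFun h1 2
    rw [mulVec_o] at this
    rw [this]; simp [o]
  obtain ⟨θ, hθ⟩ := exists_rot_of_22 (mt_isLor _) h2
  refine ⟨θ, ?_⟩
  have : h⁻¹ * g = rot θ := mt_injective hθ
  rw [← this]; group

lemma tv_a0 : tv (act (a 0) rho) = Real.sqrt 15 • (boostM R0 *ᵥ o) := by
  have e1 := s10'
  have e2 := s10
  have h15 := sq15
  have hρ : act (a 0) rho = ![11, 1, 1] := by
    funext i; rw [act_a]; fin_cases i <;> simp [rho, S]
  rw [hρ]
  funext i
  rw [Pi.smul_apply, mulVec_o, smul_eq_mul]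
  fin_cases i
  · simp [tv, T, cv, Matrix.mulVec, dotProduct, Fin.sum_univ_three, boostM, sinh_R0]
    nlinarith
  · simp [tv, T, cv, Matrix.mulVec, dotProduct, Fin.sum_univ_three, boostM]
  · simp [tv, T, cv, Matrix.mulVec, dotProduct, Fin.sum_univ_three, boostM, cosh_R0]
    ring

lemma am_a0_o : am (a 0) *ᵥ o = boostM R0 *ᵥ o := by
  have h15 : Real.sqrt 15 ≠ 0 := by positivity
  have h1 := am_tv (a 0) rho
  rw [tv_rho, tv_a0, Matrix.mulVec_smul] at h1
  exact smul_right_injective _ h15 h1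

lemma act_Pj_rho (j : Fin 3) : act (Pj j)⁻¹ rho = rho := by
  have : act (Pj j) rho = rho := by
    fin_cases j <;> decide
  conv_lhs => rw [← this]
  rw [act_inv_act]

lemma am_a_o (j : Fin 3) : am (a j) *ᵥ o = mt (Bj j * boost R0) *ᵥ o := by
  have h0 : am (Pj j)⁻¹ *ᵥ o = o := by
    have h15 : Real.sqrt 15 ≠ 0 := by positivity
    have h1 := am_tv (Pj j)⁻¹ rho
    rw [act_Pj_rho, tv_rho, Matrix.mulVec_smul] at h1
    exact smul_right_injective _ h15 h1
  rw [a_conj, am_mul, am_mul, ← Matrix.mulVec_mulVec, h0, ← Matrix.mulVec_mulVec, am_a0_o, mt_mul,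
    mt_Bj, mt_boost, Matrix.mulVec_mulVec]

lemma gamA_rel (j : Fin 3) :
    ∃ θ, emb (gamA j) * (Bj 0 * boost R0) = Bj j * boost R0 * rot θ := by
  apply eq_mul_rot
  rw [← am_a_o, mt_mul, ← Matrix.mulVec_mulVec, ← am_a_o, mt_emb]
  show am (a j * a 0) *ᵥ (am (a 0) *ᵥ o) = _
  rw [am_mul, Matrix.mulVec_mulVec, Matrix.mul_assoc]
  have : am (a 0) * am (a 0) = 1 := by
    have := am_inv_mul (a 0)
    rwa [a_inv] at this
  rw [this, Matrix.mul_one]

end Pool.Agent.Lib.MP_e63071_gt
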