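import Pool.Agent.Lib.MP_e63071_gt.Setup

/-!
# The space `G/H` is `Fin 3 × G1`
-/

set_option autoImplicit false

namespace Pool.Agent.Lib.MP_e63071_gt

open Matrix

/-- the space `G/H` -/
abbrev GH : Type := GG ⧸ HH.subgroupOf GG

/-- invariant coordinates of a class -/
noncomputable def phi (g : GG) : Fin 3 × G1 := (pj g, pA g * boost (- pv g (pj g)))

lemma phi_mkG (A : G1) (v : Fin 3 → ℝ) (hv : ∑ i, v i = 0) (j : Fin 3) :
    phi (mkG A v hv j) = (j, A * boost (- v j)) := by
  unfold phi
  rw [pA_mkG, pv_mkG, pj_mkG]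

lemma mem_HH_iff (g : GG) : g ∈ HH.subgroupOf GG ↔
    ∃ (w : Fin 3 → ℝ) (hw : ∑ i, w i = 0), g = mkG (boost (w 0)) w hw 0 := by
  rw [Subgroup.mem_subgroupOf]
  constructor
  · rintro ⟨w, hw, hg⟩
    exact ⟨w, hw, mat_injective hg⟩
  · rintro ⟨w, hw, rfl⟩
    exact ⟨w, hw, rfl⟩

lemma phi_mul_H (g h : GG) (hh : h ∈ HH.subgroupOf GG) : phi (g * h) = phi g := by
  obtain ⟨w, hw, rfl⟩ := (mem_HH_iff h).1 hh
  obtain ⟨A, v, hv, j, rfl⟩ := exists_mkG g
  rw [mkG_mul, phi_mkG, phi_mkG, add_zero, sub_self, mul_assoc, ← boost_add]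
  congr 3
  ring

/-- the map `G/H → Fin 3 × G1` -/
noncomputable def Phi : GH → Fin 3 × G1 :=
  Quotient.lift phi (by
    intro g h hgh
    have h1 : g⁻¹ * h ∈ HH.subgroupOf GG := QuotientGroup.leftRel_apply.1 hgh
    have := phi_mul_H g (g⁻¹ * h) h1
    rw [mul_inv_cancel_left] at this
    exact this.symm)

lemma Phi_mk (g : GG) : Phi (QuotientGroup.mk g) = phi g := rfl

/-- the inverse map -/
noncomputable def Psi (p : Fin 3 × G1) : GH := QuotientGroup.mk (mkG p.2 0 (by simp) p.1)

lemma Phi_Psi (p : Fin 3 × G1) : Phi (Psi p) = p := by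
  unfold Psi
  rw [Phi_mk, phi_mkG]
  ext1
  · rfl
  · simp [boost_zero]

lemma Psi_Phi (x : GH) : Psi (Phi x) = x := by
  induction x using QuotientGroup.induction_on with
  | H g =>
    obtain ⟨A, v, hv, j, rfl⟩ := exists_mkG g
    rw [Phi_mk, phi_mkG]
    unfold Psi
    apply Eq.symm
    rw [QuotientGroup.eq, mem_HH_iff]
    refine ⟨fun m => - v (m + j), sum_neg_shift hv j, ?_⟩
    rw [inv_mul_eq_iff_eq_mul, mkG_mul]
    apply mkG_congr
    · simp
    · funext i; simp
    · simp

lemma continuous_eval_fin : Continuous (fun p : (Fin 3 → ℝ) × Fin 3 => p.1 p.2) := by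
  have : (fun p : (Fin 3 → ℝ) × Fin 3 => p.1 p.2) =
      fun p => ∑ i, p.1 i * (fun j : Fin 3 => if i = j then (1:ℝ) else 0) p.2 := by
    funext p
    simp
  rw [this]
  refine continuous_finsetSum _ fun i _ => ?_
  refine Continuous.mul ((continuous_apply i).comp continuous_fst) ?_
  exact (continuous_of_discreteTopology (f := fun j : Fin 3 => if i = j then (1:ℝ) else 0)).comp
    continuous_snd

lemma continuous_phi : Continuous phi := by
  unfold phi
  refine continuous_pj.prodMk (continuous_pA.mul (continuous_boost.comp ?_))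
  have : Continuous (fun g => (fun i => pv g i, pj g)) :=
    (continuous_pi continuous_pv).prodMk continuous_pj
  exact (continuous_eval_fin.comp this).neg

lemma continuous_Phi : Continuous Phi :=
  Continuous.quotient_lift continuous_phi _

lemma continuous_Psi : Continuous Psi := by
  have h : Continuous (fun p : Fin 3 × G1 => mkG p.2 0 (by simp) p.1) := by
    rw [continuous_prod_of_discrete_left]
    intro j
    exact continuous_mkG_aux j continuous_id continuous_const
  exact continuous_quotient_mk'.comp h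

/-- the homeomorphism -/
noncomputable def Hom : GH ≃ₜ Fin 3 × G1 where
  toFun := Phi
  invFun := Psi
  left_inv := Psi_Phi
  right_inv := Phi_Psi
  continuous_toFun := continuous_Phi
  continuous_invFun := continuous_Psi

lemma Phi_smul (A : G1) (v : Fin 3 → ℝ) (hv : ∑ i, v i = 0) (l : Fin 3) (x : GH) :
    Phi (mkG A v hv l • x) =
      (l + (Phi x).1, A * (Phi x).2 * boost (- v (l + (Phi x).1))) := by
  induction x using QuotientGroup.induction_on with
  | H g =>
    obtain ⟨B, w, hw, j, rfl⟩ := exists_mkG g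
    have : mkG A v hv l • (QuotientGroup.mk (mkG B w hw j) : GH)
        = QuotientGroup.mk (mkG A v hv l * mkG B w hw j) := rfl
    rw [this, Phi_mk, Phi_mk, mkG_mul, phi_mkG, phi_mkG]
    simp only [add_sub_cancel_left]
    rw [mul_assoc A (B * _), mul_assoc B, ← boost_add, ← mul_assoc, neg_add, add_comm]
    ext1
    · simp [add_comm]
    · dsimp only
      rw [mul_assoc, mul_assoc]
      congr 3
      ring

end Pool.Agent.Lib.MP_e63071_gt
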