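import Pool.Agent.Lib.MP_e63071_gt.NoSection
import Pool.Agent.Lib.MP_e63071_gt.Space

/-!
# Properness and cocompactness
-/

set_option autoImplicit false

namespace Pool.Agent.Lib.MP_e63071_gt

open Matrix

/-! ### the set of Lorentz matrices is closed, its sublevel sets are compact -/

lemma isClosed_IsLor : IsClosed {A : Matrix (Fin 3) (Fin 3) ℝ | IsLor A} := by
  have : {A : Matrix (Fin 3) (Fin 3) ℝ | IsLor A} =
      {A | Aᵀ * Sig * A = Sig} ∩ ({A | A.det = 1} ∩ {A | 1 ≤ A 2 2}) := by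
    ext A
    constructor
    · intro h; exact ⟨h.form, h.det, h.one_le⟩
    · rintro ⟨h1, h2, h3⟩
      exact ⟨h1, h2, lt_of_lt_of_le one_pos h3⟩
  rw [this]
  refine IsClosed.inter ?_ (IsClosed.inter ?_ ?_)
  · exact isClosed_eq ((continuous_id.matrix_transpose.matrix_mul continuous_const).matrix_mul
      continuous_id) continuous_const
  · exact isClosed_eq continuous_id.matrix_det continuous_const
  · exact isClosed_le continuous_const ((continuous_apply 2).comp (continuous_apply 2))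

lemma range_mt : Set.range mt = {A : Matrix (Fin 3) (Fin 3) ℝ | IsLor A} := by
  ext A
  constructor
  · rintro ⟨g, rfl⟩; exact mt_isLor g
  · intro h; exact ⟨mkG1 A h, rfl⟩

lemma isClosedEmbedding_mt : Topology.IsClosedEmbedding mt :=
  ⟨⟨isInducing_mt, mt_injective⟩, by rw [range_mt]; exact isClosed_IsLor⟩

lemma isCompact_box (C : ℝ) :
    IsCompact {A : Matrix (Fin 3) (Fin 3) ℝ | ∀ i j, |A i j| ≤ C} := by
  have h : IsCompact (Set.pi Set.univ (fun _ : Fin 3 => Set.pi Set.univ
      (fun _ : Fin 3 => Set.Icc (-C) C))) :=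
    isCompact_univ_pi fun _ => isCompact_univ_pi fun _ => isCompact_Icc
  have e : {A : Matrix (Fin 3) (Fin 3) ℝ | ∀ i j, |A i j| ≤ C} =
      Set.pi Set.univ (fun _ : Fin 3 => Set.pi Set.univ (fun _ : Fin 3 => Set.Icc (-C) C)) := by
    ext A
    constructor
    · intro hA i _ j _
      exact abs_le.1 (hA i j)
    · intro hA i j
      exact abs_le.2 (hA i (Set.mem_univ i) j (Set.mem_univ j))
  rw [e]
  exact h

lemma isCompact_le (C : ℝ) : IsCompact {g : G1 | mt g 2 2 ≤ C} := by
  have h1 : IsCompact (mt ⁻¹' {A : Matrix (Fin 3) (Fin 3) ℝ | ∀ i j, |A i j| ≤ C}) :=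
    isClosedEmbedding_mt.isCompact_preimage (isCompact_box C)
  refine h1.of_isClosed_subset ?_ ?_
  · exact isClosed_le ((continuous_apply 2).comp ((continuous_apply 2).comp continuous_mt))
      continuous_const
  · intro g hg i j
    exact (entry_le (mt_isLor g) i j).trans hg

lemma continuous_22 : Continuous (fun g : G1 => mt g 2 2) :=
  (continuous_apply 2).comp ((continuous_apply 2).comp continuous_mt)

lemma one_le_22 (g : G1) : 1 ≤ mt g 2 2 := (mt_isLor g).one_le

lemma inv_22 (g : G1) : mt g⁻¹ 2 2 = mt g 2 2 := by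
  rw [mt_inv]
  simp [Sig, Matrix.mul_apply, Matrix.diagonal]

lemma boost_22 (t : ℝ) : mt (boost t) 2 2 = Real.cosh t := by
  rw [mt_boost]; simp [boostM]

lemma mul_22_le (g h : G1) : mt (g * h) 2 2 ≤ 2 * mt g 2 2 * mt h 2 2 := by
  have h1 := row_rel (mt_isLor g).form 2 2
  have h2 := col_rel (mt_isLor h).form 2 2
  rw [Sig_22] at h1 h2
  rw [mt_mul, Matrix.mul_apply, Fin.sum_univ_three]
  have ha := one_le_22 g
  have hb := one_le_22 h
  set p := mt g 2 0 * mt h 0 2 + mt g 2 1 * mt h 1 2 with hp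
  have cs : p ^ 2 ≤ (mt g 2 0 ^ 2 + mt g 2 1 ^ 2) * (mt h 0 2 ^ 2 + mt h 1 2 ^ 2) := by
    nlinarith [sq_nonneg (mt g 2 0 * mt h 1 2 - mt g 2 1 * mt h 0 2)]
  have h3 : p ^ 2 ≤ (mt g 2 2 * mt h 2 2) ^ 2 := by
    have e1 : mt g 2 0 ^ 2 + mt g 2 1 ^ 2 = mt g 2 2 ^ 2 - 1 := by linarith
    have e2 : mt h 0 2 ^ 2 + mt h 1 2 ^ 2 = mt h 2 2 ^ 2 - 1 := by linarith
    rw [e1, e2] at cs
    nlinarith
  have h4 := abs_le_of_sq_le_sq h3 (by positivity)
  have := (abs_le.1 h4).2
  linarith

lemma exists_cosh {x : ℝ} (hx : 1 ≤ x) : ∃ t, 0 ≤ t ∧ Real.cosh t = x := by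
  refine ⟨Real.arsinh (Real.sqrt (x ^ 2 - 1)), Real.arsinh_nonneg_iff.2 (Real.sqrt_nonneg _), ?_⟩
  rw [Real.cosh_arsinh, Real.sq_sqrt (by nlinarith)]
  rw [show 1 + (x ^ 2 - 1) = x ^ 2 by ring, Real.sqrt_sq (by linarith)]

lemma le_log_cosh (t : ℝ) : t ≤ Real.log (2 * Real.cosh t) := by
  rw [Real.le_log_iff_exp_le (by have := Real.cosh_pos t; linarith), Real.cosh_eq]
  have := Real.exp_pos (-t)
  linarith

lemma cosh_le_exp_abs (t : ℝ) : Real.cosh t ≤ Real.exp |t| := by
  rw [Real.cosh_eq]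
  have h1 : Real.exp t ≤ Real.exp |t| := Real.exp_le_exp.2 (le_abs_self t)
  have h2 : Real.exp (-t) ≤ Real.exp |t| := Real.exp_le_exp.2 (neg_le_abs t)
  linarith

/-- contraction factor -/
noncomputable def qq : ℝ := mu / d0

lemma qq_pos : 0 < qq := div_pos mu_pos d0_pos
lemma qq_lt_one : qq < 1 := (div_lt_one d0_pos).2 mu_lt_d0

lemma chi_le_log (g : Gam) (j : Fin 3) :
    |chi g j| ≤ qq * Real.log (2 * mt (emb g) 2 2) + mu := by
  obtain ⟨t, ht, h⟩ := exists_cosh (one_le_22 (emb g))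
  have h1 := chi_bound g j ht h
  have h2 := le_log_cosh t
  rw [h] at h2
  have h3 : mu * (t / d0 + 1) = qq * t + mu := by unfold qq; ring
  rw [h3] at h1
  have := mul_le_mul_of_nonneg_left h2 qq_pos.le
  linarith

/-- properness estimate -/
lemma bound_of_rel (M : ℝ) (hM : 1 ≤ M) : ∃ C, ∀ (g : Gam) (j : Fin 3) (b b' : G1),
    mt b 2 2 ≤ M → mt b' 2 2 ≤ M → emb g * b * boost (- chi g j) = b' →
    mt (emb g) 2 2 ≤ C := by
  refine ⟨Real.exp ((Real.log (4 * M * M) + mu + qq * Real.log 2) / (1 - qq)), ?_⟩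
  intro g j b b' hb hb' h
  have h1 : emb g = b' * boost (chi g j) * b⁻¹ := by
    rw [← h, boost_neg]; group
  set x := mt (emb g) 2 2 with hx
  have hx1 : 1 ≤ x := one_le_22 _
  have h2 : x ≤ 4 * M * M * Real.exp |chi g j| := by
    have e1 := mul_22_le (b' * boost (chi g j)) b⁻¹
    have e2 := mul_22_le b' (boost (chi g j))
    rw [← h1] at e1
    rw [inv_22] at e1
    rw [boost_22] at e2
    have e3 := cosh_le_exp_abs (chi g j)
    have b1 := one_le_22 b
    have b2 := one_le_22 b'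
    have c1 := Real.one_le_cosh (chi g j)
    calc x ≤ 2 * mt (b' * boost (chi g j)) 2 2 * mt b 2 2 := e1
      _ ≤ 2 * (2 * mt b' 2 2 * Real.cosh (chi g j)) * mt b 2 2 := by gcongr
      _ ≤ 2 * (2 * M * Real.exp |chi g j|) * M := by gcongr
      _ = 4 * M * M * Real.exp |chi g j| := by ring
  have h3 := chi_le_log g j
  rw [← hx] at h3
  have h4 : Real.log x ≤ Real.log (4 * M * M) + |chi g j| := by
    have := Real.log_le_log (by linarith) h2
    rwa [Real.log_mul (by positivity) (Real.exp_pos _).ne', Real.log_exp] at this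
  rw [Real.log_mul (by norm_num) (by linarith)] at h3
  have h5 : Real.log x ≤ (Real.log (4 * M * M) + mu + qq * Real.log 2) / (1 - qq) := by
    rw [le_div_iff₀ (by have := qq_lt_one; linarith)]
    nlinarith
  calc x = Real.exp (Real.log x) := (Real.exp_log (by linarith)).symm
    _ ≤ _ := Real.exp_le_exp.2 h5

/-- discrete intermediate value theorem -/
lemma discrete_ivt (f : ℕ → ℝ) (M : ℝ) (h0 : f 0 ≤ 0) (hstep : ∀ k, f (k + 1) - f k ≤ M)
    (hex : ∃ k, 0 < f k) : ∃ k, 0 ≤ f k ∧ f k ≤ M := by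
  classical
  have h1 := Nat.find_spec hex
  set k := Nat.find hex with hk
  have hk0 : k ≠ 0 := by
    intro h; rw [h] at h1; linarith
  obtain ⟨m, hm⟩ := Nat.exists_eq_succ_of_ne_zero hk0
  have h2 : ¬ 0 < f m := Nat.find_min hex (by rw [← hk, hm]; exact Nat.lt_succ_self m)
  push Not at h2
  refine ⟨k, h1.le, ?_⟩
  have := hstep m
  rw [hm]
  simp only [Nat.succ_eq_add_one]
  linarith

/-- cocompactness in coordinates -/
theorem cocompact_coord : ∃ C, ∀ (j : Fin 3) (g : G1), ∃ γ : Gam,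
    mt (emb γ * g * boost (- chi γ j)) 2 2 ≤ C := by
  obtain ⟨C0, hC0⟩ := Gam_cocompact
  have hC1 : 1 ≤ C0 := by
    obtain ⟨γ, h⟩ := hC0 1
    exact (one_le_22 _).trans h
  set K : ℝ := 4 * C0 * C0 with hK
  have hK1 : 1 ≤ K := by nlinarith
  set M : ℝ := 1 + (qq * Real.log (2 * (K * Real.cosh 1)) + mu) with hM
  refine ⟨2 * C0 * Real.exp M, ?_⟩
  intro j g
  choose γ hγ using fun s : ℝ => hC0 (g * boost s)
  have hγ' : ∀ s, mt (emb (γ s) * g * boost s) 2 2 ≤ C0 := fun s => by
    rw [mul_assoc]; exact hγ s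
  -- difference estimate
  have hdiff : ∀ s t : ℝ, |chi (γ s) j - chi (γ t) j| ≤
      qq * Real.log (2 * (K * Real.cosh (s - t))) + mu := by
    intro s t
    have e1 : chi (γ s) j - chi (γ t) j = chi (γ s * (γ t)⁻¹) j := by
      rw [chi_mul, chi_inv]; ring
    have e2 : emb (γ s * (γ t)⁻¹) =
        (emb (γ s) * g * boost s) * boost (t - s) * (emb (γ t) * g * boost t)⁻¹ := by
      rw [map_mul, map_inv, mul_assoc _ (boost s), ← boost_add, add_sub_cancel]
      group
    have e3 : mt (emb (γ s * (γ t)⁻¹)) 2 2 ≤ K * Real.cosh (s - t) := by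
      rw [e2]
      have f1 := mul_22_le ((emb (γ s) * g * boost s) * boost (t - s)) (emb (γ t) * g * boost t)⁻¹
      have f2 := mul_22_le (emb (γ s) * g * boost s) (boost (t - s))
      rw [inv_22] at f1
      rw [boost_22] at f2
      have f3 := hγ' s
      have f4 := hγ' t
      have f5 := one_le_22 (emb (γ s) * g * boost s)
      have f6 := one_le_22 (emb (γ t) * g * boost t)
      have f7 : Real.cosh (t - s) = Real.cosh (s - t) := by rw [← Real.cosh_neg, neg_sub]
      have f8 := Real.one_le_cosh (s - t)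
      rw [f7] at f2
      calc _ ≤ 2 * mt (emb (γ s) * g * boost s * boost (t - s)) 2 2 *
            mt (emb (γ t) * g * boost t) 2 2 := f1
        _ ≤ 2 * (2 * mt (emb (γ s) * g * boost s) 2 2 * Real.cosh (s - t)) *
            mt (emb (γ t) * g * boost t) 2 2 := by gcongr
        _ ≤ 2 * (2 * C0 * Real.cosh (s - t)) * C0 := by gcongr
        _ = K * Real.cosh (s - t) := by rw [hK]; ring
    rw [e1]
    refine (chi_le_log _ j).trans ?_
    have f9 := one_le_22 (emb (γ s * (γ t)⁻¹))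
    have f10 : Real.log (2 * mt (emb (γ s * (γ t)⁻¹)) 2 2) ≤
        Real.log (2 * (K * Real.cosh (s - t))) :=
      Real.log_le_log (by linarith) (by linarith)
    have := mul_le_mul_of_nonneg_left f10 qq_pos.le
    linarith
  -- it suffices to find a good parameter
  suffices h : ∃ s : ℝ, |s + chi (γ s) j| ≤ M by
    obtain ⟨s, hs⟩ := h
    refine ⟨γ s, ?_⟩
    have e1 : emb (γ s) * g * boost (- chi (γ s) j) =
        (emb (γ s) * g * boost s) * boost (-(s + chi (γ s) j)) := by
      rw [mul_assoc _ (boost s), ← boost_add]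
      congr 2
      ring
    rw [e1]
    have f1 := mul_22_le (emb (γ s) * g * boost s) (boost (-(s + chi (γ s) j)))
    rw [boost_22, Real.cosh_neg] at f1
    have f2 := cosh_le_exp_abs (s + chi (γ s) j)
    have f3 := Real.exp_le_exp.2 hs
    have f4 := hγ' s
    have f5 := one_le_22 (emb (γ s) * g * boost s)
    calc _ ≤ _ := f1
      _ ≤ 2 * C0 * Real.exp M := by gcongr; exact f2.trans f3
  -- asymptotics
  have hfar : ∃ n : ℕ, 0 < (n : ℝ) + 0 ∧ ∀ s : ℝ, (n : ℝ) ≤ |s| →
      |chi (γ s) j - chi (γ 0) j| + |chi (γ 0) j| < |s| := by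
    set c1 : ℝ := qq * Real.log (2 * K) + mu + |chi (γ 0) j| with hc1
    have h1q : 0 < 1 - qq := by have := qq_lt_one; linarith
    obtain ⟨n, hn⟩ := exists_nat_gt (max 1 (c1 / (1 - qq)))
    refine ⟨n, ?_, ?_⟩
    · have := (le_max_left 1 (c1 / (1 - qq))).trans_lt hn
      linarith
    · intro s hs
      have h1 := hdiff s 0
      rw [sub_zero] at h1
      have h2 : Real.log (2 * (K * Real.cosh s)) ≤ Real.log (2 * K) + |s| := by
        have e1 : 2 * (K * Real.cosh s) ≤ 2 * K * Real.exp |s| := by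
          have := cosh_le_exp_abs s
          have : K * Real.cosh s ≤ K * Real.exp |s| := by gcongr
          linarith
        have e2 := Real.log_le_log (by have := Real.cosh_pos s; positivity) e1
        rwa [Real.log_mul (by positivity) (Real.exp_pos _).ne', Real.log_exp] at e2
      have h3 := mul_le_mul_of_nonneg_left h2 qq_pos.le
      have h4 := (le_max_right 1 (c1 / (1 - qq))).trans_lt (hn.trans_le hs)
      rw [div_lt_iff₀ h1q] at h4
      nlinarith
  obtain ⟨n, -, hn⟩ := hfar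
  have hnn : |(n : ℝ)| = n := abs_of_nonneg (Nat.cast_nonneg n)
  rcases le_total (chi (γ 0) j) 0 with h0 | h0
  · -- go to the right
    obtain ⟨k, hk0, hk1⟩ := discrete_ivt (fun k => (k : ℝ) + chi (γ (k : ℝ)) j) M
      (by simpa using h0)
      (by
        intro k
        have := hdiff ((k : ℝ) + 1) k
        rw [add_sub_cancel_left] at this
        have := (abs_le.1 this).2
        push_cast
        rw [hM]; linarith)
      ⟨n, by
        have := hn n (by rw [hnn])
        rw [hnn] at this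
        have e1 := neg_abs_le (chi (γ (n:ℝ)) j - chi (γ 0) j)
        have e2 := neg_abs_le (chi (γ 0) j)
        linarith⟩
    exact ⟨k, by rw [abs_of_nonneg hk0]; exact hk1⟩
  · obtain ⟨k, hk0, hk1⟩ := discrete_ivt (fun k => (k : ℝ) - chi (γ (-(k : ℝ))) j) M
      (by simpa using h0)
      (by
        intro k
        have := hdiff (-((k : ℝ) + 1)) (-k)
        rw [show -((k:ℝ) + 1) - -k = -1 by ring, Real.cosh_neg] at this
        have := (abs_le.1 this).1
        push_cast
        rw [hM]; linarith)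
      ⟨n, by
        have := hn (-n) (by rw [abs_neg, hnn])
        rw [abs_neg, hnn] at this
        have e1 := le_abs_self (chi (γ (-(n:ℝ))) j - chi (γ 0) j)
        have e2 := le_abs_self (chi (γ 0) j)
        linarith⟩
    refine ⟨-k, ?_⟩
    have e1 : -(k:ℝ) + chi (γ (-(k:ℝ))) j = -((k : ℝ) - chi (γ (-(k : ℝ))) j) := by ring
    rw [e1, abs_neg, abs_of_nonneg hk0]
    exact hk1

end Pool.Agent.Lib.MP_e63071_gt
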