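import Pool.Agent.Lib.MP_e63071_gt.Cocycle

/-!
# Reflections in the sides of the hexagon, values of the cocycle
-/

set_option autoImplicit false

namespace Pool.Agent.Lib.MP_e63071_gt

open Matrix

def aMat (j : Fin 3) : Matrix (Fin 3) (Fin 3) ℤ :=
  fun i k => if i = j then (if k = j then -1 else 6) else if i = k then 1 else 0

def sMat (j : Fin 3) : Matrix (Fin 3) (Fin 3) ℤ :=
  fun i k => if k = j then (if i = j then -1 else 3) else if i = k then 1 else 0

lemma aMat_sq (j : Fin 3) : aMat j * aMat j = 1 := by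
  ext i k
  fin_cases j <;> fin_cases i <;> fin_cases k <;>
    simp [Matrix.mul_apply, Fin.sum_univ_three, aMat]

lemma sMat_sq (j : Fin 3) : sMat j * sMat j = 1 := by
  ext i k
  fin_cases j <;> fin_cases i <;> fin_cases k <;>
    simp [Matrix.mul_apply, Fin.sum_univ_three, sMat]

/-- reflection in the wall `e_j` -/
def a (j : Fin 3) : GL (Fin 3) ℤ := ⟨aMat j, aMat j, aMat_sq j, aMat_sq j⟩

/-- reflection in the seam -/
def s (j : Fin 3) : GL (Fin 3) ℤ := ⟨sMat j, sMat j, sMat_sq j, sMat_sq j⟩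

lemma a_inv (j : Fin 3) : (a j)⁻¹ = a j := rfl
lemma s_inv (j : Fin 3) : (s j)⁻¹ = s j := rfl

lemma act_a (j i : Fin 3) (v : Z3) :
    act (a j) v i = if i = j then 6 * S v - 7 * v j else v i := by
  fin_cases j <;> fin_cases i <;>
    simp [act, a, aMat, Matrix.mulVec, dotProduct, Fin.sum_univ_three, S] <;> ring

lemma act_s (j i : Fin 3) (v : Z3) :
    act (s j) v i = if i = j then - v j else v i + 3 * v j := by
  fin_cases j <;> fin_cases i <;>
    simp [act, s, sMat, Matrix.mulVec, dotProduct, Fin.sum_univ_three] <;> ring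

lemma S_a (j : Fin 3) (v : Z3) : S (act (a j) v) = 7 * S v - 8 * v j := by
  unfold S
  simp only [act_a]
  fin_cases j <;> simp [S] <;> ring

lemma S_s (j : Fin 3) (v : Z3) : S (act (s j) v) = S v + 4 * v j := by
  unfold S
  simp only [act_s]
  fin_cases j <;> simp <;> ring

lemma good_a (j : Fin 3) : Good (a j) := by
  refine ⟨?_, ?_, ?_, ?_⟩
  · intro v w
    unfold B
    rw [S_a, S_a]
    simp only [act_a]
    fin_cases j <;> simp [S] <;> ring
  · rw [S_a]; fin_cases j <;> simp [S, rho]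
  · intro v i
    rw [act_a]
    split_ifs with h
    · subst h; omega
    · rfl
  · right
    intro v
    rw [S_a]; omega

lemma good_s (j : Fin 3) : Good (s j) := by
  refine ⟨?_, ?_, ?_, ?_⟩
  · intro v w
    unfold B
    rw [S_s, S_s]
    simp only [act_s]
    fin_cases j <;> simp [S] <;> ring
  · rw [S_s]; fin_cases j <;> simp [S, rho]
  · intro v i
    rw [act_s]
    split_ifs with h
    · subst h; omega
    · omega
  · left
    intro v
    rw [S_s]; omega

lemma sgn_a (j : Fin 3) : HasSgn (a j) (-1) := by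
  intro v; rw [S_a]; omega

lemma sgn_s (j : Fin 3) : HasSgn (s j) 1 := by
  intro v; rw [S_s]; omega

/-- basis vectors -/
def e (j : Fin 3) : Z3 := fun i => if i = j then 1 else 0

lemma S_e (j : Fin 3) : S (e j) = 1 := by fin_cases j <;> simp [S, e]

lemma e_mem_V (j : Fin 3) : e j ∈ V := by
  show B (e j) (e j) = 1
  unfold B; rw [S_e]
  fin_cases j <;> simp [e]

lemma sq_two {x y z t : ℤ} (h : x + y + z = t) :
    4 * z ^ 2 + 2 * (t - z) ^ 2 ≤ 4 * (x ^ 2 + y ^ 2 + z ^ 2) := by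
  have : t - z = x + y := by linarith
  rw [this]; nlinarith [sq_nonneg (x - y)]

lemma V_ineq {u : Z3} (hu : u ∈ V) (j : Fin 3) :
    4 * u j ^ 2 + 2 * (S u - u j) ^ 2 ≤ 1 + 3 * S u ^ 2 := by
  rw [← V_sq hu]
  fin_cases j
  · show 4 * u 0 ^ 2 + 2 * (S u - u 0) ^ 2 ≤ _
    have := sq_two (x := u 1) (y := u 2) (z := u 0) (t := S u) (by unfold S; ring)
    linarith
  · show 4 * u 1 ^ 2 + 2 * (S u - u 1) ^ 2 ≤ _
    have := sq_two (x := u 0) (y := u 2) (z := u 1) (t := S u) (by unfold S; ring)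
    linarith
  · show 4 * u 2 ^ 2 + 2 * (S u - u 2) ^ 2 ≤ _
    have := sq_two (x := u 0) (y := u 1) (z := u 2) (t := S u) (by unfold S; ring)
    linarith

lemma D_s_aux {u : Z3} (hu : u ∈ V) (j : Fin 3) (h1 : 0 < S u) (h2 : S (act (s j) u) < 0) :
    False := by
  rw [S_s] at h2
  have h3 := V_ineq hu j
  set z := u j
  set t := S u
  have h4 : t * (t + 4 * z) ≤ -1 := by nlinarith
  have h5 : 6 * z ^ 2 ≤ 0 := by nlinarith
  have h6 : z = 0 := by nlinarith
  rw [h6] at h2
  linarith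

lemma D_s (j : Fin 3) : D (s j) = ∅ := by
  rw [Set.eq_empty_iff_forall_notMem]
  rintro u ⟨hu, hn⟩
  rw [neg_ne_iff (good_s j) hu, s_inv] at hn
  rcases hn with ⟨h1, h2⟩ | ⟨h1, h2⟩
  · exact D_s_aux hu j h1 h2
  · refine D_s_aux (neg_mem_V hu) j ?_ ?_
    · rw [S_neg]; linarith
    · rw [act_neg, S_neg]; linarith

lemma c_of_D_empty {g : GL (Fin 3) ℤ} (h : D g = ∅) (j : Fin 3) : c j g = 0 := by
  unfold c
  have : Function.support (term j g) = ∅ := by
    rw [← Set.subset_empty_iff, ← h]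
    exact support_term j g
  have h2 : term j g = 0 := Function.support_eq_empty_iff.1 this
  rw [h2]
  simp

lemma c_s (i j : Fin 3) : c i (s j) = 0 := c_of_D_empty (D_s j) i

lemma D_a_aux {u : Z3} (hu : u ∈ V) (j : Fin 3) (h1 : 0 < S u) (h2 : S (act (a j) u) < 0) :
    u = e j := by
  rw [S_a] at h2
  have h3 := V_ineq hu j
  have h4 := V_odd hu
  have hS : S u = 1 := by
    by_contra hne
    have h5 : 3 ≤ S u := by omega
    have h6 : 7 * S u + 1 ≤ 8 * u j := by linarith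
    nlinarith
  rw [hS] at h2 h3
  have hz : u j = 1 := by
    have : 1 ≤ u j := by omega
    nlinarith
  have h5 := V_sq hu
  rw [hS] at h5
  have h6 : u 0 + u 1 + u 2 = 1 := hS
  have key : ∀ i, u i = e j i := by
    intro i
    fin_cases j
    · change u 0 = 1 at hz
      rw [hz] at h5 h6
      have a1 : u 1 = 0 := by nlinarith [sq_nonneg (u 1), sq_nonneg (u 2)]
      have a2 : u 2 = 0 := by nlinarith [sq_nonneg (u 1), sq_nonneg (u 2)]
      fin_cases i <;> simp [e, hz, a1, a2]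
    · change u 1 = 1 at hz
      rw [hz] at h5 h6
      have a1 : u 0 = 0 := by nlinarith [sq_nonneg (u 0), sq_nonneg (u 2)]
      have a2 : u 2 = 0 := by nlinarith [sq_nonneg (u 0), sq_nonneg (u 2)]
      fin_cases i <;> simp [e, hz, a1, a2]
    · change u 2 = 1 at hz
      rw [hz] at h5 h6
      have a1 : u 0 = 0 := by nlinarith [sq_nonneg (u 0), sq_nonneg (u 1)]
      have a2 : u 1 = 0 := by nlinarith [sq_nonneg (u 0), sq_nonneg (u 1)]
      fin_cases i <;> simp [e, hz, a1, a2]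
  exact funext key

lemma D_a_subset (j : Fin 3) : D (a j) ⊆ {e j, - e j} := by
  rintro u ⟨hu, hn⟩
  rw [neg_ne_iff (good_a j) hu, a_inv] at hn
  rcases hn with ⟨h1, h2⟩ | ⟨h1, h2⟩
  · left; exact D_a_aux hu j h1 h2
  · right
    have := D_a_aux (neg_mem_V hu) j (by rw [S_neg]; linarith)
      (by rw [act_neg, S_neg]; linarith)
    rw [Set.mem_singleton_iff, ← this, neg_neg]

lemma c_a (i j : Fin 3) : c i (a j) = if i = j then 2 else 0 := by
  have hne : e j ≠ - e j := by
    intro h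
    have := congrArg S h
    rw [S_neg, S_e] at this
    norm_num at this
  have hsub : Function.support (term i (a j)) ⊆ (({e j, -e j} : Finset Z3) : Set Z3) := by
    intro u hu
    have := D_a_subset j (support_term i (a j) hu)
    simpa using this
  unfold c
  rw [finsum_eq_sum_of_support_subset _ hsub, Finset.sum_pair hne]
  have hV : B (e j) (e j) = 1 := e_mem_V j
  have hV' : B (-e j) (-e j) = 1 := neg_mem_V (e_mem_V j)
  have h1 : S (act (a j)⁻¹ (e j)) = -1 := by
    rw [a_inv, S_a, S_e]; simp [e]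
  have h2 : S (act (a j)⁻¹ (-e j)) = 1 := by
    rw [act_neg, S_neg, h1]; norm_num
  have t1 : tau i (e j) = if i = j then 1 else 0 := by
    unfold tau e
    by_cases h : i = j
    · simp [h]
    · simp [h]
  have t2 : tau i (-e j) = tau i (e j) := by
    unfold tau
    simp only [Pi.neg_apply, dvd_neg]
  have e1 : eta (e j) = 1 := by unfold eta; rw [S_e]; norm_num
  have e2 : eta (-e j) = -1 := by unfold eta; rw [S_neg, S_e]; norm_num
  have n1 : neg (e j) = 0 := by unfold neg; rw [S_e]; norm_num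
  have n2 : neg (-e j) = 1 := by unfold neg; rw [S_neg, S_e]; norm_num
  have n3 : neg (act (a j)⁻¹ (e j)) = 1 := by unfold neg; rw [h1]; norm_num
  have n4 : neg (act (a j)⁻¹ (-e j)) = 0 := by unfold neg; rw [h2]; norm_num
  unfold term
  rw [if_pos hV, if_pos hV', t2, t1, e1, e2, n1, n2, n3, n4]
  split_ifs <;> norm_num

/-! ### the hexagon -/

lemma cone_aux {x y z t : ℤ} (ht : x + y + z = t) (h : 4 * (x ^ 2 + y ^ 2 + z ^ 2) = 1 + 3 * t ^ 2)
    (hpos : 0 < t) : 0 ≤ 2 * y + 3 * z := by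
  by_contra hneg
  push Not at hneg
  have id : 240 * (2 * y + 3 * z) ^ 2 - 800 * (2 * y + 3 * z) * t + 200 * t ^ 2
      + 80 * (3 * y - x - 2 * z) ^ 2 = 280 * (4 * (x ^ 2 + y ^ 2 + z ^ 2) - 3 * t ^ 2) := by
    subst ht; ring
  rw [h] at id
  set m := 2 * y + 3 * z
  have h1 : m ≤ -1 := by omega
  nlinarith [sq_nonneg (3 * y - x - 2 * z), mul_pos_of_neg_of_neg hneg (show (-t) < 0 by linarith)]

lemma cone {u : Z3} (hu : u ∈ V) (h : 0 < S u) :
    (0 ≤ 2 * u 0 + 3 * u 1 ∧ 0 ≤ 2 * u 1 + 3 * u 0) ∧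
    (0 ≤ 2 * u 0 + 3 * u 2 ∧ 0 ≤ 2 * u 2 + 3 * u 0) ∧
    (0 ≤ 2 * u 1 + 3 * u 2 ∧ 0 ≤ 2 * u 2 + 3 * u 1) := by
  have h1 := V_sq hu
  refine ⟨⟨?_, ?_⟩, ⟨?_, ?_⟩, ⟨?_, ?_⟩⟩
  · exact cone_aux (x := u 2) (t := S u) (by unfold S; ring) (by linarith) h
  · exact cone_aux (x := u 2) (t := S u) (by unfold S; ring) (by linarith) h
  · exact cone_aux (x := u 1) (t := S u) (by unfold S; ring) (by linarith) h
  · exact cone_aux (x := u 1) (t := S u) (by unfold S; ring) (by linarith) h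
  · exact cone_aux (x := u 0) (t := S u) (by unfold S; ring) (by linarith) h
  · exact cone_aux (x := u 0) (t := S u) (by unfold S; ring) (by linarith) h

lemma hex_aux {p q r x y z : ℤ} (hp : 0 ≤ p) (hq : 0 ≤ q) (hr : 0 ≤ r)
    (h1 : 2 * r ≤ 3 * (p + q)) (h2 : 2 * q ≤ 3 * (p + r)) (h3 : 2 * p ≤ 3 * (q + r))
    (c1 : 0 ≤ 2 * x + 3 * y) (c2 : 0 ≤ 2 * y + 3 * x) (c3 : 0 ≤ 2 * x + 3 * z)
    (c4 : 0 ≤ 2 * z + 3 * x) (c5 : 0 ≤ 2 * y + 3 * z) (c6 : 0 ≤ 2 * z + 3 * y) :
    0 ≤ x * p + y * q + z * r := by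
  by_cases hx : x < 0
  · have : 0 ≤ (3 * (q + r) - 2 * p) * (-x) := mul_nonneg (by linarith) (by linarith)
    have e1 : 0 ≤ q * (2 * y + 3 * x) := mul_nonneg hq c2
    have e2 : 0 ≤ r * (2 * z + 3 * x) := mul_nonneg hr c4
    nlinarith
  by_cases hy : y < 0
  · have : 0 ≤ (3 * (p + r) - 2 * q) * (-y) := mul_nonneg (by linarith) (by linarith)
    have e1 : 0 ≤ p * (2 * x + 3 * y) := mul_nonneg hp c1
    have e2 : 0 ≤ r * (2 * z + 3 * y) := mul_nonneg hr c6
    nlinarith
  by_cases hz : z < 0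
  · have : 0 ≤ (3 * (p + q) - 2 * r) * (-z) := mul_nonneg (by linarith) (by linarith)
    have e1 : 0 ≤ p * (2 * x + 3 * z) := mul_nonneg hp c3
    have e2 : 0 ≤ q * (2 * y + 3 * z) := mul_nonneg hq c5
    nlinarith
  push Not at hx hy hz
  positivity

lemma hex {x u : Z3} (hu : u ∈ V) (hS : 0 < S u) (h0 : ∀ j, 0 ≤ x j)
    (h1 : ∀ j, 4 * x j ≤ 3 * S x) : B x u ≤ 0 := by
  obtain ⟨⟨c1, c2⟩, ⟨c3, c4⟩, ⟨c5, c6⟩⟩ := cone hu hS
  have a0 := h0 0; have a1 := h0 1; have a2 := h0 2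
  have b0 := h1 0; have b1 := h1 1; have b2 := h1 2
  have hSx : S x = x 0 + x 1 + x 2 := rfl
  have := hex_aux (p := 3 * S x - 4 * x 0) (q := 3 * S x - 4 * x 1) (r := 3 * S x - 4 * x 2)
    (x := u 0) (y := u 1) (z := u 2) (by linarith) (by linarith) (by linarith)
    (by linarith) (by linarith) (by linarith) c1 c2 c3 c4 c5 c6
  have e : B x u = - (u 0 * (3 * S x - 4 * x 0) + u 1 * (3 * S x - 4 * x 1)
      + u 2 * (3 * S x - 4 * x 2)) := by
    unfold B S; ring
  rw [e]; linarith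

lemma D_empty_of_hex {g : GL (Fin 3) ℤ} (hg : Good g) (h0 : ∀ j, 0 ≤ act g rho j)
    (h1 : ∀ j, 4 * act g rho j ≤ 3 * S (act g rho)) : D g = ∅ := by
  rw [Set.eq_empty_iff_forall_notMem]
  rintro u ⟨hu, hn⟩
  rw [neg_ne_iff hg hu] at hn
  rcases hn with ⟨h2, h3⟩ | ⟨h2, h3⟩
  · have h4 := hex hu h2 h0 h1
    rw [← S_inv hg u] at h4
    linarith
  · have h4 := hex (neg_mem_V hu) (by rw [S_neg]; linarith) h0 h1
    rw [← S_inv hg, act_neg, S_neg] at h4
    linarith

/-- total crossing number -/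
noncomputable def C (g : GL (Fin 3) ℤ) : ℤ := c 0 g + c 1 g + c 2 g

lemma C_a (j : Fin 3) : C (a j) = 2 := by
  unfold C
  simp only [c_a]
  fin_cases j <;> simp

lemma C_mul {g h : GL (Fin 3) ℤ} (hg : Good g) (hh : Good h) {ε : ℤ}
    (hε : ε = 1 ∨ ε = -1) (hs : HasSgn g ε) : C (g * h) = C g + ε * C h := by
  unfold C
  rw [c_mul hg hh hε hs, c_mul hg hh hε hs, c_mul hg hh hε hs]
  ring

lemma C_cases_aux (n : ℕ) : ∀ g : GL (Fin 3) ℤ, Good g → S (act g rho) ≤ n →
    (C g = 0 ∨ C g = 2) := by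
  induction n with
  | zero =>
    intro g hg h
    have := hg.sheet
    simp at h
    omega
  | succ n ih =>
    intro g hg h
    by_cases hmin : (∀ j, 0 ≤ act g rho j) ∧ (∀ j, 4 * act g rho j ≤ 3 * S (act g rho))
    · left
      have := D_empty_of_hex hg hmin.1 hmin.2
      unfold C
      simp [c_of_D_empty this]
    · rw [not_and_or] at hmin
      rcases hmin with h1 | h1
      · push Not at h1
        obtain ⟨j, hj⟩ := h1
        have h2 := ih (s j * g) (W.mul_mem (good_s j) hg) (by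
          rw [act_mul, S_s]
          push_cast at h
          linarith)
        have h3 : C (s j * g) = C g := by
          rw [C_mul (good_s j) hg (Or.inl rfl) (sgn_s j)]
          unfold C
          simp [c_s]
        rwa [h3] at h2
      · push Not at h1
        obtain ⟨j, hj⟩ := h1
        have h2 := ih (a j * g) (W.mul_mem (good_a j) hg) (by
          rw [act_mul, S_a]
          push_cast at h
          linarith)
        have h3 : C (a j * g) = 2 - C g := by
          rw [C_mul (good_a j) hg (Or.inr rfl) (sgn_a j), C_a]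
          ring
        rw [h3] at h2
        omega

lemma C_cases {g : GL (Fin 3) ℤ} (hg : Good g) : C g = 0 ∨ C g = 2 :=
  C_cases_aux (S (act g rho)).toNat g hg (by
    rw [Int.toNat_of_nonneg hg.sheet.le])

lemma C_zero {g : GL (Fin 3) ℤ} (hg : Good g) (hs : HasSgn g 1) : C g = 0 := by
  have h1 := C_cases hg
  have h2 := C_cases (W.mul_mem hg hg)
  rw [C_mul hg hg (Or.inl rfl) hs] at h2
  omega

end Pool.Agent.Lib.MP_e63071_gt
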