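import Pool.Agent.Lib.MP_e63071_gt.Cartan

/-!
# The groups `G` and `H` as matrix groups, and the space `G/H`
-/

set_option autoImplicit false

namespace Pool.Agent.Lib.MP_e63071_gt

open Matrix

/-- Index set of the `6 × 6` matrices. -/
abbrev I6 : Type := Fin 3 ⊕ Fin 3

/-- The monomial matrix with entry `exp (v i)` at each place `(i, k)` with `i = k + j`
(addition modulo three) and `0` elsewhere. -/
noncomputable def mono (v : Fin 3 → ℝ) (j : Fin 3) : Matrix (Fin 3) (Fin 3) ℝ :=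
  fun i k => if i = k + j then Real.exp (v i) else 0

/-- The block diagonal matrix with blocks `A` and `mono v j`. -/
noncomputable def blk (A : Matrix (Fin 3) (Fin 3) ℝ) (v : Fin 3 → ℝ) (j : Fin 3) :
    Matrix I6 I6 ℝ :=
  Matrix.fromBlocks A 0 0 (mono v j)

lemma mono_mul (v w : Fin 3 → ℝ) (j l : Fin 3) :
    mono v j * mono w l = mono (fun i => v i + w (i - j)) (j + l) := by
  ext i k
  rw [Matrix.mul_apply, Finset.sum_eq_single (i - j)]
  · unfold mono
    rw [if_pos (by abel)]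
    by_cases h : i = k + (j + l)
    · rw [if_pos h, if_pos (by rw [h]; abel), Real.exp_add]
    · rw [if_neg h, if_neg, mul_zero]
      intro h2
      apply h
      rw [← sub_add_cancel i j, h2]; abel
  · intro m _ hm
    unfold mono
    rw [if_neg, zero_mul]
    intro h; apply hm; rw [h]; abel
  · intro h; exact absurd (Finset.mem_univ _) h

lemma mono_zero : mono 0 0 = 1 := by
  ext i k
  unfold mono
  rw [add_zero, Matrix.one_apply]
  simp

lemma blk_mul (A A' : Matrix (Fin 3) (Fin 3) ℝ) (v v' : Fin 3 → ℝ) (j j' : Fin 3) :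
    blk A v j * blk A' v' j' = blk (A * A') (fun i => v i + v' (i - j)) (j + j') := by
  unfold blk
  rw [Matrix.fromBlocks_multiply]
  simp [mono_mul]

lemma blk_one : blk 1 0 0 = 1 := by
  unfold blk
  rw [mono_zero, Matrix.fromBlocks_one]

lemma sum_shift (w : Fin 3 → ℝ) (j : Fin 3) : ∑ i, w (i - j) = ∑ i, w i :=
  Equiv.sum_comp (Equiv.subRight j) w

lemma sum_shift' (w : Fin 3 → ℝ) (j : Fin 3) : ∑ i, w (i + j) = ∑ i, w i :=
  Equiv.sum_comp (Equiv.addRight j) w

lemma sum_mul_shift {v w : Fin 3 → ℝ} (hv : ∑ i, v i = 0) (hw : ∑ i, w i = 0) (j : Fin 3) :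
    ∑ i, (v i + w (i - j)) = 0 := by
  rw [Finset.sum_add_distrib, sum_shift, hv, hw, add_zero]

lemma sum_neg_shift {v : Fin 3 → ℝ} (hv : ∑ i, v i = 0) (j : Fin 3) :
    ∑ i, (- v (i + j)) = 0 := by
  rw [Finset.sum_neg_distrib, sum_shift', hv, neg_zero]

lemma blk_mul_inv (A A' : Matrix (Fin 3) (Fin 3) ℝ) (h : A * A' = 1) (v : Fin 3 → ℝ)
    (j : Fin 3) : blk A v j * blk A' (fun i => - v (i + j)) (-j) = 1 := by
  rw [blk_mul, h, ← blk_one]
  congr 1
  · funext i; simp
  · simp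

lemma GL6_inv_val {g : GL I6 ℝ} {B : Matrix I6 I6 ℝ}
    (h : (g : Matrix I6 I6 ℝ) * B = 1) :
    ((g⁻¹ : GL I6 ℝ) : Matrix I6 I6 ℝ) = B := by
  have h2 : ((g⁻¹ : GL I6 ℝ) : Matrix I6 I6 ℝ) * (g : Matrix I6 I6 ℝ)
      = 1 := by rw [← Units.val_mul, inv_mul_cancel, Units.val_one]
  calc ((g⁻¹ : GL I6 ℝ) : Matrix I6 I6 ℝ)
      = ((g⁻¹ : GL I6 ℝ) : Matrix I6 I6 ℝ) *
        ((g : Matrix I6 I6 ℝ) * B) := by rw [h, Matrix.mul_one]
    _ = B := by rw [← Matrix.mul_assoc, h2, Matrix.one_mul]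

/-- The group `G = SO₀(2,1) × (ℝ² ⋊ ℤ/3)`, in block form: the upper block is a matrix of
`SO₀(2,1)`, the lower one a monomial matrix with positive entries, cyclic pattern and
product of the entries equal to one. -/
def GG : Subgroup (GL I6 ℝ) where
  carrier := {g | ∃ (A : Matrix (Fin 3) (Fin 3) ℝ) (v : Fin 3 → ℝ) (j : Fin 3),
    IsLor A ∧ ∑ i, v i = 0 ∧ (g : Matrix I6 I6 ℝ) = blk A v j}
  one_mem' := ⟨1, 0, 0, IsLor.one, by simp, by rw [Units.val_one, blk_one]⟩
  mul_mem' := by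
    rintro g h ⟨A, v, j, hA, hv, hg⟩ ⟨B, w, l, hB, hw, hh⟩
    exact ⟨A * B, _, j + l, hA.mul hB, sum_mul_shift hv hw j, by
      rw [Units.val_mul, hg, hh, blk_mul]⟩
  inv_mem' := by
    rintro g ⟨A, v, j, hA, hv, hg⟩
    exact ⟨Sig * Aᵀ * Sig, _, -j, hA.inv', sum_neg_shift hv j, GL6_inv_val (by
      rw [hg]; exact blk_mul_inv _ _ (IsLor.mul_inv' hA.form) _ _)⟩

/-- The group `H`, a copy of `ℝ²` in `G`: the upper block is the hyperbolic element with
parameter `w 0`, the lower block the diagonal matrix with entries `exp (w i)`. -/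
def HH : Subgroup (GL I6 ℝ) where
  carrier := {g | ∃ w : Fin 3 → ℝ, ∑ i, w i = 0 ∧
    (g : Matrix I6 I6 ℝ) = blk (boostM (w 0)) w 0}
  one_mem' := ⟨0, by simp, by
    have : boostM 0 = 1 := congrArg mt boost_zero
    rw [Units.val_one, Pi.zero_apply, this, blk_one]⟩
  mul_mem' := by
    rintro g h ⟨w, hw, hg⟩ ⟨u, hu, hh⟩
    refine ⟨w + u, by simp only [Pi.add_apply]; rw [Finset.sum_add_distrib, hw, hu, add_zero], ?_⟩
    have : boostM (w 0) * boostM (u 0) = boostM (w 0 + u 0) :=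
      (congrArg mt (boost_add (w 0) (u 0))).symm
    rw [Units.val_mul, hg, hh, blk_mul, this]
    congr 1
    funext i; simp
  inv_mem' := by
    rintro g ⟨w, hw, hg⟩
    refine ⟨fun i => - w i, by rw [Finset.sum_neg_distrib, hw, neg_zero], GL6_inv_val ?_⟩
    have : boostM (w 0) * boostM (- w 0) = 1 := by
      have := congrArg mt (boost_add (w 0) (- w 0))
      rw [add_neg_cancel, boost_zero] at this
      exact this.symm
    have h2 := blk_mul_inv _ _ this w 0
    rw [neg_zero] at h2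
    rw [hg, ← h2]
    congr 2
    funext i; simp

lemma HH_le_GG : HH ≤ GG := by
  rintro g ⟨w, hw, hg⟩
  exact ⟨_, w, 0, boostM_isLor _, hw, hg⟩

/-! ### coordinates -/

/-- the matrix of an element of `G` -/
def mat (g : GG) : Matrix I6 I6 ℝ := ((g : GL I6 ℝ) : Matrix I6 I6 ℝ)

lemma mat_injective : Function.Injective mat := by
  intro g h hgh
  exact Subtype.ext (Units.ext hgh)

lemma mat_mul (g h : GG) : mat (g * h) = mat g * mat h := rfl
lemma mat_one : mat 1 = 1 := rfl

/-- the element of `G` with given coordinates -/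
noncomputable def mkG (A : G1) (v : Fin 3 → ℝ) (hv : ∑ i, v i = 0) (j : Fin 3) : GG :=
  ⟨⟨blk (mt A) v j, blk (mt A⁻¹) (fun i => - v (i + j)) (-j),
    blk_mul_inv _ _ (by rw [← mt_mul, mul_inv_cancel, mt_one]) _ _,
    mul_eq_one_comm.1 (blk_mul_inv _ _ (by rw [← mt_mul, mul_inv_cancel, mt_one]) _ _)⟩,
    ⟨mt A, v, j, mt_isLor A, hv, rfl⟩⟩

lemma mat_mkG (A : G1) (v : Fin 3 → ℝ) (hv : ∑ i, v i = 0) (j : Fin 3) :
    mat (mkG A v hv j) = blk (mt A) v j := rfl

lemma exists_mkG (g : GG) : ∃ (A : G1) (v : Fin 3 → ℝ) (hv : ∑ i, v i = 0) (j : Fin 3),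
    g = mkG A v hv j := by
  obtain ⟨A, v, j, hA, hv, hg⟩ := g.2
  exact ⟨mkG1 A hA, v, hv, j, mat_injective hg⟩

lemma mkG_mul (A A' : G1) (v v' : Fin 3 → ℝ) (hv : ∑ i, v i = 0) (hv' : ∑ i, v' i = 0)
    (j j' : Fin 3) :
    mkG A v hv j * mkG A' v' hv' j' =
      mkG (A * A') (fun i => v i + v' (i - j)) (sum_mul_shift hv hv' j) (j + j') := by
  apply mat_injective
  rw [mat_mul, mat_mkG, mat_mkG, mat_mkG, blk_mul, mt_mul]

lemma mkG_one : mkG 1 0 (by simp) 0 = 1 := by
  apply mat_injective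
  rw [mat_mkG, mt_one, blk_one, mat_one]

lemma mkG_congr {A A' : G1} {v v' : Fin 3 → ℝ} {hv : ∑ i, v i = 0} {hv' : ∑ i, v' i = 0}
    {j j' : Fin 3} (h1 : A = A') (h2 : v = v') (h3 : j = j') :
    mkG A v hv j = mkG A' v' hv' j' := by
  subst h1; subst h2; subst h3; rfl

/-- first coordinate -/
noncomputable def pA (g : GG) : G1 := mkG1 (mat g).toBlocks₁₁ (by
  obtain ⟨A, v, j, hA, -, hg⟩ := g.2
  have : mat g = blk A v j := hg
  rw [this, blk, Matrix.toBlocks_fromBlocks₁₁]
  exact hA)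

/-- second coordinate -/
noncomputable def pv (g : GG) (i : Fin 3) : ℝ := Real.log (∑ k, (mat g).toBlocks₂₂ i k)

/-- third coordinate -/
noncomputable def pj (g : GG) : Fin 3 :=
  if (mat g).toBlocks₂₂ 0 0 ≠ 0 then 0 else if (mat g).toBlocks₂₂ 1 0 ≠ 0 then 1 else 2

lemma pA_mkG (A : G1) (v : Fin 3 → ℝ) (hv : ∑ i, v i = 0) (j : Fin 3) :
    pA (mkG A v hv j) = A := by
  apply mt_injective
  unfold pA
  rw [mt_mkG1, mat_mkG, blk, Matrix.toBlocks_fromBlocks₁₁]

lemma mono_rowsum (v : Fin 3 → ℝ) (j i : Fin 3) : ∑ k, mono v j i k = Real.exp (v i) := by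
  rw [Finset.sum_eq_single (i - j)]
  · unfold mono; rw [if_pos (by abel)]
  · intro k _ hk
    unfold mono; rw [if_neg]
    intro h; apply hk; rw [h]; abel
  · intro h; exact absurd (Finset.mem_univ _) h

lemma pv_mkG (A : G1) (v : Fin 3 → ℝ) (hv : ∑ i, v i = 0) (j : Fin 3) :
    pv (mkG A v hv j) = v := by
  funext i
  unfold pv
  rw [mat_mkG, blk, Matrix.toBlocks_fromBlocks₂₂, mono_rowsum, Real.log_exp]

lemma mono_ne_zero (v : Fin 3 → ℝ) (j i k : Fin 3) : mono v j i k ≠ 0 ↔ i = k + j := by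
  unfold mono
  constructor
  · intro h; by_contra h2; rw [if_neg h2] at h; exact h rfl
  · intro h; rw [if_pos h]; exact (Real.exp_pos _).ne'

lemma pj_mkG (A : G1) (v : Fin 3 → ℝ) (hv : ∑ i, v i = 0) (j : Fin 3) :
    pj (mkG A v hv j) = j := by
  unfold pj
  rw [mat_mkG, blk, Matrix.toBlocks_fromBlocks₂₂]
  simp only [mono_ne_zero, zero_add]
  fin_cases j <;> simp

lemma sum_pv (g : GG) : ∑ i, pv g i = 0 := by
  obtain ⟨A, v, hv, j, rfl⟩ := exists_mkG g
  rw [pv_mkG]; exact hv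

lemma mkG_eta (g : GG) : mkG (pA g) (pv g) (sum_pv g) (pj g) = g := by
  obtain ⟨A, v, hv, j, rfl⟩ := exists_mkG g
  exact mkG_congr (pA_mkG _ _ _ _) (pv_mkG _ _ _ _) (pj_mkG _ _ _ _)

/-! ### continuity -/

lemma continuous_mat : Continuous mat := Units.continuous_val.comp continuous_subtype_val

lemma continuous_entry (i k : I6) : Continuous (fun g : GG => mat g i k) :=
  (continuous_apply k).comp ((continuous_apply i).comp continuous_mat)

lemma continuous_pA : Continuous pA := by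
  rw [continuous_iff_mt]
  refine continuous_matrix fun i k => ?_
  exact continuous_entry (Sum.inl i) (Sum.inl k)

lemma continuous_pv (i : Fin 3) : Continuous (fun g => pv g i) := by
  unfold pv
  refine Continuous.log ?_ ?_
  · refine continuous_finsetSum _ fun k _ => ?_
    exact continuous_entry (Sum.inr i) (Sum.inr k)
  · intro g
    obtain ⟨A, v, hv, j, rfl⟩ := exists_mkG g
    rw [mat_mkG, blk, Matrix.toBlocks_fromBlocks₂₂, mono_rowsum]
    exact (Real.exp_pos _).ne'

lemma pj_eq_iff (g : GG) (j : Fin 3) : pj g = j ↔ mat g (Sum.inr j) (Sum.inr 0) ≠ 0 := by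
  obtain ⟨A, v, hv, l, rfl⟩ := exists_mkG g
  have h2 : mat (mkG A v hv l) (Sum.inr j) (Sum.inr 0) = mono v l j 0 := rfl
  rw [pj_mkG, h2, mono_ne_zero, zero_add, eq_comm]

lemma continuous_pj : Continuous pj := by
  rw [continuous_discrete_rng]
  intro j
  have : pj ⁻¹' {j} = (fun g => mat g (Sum.inr j) (Sum.inr 0)) ⁻¹' {0}ᶜ := by
    ext g
    simp only [Set.mem_preimage, Set.mem_singleton_iff, Set.mem_compl_iff]
    exact pj_eq_iff g j
  rw [this]
  exact isOpen_compl_singleton.preimage (continuous_entry _ _)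

lemma continuous_mkG_aux {X : Type*} [TopologicalSpace X] {A : X → G1} {v : X → Fin 3 → ℝ}
    {hv : ∀ x, ∑ i, v x i = 0} (j : Fin 3) (hA : Continuous A) (hcv : Continuous v) :
    Continuous (fun x => mkG (A x) (v x) (hv x) j) := by
  have hblk : ∀ {A : X → Matrix (Fin 3) (Fin 3) ℝ} {v : X → Fin 3 → ℝ} (j : Fin 3),
      Continuous A → Continuous v → Continuous (fun x => blk (A x) (v x) j) := by
    intro A v j hA hv
    unfold blk
    refine Continuous.matrix_fromBlocks hA continuous_const continuous_const ?_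
    refine continuous_matrix fun i k => ?_
    unfold mono
    by_cases h : i = k + j
    · simp only [if_pos h]
      exact Real.continuous_exp.comp ((continuous_apply i).comp hv)
    · simp only [if_neg h]
      exact continuous_const
  refine Continuous.subtype_mk ?_ _
  rw [Units.continuous_iff]
  constructor
  · exact hblk j (continuous_mt.comp hA) hcv
  · refine hblk (v := fun x i => - v x (i + j)) (-j) (continuous_mt.comp hA.inv) ?_
    refine continuous_pi fun i => ?_
    exact ((continuous_apply (i + j)).comp hcv).neg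

end Pool.Agent.Lib.MP_e63071_gt
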