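import Pool.Agent.Lib.MP_e63071_gt.Bridge

/-!
# `Gam` is torsion free
-/

set_option autoImplicit false

namespace Pool.Agent.Lib.MP_e63071_gt

open Matrix

lemma L_neg_of_timelike {y z : R3} (hy : L y y < 0) (hz : L z z < 0) (y2 : 0 < y 2)
    (z2 : 0 < z 2) : L y z < 0 := by
  unfold L at *
  set p := y 0 * z 0 + y 1 * z 1 with hp
  have cs : p ^ 2 ≤ (y 0 ^ 2 + y 1 ^ 2) * (z 0 ^ 2 + z 1 ^ 2) := by
    nlinarith [sq_nonneg (y 0 * z 1 - y 1 * z 0)]
  have h1 : y 0 ^ 2 + y 1 ^ 2 < y 2 ^ 2 := by nlinarith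
  have h2 : z 0 ^ 2 + z 1 ^ 2 < z 2 ^ 2 := by nlinarith
  have h3 : p ^ 2 < (y 2 * z 2) ^ 2 := by
    have : (y 0 ^ 2 + y 1 ^ 2) * (z 0 ^ 2 + z 1 ^ 2) < y 2 ^ 2 * z 2 ^ 2 := by
      apply mul_lt_mul'' h1 h2 <;> positivity
    nlinarith
  have h4 := abs_lt_of_sq_lt_sq h3 (by positivity)
  have := (abs_lt.1 h4).2
  linarith

lemma L_sum_left {ι : Type*} (s : Finset ι) (f : ι → R3) (z : R3) :
    L (∑ i ∈ s, f i) z = ∑ i ∈ s, L (f i) z := by
  unfold L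
  simp only [Finset.sum_apply, Finset.sum_mul, Finset.sum_sub_distrib, Finset.sum_add_distrib]

lemma L_sum_right {ι : Type*} (s : Finset ι) (f : ι → R3) (z : R3) :
    L z (∑ i ∈ s, f i) = ∑ i ∈ s, L z (f i) := by
  rw [L_comm, L_sum_left]
  exact Finset.sum_congr rfl fun i _ => L_comm _ _

lemma orbit_timelike (g : G1) : L (mt g *ᵥ o) (mt g *ᵥ o) < 0 ∧ 0 < (mt g *ᵥ o) 2 := by
  rw [(mt_isLor g).L_mulVec, L_o_o, mulVec_o]
  exact ⟨by norm_num, (mt_isLor g).pos⟩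

/-- a finite order element of `G1` is conjugate to a rotation -/
lemma conj_rot {g : G1} {n : ℕ} (hn : 0 < n) (h : g ^ n = 1) :
    ∃ (g0 : G1) (θ : ℝ), g0⁻¹ * g * g0 = rot θ := by
  set x : R3 := ∑ k ∈ Finset.range n, mt (g ^ k) *ᵥ o with hx
  have hgx : mt g *ᵥ x = x := by
    rw [hx, Matrix.mulVec_sum]
    have : ∀ k, mt g *ᵥ (mt (g ^ k) *ᵥ o) = mt (g ^ (k + 1)) *ᵥ o := by
      intro k
      rw [Matrix.mulVec_mulVec, ← mt_mul, pow_succ']
    simp only [this]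
    have e1 := Finset.sum_range_succ (fun k => mt (g ^ k) *ᵥ o) n
    have e2 := Finset.sum_range_succ' (fun k => mt (g ^ k) *ᵥ o) n
    rw [h] at e1
    rw [pow_zero] at e2
    exact add_right_cancel (e2.symm.trans e1)
  have hne : (Finset.range n).Nonempty := Finset.nonempty_range_iff.2 hn.ne'
  have hxx : L x x < 0 := by
    rw [hx, L_sum_left]
    apply Finset.sum_neg _ hne
    intro i _
    rw [L_sum_right]
    apply Finset.sum_neg _ hne
    intro j _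
    exact L_neg_of_timelike (orbit_timelike _).1 (orbit_timelike _).1 (orbit_timelike _).2
      (orbit_timelike _).2
  have hx2 : 0 < x 2 := by
    rw [hx, Finset.sum_apply]
    exact Finset.sum_pos (fun i _ => (orbit_timelike _).2) hne
  set r := Real.sqrt (- L x x) with hr
  have hr0 : 0 < r := Real.sqrt_pos.2 (by linarith)
  have hrr : r * r = - L x x := Real.mul_self_sqrt (by linarith)
  have h1 : L (r⁻¹ • x) (r⁻¹ • x) = -1 := by
    rw [L_smul_left, L_smul_right]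
    field_simp
    linarith
  have h2 : 0 < (r⁻¹ • x) 2 := by
    rw [Pi.smul_apply, smul_eq_mul]; positivity
  obtain ⟨θ, t, -, ht⟩ := exists_rot_boost h1 h2
  set g0 := rot θ * boost t
  have h3 : mt (g0⁻¹ * g * g0) *ᵥ o = o := by
    rw [mt_mul, mt_mul, ← Matrix.mulVec_mulVec, ht, ← Matrix.mulVec_mulVec, Matrix.mulVec_smul,
      hgx, ← ht, Matrix.mulVec_mulVec, ← mt_mul, inv_mul_cancel, mt_one, Matrix.one_mulVec]
  have h4 : mt (g0⁻¹ * g * g0) 2 2 = 1 := by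
    have := congrFun h3 2
    rw [mulVec_o] at this
    rw [this]; simp [o]
  obtain ⟨θ', hθ'⟩ := exists_rot_of_22 (mt_isLor _) h4
  exact ⟨g0, θ', mt_injective hθ'⟩

lemma trace_rot (θ : ℝ) : (rotM θ).trace = 2 * Real.cos θ + 1 := by
  simp [rotM, Matrix.trace, Fin.sum_univ_three]; ring

lemma trace_conj (g0 g : G1) : (mt (g0⁻¹ * g * g0)).trace = (mt g).trace := by
  rw [mt_mul, Matrix.trace_mul_comm, ← mt_mul]
  congr 2
  group

lemma trace_finite_order {g : G1} {n : ℕ} (hn : 0 < n) (h : g ^ n = 1) :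
    -1 ≤ (mt g).trace ∧ (mt g).trace ≤ 3 ∧ ((mt g).trace = 3 → g = 1) := by
  obtain ⟨g0, θ, hθ⟩ := conj_rot hn h
  have h1 : (mt g).trace = 2 * Real.cos θ + 1 := by
    rw [← trace_conj g0 g, hθ, mt_rot, trace_rot]
  refine ⟨?_, ?_, ?_⟩
  · rw [h1]; linarith [Real.neg_one_le_cos θ]
  · rw [h1]; linarith [Real.cos_le_one θ]
  · intro h3
    have hc : Real.cos θ = 1 := by linarith
    have hs : Real.sin θ = 0 := by
      have := Real.cos_sq_add_sin_sq θ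
      rw [hc] at this
      nlinarith
    have h4 : rot θ = 1 := by
      apply mt_injective
      rw [mt_rot, mt_one]
      ext i j
      fin_cases i <;> fin_cases j <;> simp [rotM, hc, hs]
    rw [h4] at hθ
    have : g = g0 * (g0⁻¹ * g * g0) * g0⁻¹ := by group
    rw [this, hθ]; group

lemma trace_am (g : GL (Fin 3) ℤ) :
    (am g).trace = ((g : Matrix (Fin 3) (Fin 3) ℤ).trace : ℝ) := by
  unfold am
  rw [Matrix.trace_mul_comm, ← Matrix.mul_assoc, Ti_mul_T, Matrix.one_mul]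
  simp [rm, Matrix.trace, Fin.sum_univ_three]

lemma entry_e (g : GL (Fin 3) ℤ) (i k : Fin 3) :
    act g (e k) i = (g : Matrix (Fin 3) (Fin 3) ℤ) i k := by
  fin_cases k <;> simp [act, e, Matrix.mulVec, dotProduct]

lemma trace_sq_mod {g : GL (Fin 3) ℤ} (hg : g ∈ Gam) :
    ((g * g : GL (Fin 3) ℤ) : Matrix (Fin 3) (Fin 3) ℤ).trace % 12 = 3 := by
  obtain ⟨h1, h2, h3, h4⟩ := hg
  set m : Matrix (Fin 3) (Fin 3) ℤ := (g : Matrix (Fin 3) (Fin 3) ℤ) with hm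
  have hoff2 : ∀ i k, i ≠ k → ∃ n, m i k = 6 * n := by
    intro i k hik
    have e2 := h4 (e k) i
    have e3 := (h1.typ (e k) i).2 (by simp [e, hik])
    have hz : e k i = 0 := by simp [e, hik]
    rw [entry_e, hz, sub_zero] at e2
    rw [entry_e] at e3
    change (2 : ℤ) ∣ m i k at e2
    change (3 : ℤ) ∣ m i k at e3
    exact ⟨m i k / 6, by omega⟩
  have hdiag : ∀ i, m i i % 2 = 1 ∧ m i i % 3 ≠ 0 := by
    intro i
    have e2 := h4 (e i) i
    have e3 := (h1.typ (e i) i).not.2 (by simp [e])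
    have hz : e i i = 1 := by simp [e]
    rw [entry_e, hz] at e2
    rw [entry_e] at e3
    change (2 : ℤ) ∣ m i i - 1 at e2
    change ¬ (3 : ℤ) ∣ m i i at e3
    exact ⟨by omega, by omega⟩
  have hsq : ∀ z : ℤ, z % 2 = 1 ∧ z % 3 ≠ 0 → ∃ w, z ^ 2 = 12 * w + 1 := by
    intro z ⟨hz2, hz3⟩
    have : z % 6 = 1 ∨ z % 6 = 5 := by omega
    rcases this with h | h
    · obtain ⟨w, hw⟩ : ∃ w, z = 6 * w + 1 := ⟨z / 6, by omega⟩
      exact ⟨3 * w ^ 2 + w, by rw [hw]; ring⟩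
    · obtain ⟨w, hw⟩ : ∃ w, z = 6 * w + 5 := ⟨z / 6, by omega⟩
      exact ⟨3 * w ^ 2 + 5 * w + 2, by rw [hw]; ring⟩
  rw [Units.val_mul, Matrix.trace]
  simp only [Matrix.diag_apply, Matrix.mul_apply, Fin.sum_univ_three, ← hm]
  obtain ⟨n01, h01⟩ := hoff2 0 1 (by decide)
  obtain ⟨n02, h02⟩ := hoff2 0 2 (by decide)
  obtain ⟨n12, h12⟩ := hoff2 1 2 (by decide)
  obtain ⟨w0, hw0⟩ := hsq _ (hdiag 0)
  obtain ⟨w1, hw1⟩ := hsq _ (hdiag 1)
  obtain ⟨w2, hw2⟩ := hsq _ (hdiag 2)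
  have : m 0 0 * m 0 0 + m 0 1 * m 1 0 + m 0 2 * m 2 0 +
      (m 1 0 * m 0 1 + m 1 1 * m 1 1 + m 1 2 * m 2 1) +
      (m 2 0 * m 0 2 + m 2 1 * m 1 2 + m 2 2 * m 2 2)
      = 12 * (n01 * m 1 0 + n02 * m 2 0 + n12 * m 2 1 + w0 + w1 + w2) + 3 := by
    rw [h01, h02, h12]
    linear_combination hw0 + hw1 + hw2
  rw [this]; omega

theorem Gam_torsionfree (g : Gam) {n : ℕ} (hn : 0 < n) (h : g ^ n = 1) : g = 1 := by
  have h1 : (emb (g * g)) ^ n = 1 := by
    rw [← map_pow]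
    have : (g * g) ^ n = 1 := by
      rw [← pow_two, ← pow_mul, mul_comm, pow_mul, h, one_pow]
    rw [this, map_one]
  obtain ⟨t1, t2, t3⟩ := trace_finite_order hn h1
  rw [mt_emb, trace_am] at t1 t2 t3
  have hmod := trace_sq_mod g.2
  have hcoe : ((g * g : Gam) : GL (Fin 3) ℤ) = (g : GL (Fin 3) ℤ) * g := rfl
  rw [hcoe] at t1 t2 t3
  set τ := (((g : GL (Fin 3) ℤ) * g : GL (Fin 3) ℤ) : Matrix (Fin 3) (Fin 3) ℤ).trace
  have a1 : (-1 : ℤ) ≤ τ := by exact_mod_cast t1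
  have a2 : τ ≤ 3 := by exact_mod_cast t2
  have a3 : τ = 3 := by omega
  have h2 : emb (g * g) = 1 := t3 (by rw [a3]; norm_num)
  have h3 : g * g = 1 := emb_injective (h2.trans (map_one _).symm)
  have h4 : (g : GL (Fin 3) ℤ) * g = 1 := by
    have := congrArg (Subtype.val) h3
    simpa using this
  exact Subtype.ext (no_halfturn g.2 h4)

end Pool.Agent.Lib.MP_e63071_gt
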